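import Mathlib

/-!
# Wirtinger operators on the plane and integration by parts
-/

set_option autoImplicit false

open MeasureTheory Complex Set Topology
open scoped ContDiff

namespace Pool.Agent.Lib.H27

/-- The Wirtinger operator `∂/∂z`. -/
noncomputable def dz (f : ℂ → ℂ) (z : ℂ) : ℂ :=
  (1 / 2) * (fderiv ℝ f z 1 - I * fderiv ℝ f z I)

/-- The Wirtinger operator `∂/∂z̄`. -/
noncomputable def dzb (f : ℂ → ℂ) (z : ℂ) : ℂ :=
  (1 / 2) * (fderiv ℝ f z 1 + I * fderiv ℝ f z I)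

lemma dz_mul {f g : ℂ → ℂ} {z : ℂ} (hf : DifferentiableAt ℝ f z) (hg : DifferentiableAt ℝ g z) :
    dz (fun w => f w * g w) z = dz f z * g z + f z * dz g z := by
  simp only [dz]
  rw [fderiv_fun_mul hf hg]
  simp
  ring

lemma dzb_mul {f g : ℂ → ℂ} {z : ℂ} (hf : DifferentiableAt ℝ f z) (hg : DifferentiableAt ℝ g z) :
    dzb (fun w => f w * g w) z = dzb f z * g z + f z * dzb g z := by
  simp only [dzb]
  rw [fderiv_fun_mul hf hg]
  simp
  ring

lemma dz_add {f g : ℂ → ℂ} {z : ℂ} (hf : DifferentiableAt ℝ f z) (hg : DifferentiableAt ℝ g z) :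
    dz (fun w => f w + g w) z = dz f z + dz g z := by
  simp only [dz]
  rw [fderiv_fun_add hf hg]
  simp
  ring

lemma dzb_add {f g : ℂ → ℂ} {z : ℂ} (hf : DifferentiableAt ℝ f z) (hg : DifferentiableAt ℝ g z) :
    dzb (fun w => f w + g w) z = dzb f z + dzb g z := by
  simp only [dzb]
  rw [fderiv_fun_add hf hg]
  simp
  ring

lemma dzb_neg {f : ℂ → ℂ} {z : ℂ} :
    dzb (fun w => - f w) z = - dzb f z := by
  simp only [dzb]
  rw [fderiv_fun_neg]
  simp
  ring

lemma dz_conj {f : ℂ → ℂ} {z : ℂ} (hf : DifferentiableAt ℝ f z) :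
    dz (fun w => (starRingEnd ℂ) (f w)) z = (starRingEnd ℂ) (dzb f z) := by
  have : HasFDerivAt (fun w => (starRingEnd ℂ) (f w))
      ((Complex.conjCLE : ℂ →L[ℝ] ℂ).comp (fderiv ℝ f z)) z :=
    (Complex.conjCLE : ℂ →L[ℝ] ℂ).hasFDerivAt.comp z hf.hasFDerivAt
  simp only [dz, dzb]
  rw [this.fderiv]
  simp [map_ofNat]
  ring

lemma dzb_conj {f : ℂ → ℂ} {z : ℂ} (hf : DifferentiableAt ℝ f z) :
    dzb (fun w => (starRingEnd ℂ) (f w)) z = (starRingEnd ℂ) (dz f z) := by
  have : HasFDerivAt (fun w => (starRingEnd ℂ) (f w))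
      ((Complex.conjCLE : ℂ →L[ℝ] ℂ).comp (fderiv ℝ f z)) z :=
    (Complex.conjCLE : ℂ →L[ℝ] ℂ).hasFDerivAt.comp z hf.hasFDerivAt
  simp only [dz, dzb]
  rw [this.fderiv]
  simp [map_ofNat]

/-- The function is complex differentiable iff `∂̄ f = 0`. -/
lemma differentiableAt_iff_dzb {f : ℂ → ℂ} {z : ℂ} (hf : DifferentiableAt ℝ f z) :
    DifferentiableAt ℂ f z ↔ dzb f z = 0 := by
  rw [differentiableAt_complex_iff_differentiableAt_real]
  simp only [dzb]
  constructor
  · rintro ⟨-, h⟩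
    rw [h, smul_eq_mul, ← mul_assoc, I_mul_I]
    ring
  · intro h
    refine ⟨hf, ?_⟩
    have h2 : fderiv ℝ f z 1 + I * fderiv ℝ f z I = 0 := by
      have : (1/2 : ℂ) ≠ 0 := by norm_num
      exact (mul_eq_zero.mp h).resolve_left this
    have h3 : fderiv ℝ f z 1 = - (I * fderiv ℝ f z I) := by linear_combination h2
    rw [smul_eq_mul]
    linear_combination (-I) * h3 + (fderiv ℝ f z I) * I_mul_I

section ibp

lemma cont_fderiv_apply {f : ℂ → ℂ} (hf : ContDiff ℝ 1 f) (v : ℂ) :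
    Continuous (fun z => fderiv ℝ f z v) :=
  (hf.continuous_fderiv (by norm_num)).clm_apply continuous_const

lemma ibp_aux {F H : ℂ → ℂ} (hF : ContDiff ℝ 1 F) (hH : ContDiff ℝ 1 H)
    (hs : HasCompactSupport H) (v : ℂ) :
    ∫ z, F z * fderiv ℝ H z v = - ∫ z, fderiv ℝ F z v * H z := by
  apply integral_mul_fderiv_eq_neg_fderiv_mul_of_integrable
  · apply Continuous.integrable_of_hasCompactSupport
    · exact (cont_fderiv_apply hF v).mul hH.continuous
    · exact hs.mul_left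
  · apply Continuous.integrable_of_hasCompactSupport
    · exact hF.continuous.mul (cont_fderiv_apply hH v)
    · exact (hs.fderiv_apply (𝕜 := ℝ) v).mul_left
  · apply Continuous.integrable_of_hasCompactSupport
    · exact hF.continuous.mul hH.continuous
    · exact hs.mul_left
  · exact fun x _ => hF.differentiable (by norm_num) x
  · exact fun x _ => hH.differentiable (by norm_num) x

lemma integrable_mul_fderiv {F H : ℂ → ℂ} (hF : Continuous F) (hH : ContDiff ℝ 1 H)
    (hs : HasCompactSupport H) (v : ℂ) : Integrable (fun z => F z * fderiv ℝ H z v) := by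
  apply Continuous.integrable_of_hasCompactSupport
  · exact hF.mul (cont_fderiv_apply hH v)
  · exact (hs.fderiv_apply (𝕜 := ℝ) v).mul_left

lemma integrable_fderiv_mul {F H : ℂ → ℂ} (hF : ContDiff ℝ 1 F) (hH : Continuous H)
    (hs : HasCompactSupport H) (v : ℂ) : Integrable (fun z => fderiv ℝ F z v * H z) := by
  apply Continuous.integrable_of_hasCompactSupport
  · exact (cont_fderiv_apply hF v).mul hH
  · exact hs.mul_left

/-- Integration by parts for `∂̄`. -/
lemma ibp_dzb {F H : ℂ → ℂ} (hF : ContDiff ℝ 1 F) (hH : ContDiff ℝ 1 H)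
    (hs : HasCompactSupport H) :
    ∫ z, F z * dzb H z = - ∫ z, dzb F z * H z := by
  have h1 := ibp_aux hF hH hs 1
  have h2 := ibp_aux hF hH hs I
  have e1 : ∀ z, F z * dzb H z = (1/2) * (F z * fderiv ℝ H z 1) + (I/2) * (F z * fderiv ℝ H z I) := by
    intro z; simp only [dzb]; ring
  have e2 : ∀ z, dzb F z * H z = (1/2) * (fderiv ℝ F z 1 * H z) + (I/2) * (fderiv ℝ F z I * H z) := by
    intro z; simp only [dzb]; ring
  simp only [e1, e2]
  rw [integral_add ((integrable_mul_fderiv hF.continuous hH hs 1).const_mul _)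
    ((integrable_mul_fderiv hF.continuous hH hs I).const_mul _),
    integral_add ((integrable_fderiv_mul hF hH.continuous hs 1).const_mul _)
    ((integrable_fderiv_mul hF hH.continuous hs I).const_mul _)]
  simp only [integral_const_mul]
  rw [h1, h2]
  ring

/-- Integration by parts for `∂`. -/
lemma ibp_dz {F H : ℂ → ℂ} (hF : ContDiff ℝ 1 F) (hH : ContDiff ℝ 1 H)
    (hs : HasCompactSupport H) :
    ∫ z, F z * dz H z = - ∫ z, dz F z * H z := by
  have h1 := ibp_aux hF hH hs 1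
  have h2 := ibp_aux hF hH hs I
  have e1 : ∀ z, F z * dz H z = (1/2) * (F z * fderiv ℝ H z 1) + (-I/2) * (F z * fderiv ℝ H z I) := by
    intro z; simp only [dz]; ring
  have e2 : ∀ z, dz F z * H z = (1/2) * (fderiv ℝ F z 1 * H z) + (-I/2) * (fderiv ℝ F z I * H z) := by
    intro z; simp only [dz]; ring
  simp only [e1, e2]
  rw [integral_add ((integrable_mul_fderiv hF.continuous hH hs 1).const_mul _)
    ((integrable_mul_fderiv hF.continuous hH hs I).const_mul _),
    integral_add ((integrable_fderiv_mul hF hH.continuous hs 1).const_mul _)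
    ((integrable_fderiv_mul hF hH.continuous hs I).const_mul _)]
  simp only [integral_const_mul]
  rw [h1, h2]
  ring

end ibp

section second

open InnerProductSpace Laplacian

lemma contDiff_dz {f : ℂ → ℂ} (hf : ContDiff ℝ 2 f) : ContDiff ℝ 1 (dz f) := by
  have h : ContDiff ℝ 1 (fderiv ℝ f) := hf.fderiv_right (by norm_num)
  unfold dz
  exact contDiff_const.mul ((h.clm_apply contDiff_const).sub
    (contDiff_const.mul (h.clm_apply contDiff_const)))

lemma contDiff_dzb {f : ℂ → ℂ} (hf : ContDiff ℝ 2 f) : ContDiff ℝ 1 (dzb f) := by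
  have h : ContDiff ℝ 1 (fderiv ℝ f) := hf.fderiv_right (by norm_num)
  unfold dzb
  exact contDiff_const.mul ((h.clm_apply contDiff_const).add
    (contDiff_const.mul (h.clm_apply contDiff_const)))

lemma fderiv_dz {f : ℂ → ℂ} (hf : ContDiff ℝ 2 f) (z w : ℂ) :
    fderiv ℝ (dz f) z w = (1/2) * (fderiv ℝ (fderiv ℝ f) z w 1 - I * fderiv ℝ (fderiv ℝ f) z w I) := by
  have h : DifferentiableAt ℝ (fderiv ℝ f) z :=
    (hf.fderiv_right (m := 1) (by norm_num)).differentiable (by norm_num) z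
  have h1 : ∀ v : ℂ, HasFDerivAt (fun z => fderiv ℝ f z v)
      ((ContinuousLinearMap.apply ℝ ℂ v).comp (fderiv ℝ (fderiv ℝ f) z)) z := fun v =>
    (ContinuousLinearMap.apply ℝ ℂ v).hasFDerivAt.comp z h.hasFDerivAt
  have h2 : HasFDerivAt (dz f) _ z := ((h1 1).sub ((h1 I).const_mul I)).const_mul (1/2)
  rw [h2.fderiv]
  simp

lemma fderiv_dzb {f : ℂ → ℂ} (hf : ContDiff ℝ 2 f) (z w : ℂ) :
    fderiv ℝ (dzb f) z w = (1/2) * (fderiv ℝ (fderiv ℝ f) z w 1 + I * fderiv ℝ (fderiv ℝ f) z w I) := by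
  have h : DifferentiableAt ℝ (fderiv ℝ f) z :=
    (hf.fderiv_right (m := 1) (by norm_num)).differentiable (by norm_num) z
  have h1 : ∀ v : ℂ, HasFDerivAt (fun z => fderiv ℝ f z v)
      ((ContinuousLinearMap.apply ℝ ℂ v).comp (fderiv ℝ (fderiv ℝ f) z)) z := fun v =>
    (ContinuousLinearMap.apply ℝ ℂ v).hasFDerivAt.comp z h.hasFDerivAt
  have h2 : HasFDerivAt (dzb f) _ z := ((h1 1).add ((h1 I).const_mul I)).const_mul (1/2)
  rw [h2.fderiv]
  simp
  ring

lemma symm_second {f : ℂ → ℂ} (hf : ContDiff ℝ 2 f) (z v w : ℂ) :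
    fderiv ℝ (fderiv ℝ f) z v w = fderiv ℝ (fderiv ℝ f) z w v :=
  (hf.contDiffAt.isSymmSndFDerivAt (by simp)) v w

lemma dzb_dz {f : ℂ → ℂ} (hf : ContDiff ℝ 2 f) (z : ℂ) :
    dzb (dz f) z = (1/4) * (fderiv ℝ (fderiv ℝ f) z 1 1 + fderiv ℝ (fderiv ℝ f) z I I) := by
  rw [dzb, fderiv_dz hf, fderiv_dz hf, symm_second hf z I 1]
  linear_combination (-1/4 * fderiv ℝ (fderiv ℝ f) z I I) * I_mul_I

lemma dz_dzb {f : ℂ → ℂ} (hf : ContDiff ℝ 2 f) (z : ℂ) :
    dz (dzb f) z = dzb (dz f) z := by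
  rw [dzb_dz hf, dz, fderiv_dzb hf, fderiv_dzb hf, symm_second hf z I 1]
  linear_combination (-1/4 * fderiv ℝ (fderiv ℝ f) z I I) * I_mul_I

/-- `∂̄∂φ = Δφ/4` for real `φ`. -/
lemma dzb_dz_ofReal {φ : ℂ → ℝ} (hφ : ContDiff ℝ 2 φ) (z : ℂ) :
    dzb (dz (fun w => (φ w : ℂ))) z = ((Δ φ z / 4 : ℝ) : ℂ) := by
  have hc : ContDiff ℝ 2 (fun w => (φ w : ℂ)) := Complex.ofRealCLM.contDiff.comp hφ
  rw [dzb_dz hc]
  have h : DifferentiableAt ℝ (fderiv ℝ φ) z :=
    (hφ.fderiv_right (m := 1) (by norm_num)).differentiable (by norm_num) z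
  have e1 : fderiv ℝ (fun w => (φ w : ℂ)) = fun w => Complex.ofRealCLM.comp (fderiv ℝ φ w) := by
    funext w
    exact (Complex.ofRealCLM.hasFDerivAt.comp w (hφ.differentiable (by norm_num) w).hasFDerivAt).fderiv
  have e2 : ∀ v w : ℂ, fderiv ℝ (fderiv ℝ (fun w => (φ w : ℂ))) z v w
      = ((fderiv ℝ (fderiv ℝ φ) z v w : ℝ) : ℂ) := by
    intro v w
    rw [e1]
    have : HasFDerivAt (fun w => Complex.ofRealCLM.comp (fderiv ℝ φ w)) _ z :=
      ((ContinuousLinearMap.compL ℝ ℂ ℝ ℂ) Complex.ofRealCLM).hasFDerivAt.comp z h.hasFDerivAt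
    rw [this.fderiv]
    simp
  rw [e2, e2, laplacian_eq_iteratedFDeriv_complexPlane]
  simp only [iteratedFDeriv_two_apply]
  simp
  ring

end second

section hormander_identity

open InnerProductSpace Laplacian

variable {φ : ℂ → ℝ} {α : ℂ → ℂ}

/-- The formal adjoint of `∂̄` in the weight `e^{-φ}`. -/
noncomputable def dzbStar (φ : ℂ → ℝ) (α : ℂ → ℂ) (z : ℂ) : ℂ :=
  - dz α z + dz (fun w => (φ w : ℂ)) z * α z

/-- The weight. -/
noncomputable def wt (φ : ℂ → ℝ) (z : ℂ) : ℂ := ((Real.exp (- φ z) : ℝ) : ℂ)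

lemma wt_eq (φ : ℂ → ℝ) (z : ℂ) : wt φ z = cexp (- (φ z : ℂ)) := by
  simp [wt]

lemma contDiff_wt {n : ℕ∞} (hφ : ContDiff ℝ n φ) : ContDiff ℝ n (wt φ) := by
  unfold wt
  exact Complex.ofRealCLM.contDiff.comp (Real.contDiff_exp.comp hφ.neg)

lemma conj_wt (φ : ℂ → ℝ) (z : ℂ) : (starRingEnd ℂ) (wt φ z) = wt φ z := by
  simp only [wt, Complex.conj_ofReal]

lemma dz_wt (hφ : ContDiff ℝ 1 φ) (z : ℂ) :
    dz (wt φ) z = - (wt φ z * dz (fun w => (φ w : ℂ)) z) := by
  have h1 : HasFDerivAt (fun w => (φ w : ℂ)) (fderiv ℝ (fun w => (φ w : ℂ)) z) z :=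
    ((Complex.ofRealCLM.contDiff.comp hφ).differentiable (by norm_num) z).hasFDerivAt
  have e : wt φ = fun w => cexp (- (φ w : ℂ)) := by funext w; exact wt_eq φ w
  have h2 := ((Complex.hasDerivAt_exp (- (φ z : ℂ))).hasFDerivAt.restrictScalars ℝ).comp z h1.neg
  have h3 : (cexp ∘ (-fun w => (φ w : ℂ))) = wt φ := by rw [e]; rfl
  rw [h3] at h2
  rw [dz, h2.fderiv, dz, wt_eq]
  simp
  ring

lemma dz_wt_mul (hφ : ContDiff ℝ 1 φ) (hα : ContDiff ℝ 1 α) (z : ℂ) :
    dz (fun w => wt φ w * α w) z = - (wt φ z * dzbStar φ α z) := by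
  rw [dz_mul ((contDiff_wt (n := 1) hφ).differentiable (by norm_num) z)
    (hα.differentiable (by norm_num) z), dz_wt hφ, dzbStar]
  ring

lemma contDiff_dzbStar (hφ : ContDiff ℝ 2 φ) (hα : ContDiff ℝ 2 α) :
    ContDiff ℝ 1 (dzbStar φ α) := by
  unfold dzbStar
  exact (contDiff_dz hα).neg.add
    ((contDiff_dz (Complex.ofRealCLM.contDiff.comp hφ)).mul (hα.of_le (by norm_num)))

lemma dzb_dzbStar (hφ : ContDiff ℝ 2 φ) (hα : ContDiff ℝ 2 α) (z : ℂ) :
    dzb (dzbStar φ α) z =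
      (- dz (dzb α) z + dz (fun w => (φ w : ℂ)) z * dzb α z) + ((Δ φ z / 4 : ℝ) : ℂ) * α z := by
  have hc : ContDiff ℝ 2 (fun w => (φ w : ℂ)) := Complex.ofRealCLM.contDiff.comp hφ
  have h1 : DifferentiableAt ℝ (dz α) z := (contDiff_dz hα).differentiable (by norm_num) z
  have h2 : DifferentiableAt ℝ (dz (fun w => (φ w : ℂ))) z :=
    (contDiff_dz hc).differentiable (by norm_num) z
  have h3 : DifferentiableAt ℝ α z := hα.differentiable (by norm_num) z
  have e : dzbStar φ α = fun w => (- dz α w) + dz (fun w => (φ w : ℂ)) w * α w := rfl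
  rw [e, dzb_add h1.fun_neg (h2.fun_mul h3), dzb_neg, dzb_mul h2 h3, ← dz_dzb hα,
    dzb_dz_ofReal hφ]
  ring

lemma hasCompactSupport_dz {f : ℂ → ℂ} (hf : HasCompactSupport f) : HasCompactSupport (dz f) := by
  have h1 := hf.fderiv_apply (𝕜 := ℝ) 1
  have h2 := hf.fderiv_apply (𝕜 := ℝ) I
  exact (h1.sub (h2.mul_left (f := fun _ => I))).mul_left (f := fun _ => (1/2 : ℂ))

lemma hasCompactSupport_dzb {f : ℂ → ℂ} (hf : HasCompactSupport f) : HasCompactSupport (dzb f) := by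
  have h1 := hf.fderiv_apply (𝕜 := ℝ) 1
  have h2 := hf.fderiv_apply (𝕜 := ℝ) I
  exact (h1.add (h2.mul_left (f := fun _ => I))).mul_left (f := fun _ => (1/2 : ℂ))

lemma hasCompactSupport_dzbStar (hα : HasCompactSupport α) :
    HasCompactSupport (dzbStar φ α) := by
  exact (hasCompactSupport_dz hα).neg.add hα.mul_left

/-- The basic (Bochner–Kodaira–Nakano/Hörmander) identity in the plane. -/
theorem basic_identity (hφ : ContDiff ℝ 2 φ) (hα : ContDiff ℝ 2 α) (hs : HasCompactSupport α) :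
    ∫ z, ‖dzbStar φ α z‖ ^ 2 * Real.exp (- φ z)
      = ∫ z, (‖dzb α z‖ ^ 2 + Δ φ z / 4 * ‖α z‖ ^ 2) * Real.exp (- φ z) := by
  have hw2 : ContDiff ℝ 2 (wt φ) := contDiff_wt (n := 2) hφ
  have hφ1 : ContDiff ℝ 1 φ := hφ.of_le (by norm_num)
  have hα1 : ContDiff ℝ 1 α := hα.of_le (by norm_num)
  have hconj : ContDiff ℝ 1 (fun z => (starRingEnd ℂ) (α z)) :=
    (Complex.conjCLE : ℂ →L[ℝ] ℂ).contDiff.comp hα1
  have hsconj : HasCompactSupport (fun z => (starRingEnd ℂ) (α z)) :=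
    hs.comp_left (g := starRingEnd ℂ) (map_zero _)
  have hA : ContDiff ℝ 1 (dzbStar φ α) := contDiff_dzbStar hφ hα
  have hw1 : ContDiff ℝ 1 (wt φ) := hw2.of_le (by norm_num)
  -- first integration by parts
  have s1 : ∫ z, dzbStar φ α z * dzb (fun w => wt φ w * (starRingEnd ℂ) (α w)) z
      = - ∫ z, dzb (dzbStar φ α) z * (wt φ z * (starRingEnd ℂ) (α z)) :=
    ibp_dzb hA (hw1.mul hconj) hsconj.mul_left
  have e1 : ∀ z, dzb (fun w => wt φ w * (starRingEnd ℂ) (α w)) z
      = - (wt φ z * (starRingEnd ℂ) (dzbStar φ α z)) := by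
    intro z
    have : (fun w => wt φ w * (starRingEnd ℂ) (α w))
        = fun w => (starRingEnd ℂ) (wt φ w * α w) := by
      funext w; rw [map_mul, conj_wt]
    rw [this, dzb_conj ((hw1.mul hα1).differentiable (by norm_num) z), dz_wt_mul hφ1 hα1,
      map_neg, map_mul, conj_wt]
  -- second integration by parts
  have hβ : ContDiff ℝ 1 (dzb α) := contDiff_dzb hα
  have s2 : ∫ z, (wt φ z * dzb α z) * dz (fun w => (starRingEnd ℂ) (α w)) z
      = - ∫ z, dz (fun w => wt φ w * dzb α w) z * (starRingEnd ℂ) (α z) :=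
    ibp_dz (hw1.mul hβ) hconj hsconj
  have e2 : ∀ z, dz (fun w => (starRingEnd ℂ) (α w)) z = (starRingEnd ℂ) (dzb α z) := fun z =>
    dz_conj (hα.differentiable (by norm_num) z)
  -- combine
  have key : ∫ z, dzbStar φ α z * (wt φ z * (starRingEnd ℂ) (dzbStar φ α z))
      = ∫ z, ((wt φ z * dzb α z) * (starRingEnd ℂ) (dzb α z)
        + ((Δ φ z / 4 : ℝ) : ℂ) * α z * (wt φ z * (starRingEnd ℂ) (α z))) := by
    have t1 : ∫ z, dzbStar φ α z * (wt φ z * (starRingEnd ℂ) (dzbStar φ α z))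
        = ∫ z, dzb (dzbStar φ α) z * (wt φ z * (starRingEnd ℂ) (α z)) := by
      simp only [e1] at s1
      simp only [mul_neg, integral_neg] at s1
      exact neg_injective s1
    rw [t1]
    have hLc : Continuous (fun z => ((Δ φ z / 4 : ℝ) : ℂ)) := by
      have : (fun z => ((Δ φ z / 4 : ℝ) : ℂ)) = dzb (dz (fun w => (φ w : ℂ))) := by
        funext z; exact (dzb_dz_ofReal hφ z).symm
      rw [this]
      have hd := contDiff_dz (Complex.ofRealCLM.contDiff.comp hφ : ContDiff ℝ 2 (fun w => (φ w : ℂ)))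
      unfold dzb
      exact continuous_const.mul ((cont_fderiv_apply hd 1).add
        (continuous_const.mul (cont_fderiv_apply hd I)))
    have hi1 : Integrable (fun z => dz (fun w => wt φ w * dzb α w) z * (starRingEnd ℂ) (α z)) := by
      apply Continuous.integrable_of_hasCompactSupport
      · have : Continuous (dz (fun w => wt φ w * dzb α w)) := by
          unfold dz
          exact continuous_const.mul ((cont_fderiv_apply (hw1.mul hβ) 1).sub
            (continuous_const.mul (cont_fderiv_apply (hw1.mul hβ) I)))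
        exact this.mul hconj.continuous
      · exact hsconj.mul_left
    have hi2 : Integrable (fun z => ((Δ φ z / 4 : ℝ) : ℂ) * α z * (wt φ z * (starRingEnd ℂ) (α z))) := by
      apply Continuous.integrable_of_hasCompactSupport
      · exact (hLc.mul hα.continuous).mul (hw1.continuous.mul hconj.continuous)
      · exact (hs.mul_left).mul_right
    have hi3 : Integrable (fun z => (wt φ z * dzb α z) * (starRingEnd ℂ) (dzb α z)) := by
      apply Continuous.integrable_of_hasCompactSupport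
      · exact (hw1.continuous.mul hβ.continuous).mul
          ((Complex.conjCLE : ℂ →L[ℝ] ℂ).continuous.comp hβ.continuous)
      · exact (hasCompactSupport_dzb hs).mul_left.mul_right
    have e3 : ∀ z, dzb (dzbStar φ α) z * (wt φ z * (starRingEnd ℂ) (α z))
        = - (dz (fun w => wt φ w * dzb α w) z * (starRingEnd ℂ) (α z))
          + ((Δ φ z / 4 : ℝ) : ℂ) * α z * (wt φ z * (starRingEnd ℂ) (α z)) := by
      intro z
      rw [dz_wt_mul hφ1 hβ, dzb_dzbStar hφ hα, dzbStar]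
      ring
    simp only [e3]
    have hi1' : Integrable (fun z => - (dz (fun w => wt φ w * dzb α w) z * (starRingEnd ℂ) (α z))) :=
      hi1.neg
    rw [integral_add hi1' hi2, integral_add hi3 hi2, integral_neg, ← s2]
    simp only [e2]
  -- translate to real integrals
  have r1 : ∀ z, dzbStar φ α z * (wt φ z * (starRingEnd ℂ) (dzbStar φ α z))
      = ((‖dzbStar φ α z‖ ^ 2 * Real.exp (- φ z) : ℝ) : ℂ) := by
    intro z
    have : dzbStar φ α z * (wt φ z * (starRingEnd ℂ) (dzbStar φ α z))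
      = (dzbStar φ α z * (starRingEnd ℂ) (dzbStar φ α z)) * wt φ z := by ring
    rw [this, Complex.mul_conj, wt, Complex.normSq_eq_norm_sq]
    push_cast
    ring
  have r2 : ∀ z, ((wt φ z * dzb α z) * (starRingEnd ℂ) (dzb α z)
        + ((Δ φ z / 4 : ℝ) : ℂ) * α z * (wt φ z * (starRingEnd ℂ) (α z)))
      = (((‖dzb α z‖ ^ 2 + Δ φ z / 4 * ‖α z‖ ^ 2) * Real.exp (- φ z) : ℝ) : ℂ) := by
    intro z
    have : ((wt φ z * dzb α z) * (starRingEnd ℂ) (dzb α z)
        + ((Δ φ z / 4 : ℝ) : ℂ) * α z * (wt φ z * (starRingEnd ℂ) (α z)))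
      = ((dzb α z * (starRingEnd ℂ) (dzb α z)) +
        ((Δ φ z / 4 : ℝ) : ℂ) * (α z * (starRingEnd ℂ) (α z))) * wt φ z := by ring
    rw [this, Complex.mul_conj, Complex.mul_conj, wt, Complex.normSq_eq_norm_sq,
      Complex.normSq_eq_norm_sq]
    push_cast
    ring
  simp only [r1, r2] at key
  rw [integral_complex_ofReal, integral_complex_ofReal] at key
  exact_mod_cast key

end hormander_identity

end Pool.Agent.Lib.H27
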