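import Pool.Agent.Lib.H27.KFun

/-!
# Definitions shared by the modules of the proof that every Fuchsian group has a nonconstant
normal automorphic function
-/

set_option autoImplicit false

open Complex Set Topology Filter UpperHalfPlane InnerProductSpace Laplacian
open scoped ContDiff MatrixGroups

namespace Pool.Agent.Lib.H27

/-- The open upper half-plane as a subset of the plane. -/
def uhp : Set ℂ := {z : ℂ | 0 < z.im}

/-- The Blaschke factor `(z - a)/(z - conj a)`. -/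
noncomputable def zt (a z : ℂ) : ℂ := (z - a) / (z - (starRingEnd ℂ) a)

/-- The weight `1 - |zt a z|² = 1 / cosh² (dist a z / 2)`. -/
noncomputable def wg (a z : ℂ) : ℝ := 4 * a.im * z.im / ‖z - (starRingEnd ℂ) a‖ ^ 2

/-- The quadratic form of the traceless matrix with rows `(α, β)` and `(c, -α)`. -/
noncomputable def QX (α β c : ℝ) (z : ℂ) : ℂ := c * z ^ 2 - 2 * α * z - β

/-- The function `T = |Q|²/(4y²) + max 0 δ`, where `δ = -(α² + β c)` is the determinant of the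
traceless matrix. -/
noncomputable def TX (α β c : ℝ) (z : ℂ) : ℝ :=
  ‖QX α β c z‖ ^ 2 / (4 * z.im ^ 2) + max 0 (-(α ^ 2 + β * c))

/-- `T` of an element of `SL(2, ℝ)` (of its traceless part). -/
noncomputable def TG (g : SL(2, ℝ)) (z : ℂ) : ℝ := TX ((g 0 0 - g 1 1) / 2) (g 0 1) (g 1 0) z

/-- The action is properly discontinuous. -/
def ProperlyDisc (Γ : Subgroup SL(2, ℝ)) : Prop :=
  ∀ K : Set ℍ, IsCompact K → {g : SL(2, ℝ) | g ∈ Γ ∧ ∃ z ∈ K, g • z ∈ K}.Finite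

/-- The geometric data used by the analytic part of the proof. -/
structure Data (Γ : Subgroup SL(2, ℝ)) where
  /-- the net in the thick part -/
  D : Set ℍ
  /-- its separation -/
  r : ℝ
  /-- the potential that is strictly subharmonic in the thin part -/
  φ : ℂ → ℝ
  /-- lower bound for the potential near the net -/
  C : ℝ
  r_pos : 0 < r
  r_le : r ≤ 1 / 10
  nonempty : D.Nonempty
  smul_mem : ∀ γ ∈ Γ, ∀ p ∈ D, γ • p ∈ D
  sep : ∀ p ∈ D, ∀ q ∈ D, p ≠ q → r ≤ dist p q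
  stab : ∀ γ ∈ Γ, ∀ p ∈ D, γ • p = p → γ = 1 ∨ γ = -1
  smooth : ContDiffOn ℝ 2 φ uhp
  nonpos : ∀ z : ℍ, φ z ≤ 0
  lap : ∀ z : ℍ, -12 ≤ z.im ^ 2 * Δ φ (z : ℂ)
  lap' : ∀ z : ℍ, 4 / 5 ≤ z.im ^ 2 * Δ φ (z : ℂ) ∨ ∃ p ∈ D, dist z p ≤ 1 / 10
  lower : ∀ p ∈ D, ∀ z : ℍ, dist z p ≤ 1 → -C ≤ φ z

end Pool.Agent.Lib.H27
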