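import Pool.Agent.Lib.H27.Defs

/-!
# Hyperbolic geometry of the upper half-plane
-/

set_option autoImplicit false

open Complex Set Topology Filter UpperHalfPlane InnerProductSpace Laplacian
open scoped ContDiff MatrixGroups ComplexConjugate

namespace Pool.Agent.Lib.H27

lemma sub_conj_im (a z : ℍ) : ((z : ℂ) - (starRingEnd ℂ) (a : ℂ)).im = z.im + a.im := by
  simp

lemma sub_conj_ne (a z : ℍ) : (z : ℂ) - (starRingEnd ℂ) (a : ℂ) ≠ 0 := by
  intro h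
  have h1 := sub_conj_im a z
  rw [h] at h1
  simp at h1
  have := a.im_pos
  have := z.im_pos
  linarith

lemma wg_eq (a z : ℍ) : wg a z = 1 / Real.cosh (dist z a / 2) ^ 2 := by
  have h1 := z.im_pos
  have h2 := a.im_pos
  have h3 : (0 : ℝ) < ‖(z : ℂ) - (starRingEnd ℂ) (a : ℂ)‖ := norm_pos_iff.mpr (sub_conj_ne a z)
  rw [cosh_half_dist, wg, div_pow, mul_pow, Real.sq_sqrt (by positivity), Complex.dist_eq]
  simp only [coe_im]
  field_simp
  norm_num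

lemma norm_zt (a z : ℍ) : ‖zt a z‖ = Real.tanh (dist z a / 2) := by
  rw [tanh_half_dist, zt, norm_div, Complex.dist_eq, Complex.dist_eq]

lemma wg_pos (a z : ℍ) : 0 < wg a z := by
  rw [wg_eq]; positivity

lemma wg_le_one (a z : ℍ) : wg a z ≤ 1 := by
  rw [wg_eq, div_le_one (by positivity)]
  exact one_le_pow₀ (Real.one_le_cosh _)

lemma norm_zt_sq (a z : ℍ) : ‖zt a z‖ ^ 2 = 1 - wg a z := by
  rw [norm_zt, wg_eq, Real.tanh_eq_sinh_div_cosh, div_pow, Real.sinh_sq]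
  have : 0 < Real.cosh (dist z a / 2) := Real.cosh_pos _
  field_simp

lemma norm_zt_lt_one (a z : ℍ) : ‖zt a z‖ < 1 := by
  have h1 := norm_zt_sq a z
  have h2 := wg_pos a z
  have h3 : ‖zt a z‖ ^ 2 < 1 := by linarith
  by_contra h
  have : 1 ≤ ‖zt a z‖ ^ 2 := one_le_pow₀ (not_lt.mp h)
  linarith

lemma wg_comm (a z : ℍ) : wg a z = wg z a := by
  rw [wg_eq, wg_eq, dist_comm]

lemma wg_smul (g : SL(2, ℝ)) (a z : ℍ) : wg ((g • a : ℍ) : ℂ) ((g • z : ℍ) : ℂ) = wg a z := by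
  rw [wg_eq, wg_eq, dist_smul]

lemma cosh_add_le (x : ℝ) {t : ℝ} (ht : 0 ≤ t) :
    Real.cosh (x + t) ≤ Real.exp t * Real.cosh x := by
  rw [Real.cosh_eq, Real.cosh_eq]
  have h1 : Real.exp (-(x + t)) ≤ Real.exp t * Real.exp (-x) := by
    rw [← Real.exp_add]; exact Real.exp_le_exp.mpr (by linarith)
  have h2 : Real.exp (x + t) = Real.exp t * Real.exp x := by rw [← Real.exp_add]; ring_nf
  rw [h2]
  nlinarith

/-- Harnack inequality for the weight. -/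
lemma wg_harnack (a z w : ℍ) : wg a z ≤ Real.exp (dist z w) * wg a w := by
  rw [wg_eq, wg_eq]
  have h1 : Real.cosh (dist w a / 2) ≤ Real.exp (dist z w / 2) * Real.cosh (dist z a / 2) := by
    have h2 : dist w a / 2 ≤ dist z a / 2 + dist z w / 2 := by
      have := dist_triangle w z a
      rw [dist_comm w z] at this
      linarith
    refine le_trans ?_ (cosh_add_le _ (by positivity))
    rw [Real.cosh_le_cosh, abs_of_nonneg (by positivity), abs_of_nonneg (by positivity)]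
    exact h2
  have h3 : Real.cosh (dist w a / 2) ^ 2 ≤ Real.exp (dist z w) * Real.cosh (dist z a / 2) ^ 2 := by
    have h4 : Real.exp (dist z w) = Real.exp (dist z w / 2) ^ 2 := by
      rw [← Real.exp_nat_mul]; ring_nf
    rw [h4, ← mul_pow]
    exact pow_le_pow_left₀ (Real.cosh_pos _).le h1 2
  have c1 : 0 < Real.cosh (dist w a / 2) := Real.cosh_pos _
  have c2 : 0 < Real.cosh (dist z a / 2) := Real.cosh_pos _
  rw [mul_one_div, div_le_div_iff₀ (by positivity) (by positivity)]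
  linarith

lemma wg_ge_of_dist (a z : ℍ) : Real.exp (-dist z a) ≤ wg a z := by
  rw [wg_eq, Real.exp_neg, ← one_div]
  apply one_div_le_one_div_of_le (by positivity)
  have h1 : Real.cosh (dist z a / 2) ≤ Real.exp (dist z a / 2) := by
    have := cosh_add_le 0 (t := dist z a / 2) (by positivity)
    simpa using this
  calc Real.cosh (dist z a / 2) ^ 2 ≤ Real.exp (dist z a / 2) ^ 2 :=
        pow_le_pow_left₀ (Real.cosh_pos _).le h1 2
    _ = Real.exp (dist z a) := by rw [← Real.exp_nat_mul]; ring_nf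

lemma wg_le_of_dist (a z : ℍ) : wg a z ≤ 4 * Real.exp (-dist z a) := by
  rw [wg_eq, Real.exp_neg]
  have h1 : Real.exp (dist z a / 2) / 2 ≤ Real.cosh (dist z a / 2) := by
    rw [Real.cosh_eq]
    have := Real.exp_pos (-(dist z a / 2))
    linarith
  have h2 : Real.exp (dist z a) / 4 ≤ Real.cosh (dist z a / 2) ^ 2 := by
    calc Real.exp (dist z a) / 4 = (Real.exp (dist z a / 2) / 2) ^ 2 := by
          rw [div_pow, ← Real.exp_nat_mul]; norm_num; ring_nf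
      _ ≤ _ := pow_le_pow_left₀ (by positivity) h1 2
  have h3 : 0 < Real.exp (dist z a) := Real.exp_pos _
  calc 1 / Real.cosh (dist z a / 2) ^ 2 ≤ 1 / (Real.exp (dist z a) / 4) :=
        one_div_le_one_div_of_le (by positivity) h2
    _ = 4 * (Real.exp (dist z a))⁻¹ := by field_simp

/-- Comparison of heights. -/
lemma im_div_le (a z : ℍ) : a.im / z.im ≤ 4 / wg a z := by
  have h1 := im_le_im_mul_exp_dist a z
  have h2 := wg_le_of_dist a z
  have h3 := wg_pos a z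
  have h4 := z.im_pos
  rw [div_le_div_iff₀ h4 h3]
  have h5 : wg a z * Real.exp (dist a z) ≤ 4 := by
    rw [dist_comm a z]
    calc wg a z * Real.exp (dist z a) ≤ 4 * Real.exp (-dist z a) * Real.exp (dist z a) :=
          mul_le_mul_of_nonneg_right h2 (Real.exp_pos _).le
      _ = 4 := by rw [mul_assoc, ← Real.exp_add]; simp
  calc a.im * wg a z ≤ z.im * Real.exp (dist a z) * wg a z :=
        mul_le_mul_of_nonneg_right h1 h3.le
    _ = z.im * (wg a z * Real.exp (dist a z)) := by ring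
    _ ≤ z.im * 4 := mul_le_mul_of_nonneg_left h5 h4.le
    _ = 4 * z.im := by ring

lemma zt_eq_zero_iff (a z : ℍ) : zt a z = 0 ↔ z = a := by
  rw [zt, div_eq_zero_iff]
  constructor
  · rintro (h | h)
    · exact UpperHalfPlane.ext (sub_eq_zero.mp h)
    · exact absurd h (sub_conj_ne a z)
  · rintro rfl
    left; simp

lemma coe_smul_eq (g : SL(2, ℝ)) (z : ℍ) :
    ((g • z : ℍ) : ℂ) = ((g 0 0 : ℝ) * z + (g 0 1 : ℝ)) / ((g 1 0 : ℝ) * z + (g 1 1 : ℝ)) := by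
  rw [coe_specialLinearGroup_apply]
  simp

lemma det_eq (g : SL(2, ℝ)) : g 0 0 * g 1 1 - g 0 1 * g 1 0 = 1 := by
  have := g.det_coe
  rwa [Matrix.det_fin_two] at this

lemma denom_ne (g : SL(2, ℝ)) {z : ℂ} (hz : z.im ≠ 0) :
    ((g 1 0 : ℝ) : ℂ) * z + ((g 1 1 : ℝ) : ℂ) ≠ 0 := by
  intro h
  have h1 : (((g 1 0 : ℝ) : ℂ) * z + ((g 1 1 : ℝ) : ℂ)).im = 0 := by rw [h]; simp
  have h2 : (((g 1 0 : ℝ) : ℂ) * z + ((g 1 1 : ℝ) : ℂ)).re = 0 := by rw [h]; simp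
  simp at h1 h2
  rcases h1 with h1 | h1
  · rw [h1] at h2
    simp at h2
    have := det_eq g
    rw [h1, h2] at this
    simp at this
  · exact hz h1

/-- The Blaschke factor is invariant up to a unimodular constant. -/
lemma zt_smul (g : SL(2, ℝ)) (a : ℍ) :
    ∃ u : ℂ, ‖u‖ = 1 ∧ ∀ z : ℍ, zt ((g • a : ℍ) : ℂ) ((g • z : ℍ) : ℂ) = u * zt a z := by
  have ha : (a : ℂ).im ≠ 0 := a.im_pos.ne'
  have hca : ((starRingEnd ℂ) (a : ℂ)).im ≠ 0 := by simpa using ha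
  refine ⟨(((g 1 0 : ℝ) : ℂ) * (starRingEnd ℂ) (a : ℂ) + ((g 1 1 : ℝ) : ℂ)) /
    (((g 1 0 : ℝ) : ℂ) * a + ((g 1 1 : ℝ) : ℂ)), ?_, ?_⟩
  · rw [norm_div]
    have : ((g 1 0 : ℝ) : ℂ) * (starRingEnd ℂ) (a : ℂ) + ((g 1 1 : ℝ) : ℂ)
        = (starRingEnd ℂ) (((g 1 0 : ℝ) : ℂ) * a + ((g 1 1 : ℝ) : ℂ)) := by
      simp
    rw [this, RCLike.norm_conj]
    exact div_self (norm_ne_zero_iff.mpr (denom_ne g ha))
  · intro z
    have hz : (z : ℂ).im ≠ 0 := z.im_pos.ne'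
    have h1 := denom_ne g hz
    have h2 := denom_ne g ha
    have h3 := denom_ne g hca
    have h4 := sub_conj_ne a z
    have hdet : (((g 0 0 : ℝ) : ℂ) * ((g 1 1 : ℝ) : ℂ) - ((g 0 1 : ℝ) : ℂ) * ((g 1 0 : ℝ) : ℂ)) = 1 := by
      have := det_eq g
      exact_mod_cast this
    have h5 : (starRingEnd ℂ) ((g • a : ℍ) : ℂ) =
        (((g 0 0 : ℝ) : ℂ) * (starRingEnd ℂ) (a : ℂ) + ((g 0 1 : ℝ) : ℂ)) /
          (((g 1 0 : ℝ) : ℂ) * (starRingEnd ℂ) (a : ℂ) + ((g 1 1 : ℝ) : ℂ)) := by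
      rw [coe_smul_eq, map_div₀]
      simp
    have h6 : ((g • z : ℍ) : ℂ) - ((g • a : ℍ) : ℂ) = (z - a) /
        ((((g 1 0 : ℝ) : ℂ) * z + ((g 1 1 : ℝ) : ℂ)) * (((g 1 0 : ℝ) : ℂ) * a + ((g 1 1 : ℝ) : ℂ))) := by
      rw [coe_smul_eq, coe_smul_eq, div_sub_div _ _ h1 h2]
      congr 1
      linear_combination ((z : ℂ) - a) * hdet
    have h7 : ((g • z : ℍ) : ℂ) - (starRingEnd ℂ) ((g • a : ℍ) : ℂ) = (z - (starRingEnd ℂ) (a : ℂ)) /
        ((((g 1 0 : ℝ) : ℂ) * z + ((g 1 1 : ℝ) : ℂ)) *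
          (((g 1 0 : ℝ) : ℂ) * (starRingEnd ℂ) (a : ℂ) + ((g 1 1 : ℝ) : ℂ))) := by
      rw [h5, coe_smul_eq, div_sub_div _ _ h1 h3]
      congr 1
      linear_combination ((z : ℂ) - (starRingEnd ℂ) (a : ℂ)) * hdet
    rw [zt, zt, h6, h7]
    generalize (((g 1 0 : ℝ) : ℂ) * z + ((g 1 1 : ℝ) : ℂ)) = A at h1 ⊢
    generalize (((g 1 0 : ℝ) : ℂ) * a + ((g 1 1 : ℝ) : ℂ)) = B at h2 ⊢
    generalize (((g 1 0 : ℝ) : ℂ) * (starRingEnd ℂ) (a : ℂ) + ((g 1 1 : ℝ) : ℂ)) = C at h3 ⊢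
    field_simp

/-- Derivative of the Blaschke factor. -/
lemma hasDerivAt_zt (a z : ℍ) :
    HasDerivAt (zt a) (((a : ℂ) - (starRingEnd ℂ) (a : ℂ)) / ((z : ℂ) - (starRingEnd ℂ) (a : ℂ)) ^ 2)
      (z : ℂ) := by
  have h1 : HasDerivAt (fun w : ℂ => w - (a : ℂ)) 1 (z : ℂ) := (hasDerivAt_id _).sub_const _
  have h2 : HasDerivAt (fun w : ℂ => w - (starRingEnd ℂ) (a : ℂ)) 1 (z : ℂ) :=
    (hasDerivAt_id _).sub_const _
  have h3 := h1.div h2 (sub_conj_ne a z)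
  refine h3.congr_deriv ?_
  congr 1
  ring

lemma norm_deriv_zt (a z : ℍ) :
    z.im * ‖((a : ℂ) - (starRingEnd ℂ) (a : ℂ)) / ((z : ℂ) - (starRingEnd ℂ) (a : ℂ)) ^ 2‖
      = wg a z / 2 := by
  have h1 : (a : ℂ) - (starRingEnd ℂ) (a : ℂ) = ((2 * a.im : ℝ) : ℂ) * Complex.I := by
    rw [Complex.sub_conj]
    simp
  have h3 : (0 : ℝ) < ‖(z : ℂ) - (starRingEnd ℂ) (a : ℂ)‖ := norm_pos_iff.mpr (sub_conj_ne a z)
  rw [h1, norm_div, norm_mul, Complex.norm_I, mul_one, Complex.norm_real, Real.norm_eq_abs,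
    abs_of_pos (by have := a.im_pos; positivity), norm_pow, wg]
  simp only [coe_im]
  field_simp
  ring

end Pool.Agent.Lib.H27
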