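import Pool.Agent.Lib.H27.LogT
import Pool.Agent.Lib.H27.Hyp

/-!
# Displacement of elements of `SL(2, ℝ)`
-/

set_option autoImplicit false

open Complex Set Topology Filter UpperHalfPlane
open scoped ContDiff MatrixGroups ComplexConjugate

namespace Pool.Agent.Lib.H27

section matrix

/-- The square of the Frobenius norm. -/
def NN (A : Matrix (Fin 2) (Fin 2) ℝ) : ℝ := A 0 0 ^ 2 + A 0 1 ^ 2 + A 1 0 ^ 2 + A 1 1 ^ 2

lemma NN_nonneg (A : Matrix (Fin 2) (Fin 2) ℝ) : 0 ≤ NN A := by unfold NN; positivity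

lemma NN_mul (A B : Matrix (Fin 2) (Fin 2) ℝ) : NN (A * B) ≤ NN A * NN B := by
  simp only [NN, Matrix.mul_apply, Fin.sum_univ_two]
  nlinarith [sq_nonneg (A 0 0 * B 1 0 - A 0 1 * B 0 0), sq_nonneg (A 0 0 * B 1 1 - A 0 1 * B 0 1),
    sq_nonneg (A 1 0 * B 1 0 - A 1 1 * B 0 0), sq_nonneg (A 1 0 * B 1 1 - A 1 1 * B 0 1)]

lemma NN_sub (A B : Matrix (Fin 2) (Fin 2) ℝ) : NN (A - B) ≤ 2 * NN A + 2 * NN B := by
  simp only [NN, Matrix.sub_apply]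
  nlinarith [sq_nonneg (A 0 0 + B 0 0), sq_nonneg (A 0 1 + B 0 1),
    sq_nonneg (A 1 0 + B 1 0), sq_nonneg (A 1 1 + B 1 1)]

lemma NN_inv (g : SL(2, ℝ)) : NN (g⁻¹ : SL(2, ℝ)) = NN g := by
  rw [Matrix.SpecialLinearGroup.SL2_inv_expl g]
  simp [NN]
  ring

lemma NN_expand (g : SL(2, ℝ)) :
    NN g = (g 0 1 + g 1 0) ^ 2 + (g 0 0 - g 1 1) ^ 2 + 2 := by
  have := det_eq g
  simp only [NN]
  linarith

end matrix

section TG

lemma neg_delta (g : SL(2, ℝ)) :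
    -(((g 0 0 - g 1 1) / 2) ^ 2 + g 0 1 * g 1 0) = 1 - (g 0 0 + g 1 1) ^ 2 / 4 := by
  have := det_eq g
  linarith

lemma im_smul_eq (g : SL(2, ℝ)) (z : ℍ) :
    (g • z).im = z.im / ‖((g 1 0 : ℝ) : ℂ) * z + ((g 1 1 : ℝ) : ℂ)‖ ^ 2 := by
  have h0 := denom_ne g (z := z) z.im_pos.ne'
  have h1 : (g • z).im = (((g • z : ℍ) : ℂ)).im := rfl
  have hdet := det_eq g
  rw [h1, coe_smul_eq, Complex.div_im, ← Complex.sq_norm]
  simp only [Complex.add_re, Complex.mul_re, Complex.ofReal_re, Complex.ofReal_im, Complex.add_im,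
    Complex.mul_im, coe_re, coe_im]
  have h2 : (0 : ℝ) < ‖((g 1 0 : ℝ) : ℂ) * z + ((g 1 1 : ℝ) : ℂ)‖ ^ 2 := by positivity
  field_simp
  linear_combination z.im * hdet

lemma sub_smul_eq (g : SL(2, ℝ)) (z : ℍ) :
    (z : ℂ) - ((g • z : ℍ) : ℂ) =
      QX ((g 0 0 - g 1 1) / 2) (g 0 1) (g 1 0) z / (((g 1 0 : ℝ) : ℂ) * z + ((g 1 1 : ℝ) : ℂ)) := by
  have h0 := denom_ne g (z := z) z.im_pos.ne'
  rw [coe_smul_eq, QX, eq_div_iff h0, sub_mul, div_mul_cancel₀ _ h0]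
  push_cast
  ring

lemma TG_eq (g : SL(2, ℝ)) (z : ℍ) :
    TG g z = Real.sinh (dist z (g • z) / 2) ^ 2 + max 0 (1 - (g 0 0 + g 1 1) ^ 2 / 4) := by
  rw [TG, TX, neg_delta]
  congr 1
  have h0 : 0 < ‖((g 1 0 : ℝ) : ℂ) * z + ((g 1 1 : ℝ) : ℂ)‖ :=
    norm_pos_iff.mpr (denom_ne g (z := z) z.im_pos.ne')
  have hz := z.im_pos
  have hgz := (g • z).im_pos
  rw [sinh_half_dist, div_pow, mul_pow, Real.sq_sqrt (by positivity), Complex.dist_eq, sub_smul_eq,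
    norm_div, im_smul_eq]
  simp only [coe_im]
  field_simp
  ring

lemma continuous_TG (g : SL(2, ℝ)) : Continuous (fun z : ℍ => TG g z) := by
  have : (fun z : ℍ => TG g z) = fun z : ℍ =>
      Real.sinh (dist z (g • z) / 2) ^ 2 + max 0 (1 - (g 0 0 + g 1 1) ^ 2 / 4) :=
    funext fun z => TG_eq g z
  rw [this]
  have h1 : Continuous (fun z : ℍ => g • z) := (isometry_smul ℍ g).continuous
  have h2 : Continuous (fun z : ℍ => dist z (g • z)) := continuous_id.dist h1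
  exact ((Real.continuous_sinh.comp (h2.div_const 2)).pow 2).add continuous_const

lemma inv_entries (σ : SL(2, ℝ)) : (σ⁻¹ : SL(2, ℝ)) 0 0 = σ 1 1 ∧ (σ⁻¹ : SL(2, ℝ)) 0 1 = -σ 0 1 ∧
    (σ⁻¹ : SL(2, ℝ)) 1 0 = -σ 1 0 ∧ (σ⁻¹ : SL(2, ℝ)) 1 1 = σ 0 0 := by
  rw [Matrix.SpecialLinearGroup.SL2_inv_expl σ]
  simp

lemma mul_entry (g h : SL(2, ℝ)) (i j : Fin 2) :
    (g * h) i j = g i 0 * h 0 j + g i 1 * h 1 j := by
  rw [Matrix.SpecialLinearGroup.coe_mul, Matrix.mul_apply, Fin.sum_univ_two]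

lemma trace_conj (σ g : SL(2, ℝ)) :
    (σ⁻¹ * g * σ) 0 0 + (σ⁻¹ * g * σ) 1 1 = g 0 0 + g 1 1 := by
  have hdet := det_eq σ
  obtain ⟨h1, h2, h3, h4⟩ := inv_entries σ
  simp only [mul_entry, h1, h2, h3, h4]
  linear_combination (g 0 0 + g 1 1) * hdet

/-- Equivariance. -/
lemma TG_smul (σ g : SL(2, ℝ)) (z : ℍ) : TG g ((σ • z : ℍ) : ℂ) = TG (σ⁻¹ * g * σ) z := by
  rw [TG_eq, TG_eq, trace_conj]
  congr 4
  rw [mul_smul, mul_smul, ← dist_smul σ z (σ⁻¹ • g • σ • z), smul_inv_smul]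

lemma TG_nonneg (g : SL(2, ℝ)) (z : ℂ) : 0 ≤ TG g z := TX_nonneg _ _ _ _

lemma TG_I (g : SL(2, ℝ)) : TG g (UpperHalfPlane.I : ℍ) =
    ((g 0 1 + g 1 0) ^ 2 + (g 0 0 - g 1 1) ^ 2) / 4 + max 0 (1 - (g 0 0 + g 1 1) ^ 2 / 4) := by
  rw [TG, TX, neg_delta, norm_QX_sq]
  simp
  ring

/-- (1) there is a sign such that `g ∓ 1` is small. -/
lemma exists_sign (g : SL(2, ℝ)) : ∃ e : ℝ, (e = 1 ∨ e = -1) ∧
    NN ((g : Matrix (Fin 2) (Fin 2) ℝ) - e • 1) ≤ 4 * TG g (UpperHalfPlane.I : ℍ) := by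
  have hdet := det_eq g
  have hN : ∀ e : ℝ, e ^ 2 = 1 → NN ((g : Matrix (Fin 2) (Fin 2) ℝ) - e • 1)
      = (g 0 1 + g 1 0) ^ 2 + (g 0 0 - g 1 1) ^ 2 + 4 - 2 * e * (g 0 0 + g 1 1) := by
    intro e he
    simp [NN]
    nlinarith
  rw [TG_I]
  rcases le_total 0 (g 0 0 + g 1 1) with h | h
  · refine ⟨1, Or.inl rfl, ?_⟩
    rw [hN 1 (by norm_num)]
    rcases le_total (g 0 0 + g 1 1) 2 with h2 | h2
    · have : 1 - (g 0 0 + g 1 1) ^ 2 / 4 ≤ max 0 (1 - (g 0 0 + g 1 1) ^ 2 / 4) := le_max_right _ _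
      nlinarith
    · have : 0 ≤ max 0 (1 - (g 0 0 + g 1 1) ^ 2 / 4) := le_max_left _ _
      nlinarith
  · refine ⟨-1, Or.inr rfl, ?_⟩
    rw [hN (-1) (by norm_num)]
    rcases le_total (-2) (g 0 0 + g 1 1) with h2 | h2
    · have : 1 - (g 0 0 + g 1 1) ^ 2 / 4 ≤ max 0 (1 - (g 0 0 + g 1 1) ^ 2 / 4) := le_max_right _ _
      nlinarith
    · have : 0 ≤ max 0 (1 - (g 0 0 + g 1 1) ^ 2 / 4) := le_max_left _ _
      nlinarith

/-- (1') the converse estimate. -/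
lemma TG_le_NN (g : SL(2, ℝ)) {e : ℝ} (he : e = 1 ∨ e = -1) :
    TG g (UpperHalfPlane.I : ℍ) ≤ NN ((g : Matrix (Fin 2) (Fin 2) ℝ) - e • 1) / 2 := by
  have hdet := det_eq g
  have he2 : e ^ 2 = 1 := by rcases he with h | h <;> rw [h] <;> norm_num
  have hN : NN ((g : Matrix (Fin 2) (Fin 2) ℝ) - e • 1)
      = (g 0 1 + g 1 0) ^ 2 + (g 0 0 - g 1 1) ^ 2 + 4 - 2 * e * (g 0 0 + g 1 1) := by
    simp [NN]
    nlinarith
  rw [TG_I, hN]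
  set s := g 0 0 + g 1 1 with hs
  have hs2 : e * s ≤ |s| := by
    rcases he with h | h
    · rw [h, one_mul]; exact le_abs_self s
    · rw [h, neg_one_mul]; exact neg_le_abs s
  have hs3 : |s| ^ 2 = s ^ 2 := sq_abs s
  have hs0 := abs_nonneg s
  have hq : (g 0 1 + g 1 0) ^ 2 + (g 0 0 - g 1 1) ^ 2 = (g 0 1 - g 1 0) ^ 2 + s ^ 2 - 4 := by
    rw [hs]; linarith
  have hq0 : 0 ≤ (g 0 1 + g 1 0) ^ 2 + (g 0 0 - g 1 1) ^ 2 := by positivity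
  rcases le_total |s| 2 with h2 | h2
  · rw [max_eq_right (by nlinarith)]
    nlinarith
  · rw [max_eq_left (by nlinarith)]
    nlinarith [sq_nonneg (g 0 1 - g 1 0)]

lemma TG_neg_one_or_one {g : SL(2, ℝ)} {z : ℍ} (h1 : g ≠ 1) (h2 : g ≠ -1) : 0 < TG g z := by
  apply TX_pos _ z.im_pos
  rintro ⟨ha, hb, hc⟩
  have hdet := det_eq g
  have hd : g 0 0 = g 1 1 := by linarith
  rw [hb, ← hd] at hdet
  have h3 : (g 0 0 - 1) * (g 0 0 + 1) = 0 := by linarith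
  rcases mul_eq_zero.mp h3 with h | h
  · apply h1
    ext i j
    fin_cases i <;> fin_cases j <;> simp <;> linarith
  · apply h2
    ext i j
    fin_cases i <;> fin_cases j <;> simp <;> linarith

end TG

end Pool.Agent.Lib.H27
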