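import Pool.Agent.Lib.H27.Geom1

/-!
# Commutators of elements with small displacement
-/

set_option autoImplicit false

open Complex Set Topology Filter UpperHalfPlane
open scoped ContDiff MatrixGroups ComplexConjugate

namespace Pool.Agent.Lib.H27

lemma comm_mat (g h : SL(2, ℝ)) (e e' : ℝ) :
    NN (((g * h * g⁻¹ * h⁻¹ : SL(2, ℝ)) : Matrix (Fin 2) (Fin 2) ℝ) - 1) ≤
      4 * NN ((g : Matrix (Fin 2) (Fin 2) ℝ) - e • 1) *
        NN ((h : Matrix (Fin 2) (Fin 2) ℝ) - e' • 1) * (NN g * NN h) := by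
  set G : Matrix (Fin 2) (Fin 2) ℝ := (g : Matrix (Fin 2) (Fin 2) ℝ)
  set H : Matrix (Fin 2) (Fin 2) ℝ := (h : Matrix (Fin 2) (Fin 2) ℝ)
  set Gi : Matrix (Fin 2) (Fin 2) ℝ := ((g⁻¹ : SL(2, ℝ)) : Matrix (Fin 2) (Fin 2) ℝ) with hGi
  set Hi : Matrix (Fin 2) (Fin 2) ℝ := ((h⁻¹ : SL(2, ℝ)) : Matrix (Fin 2) (Fin 2) ℝ) with hHi
  have hGG : G * Gi = 1 := by
    rw [hGi, ← Matrix.SpecialLinearGroup.coe_mul, mul_inv_cancel, Matrix.SpecialLinearGroup.coe_one]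
  have hHH : H * Hi = 1 := by
    rw [hHi, ← Matrix.SpecialLinearGroup.coe_mul, mul_inv_cancel, Matrix.SpecialLinearGroup.coe_one]
  have e1 : (G - e • 1) * (H - e' • 1) - (H - e' • 1) * (G - e • 1) = G * H - H * G := by
    simp only [sub_mul, mul_sub, smul_mul_assoc, mul_smul_comm, one_mul, mul_one, smul_sub,
      smul_smul, mul_comm e e']
    abel
  have e2 : ((g * h * g⁻¹ * h⁻¹ : SL(2, ℝ)) : Matrix (Fin 2) (Fin 2) ℝ) - 1
      = (G * H - H * G) * Gi * Hi := by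
    rw [Matrix.SpecialLinearGroup.coe_mul, Matrix.SpecialLinearGroup.coe_mul,
      Matrix.SpecialLinearGroup.coe_mul, sub_mul, sub_mul, mul_assoc H G Gi, hGG, mul_one, hHH]
  rw [e2, ← e1]
  set A := G - e • 1
  set B := H - e' • 1
  have h1 : NN (A * B - B * A) ≤ 4 * NN A * NN B := by
    have h2 := NN_sub (A * B) (B * A)
    have h3 := NN_mul A B
    have h4 := NN_mul B A
    nlinarith
  have h5 : NN Gi = NN g := NN_inv g
  have h6 : NN Hi = NN h := NN_inv h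
  calc NN ((A * B - B * A) * Gi * Hi) ≤ NN ((A * B - B * A) * Gi) * NN Hi := NN_mul _ _
    _ ≤ NN (A * B - B * A) * NN Gi * NN Hi :=
        mul_le_mul_of_nonneg_right (NN_mul _ _) (NN_nonneg _)
    _ ≤ 4 * NN A * NN B * NN Gi * NN Hi := by
        apply mul_le_mul_of_nonneg_right _ (NN_nonneg _)
        exact mul_le_mul_of_nonneg_right h1 (NN_nonneg _)
    _ = _ := by rw [h5, h6]; ring

lemma NN_le_TG (g : SL(2, ℝ)) : NN g ≤ 4 * TG g (UpperHalfPlane.I : ℍ) + 2 := by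
  rw [NN_expand, TG_I]
  have : 0 ≤ max 0 (1 - (g 0 0 + g 1 1) ^ 2 / 4) := le_max_left _ _
  linarith

lemma neg_one_mat : NN (((-1 : SL(2, ℝ)) : Matrix (Fin 2) (Fin 2) ℝ) - 1) = 8 := by
  simp [NN]
  norm_num

lemma comm_I {g h : SL(2, ℝ)} (hg : TG g (UpperHalfPlane.I : ℍ) ≤ 1 / 4)
    (hh : TG h (UpperHalfPlane.I : ℍ) ≤ 1 / 4) :
    NN (((g * h * g⁻¹ * h⁻¹ : SL(2, ℝ)) : Matrix (Fin 2) (Fin 2) ℝ) - 1) ≤
      576 * TG g (UpperHalfPlane.I : ℍ) * TG h (UpperHalfPlane.I : ℍ) := by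
  obtain ⟨e, -, he⟩ := exists_sign g
  obtain ⟨e', -, he'⟩ := exists_sign h
  have h1 := comm_mat g h e e'
  have h2 := NN_le_TG g
  have h3 := NN_le_TG h
  have t1 := TG_nonneg g (UpperHalfPlane.I : ℍ)
  have t2 := TG_nonneg h (UpperHalfPlane.I : ℍ)
  have n1 := NN_nonneg (g : Matrix (Fin 2) (Fin 2) ℝ)
  have n2 := NN_nonneg (h : Matrix (Fin 2) (Fin 2) ℝ)
  have n3 := NN_nonneg ((g : Matrix (Fin 2) (Fin 2) ℝ) - e • 1)
  have n4 := NN_nonneg ((h : Matrix (Fin 2) (Fin 2) ℝ) - e' • 1)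
  have h4 : NN g * NN h ≤ 9 := by nlinarith
  have h5 : NN ((g : Matrix (Fin 2) (Fin 2) ℝ) - e • 1) *
      NN ((h : Matrix (Fin 2) (Fin 2) ℝ) - e' • 1) ≤
      (4 * TG g (UpperHalfPlane.I : ℍ)) * (4 * TG h (UpperHalfPlane.I : ℍ)) :=
    mul_le_mul he he' n4 (by positivity)
  calc _ ≤ _ := h1
    _ = 4 * (NN ((g : Matrix (Fin 2) (Fin 2) ℝ) - e • 1) *
        NN ((h : Matrix (Fin 2) (Fin 2) ℝ) - e' • 1)) * (NN g * NN h) := by ring
    _ ≤ 4 * ((4 * TG g (UpperHalfPlane.I : ℍ)) * (4 * TG h (UpperHalfPlane.I : ℍ))) * 9 := by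
        apply mul_le_mul _ h4 (by positivity) (by positivity)
        exact mul_le_mul_of_nonneg_left h5 (by norm_num)
    _ = _ := by ring

lemma TG_frame (g : SL(2, ℝ)) (z : ℍ) :
    TG g z = TG (z.toSL2R⁻¹ * g * z.toSL2R) (UpperHalfPlane.I : ℍ) := by
  rw [← TG_smul, toSL2R_smul_I]

lemma conj_comm (σ g h : SL(2, ℝ)) :
    (σ⁻¹ * g * σ) * (σ⁻¹ * h * σ) * (σ⁻¹ * g * σ)⁻¹ * (σ⁻¹ * h * σ)⁻¹
      = σ⁻¹ * (g * h * g⁻¹ * h⁻¹) * σ := by
  group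

lemma conj_eq_neg_one {σ g : SL(2, ℝ)} (h : g = -1) : σ⁻¹ * g * σ = -1 := by
  rw [h]
  simp

/-- The commutator estimate. -/
lemma comm_est {g h : SL(2, ℝ)} {z : ℍ} (hg : TG g z ≤ 1 / 4) (hh : TG h z ≤ 1 / 4) :
    TG (g * h * g⁻¹ * h⁻¹) z ≤ 288 * TG g z * TG h z ∧
      (TG g z * TG h z < 1 / 72 → g * h * g⁻¹ * h⁻¹ ≠ -1) := by
  rw [TG_frame g z] at hg
  rw [TG_frame h z] at hh
  have h1 := comm_I hg hh
  rw [conj_comm] at h1
  have h2 := TG_le_NN (z.toSL2R⁻¹ * (g * h * g⁻¹ * h⁻¹) * z.toSL2R) (e := 1) (Or.inl rfl)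
  rw [one_smul] at h2
  rw [← TG_frame] at h2
  rw [← TG_frame, ← TG_frame] at h1
  constructor
  · linarith
  · intro h3 h4
    rw [conj_eq_neg_one h4, neg_one_mat] at h1
    linarith

lemma NN_eq_cosh (τ : SL(2, ℝ)) :
    NN τ = 2 * Real.cosh (dist (UpperHalfPlane.I : ℍ) (τ • UpperHalfPlane.I)) := by
  have h1 := TG_eq τ UpperHalfPlane.I
  rw [TG_I] at h1
  have h2 : ((τ 0 1 + τ 1 0) ^ 2 + (τ 0 0 - τ 1 1) ^ 2) / 4
      = Real.sinh (dist (UpperHalfPlane.I : ℍ) (τ • UpperHalfPlane.I) / 2) ^ 2 := by linarith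
  have h3 : Real.cosh (dist (UpperHalfPlane.I : ℍ) (τ • UpperHalfPlane.I))
      = 1 + 2 * Real.sinh (dist (UpperHalfPlane.I : ℍ) (τ • UpperHalfPlane.I) / 2) ^ 2 := by
    have h4 := Real.cosh_two_mul (dist (UpperHalfPlane.I : ℍ) (τ • UpperHalfPlane.I) / 2)
    rw [mul_div_cancel₀ _ (by norm_num : (2:ℝ) ≠ 0)] at h4
    rw [h4, Real.cosh_sq]
    ring
  rw [NN_expand, h3, ← h2]
  ring

/-- Harnack inequality for the displacement. -/
lemma TG_harnack (g : SL(2, ℝ)) (z p : ℍ) :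
    TG g p ≤ 8 * Real.cosh (dist z p) ^ 2 * TG g z := by
  set σ := z.toSL2R with hσ
  set τ := σ⁻¹ * p.toSL2R with hτ
  have hσI : σ • UpperHalfPlane.I = z := toSL2R_smul_I z
  have hp : σ • τ • UpperHalfPlane.I = p := by
    rw [hτ, mul_smul, smul_inv_smul, toSL2R_smul_I]
  have h1 : TG g p = TG (τ⁻¹ * (σ⁻¹ * g * σ) * τ) (UpperHalfPlane.I : ℍ) := by
    rw [← TG_smul, ← TG_smul, hp]
  have h2 : TG g z = TG (σ⁻¹ * g * σ) (UpperHalfPlane.I : ℍ) := by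
    rw [← TG_smul, hσI]
  set g' := σ⁻¹ * g * σ with hg'
  obtain ⟨e, he, he'⟩ := exists_sign g'
  have h3 := TG_le_NN (τ⁻¹ * g' * τ) he
  have h4 : ((τ⁻¹ * g' * τ : SL(2, ℝ)) : Matrix (Fin 2) (Fin 2) ℝ) - e • 1
      = ((τ⁻¹ : SL(2, ℝ)) : Matrix (Fin 2) (Fin 2) ℝ) *
        ((g' : Matrix (Fin 2) (Fin 2) ℝ) - e • 1) * (τ : Matrix (Fin 2) (Fin 2) ℝ) := by
    rw [Matrix.SpecialLinearGroup.coe_mul, Matrix.SpecialLinearGroup.coe_mul, mul_sub, sub_mul]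
    congr 1
    rw [mul_smul_comm, mul_one, smul_mul_assoc, ← Matrix.SpecialLinearGroup.coe_mul,
      inv_mul_cancel, Matrix.SpecialLinearGroup.coe_one]
  rw [h4] at h3
  have h5 : NN (((τ⁻¹ : SL(2, ℝ)) : Matrix (Fin 2) (Fin 2) ℝ) *
        ((g' : Matrix (Fin 2) (Fin 2) ℝ) - e • 1) * (τ : Matrix (Fin 2) (Fin 2) ℝ)) ≤
        NN τ ^ 2 * (4 * TG g z) := by
    have n1 := NN_nonneg (τ : Matrix (Fin 2) (Fin 2) ℝ)
    calc _ ≤ NN (((τ⁻¹ : SL(2, ℝ)) : Matrix (Fin 2) (Fin 2) ℝ) *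
        ((g' : Matrix (Fin 2) (Fin 2) ℝ) - e • 1)) * NN τ := NN_mul _ _
      _ ≤ NN ((τ⁻¹ : SL(2, ℝ)) : Matrix (Fin 2) (Fin 2) ℝ) *
        NN ((g' : Matrix (Fin 2) (Fin 2) ℝ) - e • 1) * NN τ :=
          mul_le_mul_of_nonneg_right (NN_mul _ _) n1
      _ = NN τ ^ 2 * NN ((g' : Matrix (Fin 2) (Fin 2) ℝ) - e • 1) := by rw [NN_inv]; ring
      _ ≤ _ := by
          rw [h2]
          exact mul_le_mul_of_nonneg_left he' (by positivity)
  have h6 : NN τ = 2 * Real.cosh (dist z p) := by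
    rw [NN_eq_cosh]
    congr 2
    rw [← dist_smul σ, hσI, hp]
  rw [h1]
  rw [h6] at h5
  linarith

/-- Commuting elements have proportional traceless parts. -/
lemma exists_scalar {g h : SL(2, ℝ)} (hc : g * h = h * g)
    (hX : ¬ ((g 0 0 - g 1 1) / 2 = 0 ∧ g 0 1 = 0 ∧ g 1 0 = 0)) :
    ∃ l : ℝ, (h 0 0 - h 1 1) / 2 = l * ((g 0 0 - g 1 1) / 2) ∧ h 0 1 = l * g 0 1 ∧
      h 1 0 = l * g 1 0 := by
  have e00 := congrArg (fun m : SL(2, ℝ) => m 0 0) hc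
  have e01 := congrArg (fun m : SL(2, ℝ) => m 0 1) hc
  have e10 := congrArg (fun m : SL(2, ℝ) => m 1 0) hc
  simp only [mul_entry] at e00 e01 e10
  set a := (g 0 0 - g 1 1) / 2 with ha
  set a' := (h 0 0 - h 1 1) / 2 with ha'
  have f0 : g 0 1 * h 1 0 = h 0 1 * g 1 0 := by linarith
  have f1 : a * h 0 1 = a' * g 0 1 := by rw [ha, ha']; linarith
  have f2 : a * h 1 0 = a' * g 1 0 := by rw [ha, ha']; linarith
  by_cases h1 : a = 0
  · by_cases h2 : g 0 1 = 0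
    · have h3 : g 1 0 ≠ 0 := fun h3 => hX ⟨h1, h2, h3⟩
      refine ⟨h 1 0 / g 1 0, ?_, ?_, ?_⟩
      · rw [h1] at f2 ⊢
        rw [mul_zero]
        rw [zero_mul] at f2
        exact (mul_eq_zero.mp f2.symm).resolve_right h3
      · rw [h2] at f0 ⊢
        rw [mul_zero]
        rw [zero_mul] at f0
        exact (mul_eq_zero.mp f0.symm).resolve_right h3
      · field_simp
    · refine ⟨h 0 1 / g 0 1, ?_, ?_, ?_⟩
      · rw [h1] at f1 ⊢
        rw [mul_zero]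
        rw [zero_mul] at f1
        exact (mul_eq_zero.mp f1.symm).resolve_right h2
      · field_simp
      · field_simp
        linarith
  · refine ⟨a' / a, ?_, ?_, ?_⟩
    · field_simp
    · field_simp
      linarith
    · field_simp
      linarith

lemma TX_smul (l α β c : ℝ) (z : ℂ) : TX (l * α) (l * β) (l * c) z = l ^ 2 * TX α β c z := by
  have h1 : QX (l * α) (l * β) (l * c) z = (l : ℂ) * QX α β c z := by
    rw [QX, QX]; push_cast; ring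
  have h2 : -((l * α) ^ 2 + l * β * (l * c)) = l ^ 2 * (-(α ^ 2 + β * c)) := by ring
  have h3 : max 0 (l ^ 2 * (-(α ^ 2 + β * c))) = l ^ 2 * max 0 (-(α ^ 2 + β * c)) := by
    rw [mul_max_of_nonneg _ _ (sq_nonneg l), mul_zero]
  rw [TX, TX, h1, h2, h3, norm_mul, Complex.norm_real, mul_pow, Real.norm_eq_abs, sq_abs]
  ring

/-- Commuting elements have proportional displacement functions. -/
lemma TG_of_commute {g h : SL(2, ℝ)} (hc : g * h = h * g) (h1 : g ≠ 1) (h2 : g ≠ -1) :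
    ∃ l : ℝ, ∀ z : ℂ, TG h z = l ^ 2 * TG g z := by
  have hX : ¬ ((g 0 0 - g 1 1) / 2 = 0 ∧ g 0 1 = 0 ∧ g 1 0 = 0) := by
    rintro ⟨ha, hb, hc⟩
    have h3 := TG_neg_one_or_one (z := UpperHalfPlane.I) h1 h2
    rw [TG, TX, QX] at h3
    rw [ha, hb, hc] at h3
    simp at h3
  obtain ⟨l, e1, e2, e3⟩ := exists_scalar hc hX
  refine ⟨l, fun z => ?_⟩
  rw [TG, TG, e1, e2, e3, TX_smul]

/-- Small displacement. -/
lemma dist_le_of_TG {g : SL(2, ℝ)} {z : ℍ} (h : TG g z ≤ 1) : dist z (g • z) ≤ 2 := by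
  rw [TG_eq] at h
  have h1 : 0 ≤ max 0 (1 - (g 0 0 + g 1 1) ^ 2 / 4) := le_max_left _ _
  have h2 : Real.sinh (dist z (g • z) / 2) ^ 2 ≤ 1 := by linarith
  have h3 : 0 ≤ Real.sinh (dist z (g • z) / 2) := Real.sinh_nonneg_iff.mpr (by positivity)
  have h4 : Real.sinh (dist z (g • z) / 2) ≤ 1 := by nlinarith
  have h5 : dist z (g • z) / 2 ≤ Real.sinh (dist z (g • z) / 2) :=
    Real.self_le_sinh_iff.mpr (by positivity)
  linarith

end Pool.Agent.Lib.H27
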