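import Pool.Agent.Lib.H27.Weyl

/-!
# The area mean value inequality and removable singularities in `L²`
-/

set_option autoImplicit false

open MeasureTheory Complex Set Topology Filter Metric
open scoped ContDiff Real ENNReal

namespace Pool.Agent.Lib.H27

lemma cis_eq_exp (θ : ℝ) : cis θ = cexp (θ * I) := by
  rw [cis, Complex.exp_mul_I]; simp

lemma circle_mean {h : ℂ → ℂ} {R ρ : ℝ} (hh : DifferentiableOn ℂ h (ball 0 R)) (hρ : 0 < ρ)
    (hρR : ρ < R) : ∫ θ in Ioo (-π) π, h ((ρ : ℂ) * cis θ) = 2 * π * h 0 := by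
  have h1 : Real.circleAverage h 0 ρ = h 0 := by
    apply circleAverage_of_differentiable_on_off_countable countable_empty
    · apply hh.continuousOn.mono
      rw [abs_of_pos hρ]
      exact closedBall_subset_ball hρR
    · intro w hw
      rw [abs_of_pos hρ, sdiff_empty] at hw
      exact hh.differentiableAt (isOpen_ball.mem_nhds (ball_subset_ball hρR.le hw))
  rw [Real.circleAverage_def] at h1
  have h2 : ∫ θ in (0:ℝ)..2 * π, h (circleMap 0 ρ θ) = ∫ θ in (-π)..π, h (circleMap 0 ρ θ) := by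
    have hper : Function.Periodic (fun θ => h (circleMap 0 ρ θ)) (2 * π) := by
      intro θ
      simp only
      rw [periodic_circleMap 0 ρ θ]
    have := hper.intervalIntegral_add_eq 0 (-π)
    rw [zero_add] at this
    rw [this]
    congr 1
    ring
  rw [h2, intervalIntegral.integral_of_le (by linarith [Real.pi_pos]),
    integral_Ioc_eq_integral_Ioo] at h1
  have h3 : ∀ θ : ℝ, circleMap 0 ρ θ = (ρ : ℂ) * cis θ := by
    intro θ; rw [circleMap, cis_eq_exp, zero_add]
  simp only [h3] at h1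
  have h4 : (2 * π : ℝ) ≠ 0 := by positivity
  rw [← h1, Complex.real_smul]
  push_cast
  field_simp

lemma area_mean_lintegral {h : ℂ → ℂ} {R : ℝ} (hR : 0 < R) (hh : DifferentiableOn ℂ h (ball 0 R)) :
    ENNReal.ofReal (π * R ^ 2) * ‖h 0‖ₑ ≤ ∫⁻ w in ball 0 R, ‖h w‖ₑ := by
  have hmeas : Measurable ((ball (0:ℂ) R).indicator fun w => ‖h w‖ₑ) := by
    classical
    have h1 : Measurable ((ball (0:ℂ) R).indicator h) := by
      have := ContinuousOn.measurable_piecewise (f := h) (g := fun _ => (0:ℂ))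
        (s := ball (0:ℂ) R) hh.continuousOn continuousOn_const measurableSet_ball
      exact this
    have h2 : ((ball (0:ℂ) R).indicator fun w => ‖h w‖ₑ)
        = fun w => ‖(ball (0:ℂ) R).indicator h w‖ₑ := by
      funext w
      by_cases hw : w ∈ ball (0:ℂ) R
      · rw [indicator_of_mem hw, indicator_of_mem hw]
      · rw [indicator_of_notMem hw, indicator_of_notMem hw]; simp
    rw [h2]
    exact h1.enorm
  rw [← lintegral_indicator measurableSet_ball, ← Complex.lintegral_comp_polarCoord_symm]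
  have hT' : _root_.polarCoord.target = Ioi (0:ℝ) ×ˢ Ioo (-π) π := rfl
  rw [hT', Measure.volume_eq_prod, ← Measure.prod_restrict, lintegral_prod]
  · have h1 : ∀ ρ ∈ Ioo (0:ℝ) R, ENNReal.ofReal ρ * (ENNReal.ofReal (2 * π) * ‖h 0‖ₑ) ≤
        ∫⁻ θ in Ioo (-π) π, ENNReal.ofReal ρ •
          (ball (0:ℂ) R).indicator (fun w => ‖h w‖ₑ) (Complex.polarCoord.symm (ρ, θ)) := by
      intro ρ hρ
      have h2 : ∀ θ : ℝ, Complex.polarCoord.symm (ρ, θ) = (ρ : ℂ) * cis θ := by
        intro θ; rw [Complex.polarCoord_symm_apply, cis]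
      have h3 : ∀ θ : ℝ, (ball (0:ℂ) R).indicator (fun w => ‖h w‖ₑ) ((ρ : ℂ) * cis θ)
          = ‖h ((ρ : ℂ) * cis θ)‖ₑ := by
        intro θ
        rw [indicator_of_mem]
        rw [mem_ball_zero_iff, norm_mul, norm_cis, mul_one, Complex.norm_real, Real.norm_eq_abs,
          abs_of_pos hρ.1]
        exact hρ.2
      simp only [h2, h3, smul_eq_mul]
      have hc : Continuous (fun θ : ℝ => h ((ρ : ℂ) * cis θ)) := by
        apply hh.continuousOn.comp_continuous (continuous_const.mul continuous_cis)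
        intro θ
        rw [mem_ball_zero_iff]
        change ‖(ρ : ℂ) * cis θ‖ < R
        rw [norm_mul, norm_cis, mul_one, Complex.norm_real, Real.norm_eq_abs, abs_of_pos hρ.1]
        exact hρ.2
      rw [lintegral_const_mul _ hc.enorm.measurable]
      gcongr
      have h4 := circle_mean hh hρ.1 hρ.2
      have h5 : ENNReal.ofReal (2 * π) * ‖h 0‖ₑ = ‖2 * π * h 0‖ₑ := by
        rw [enorm_mul]
        congr 1
        have : (2 * π : ℂ) = ((2 * π : ℝ) : ℂ) := by push_cast; ring
        rw [this, ← ofReal_norm, Complex.norm_real, Real.norm_eq_abs, abs_of_pos (by positivity)]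
      rw [h5, ← h4]
      exact enorm_integral_le_lintegral_enorm _
    calc ENNReal.ofReal (π * R ^ 2) * ‖h 0‖ₑ
        = ∫⁻ ρ in Ioo (0:ℝ) R, ENNReal.ofReal ρ * (ENNReal.ofReal (2 * π) * ‖h 0‖ₑ) := by
          rw [lintegral_mul_const _ (by fun_prop)]
          have h6 : ∫⁻ ρ in Ioo (0:ℝ) R, ENNReal.ofReal ρ = ENNReal.ofReal (R ^ 2 / 2) := by
            rw [← ofReal_integral_eq_lintegral_ofReal]
            · rw [← integral_Ioc_eq_integral_Ioo, ← intervalIntegral.integral_of_le hR.le,
                integral_id]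
              congr 1
              ring
            · exact (continuous_id.integrableOn_Icc).mono_set Ioo_subset_Icc_self
            · exact (ae_restrict_iff' measurableSet_Ioo).mpr
                (Eventually.of_forall fun x hx => hx.1.le)
          rw [h6, ← mul_assoc, ← ENNReal.ofReal_mul (by positivity)]
          congr 2
          ring
      _ ≤ ∫⁻ ρ in Ioo (0:ℝ) R, ∫⁻ θ in Ioo (-π) π, ENNReal.ofReal ρ •
          (ball (0:ℂ) R).indicator (fun w => ‖h w‖ₑ) (Complex.polarCoord.symm (ρ, θ)) :=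
          setLIntegral_mono' measurableSet_Ioo h1
      _ ≤ _ := lintegral_mono_set Ioo_subset_Ioi_self
  · apply Measurable.aemeasurable
    have h7 : Measurable (fun p : ℝ × ℝ => Complex.polarCoord.symm p) := by
      have : (fun p : ℝ × ℝ => Complex.polarCoord.symm p)
          = fun p : ℝ × ℝ => (p.1 : ℂ) * cis p.2 := by
        funext p
        rw [Complex.polarCoord_symm_apply, cis]
      rw [this]
      exact ((Complex.continuous_ofReal.comp continuous_fst).mul
        (continuous_cis.comp continuous_snd)).measurable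
    exact (ENNReal.measurable_ofReal.comp measurable_fst).smul (hmeas.comp h7)

/-- **Area mean value inequality.** -/
theorem area_mean {v : ℂ → ℂ} {z : ℂ} {R : ℝ} (hR : 0 < R) (hv : DifferentiableOn ℂ v (ball z R))
    (hint : IntegrableOn (fun w => ‖v w‖ ^ 2) (ball z R)) :
    π * R ^ 2 * ‖v z‖ ^ 2 ≤ ∫ w in ball z R, ‖v w‖ ^ 2 := by
  have hmap : ∀ w ∈ ball (0:ℂ) R, z + w ∈ ball z R := by
    intro w hw
    simpa [dist_eq_norm] using hw
  have hh : DifferentiableOn ℂ (fun w => v (z + w) ^ 2) (ball 0 R) := by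
    apply DifferentiableOn.pow
    exact hv.comp (by fun_prop) hmap
  have h1 := area_mean_lintegral hR hh
  simp only [add_zero] at h1
  have h2 : ∫⁻ w in ball (0:ℂ) R, ‖v (z + w) ^ 2‖ₑ = ∫⁻ w in ball z R, ‖v w ^ 2‖ₑ := by
    rw [← lintegral_indicator measurableSet_ball, ← lintegral_indicator measurableSet_ball]
    rw [← lintegral_add_left_eq_self ((ball z R).indicator fun w => ‖v w ^ 2‖ₑ) z]
    congr 1
    funext w
    by_cases hw : w ∈ ball (0:ℂ) R
    · rw [indicator_of_mem hw, indicator_of_mem (hmap w hw)]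
    · rw [indicator_of_notMem hw, indicator_of_notMem]
      simpa [dist_eq_norm] using hw
  rw [h2] at h1
  have h3 : ∫⁻ w in ball z R, ‖v w ^ 2‖ₑ = ENNReal.ofReal (∫ w in ball z R, ‖v w‖ ^ 2) := by
    rw [ofReal_integral_eq_lintegral_ofReal hint (Eventually.of_forall fun w => by positivity)]
    congr 1
    funext w
    rw [← ofReal_norm, norm_pow]
  have h4 : ENNReal.ofReal (π * R ^ 2) * ‖v z ^ 2‖ₑ = ENNReal.ofReal (π * R ^ 2 * ‖v z‖ ^ 2) := by
    rw [← ofReal_norm, norm_pow, ← ENNReal.ofReal_mul (by positivity)]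
  rw [h3, h4] at h1
  exact (ENNReal.ofReal_le_ofReal_iff (integral_nonneg fun w => by positivity)).mp h1

/-- A square integrable holomorphic function has at most a removable singularity: `o`-form. -/
theorem removable_L2 {v : ℂ → ℂ} {b : ℂ} {ρ : ℝ} (hρ : 0 < ρ)
    (hv : DifferentiableOn ℂ v (ball b ρ \ {b}))
    (hint : IntegrableOn (fun w => ‖v w‖ ^ 2) (ball b ρ)) :
    Tendsto (fun z => (z - b) * v z) (𝓝[≠] b) (𝓝 0) := by
  have h1 : Tendsto (fun t : ℝ => ∫ w in ball b t, ‖v w‖ ^ 2 ∂(volume.restrict (ball b ρ)))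
      (𝓝 0) (𝓝 0) := by
    apply Integrable.tendsto_setIntegral_nhds_zero hint
    have h2 : Tendsto (fun t : ℝ => (volume : Measure ℂ) (ball b t)) (𝓝 0) (𝓝 0) := by
      simp only [Complex.volume_ball]
      have h3 : Tendsto (fun t : ℝ => ENNReal.ofReal t ^ 2 * (NNReal.pi : ℝ≥0∞)) (𝓝 0)
          (𝓝 (ENNReal.ofReal 0 ^ 2 * (NNReal.pi : ℝ≥0∞))) := by
        apply ENNReal.Tendsto.mul_const
        · exact ((ENNReal.continuous_pow 2).comp ENNReal.continuous_ofReal).tendsto 0
        · right; simp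
      simpa using h3
    apply tendsto_of_tendsto_of_tendsto_of_le_of_le tendsto_const_nhds h2
    · intro t; exact zero_le
    · intro t
      exact Measure.restrict_apply_le _ _
  have h4 : Tendsto (fun z : ℂ => 2 * ‖z - b‖) (𝓝[≠] b) (𝓝 0) := by
    have : Tendsto (fun z : ℂ => 2 * ‖z - b‖) (𝓝 b) (𝓝 (2 * ‖b - b‖)) :=
      (Continuous.tendsto (by fun_prop) b)
    simp only [sub_self, norm_zero, mul_zero] at this
    exact this.mono_left nhdsWithin_le_nhds
  have h5 := h1.comp h4
  have h6 : ∀ᶠ z in 𝓝[≠] b, ‖(z - b) * v z‖ ^ 2 ≤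
      π⁻¹ * ∫ w in ball b (2 * ‖z - b‖), ‖v w‖ ^ 2 ∂(volume.restrict (ball b ρ)) := by
    have h7 : ∀ᶠ z in 𝓝[≠] b, 2 * ‖z - b‖ < ρ := h4.eventually_lt_const hρ
    filter_upwards [h7, self_mem_nhdsWithin] with z hz hzb
    have hδ : 0 < ‖z - b‖ := norm_pos_iff.mpr (sub_ne_zero.mpr hzb)
    have hsub : ball z ‖z - b‖ ⊆ ball b (2 * ‖z - b‖) := by
      apply ball_subset_ball'
      rw [dist_eq_norm]
      linarith
    have hsub2 : ball z ‖z - b‖ ⊆ ball b ρ \ {b} := by
      intro w hw
      refine ⟨ball_subset_ball hz.le (hsub hw), ?_⟩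
      rintro rfl
      rw [mem_ball, dist_comm, dist_eq_norm] at hw
      exact lt_irrefl _ hw
    have hint2 : IntegrableOn (fun w => ‖v w‖ ^ 2) (ball z ‖z - b‖) :=
      hint.mono_set (hsub2.trans sdiff_subset)
    have h8 := area_mean hδ (hv.mono hsub2) hint2
    have h9 : ∫ w in ball z ‖z - b‖, ‖v w‖ ^ 2 ≤
        ∫ w in ball b (2 * ‖z - b‖), ‖v w‖ ^ 2 ∂(volume.restrict (ball b ρ)) := by
      rw [Measure.restrict_restrict measurableSet_ball,
        inter_eq_self_of_subset_left (ball_subset_ball hz.le)]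
      apply setIntegral_mono_set (hint.mono_set (ball_subset_ball hz.le))
      · exact Eventually.of_forall fun w => by positivity
      · exact hsub.eventuallyLE
    rw [norm_mul, mul_pow, le_inv_mul_iff₀ Real.pi_pos]
    calc π * (‖z - b‖ ^ 2 * ‖v z‖ ^ 2) = π * ‖z - b‖ ^ 2 * ‖v z‖ ^ 2 := by ring
      _ ≤ _ := h8.trans h9
  have h10 : Tendsto (fun z => ‖(z - b) * v z‖ ^ 2) (𝓝[≠] b) (𝓝 0) := by
    apply tendsto_of_tendsto_of_tendsto_of_le_of_le' tendsto_const_nhds
      (h5.const_mul π⁻¹ |>.trans (by simp)) (Eventually.of_forall fun z => by positivity) h6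
  have h11 : Tendsto (fun z => ‖(z - b) * v z‖) (𝓝[≠] b) (𝓝 0) := by
    have := h10.sqrt
    rw [Real.sqrt_zero] at this
    exact this.congr fun z => Real.sqrt_sq (norm_nonneg _)
  exact tendsto_zero_iff_norm_tendsto_zero.mpr h11

end Pool.Agent.Lib.H27
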