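import Pool.Agent.Lib.H27.Hyp

/-!
# Sums over separated sets in the hyperbolic plane
-/

set_option autoImplicit false

open Complex Set Topology Filter UpperHalfPlane MeasureTheory
open scoped ContDiff MatrixGroups ComplexConjugate

namespace Pool.Agent.Lib.H27

/-- The comparison function. -/
noncomputable def FF (w : ℂ) : ℝ := ((1 + ‖w‖ ^ 2) ^ 2)⁻¹

lemma FF_pos (w : ℂ) : 0 < FF w := by unfold FF; positivity

lemma integrable_FF : Integrable FF := by
  have h : (Module.finrank ℝ ℂ : ℝ) < 4 := by simp; norm_num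
  have h1 := integrable_rpow_neg_one_add_norm_sq (μ := (volume : Measure ℂ)) h
  refine h1.congr (Eventually.of_forall fun w => ?_)
  simp only [FF]
  have h2 : (0 : ℝ) < 1 + ‖w‖ ^ 2 := by positivity
  have h3 : (-4 / 2 : ℝ) = -((2 : ℕ) : ℝ) := by norm_num
  rw [h3, Real.rpow_neg h2.le, Real.rpow_natCast]

lemma im_of_mem_ball {a : ℍ} {c : ℝ} (hc : c ≤ 1 / 2) {w : ℂ}
    (hw : w ∈ Metric.ball (a : ℂ) (c * a.im)) : a.im / 2 < w.im := by
  have h1 : ‖w - a‖ < c * a.im := by rwa [← dist_eq_norm]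
  have h2 : |(w - a).im| ≤ ‖w - a‖ := abs_im_le_norm _
  have h3 : (w - a).im = w.im - a.im := by simp
  rw [h3] at h2
  have h4 := neg_abs_le (w.im - a.im)
  have h5 := a.im_pos
  have h6 : c * a.im ≤ 1 / 2 * a.im := mul_le_mul_of_nonneg_right hc h5.le
  linarith

/-- Euclidean balls are contained in hyperbolic ones. -/
lemma dist_of_mem_ball {a : ℍ} {c : ℝ} (hc : c ≤ 1 / 2) {w : ℍ}
    (hw : (w : ℂ) ∈ Metric.ball (a : ℂ) (c * a.im)) : dist w a < 2 * c := by
  have h1 : ‖(w : ℂ) - a‖ < c * a.im := by rwa [← dist_eq_norm]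
  have h2 := im_of_mem_ball hc hw
  have h3 := dist_le_dist_coe_div_sqrt w a
  have h5 := a.im_pos
  have h6 : a.im / 2 ≤ √(w.im * a.im) := by
    apply Real.le_sqrt_of_sq_le
    simp only [coe_im] at h2
    nlinarith
  have h7 : 0 < a.im / 2 := by positivity
  calc dist w a ≤ dist (w : ℂ) a / √(w.im * a.im) := h3
    _ ≤ dist (w : ℂ) a / (a.im / 2) := by gcongr
    _ < c * a.im / (a.im / 2) := by
        apply div_lt_div_of_pos_right _ h7
        rwa [dist_eq_norm]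
    _ = 2 * c := by field_simp

lemma wg_I (a : ℍ) : wg a (UpperHalfPlane.I : ℍ) = 4 * a.im / (1 + 2 * a.im + ‖(a : ℂ)‖ ^ 2) := by
  have h1 : ‖((UpperHalfPlane.I : ℍ) : ℂ) - (starRingEnd ℂ) (a : ℂ)‖ ^ 2
      = 1 + 2 * a.im + ‖(a : ℂ)‖ ^ 2 := by
    rw [Complex.sq_norm, Complex.sq_norm, Complex.normSq_apply, Complex.normSq_apply]
    simp
    ring
  rw [wg, h1]
  simp

lemma FF_ball_lower {a : ℍ} {c : ℝ} (hc0 : 0 < c) (hc : c ≤ 1 / 2) :
    c ^ 2 * Real.pi / 81 * wg a (UpperHalfPlane.I : ℍ) ^ 2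
      ≤ ∫ w in Metric.ball (a : ℂ) (c * a.im), FF w := by
  have ha := a.im_pos
  set A := 1 + 2 * a.im + ‖(a : ℂ)‖ ^ 2 with hA
  have hA0 : 0 < A := by positivity
  have h1 : ∀ w ∈ Metric.ball (a : ℂ) (c * a.im), ((81 / 16) * A ^ 2)⁻¹ ≤ FF w := by
    intro w hw
    have h2 : ‖w - a‖ < c * a.im := by rwa [← dist_eq_norm]
    have h3 : ‖w‖ ≤ 3 / 2 * ‖(a : ℂ)‖ := by
      have h4 : ‖w‖ ≤ ‖(a : ℂ)‖ + ‖w - a‖ := by
        have := norm_add_le (a : ℂ) (w - a)
        simpa using this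
      have h5 : a.im ≤ ‖(a : ℂ)‖ := by
        have := abs_im_le_norm (a : ℂ)
        simp only [coe_im] at this
        exact (le_abs_self _).trans this
      nlinarith
    have h6 : 1 + ‖w‖ ^ 2 ≤ 9 / 4 * A := by
      have : ‖w‖ ^ 2 ≤ (3 / 2 * ‖(a : ℂ)‖) ^ 2 := pow_le_pow_left₀ (norm_nonneg _) h3 2
      nlinarith
    rw [FF]
    apply inv_anti₀ (by positivity)
    calc (1 + ‖w‖ ^ 2) ^ 2 ≤ (9 / 4 * A) ^ 2 := pow_le_pow_left₀ (by positivity) h6 2
      _ = 81 / 16 * A ^ 2 := by ring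
  have h2 : (volume.real (Metric.ball (a : ℂ) (c * a.im))) = (c * a.im) ^ 2 * Real.pi := by
    rw [Measure.real, Complex.volume_ball]
    rw [ENNReal.toReal_mul, ENNReal.toReal_pow, ENNReal.toReal_ofReal (by positivity)]
    simp
  have h3 := setIntegral_ge_of_const_le_real (μ := (volume : Measure ℂ)) measurableSet_ball
    (by rw [Complex.volume_ball]; exact ENNReal.mul_ne_top (by simp) (by simp)) h1
    integrable_FF.integrableOn
  rw [h2] at h3
  refine le_trans (le_of_eq ?_) h3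
  rw [wg_I, ← hA]
  field_simp
  ring

lemma net_sum_I {r : ℝ} (hr : 0 < r) : ∃ C : ℝ, 0 < C ∧ ∀ s : Finset ℍ,
    (∀ p ∈ s, ∀ q ∈ s, p ≠ q → r ≤ dist p q) →
      ∑ a ∈ s, wg a (UpperHalfPlane.I : ℍ) ^ 2 ≤ C := by
  set c := min (1 / 2) (r / 4) with hcdef
  have hc0 : 0 < c := by positivity
  have hc : c ≤ 1 / 2 := min_le_left _ _
  have hcr : c ≤ r / 4 := min_le_right _ _
  have hI : 0 ≤ ∫ w, FF w := integral_nonneg fun w => (FF_pos w).le
  refine ⟨(81 / (c ^ 2 * Real.pi)) * ((∫ w, FF w) + 1), by positivity, ?_⟩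
  intro s hs
  have h1 : ∀ a ∈ s, wg a (UpperHalfPlane.I : ℍ) ^ 2 ≤
      (81 / (c ^ 2 * Real.pi)) * ∫ w in Metric.ball (a : ℂ) (c * a.im), FF w := by
    intro a _
    have h2 := FF_ball_lower (a := a) hc0 hc
    have h3 : (81 / (c ^ 2 * Real.pi)) * (c ^ 2 * Real.pi / 81 * wg a (UpperHalfPlane.I : ℍ) ^ 2)
        = wg a (UpperHalfPlane.I : ℍ) ^ 2 := by field_simp
    rw [← h3]
    exact mul_le_mul_of_nonneg_left h2 (by positivity)
  refine (Finset.sum_le_sum h1).trans ?_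
  rw [← Finset.mul_sum]
  apply mul_le_mul_of_nonneg_left _ (by positivity)
  rw [← integral_biUnion_finset s (fun a _ => measurableSet_ball) _
    (fun a _ => integrable_FF.integrableOn)]
  · refine (setIntegral_le_integral integrable_FF
      (Eventually.of_forall fun w => (FF_pos w).le)).trans (by linarith)
  · intro a ha b hb hab
    rw [Function.onFun, Set.disjoint_left]
    intro w hwa hwb
    have him : 0 < w.im := by
      have := im_of_mem_ball hc hwa
      have := a.im_pos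
      linarith
    have h4 := dist_of_mem_ball (w := ⟨w, him⟩) hc hwa
    have h5 := dist_of_mem_ball (w := ⟨w, him⟩) hc hwb
    have h6 := hs a ha b hb hab
    have h7 := dist_triangle_left a b (⟨w, him⟩ : ℍ)
    linarith

/-- The sum of squares of the weights over a separated set is bounded. -/
theorem net_sum {r : ℝ} (hr : 0 < r) : ∃ C : ℝ, 0 < C ∧ ∀ s : Finset ℍ,
    (∀ p ∈ s, ∀ q ∈ s, p ≠ q → r ≤ dist p q) → ∀ z : ℍ, ∑ a ∈ s, wg a z ^ 2 ≤ C := by
  obtain ⟨C, hC, h⟩ := net_sum_I hr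
  refine ⟨C, hC, fun s hs z => ?_⟩
  classical
  set g := z.toSL2R with hg
  have hgI : g • UpperHalfPlane.I = z := toSL2R_smul_I z
  have h1 := h (s.image fun a => g⁻¹ • a) ?_
  · rw [Finset.sum_image (fun a _ b _ hab => by simpa using hab)] at h1
    refine le_trans (le_of_eq (Finset.sum_congr rfl fun a _ => ?_)) h1
    have := wg_smul g (g⁻¹ • a) UpperHalfPlane.I
    rw [hgI, smul_inv_smul] at this
    rw [this]
  · intro p hp q hq hpq
    rw [Finset.mem_image] at hp hq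
    obtain ⟨a, ha, rfl⟩ := hp
    obtain ⟨b, hb, rfl⟩ := hq
    rw [dist_smul]
    exact hs a ha b hb (fun h => hpq (by rw [h]))

/-- Summability of the weights over a separated set. -/
theorem net_summable {r : ℝ} (hr : 0 < r) : ∃ C : ℝ, 0 < C ∧ ∀ D : Set ℍ,
    (∀ p ∈ D, ∀ q ∈ D, p ≠ q → r ≤ dist p q) → ∀ z : ℍ,
      Summable (fun a : D => wg (a : ℍ) z ^ 2) ∧ ∑' a : D, wg (a : ℍ) z ^ 2 ≤ C := by
  obtain ⟨C, hC, h⟩ := net_sum hr
  refine ⟨C, hC, fun D hD z => ?_⟩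
  have h1 : ∀ s : Finset D, ∑ a ∈ s, wg (a : ℍ) z ^ 2 ≤ C := by
    intro s
    have h2 := h (s.map (Function.Embedding.subtype _)) ?_ z
    · simpa using h2
    · intro p hp q hq hpq
      simp only [Finset.mem_map, Function.Embedding.subtype_apply] at hp hq
      obtain ⟨a, _, rfl⟩ := hp
      obtain ⟨b, _, rfl⟩ := hq
      exact hD a a.2 b b.2 hpq
  exact ⟨summable_of_sum_le (fun a => by positivity) h1,
    Real.tsum_le_of_sum_le (fun a => by positivity) h1⟩

end Pool.Agent.Lib.H27
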