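import Pool.Agent.Lib.H27.LogT
import Pool.Agent.Lib.H27.Net
import Pool.Agent.Lib.H27.Mean

/-!
# The weight function
-/

set_option autoImplicit false

open Complex Set Topology Filter UpperHalfPlane MeasureTheory InnerProductSpace Laplacian
open scoped ContDiff MatrixGroups ComplexConjugate

namespace Pool.Agent.Lib.H27

lemma isOpen_uhp : IsOpen uhp := isOpen_lt continuous_const Complex.continuous_im

lemma coe_mem_uhp (z : ℍ) : (z : ℂ) ∈ uhp := z.im_pos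

section single

lemma HD_sub_sq (a z : ℂ) : HD (fun w => (w.re - a.re) ^ 2 + (w.im - a.im) ^ 2) z
    (2 * (z.re - a.re)) (2 * (z.im - a.im)) 4 :=
  (((HD.re z).sub_const a.re).sq.add ((HD.im z).sub_const a.im).sq).congr_vals
    (by ring) (by ring) (by ring)

lemma HD_add_sq (a z : ℂ) : HD (fun w => (w.re - a.re) ^ 2 + (w.im + a.im) ^ 2) z
    (2 * (z.re - a.re)) (2 * (z.im + a.im)) 4 :=
  (((HD.re z).sub_const a.re).sq.add ((HD.im z).add_const a.im).sq).congr_vals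
    (by ring) (by ring) (by ring)

lemma norm_sub_sq' (a z : ℂ) : ‖z - a‖ ^ 2 = (z.re - a.re) ^ 2 + (z.im - a.im) ^ 2 := by
  rw [Complex.sq_norm, Complex.normSq_apply]; simp; ring

lemma norm_sub_conj_sq (a z : ℂ) :
    ‖z - (starRingEnd ℂ) a‖ ^ 2 = (z.re - a.re) ^ 2 + (z.im + a.im) ^ 2 := by
  rw [Complex.sq_norm, Complex.normSq_apply]; simp; ring

lemma norm_zt_sq_eq (a z : ℂ) : ‖zt a z‖ ^ 2 =
    ((z.re - a.re) ^ 2 + (z.im - a.im) ^ 2) / ((z.re - a.re) ^ 2 + (z.im + a.im) ^ 2) := by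
  rw [zt, norm_div, div_pow, norm_sub_sq', norm_sub_conj_sq]

lemma wg_eq' (a z : ℂ) : wg a z = 4 * a.im * z.im / ((z.re - a.re) ^ 2 + (z.im + a.im) ^ 2) := by
  rw [wg, norm_sub_conj_sq]

lemma HD_log_zt {a z : ℍ} (h : z ≠ a) : ∃ p q : ℝ,
    HD (fun w => Real.log (‖zt a w‖ ^ 2)) z p q 0 ∧
      z.im ^ 2 * (p ^ 2 + q ^ 2) * ‖zt a z‖ ^ 2 = wg a z ^ 2 := by
  have hP : (0 : ℝ) < ((z : ℂ).re - (a : ℂ).re) ^ 2 + ((z : ℂ).im - (a : ℂ).im) ^ 2 := by
    rw [← norm_sub_sq']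
    have : (z : ℂ) - a ≠ 0 := sub_ne_zero.mpr (fun h' => h (UpperHalfPlane.ext h'))
    positivity
  have hP' : (0 : ℝ) < ((z : ℂ).re - (a : ℂ).re) ^ 2 + ((z : ℂ).im + (a : ℂ).im) ^ 2 := by
    rw [← norm_sub_conj_sq]
    have := sub_conj_ne a z
    positivity
  have h1 := ((HD_sub_sq a z).log hP.ne').sub ((HD_add_sq a z).log hP'.ne')
  have hev : (fun w : ℂ => Real.log ((w.re - (a : ℂ).re) ^ 2 + (w.im - (a : ℂ).im) ^ 2)
      - Real.log ((w.re - (a : ℂ).re) ^ 2 + (w.im + (a : ℂ).im) ^ 2)) =ᶠ[𝓝 (z : ℂ)]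
      fun w => Real.log (‖zt a w‖ ^ 2) := by
    filter_upwards [(HD_sub_sq a z).cd.continuousAt.eventually_ne hP.ne',
      (HD_add_sq a z).cd.continuousAt.eventually_ne hP'.ne'] with w h2 h3
    rw [norm_zt_sq_eq, Real.log_div h2 h3]
  refine ⟨_, _, (h1.congr hev).congr_vals rfl rfl ?_, ?_⟩
  · set x := (z : ℂ).re - (a : ℂ).re
    set y := (z : ℂ).im
    set b := (a : ℂ).im
    have e1 : (2 * x) ^ 2 + (2 * (y - b)) ^ 2 = 4 * (x ^ 2 + (y - b) ^ 2) := by ring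
    have e2 : (2 * x) ^ 2 + (2 * (y + b)) ^ 2 = 4 * (x ^ 2 + (y + b) ^ 2) := by ring
    rw [e1, e2]
    field_simp
    ring
  · rw [norm_zt_sq_eq, wg_eq']
    simp only [← coe_im]
    set x := (z : ℂ).re - (a : ℂ).re
    set y := (z : ℂ).im
    set b := (a : ℂ).im
    set P := x ^ 2 + (y - b) ^ 2 with hPdef
    set P' := x ^ 2 + (y + b) ^ 2 with hP'def
    have e1 : (2 * x / P - 2 * x / P') ^ 2 + (2 * (y - b) / P - 2 * (y + b) / P') ^ 2
        = (4 * P' ^ 2 * P + 4 * P ^ 2 * P' - 8 * P * P' * (x ^ 2 + y ^ 2 - b ^ 2))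
          / (P ^ 2 * P' ^ 2) := by
      have f1 : (2 * x / P - 2 * x / P') ^ 2 + (2 * (y - b) / P - 2 * (y + b) / P') ^ 2
        = (4 * P' ^ 2 * (x ^ 2 + (y - b) ^ 2) + 4 * P ^ 2 * (x ^ 2 + (y + b) ^ 2)
          - 8 * P * P' * (x ^ 2 + y ^ 2 - b ^ 2)) / (P ^ 2 * P' ^ 2) := by
        field_simp
        ring
      rw [f1, ← hPdef, ← hP'def]
    rw [e1]
    have e2 : 4 * P' ^ 2 * P + 4 * P ^ 2 * P' - 8 * P * P' * (x ^ 2 + y ^ 2 - b ^ 2)
        = P * P' * (16 * b ^ 2) := by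
      have : 4 * P' + 4 * P - 8 * (x ^ 2 + y ^ 2 - b ^ 2) = 16 * b ^ 2 := by
        rw [hPdef, hP'def]; ring
      rw [← this]; ring
    rw [e2]
    field_simp
    ring

lemma HD_log_wg (p z : ℍ) : ∃ a b : ℝ,
    HD (fun w => Real.log (wg p w)) z a b (-(1 / z.im ^ 2)) := by
  have hP' : (0 : ℝ) < ((z : ℂ).re - (p : ℂ).re) ^ 2 + ((z : ℂ).im + (p : ℂ).im) ^ 2 := by
    rw [← norm_sub_conj_sq]
    have := sub_conj_ne p z
    positivity
  have hp : 0 < (p : ℂ).im := p.im_pos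
  have hz : 0 < (z : ℂ).im := z.im_pos
  have h1 := ((HD_log_im hz).sub ((HD_add_sq p z).log hP'.ne')).add_const (Real.log (4 * (p : ℂ).im))
  have him : ∀ᶠ w in 𝓝 (z : ℂ), 0 < w.im := isOpen_uhp.mem_nhds hz
  refine ⟨_, _, (h1.congr (g := fun w => Real.log (wg p w)) ?_).congr_vals rfl rfl ?_⟩
  · filter_upwards [him, (HD_add_sq p z).cd.continuousAt.eventually_ne hP'.ne'] with w h2 h3
    rw [wg_eq', Real.log_div (by positivity) h3, Real.log_mul (by positivity) h2.ne']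
    ring
  · set x := (z : ℂ).re - (p : ℂ).re
    simp only [← coe_im]
    set y := (z : ℂ).im
    set b := (p : ℂ).im
    have e2 : (2 * x) ^ 2 + (2 * (y + b)) ^ 2 = 4 * (x ^ 2 + (y + b) ^ 2) := by ring
    rw [e2]
    field_simp
    ring

/-- The single term `K(log(4|ζ|²))`. -/
noncomputable def gK (a z : ℂ) : ℝ := Kf (Real.log (4 * ‖zt a z‖ ^ 2))

lemma gK_nonneg (a z : ℂ) : 0 ≤ gK a z := Kf_nonneg _

lemma zt_ne_zero {a z : ℍ} (h : z ≠ a) : zt a z ≠ 0 := fun h' => h ((zt_eq_zero_iff a z).mp h')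

lemma HD_gK {a z : ℍ} (h : z ≠ a) : ∃ p q l : ℝ, HD (gK a) z p q l ∧
    z.im ^ 2 * l = 12 * qf (Real.log (4 * ‖zt a z‖ ^ 2)) ^ 2 * wg a z ^ 2 := by
  obtain ⟨p, q, h1, h2⟩ := HD_log_zt h
  have h0 : 0 < ‖zt a z‖ := norm_pos_iff.mpr (zt_ne_zero h)
  have h3 : HD (fun w => Real.log (4 * ‖zt a w‖ ^ 2)) z p q 0 := by
    refine (h1.add_const (Real.log 4)).congr ?_
    have hc : ContinuousAt (fun w => ‖zt a w‖ ^ 2) (z : ℂ) :=
      ((hasDerivAt_zt a z).continuousAt.norm).pow 2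
    filter_upwards [hc.eventually_ne (by positivity : ‖zt a z‖ ^ 2 ≠ 0)] with w hw
    rw [Real.log_mul (by norm_num) hw]
    ring
  have h4 := h3.Kf
  refine ⟨_, _, _, h4, ?_⟩
  rw [Real.exp_log (by positivity)]
  rw [← h2]
  ring

/-- a term vanishes unless the points are close -/
lemma gK_eq_zero {a z : ℍ} (h : wg a z ≤ 3 / 4) : gK a z = 0 := by
  apply Kf_of_nonneg
  apply Real.log_nonneg
  have := norm_zt_sq a z
  linarith

lemma gK_le {a z : ℍ} (h : z ≠ a) : gK a z ≤ -Real.log (‖zt a z‖ ^ 2) := by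
  have h0 : 0 < ‖zt a z‖ := norm_pos_iff.mpr (zt_ne_zero h)
  have hlt := norm_zt_lt_one a z
  have h1 : Real.log (‖zt a z‖ ^ 2) ≤ 0 :=
    Real.log_nonpos (by positivity) (pow_le_one₀ h0.le hlt.le)
  rcases le_total (Real.log (4 * ‖zt a z‖ ^ 2)) 0 with h2 | h2
  · refine (Kf_le h2).trans ?_
    rw [neg_le_neg_iff]
    apply Real.log_le_log (by positivity)
    nlinarith [sq_nonneg ‖zt a z‖]
  · rw [gK, Kf_of_nonneg h2]
    linarith

lemma gK_le_wg {a z : ℍ} (h : z ≠ a) : gK a z ≤ -Real.log (‖zt a z‖ ^ 2) * (16 / 9 * wg a z ^ 2) := by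
  rcases le_or_gt (wg a z) (3 / 4) with h1 | h1
  · rw [gK_eq_zero h1]
    have h0 : 0 < ‖zt a z‖ := norm_pos_iff.mpr (zt_ne_zero h)
    have hlt := norm_zt_lt_one a z
    have h1 : Real.log (‖zt a z‖ ^ 2) ≤ 0 :=
      Real.log_nonpos (by positivity) (pow_le_one₀ h0.le hlt.le)
    have := sq_nonneg (wg a z)
    apply mul_nonneg (by linarith) (by positivity)
  · have h2 := gK_le h
    have h3 : 0 ≤ -Real.log (‖zt a z‖ ^ 2) := (gK_nonneg _ _).trans h2
    have h4 : 1 ≤ 16 / 9 * wg a z ^ 2 := by nlinarith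
    nlinarith

end single

section sum

lemma tanh_strictMono' {x y : ℝ} (h : x < y) : Real.tanh x < Real.tanh y := by
  rw [Real.tanh_eq_sinh_div_cosh, Real.tanh_eq_sinh_div_cosh,
    div_lt_div_iff₀ (Real.cosh_pos _) (Real.cosh_pos _)]
  have h1 : 0 < Real.sinh (y - x) := Real.sinh_pos_iff.mpr (by linarith)
  rw [Real.sinh_sub] at h1
  linarith

lemma tanh_mono' {x y : ℝ} (h : x ≤ y) : Real.tanh x ≤ Real.tanh y := by
  rcases h.eq_or_lt with h | h
  · rw [h]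
  · exact (tanh_strictMono' h).le

lemma sinh_le_mul_cosh {x : ℝ} (hx : 0 ≤ x) : Real.sinh x ≤ x * Real.cosh x := by
  have h1 : MonotoneOn (fun x : ℝ => x * Real.cosh x - Real.sinh x) (Ici 0) := by
    apply monotoneOn_of_deriv_nonneg (convex_Ici 0)
    · fun_prop
    · fun_prop
    · intro t ht
      rw [interior_Ici, mem_Ioi] at ht
      have h2 : HasDerivAt (fun x : ℝ => x * Real.cosh x - Real.sinh x)
          (1 * Real.cosh t + t * Real.sinh t - Real.cosh t) t :=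
        ((hasDerivAt_id t).mul (Real.hasDerivAt_cosh t)).sub (Real.hasDerivAt_sinh t)
      rw [h2.deriv]
      have h3 : 0 ≤ Real.sinh t := Real.sinh_nonneg_iff.mpr ht.le
      nlinarith
  have h4 := h1 (mem_Ici.mpr le_rfl) (mem_Ici.mpr hx) hx
  simp at h4
  linarith

lemma tanh_le_self {x : ℝ} (hx : 0 ≤ x) : Real.tanh x ≤ x := by
  rw [Real.tanh_eq_sinh_div_cosh, div_le_iff₀ (Real.cosh_pos _)]
  exact sinh_le_mul_cosh hx

lemma exp_three_lt : Real.exp 3 < 100 := by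
  have := Real.exp_one_lt_d9
  have h18 : Real.exp 3 = Real.exp 1 ^ 3 := by rw [← Real.exp_nat_mul]; norm_num
  rw [h18]
  have h19 : Real.exp 1 < 3 := by linarith
  calc Real.exp 1 ^ 3 < 3 ^ 3 := pow_lt_pow_left₀ h19 (Real.exp_pos _).le (by norm_num)
    _ < 100 := by norm_num

/-- a point that is close contributes -/
lemma gK_close {a z : ℍ} (hza : z ≠ a) (hd : dist z a ≤ 1 / 10) :
    0 < gK a z ∧ 11 ≤ 12 * qf (Real.log (4 * ‖zt a z‖ ^ 2)) ^ 2 * wg a z ^ 2 := by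
  have h0 : 0 < ‖zt a z‖ := norm_pos_iff.mpr (zt_ne_zero hza)
  have h5 : ‖zt a z‖ ≤ 1 / 20 := by
    rw [norm_zt]
    have h6 : Real.tanh (dist z a / 2) ≤ dist z a / 2 := tanh_le_self (by positivity)
    linarith
  have h8 : ‖zt a z‖ ^ 2 ≤ 1 / 400 := by nlinarith
  have h9 : 1 - 1 / 400 ≤ wg a z := by
    have := norm_zt_sq a z
    linarith
  have h11 : Real.log (4 * ‖zt a z‖ ^ 2) ≤ 0 := Real.log_nonpos (by positivity) (by linarith)
  have h10 : (99 / 100 : ℝ) ≤ qf (Real.log (4 * ‖zt a z‖ ^ 2)) := by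
    rw [qf_of_nonpos h11, Real.exp_log (by positivity)]
    linarith
  constructor
  · rw [gK]
    refine lt_of_lt_of_le ?_ (le_Kf _)
    have h15 : Real.log (4 * ‖zt a z‖ ^ 2) ≤ Real.log (1 / 100) :=
      Real.log_le_log (by positivity) (by linarith)
    have h16 : Real.log (1 / 100) < -3 := by
      rw [Real.log_lt_iff_lt_exp (by norm_num), Real.exp_neg, one_div]
      exact inv_strictAnti₀ (Real.exp_pos _) exp_three_lt
    linarith
  · have f1 : (99 / 100 : ℝ) ^ 2 ≤ qf (Real.log (4 * ‖zt a z‖ ^ 2)) ^ 2 :=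
      pow_le_pow_left₀ (by norm_num) h10 2
    have f2 : (1 - 1 / 400 : ℝ) ^ 2 ≤ wg a z ^ 2 := pow_le_pow_left₀ (by norm_num) h9 2
    nlinarith

lemma HD.sum {ι : Type*} (s : Finset ι) {f : ι → ℂ → ℝ} {z : ℂ} {a b l : ι → ℝ}
    (h : ∀ i ∈ s, HD (f i) z (a i) (b i) (l i)) :
    HD (fun w => ∑ i ∈ s, f i w) z (∑ i ∈ s, a i) (∑ i ∈ s, b i) (∑ i ∈ s, l i) := by
  classical
  induction s using Finset.induction_on with
  | empty => simpa using HD.const 0 z
  | insert i s hi IH =>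
    have h1 := IH (fun j hj => h j (Finset.mem_insert_of_mem hj))
    have h2 := (h i (Finset.mem_insert_self i s)).add h1
    rw [Finset.sum_insert hi, Finset.sum_insert hi, Finset.sum_insert hi]
    exact h2.congr (Eventually.of_forall fun w => by simp [Finset.sum_insert hi])

lemma eventually_coe {z₀ : ℍ} {P : ℂ → Prop} (h : ∀ᶠ z : ℍ in 𝓝 z₀, P z) :
    ∀ᶠ w in 𝓝 (z₀ : ℂ), P w := by
  rw [← isOpenEmbedding_coe.map_nhds_eq]
  exact h

/-- The sum of the cutoff logarithms. -/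
noncomputable def phi1 (D : Set ℍ) (z : ℂ) : ℝ := ∑' a : D, gK (a : ℍ) z

/-- Separated sets. -/
def Sep (D : Set ℍ) (r : ℝ) : Prop := ∀ p ∈ D, ∀ q ∈ D, p ≠ q → r ≤ dist p q

variable {D : Set ℍ} {r : ℝ}

lemma finite_near (hr : 0 < r) (hD : Sep D r) (z₀ : ℍ) {t : ℝ} (ht : 0 < t) :
    {a : D | t ≤ wg (a : ℍ) z₀}.Finite := by
  obtain ⟨C, -, hC⟩ := net_summable hr
  have h1 := (hC D hD z₀).1.tendsto_cofinite_zero
  have h2 : ∀ᶠ a : D in cofinite, wg (a : ℍ) z₀ ^ 2 < t ^ 2 :=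
    h1.eventually_lt_const (by positivity)
  rw [Filter.eventually_cofinite] at h2
  apply h2.subset
  intro a ha
  simp only [mem_ofPred_eq, not_lt]
  exact pow_le_pow_left₀ ht.le ha 2

lemma finite_active (hr : 0 < r) (hD : Sep D r) (z₀ : ℍ) :
    ∃ S : Finset D, ∀ z : ℍ, dist z z₀ ≤ 1 / 10 → ∀ a : D, a ∉ S → gK (a : ℍ) z = 0 := by
  classical
  have hfin := finite_near hr hD z₀ (t := 1 / 2) (by norm_num)
  refine ⟨hfin.toFinset, fun z hz a ha => ?_⟩
  rw [Set.Finite.mem_toFinset, mem_ofPred_eq, not_le] at ha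
  apply gK_eq_zero
  have h1 := wg_harnack (a : ℍ) z z₀
  have h2 : Real.exp (dist z z₀) ≤ 3 / 2 := by
    have h3 : Real.exp (dist z z₀) ≤ Real.exp (1 / 10) := Real.exp_le_exp.mpr hz
    have h4 : Real.exp (1 / 10) ≤ 1 / (1 - 1 / 10) := by
      have := Real.one_sub_le_exp_neg (1 / 10)
      rw [le_div_iff₀ (by norm_num)]
      calc Real.exp (1 / 10) * (1 - 1 / 10) ≤ Real.exp (1 / 10) * Real.exp (-(1 / 10)) :=
            mul_le_mul_of_nonneg_left this (Real.exp_pos _).le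
        _ = 1 := by rw [← Real.exp_add]; simp
    linarith
  have h5 := wg_pos (a : ℍ) z₀
  nlinarith

lemma summable_gK (hr : 0 < r) (hD : Sep D r) (z : ℍ) :
    Summable (fun a : D => gK (a : ℍ) z) := by
  obtain ⟨S, hS⟩ := finite_active hr hD z
  apply summable_of_hasFiniteSupport
  apply S.finite_toSet.subset
  intro a ha
  by_contra h
  exact ha (hS z (by simp) a h)

lemma phi1_nonneg (D : Set ℍ) (z : ℂ) : 0 ≤ phi1 D z := tsum_nonneg fun _ => gK_nonneg _ _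

lemma phi1_HD (hr : 0 < r) (hD : Sep D r) {z : ℍ} (hz : z ∉ D) :
    ∃ p q l : ℝ, HD (phi1 D) z p q l ∧ 0 ≤ z.im ^ 2 * l ∧
      ∀ a ∈ D, dist z a ≤ 1 / 10 → 11 ≤ z.im ^ 2 * l := by
  classical
  obtain ⟨S, hS⟩ := finite_active hr hD z
  have hne : ∀ a : D, z ≠ a := fun a h => hz (h ▸ a.2)
  choose p q l h1 h2 using fun a : D => HD_gK (hne a)
  have h3 := HD.sum S (fun a _ => h1 a)
  have hev : (fun w => ∑ a ∈ S, gK ((a : ℍ) : ℂ) w) =ᶠ[𝓝 (z : ℂ)] phi1 D := by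
    have h4 : ∀ᶠ w : ℍ in 𝓝 z, dist w z < 1 / 10 := Metric.eventually_nhds_iff.mpr
      ⟨1 / 10, by norm_num, fun y hy => hy⟩
    refine eventually_coe (h4.mono fun w hw => ?_)
    rw [phi1]
    exact (tsum_eq_sum fun a ha => hS w hw.le a ha).symm
  have hl : z.im ^ 2 * ∑ a ∈ S, l a
      = ∑ a ∈ S, 12 * qf (Real.log (4 * ‖zt (a : ℍ) z‖ ^ 2)) ^ 2 * wg (a : ℍ) z ^ 2 := by
    rw [Finset.mul_sum]
    exact Finset.sum_congr rfl fun a _ => h2 a
  refine ⟨_, _, _, h3.congr hev, ?_, ?_⟩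
  · rw [hl]
    exact Finset.sum_nonneg fun a _ => by positivity
  · intro a ha hza
    rw [hl]
    obtain ⟨h14, h20⟩ := gK_close (hne ⟨a, ha⟩) hza
    have h12 : (⟨a, ha⟩ : D) ∈ S := by
      by_contra hcon
      have h13 := hS z (by simp) ⟨a, ha⟩ hcon
      simp only at h13
      linarith
    have h21 : ∀ i ∈ S, 0 ≤ 12 * qf (Real.log (4 * ‖zt (i : ℍ) z‖ ^ 2)) ^ 2 * wg (i : ℍ) z ^ 2 :=
      fun i _ => by positivity
    exact h20.trans (Finset.single_le_sum h21 h12)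

/-- The constant of the net sum. -/
noncomputable def netC {r : ℝ} (hr : 0 < r) : ℝ := (net_summable hr).choose

lemma netC_pos (hr : 0 < r) : 0 < netC hr := (net_summable hr).choose_spec.1

lemma netC_spec (hr : 0 < r) (hD : Sep D r) (z : ℍ) :
    Summable (fun a : D => wg (a : ℍ) z ^ 2) ∧ ∑' a : D, wg (a : ℍ) z ^ 2 ≤ netC hr :=
  (net_summable hr).choose_spec.2 D hD z

/-- the bound away from the net, with one exceptional point -/
lemma neg_log_zt_le {a z : ℍ} {s : ℝ} (hs : 0 < s) (h : s ≤ dist z a) :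
    -Real.log (‖zt a z‖ ^ 2) ≤ -Real.log (Real.tanh (s / 2) ^ 2) := by
  have h1 : 0 < Real.tanh (s / 2) := by
    rw [Real.tanh_eq_sinh_div_cosh]
    have := Real.sinh_pos_iff.mpr (half_pos hs)
    positivity
  have h2 : Real.tanh (s / 2) ≤ ‖zt a z‖ := by
    rw [norm_zt]
    exact tanh_mono' (by linarith)
  rw [neg_le_neg_iff]
  apply Real.log_le_log (by positivity)
  exact pow_le_pow_left₀ h1.le h2 2

/-- bound for `phi1` away from the net -/
lemma phi1_le (hr : 0 < r) (hD : Sep D r) {s : ℝ} (hs : 0 < s) {z : ℍ}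
    (h : ∀ a ∈ D, s ≤ dist z a) :
    phi1 D z ≤ -Real.log (Real.tanh (s / 2) ^ 2) * (16 / 9) * netC hr := by
  have h1 := netC_spec hr hD z
  have hB : 0 ≤ -Real.log (Real.tanh (s / 2) ^ 2) := by
    rw [neg_nonneg]
    apply Real.log_nonpos (by positivity)
    have := Real.abs_tanh_lt_one (s / 2)
    rw [← sq_abs]
    exact pow_le_one₀ (abs_nonneg _) this.le
  have h2 : ∀ a : D, gK (a : ℍ) z ≤
      -Real.log (Real.tanh (s / 2) ^ 2) * (16 / 9) * wg (a : ℍ) z ^ 2 := by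
    intro a
    have hza : z ≠ a := by
      rintro rfl
      have := h _ a.2
      simp at this
      linarith
    refine (gK_le_wg hza).trans ?_
    have := neg_log_zt_le hs (h a a.2)
    have hw : 0 ≤ 16 / 9 * wg (a : ℍ) z ^ 2 := by positivity
    nlinarith
  calc phi1 D z ≤ ∑' a : D, -Real.log (Real.tanh (s / 2) ^ 2) * (16 / 9) * wg (a : ℍ) z ^ 2 :=
        (summable_gK hr hD z).tsum_le_tsum h2 (h1.1.mul_left _)
    _ = -Real.log (Real.tanh (s / 2) ^ 2) * (16 / 9) * ∑' a : D, wg (a : ℍ) z ^ 2 := tsum_mul_left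
    _ ≤ _ := mul_le_mul_of_nonneg_left h1.2 (by positivity)

/-- bound for `phi1` near a point of the net -/
lemma phi1_le_near (hr : 0 < r) (hD : Sep D r) {b : ℍ} (hb : b ∈ D) {z : ℍ} (hzb : z ≠ b)
    (h : dist z b ≤ r / 2) :
    phi1 D z ≤ gK b z + -Real.log (Real.tanh (r / 2 / 2) ^ 2) * (16 / 9) * netC hr := by
  classical
  have h1 := netC_spec hr hD z
  have hB : 0 ≤ -Real.log (Real.tanh (r / 2 / 2) ^ 2) := by
    rw [neg_nonneg]
    apply Real.log_nonpos (by positivity)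
    have := Real.abs_tanh_lt_one (r / 2 / 2)
    rw [← sq_abs]
    exact pow_le_one₀ (abs_nonneg _) this.le
  have h2 : ∀ a : D, gK (a : ℍ) z ≤ (if a = (⟨b, hb⟩ : D) then gK b z else 0) +
      -Real.log (Real.tanh (r / 2 / 2) ^ 2) * (16 / 9) * wg (a : ℍ) z ^ 2 := by
    intro a
    split_ifs with hab
    · subst hab
      have : 0 ≤ -Real.log (Real.tanh (r / 2 / 2) ^ 2) * (16 / 9) * wg b z ^ 2 := by positivity
      simp only
      linarith
    · rw [zero_add]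
      have hab' : (a : ℍ) ≠ b := fun h' => hab (Subtype.ext h')
      have hd : r / 2 ≤ dist z a := by
        have h3 := hD a a.2 b hb hab'
        have h4 := dist_triangle_left (a : ℍ) b z
        linarith
      have hza : z ≠ a := by
        rintro rfl
        simp at hd
        linarith
      refine (gK_le_wg hza).trans ?_
      have := neg_log_zt_le (half_pos hr) hd
      have hw : 0 ≤ 16 / 9 * wg (a : ℍ) z ^ 2 := by positivity
      nlinarith
  have hs1 : Summable (fun a : D => if a = (⟨b, hb⟩ : D) then gK b z else 0) :=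
    summable_of_hasFiniteSupport (Set.Finite.subset (Set.finite_singleton (⟨b, hb⟩ : D))
      (fun a ha => by
        by_contra hcon
        exact ha (if_neg hcon)))
  calc phi1 D z ≤ ∑' a : D, ((if a = (⟨b, hb⟩ : D) then gK b z else 0) +
        -Real.log (Real.tanh (r / 2 / 2) ^ 2) * (16 / 9) * wg (a : ℍ) z ^ 2) :=
        (summable_gK hr hD z).tsum_le_tsum h2 (hs1.add (h1.1.mul_left _))
    _ = gK b z + -Real.log (Real.tanh (r / 2 / 2) ^ 2) * (16 / 9) *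
        ∑' a : D, wg (a : ℍ) z ^ 2 := by
        rw [hs1.tsum_add (h1.1.mul_left _), tsum_ite_eq, tsum_mul_left]
    _ ≤ _ := by
        have := mul_le_mul_of_nonneg_left h1.2
          (by positivity : 0 ≤ -Real.log (Real.tanh (r / 2 / 2) ^ 2) * (16 / 9))
        linarith

end sum

end Pool.Agent.Lib.H27
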