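import Pool.Agent.Lib.H27.Geom2
import Pool.Agent.Lib.H27.Weight

/-!
# Discrete groups: the minimal displacement and the net
-/

set_option autoImplicit false

open Complex Set Topology Filter UpperHalfPlane InnerProductSpace Laplacian
open scoped ContDiff MatrixGroups ComplexConjugate

namespace Pool.Agent.Lib.H27

section minimal

variable {Γ : Subgroup SL(2, ℝ)}

/-- The elements acting nontrivially. -/
def NT (Γ : Subgroup SL(2, ℝ)) : Set SL(2, ℝ) := {g | g ∈ Γ ∧ g ≠ 1 ∧ g ≠ -1}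

lemma NT_pos {g : SL(2, ℝ)} (hg : g ∈ NT Γ) (z : ℍ) : 0 < TG g z :=
  TG_neg_one_or_one hg.2.1 hg.2.2

lemma finite_small (hΓ : ProperlyDisc Γ) (z₀ : ℍ) :
    {g : SL(2, ℝ) | g ∈ NT Γ ∧ ∃ z : ℍ, dist z z₀ ≤ 1 ∧ TG g z ≤ 1}.Finite := by
  apply (hΓ (Metric.closedBall z₀ 3) (isCompact_closedBall _ _)).subset
  rintro g ⟨hg, z, hz, hT⟩
  refine ⟨hg.1, z, ?_, ?_⟩
  · rw [Metric.mem_closedBall]; linarith
  · rw [Metric.mem_closedBall]
    have h1 := dist_le_of_TG hT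
    have h2 := dist_triangle (g • z) z z₀
    rw [dist_comm (g • z) z] at h2
    linarith

/-- Structure of the elements with small displacement. -/
lemma structure_small (hΓ : ProperlyDisc Γ) (z : ℍ) (h : ∃ k ∈ NT Γ, TG k z ≤ 1 / 1000) :
    ∃ g₀ ∈ NT Γ, TG g₀ z ≤ 1 / 1000 ∧ (∀ k ∈ NT Γ, TG g₀ z ≤ TG k z) ∧
      ∀ k ∈ NT Γ, TG k z ≤ 1 / 1000 → ∃ l : ℝ, 1 ≤ l ^ 2 ∧ ∀ w : ℂ, TG k w = l ^ 2 * TG g₀ w := by
  obtain ⟨k₀, hk₀, hk₀'⟩ := h
  set F : Set SL(2, ℝ) := {g : SL(2, ℝ) | g ∈ NT Γ ∧ TG g z ≤ 1} with hF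
  have hfin : F.Finite := (finite_small hΓ z).subset fun g hg => ⟨hg.1, z, by simp, hg.2⟩
  obtain ⟨g₀, hg₀, hmin⟩ := hfin.exists_minimalFor (fun g => TG g z) F ⟨k₀, hk₀, by linarith⟩
  have hmin' : ∀ k ∈ NT Γ, TG g₀ z ≤ TG k z := by
    intro k hk
    rcases le_or_gt (TG k z) 1 with h1 | h1
    · rcases le_total (TG g₀ z) (TG k z) with h2 | h2
      · exact h2
      · exact hmin ⟨hk, h1⟩ h2
    · have := hg₀.2
      linarith
  have hsmall : TG g₀ z ≤ 1 / 1000 := (hmin' k₀ hk₀).trans hk₀'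
  refine ⟨g₀, hg₀.1, hsmall, hmin', fun k hk hkz => ?_⟩
  have hpos := NT_pos hg₀.1 z
  have hpos' := NT_pos hk z
  obtain ⟨c1, c2⟩ := comm_est (g := g₀) (h := k) (z := z) (by linarith) (by linarith)
  have c3 := c2 (by nlinarith)
  have hmem : g₀ * k * g₀⁻¹ * k⁻¹ ∈ Γ :=
    Γ.mul_mem (Γ.mul_mem (Γ.mul_mem hg₀.1.1 hk.1) (Γ.inv_mem hg₀.1.1)) (Γ.inv_mem hk.1)
  have h1 : g₀ * k * g₀⁻¹ * k⁻¹ = 1 := by
    by_contra hne
    have h2 := hmin' _ ⟨hmem, hne, c3⟩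
    nlinarith
  have h2 : g₀ * k = k * g₀ := by
    have h3 : g₀ * k * g₀⁻¹ = k := by
      have := mul_inv_eq_one.mp h1
      exact this
    have h4 := mul_inv_eq_iff_eq_mul.mp h3
    exact h4
  obtain ⟨l, hl⟩ := TG_of_commute h2 hg₀.1.2.1 hg₀.1.2.2
  have h5 := hl z
  have h6 := hmin' k hk
  have h7 : 1 ≤ l ^ 2 := by
    by_contra hlt
    push Not at hlt
    nlinarith
  exact ⟨l, h7, hl⟩

/-- Local structure. -/
lemma local_structure (hΓ : ProperlyDisc Γ) (z₀ : ℍ) :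
    (∀ᶠ z : ℍ in 𝓝 z₀, ∀ g ∈ NT Γ, 1 / 1000 < TG g z) ∨
    ∃ g₀ ∈ NT Γ, (∀ k ∈ NT Γ, TG g₀ z₀ ≤ TG k z₀) ∧ TG g₀ z₀ ≤ 1 / 1000 ∧
      ∀ᶠ z : ℍ in 𝓝 z₀, ∀ g ∈ NT Γ, 1 / 1000 < TG g z ∨ TG g₀ z ≤ TG g z := by
  have hfin := finite_small hΓ z₀
  have hnear : ∀ᶠ z : ℍ in 𝓝 z₀, dist z z₀ ≤ 1 := by
    have : ∀ᶠ z : ℍ in 𝓝 z₀, dist z z₀ < 1 := Metric.eventually_nhds_iff.mpr
      ⟨1, by norm_num, fun y hy => hy⟩
    exact this.mono fun z hz => hz.le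
  have hF : ∀ᶠ z : ℍ in 𝓝 z₀, ∀ g ∈ {g : SL(2, ℝ) | g ∈ NT Γ ∧ ∃ z : ℍ, dist z z₀ ≤ 1 ∧
      TG g z ≤ 1}, 1 / 1000 < TG g z₀ → 1 / 1000 < TG g z := by
    rw [Filter.eventually_all_finite hfin]
    intro g _
    by_cases h : 1 / 1000 < TG g z₀
    · exact ((continuous_TG g).continuousAt.eventually_const_lt h).mono fun z hz _ => hz
    · exact Eventually.of_forall fun z hz => absurd hz h
  by_cases h : ∃ k ∈ NT Γ, TG k z₀ ≤ 1 / 1000
  · right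
    obtain ⟨g₀, hg₀, h1, h2, h3⟩ := structure_small hΓ z₀ h
    refine ⟨g₀, hg₀, h2, h1, ?_⟩
    filter_upwards [hnear, hF] with z hz hz2 g hg
    rcases le_or_gt (TG g z₀) (1 / 1000) with h4 | h4
    · right
      obtain ⟨l, hl1, hl2⟩ := h3 g hg h4
      rw [hl2]
      have := TG_nonneg g₀ z
      nlinarith
    · left
      rcases le_or_gt (TG g z) 1 with h5 | h5
      · exact hz2 g ⟨hg, z, hz, h5⟩ h4
      · linarith
  · left
    push Not at h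
    filter_upwards [hnear, hF] with z hz hz2 g hg
    rcases le_or_gt (TG g z) 1 with h5 | h5
    · exact hz2 g ⟨hg, z, hz, h5⟩ (h g hg)
    · linarith

/-- The minimal displacement. -/
noncomputable def mT (Γ : Subgroup SL(2, ℝ)) (z : ℂ) : ℝ :=
  sInf (insert 1 ((fun g => TG g z) '' NT Γ))

lemma mT_bdd (z : ℂ) : BddBelow (insert 1 ((fun g => TG g z) '' NT Γ)) := by
  refine ⟨0, ?_⟩
  rintro x (rfl | ⟨g, -, rfl⟩)
  · exact zero_le_one
  · exact TG_nonneg g z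

lemma mT_le {g : SL(2, ℝ)} (hg : g ∈ NT Γ) (z : ℂ) : mT Γ z ≤ TG g z :=
  csInf_le (mT_bdd z) (Or.inr ⟨g, hg, rfl⟩)

lemma le_mT {z : ℂ} {c : ℝ} (hc : c ≤ 1) (h : ∀ g ∈ NT Γ, c ≤ TG g z) : c ≤ mT Γ z := by
  apply le_csInf (insert_nonempty _ _)
  rintro x (rfl | ⟨g, hg, rfl⟩)
  · exact hc
  · exact h g hg

/-- The potential that is strictly subharmonic in the thin part. -/
noncomputable def phi2 (Γ : Subgroup SL(2, ℝ)) (z : ℂ) : ℝ :=
  -Kf (Real.log (mT Γ z / (1 / 1000)))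

lemma Kf_log_zero {m : ℝ} (hm : 1 / 1000 ≤ m) : Kf (Real.log (m / (1 / 1000))) = 0 := by
  apply Kf_of_nonneg
  apply Real.log_nonneg
  rw [le_div_iff₀ (by norm_num)]
  linarith

lemma phi2_props (hΓ : ProperlyDisc Γ) (z₀ : ℍ) :
    ContDiffAt ℝ 2 (phi2 Γ) z₀ ∧ -12 ≤ z₀.im ^ 2 * Δ (phi2 Γ) (z₀ : ℂ) ∧
      (4 / 5 ≤ z₀.im ^ 2 * Δ (phi2 Γ) (z₀ : ℂ) ∨ ∀ g ∈ NT Γ, 1 / 14000 < TG g z₀) := by
  rcases local_structure hΓ z₀ with h | ⟨g₀, hg₀, hmin, hsm, h⟩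
  · have hev : (fun _ => (0 : ℝ)) =ᶠ[𝓝 (z₀ : ℂ)] phi2 Γ := by
      refine eventually_coe (h.mono fun z hz => ?_)
      rw [phi2, Kf_log_zero (le_mT (by norm_num) fun g hg => (hz g hg).le)]
      simp
    have h1 := (HD.const 0 (z₀ : ℂ)).congr hev
    refine ⟨h1.cd, by rw [h1.lp]; norm_num, Or.inr fun g hg => ?_⟩
    have := h.self_of_nhds g hg
    linarith
  · have hev : (fun w => -Kf (Real.log (TX ((g₀ 0 0 - g₀ 1 1) / 2) (g₀ 0 1) (g₀ 1 0) w /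
        (1 / 1000)))) =ᶠ[𝓝 (z₀ : ℂ)] phi2 Γ := by
      refine eventually_coe (h.mono fun z hz => ?_)
      rw [phi2]
      change -Kf (Real.log (TG g₀ z / (1 / 1000))) = _
      congr 1
      rcases le_or_gt (TG g₀ z) (1 / 1000) with h1 | h1
      · have h2 : mT Γ z = TG g₀ z := by
          apply le_antisymm (mT_le hg₀ z)
          apply le_mT (by linarith)
          intro g hg
          rcases hz g hg with h3 | h3
          · linarith
          · exact h3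
        rw [h2]
      · rw [Kf_log_zero h1.le, Kf_log_zero]
        apply le_mT (by norm_num)
        intro g hg
        rcases hz g hg with h3 | h3 <;> linarith
    have hX : ¬ ((g₀ 0 0 - g₀ 1 1) / 2 = 0 ∧ g₀ 0 1 = 0 ∧ g₀ 1 0 = 0) := by
      rintro ⟨ha, hb, hc⟩
      have h3 := NT_pos hg₀ z₀
      rw [TG, TX, QX] at h3
      rw [ha, hb, hc] at h3
      simp at h3
    obtain ⟨h1, h2, h3⟩ := phiT hX z₀.im_pos (ε := 1 / 1000) (by norm_num)
    have hlap : Δ (phi2 Γ) (z₀ : ℂ) = Δ (fun w => -Kf (Real.log (TX ((g₀ 0 0 - g₀ 1 1) / 2)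
        (g₀ 0 1) (g₀ 1 0) w / (1 / 1000)))) (z₀ : ℂ) :=
      (laplacian_congr_nhds hev.symm).eq_of_nhds
    refine ⟨h1.congr_of_eventuallyEq hev.symm, ?_, ?_⟩
    · rw [hlap]; exact h2
    · rw [hlap]
      rcases le_or_gt (TG g₀ z₀) (1 / 1000 / 14) with h4 | h4
      · left; exact h3 h4
      · right
        intro g hg
        have := hmin g hg
        norm_num at h4 ⊢
        linarith

end minimal

section net

variable {Γ : Subgroup SL(2, ℝ)}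

/-- The thick part. -/
def Thick (Γ : Subgroup SL(2, ℝ)) (r : ℝ) (z : ℍ) : Prop := ∀ g ∈ NT Γ, r ≤ dist z (g • z)

lemma exists_net (Γ : Subgroup SL(2, ℝ)) {r : ℝ} (hr : 0 < r) : ∃ D : Set ℍ,
    (∀ γ ∈ Γ, ∀ p ∈ D, γ • p ∈ D) ∧ Sep D r ∧
    (∀ γ ∈ Γ, ∀ p ∈ D, γ • p = p → γ = 1 ∨ γ = -1) ∧
    ∀ w, Thick Γ r w → ∃ a ∈ D, dist w a < r := by
  set S : Set (Set ℍ) := {D | (∀ γ ∈ Γ, ∀ p ∈ D, γ • p ∈ D) ∧ Sep D r ∧
    (∀ γ ∈ Γ, ∀ p ∈ D, γ • p = p → γ = 1 ∨ γ = -1)} with hS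
  obtain ⟨D, hD⟩ := zorn_subset S (by
    intro c hcS hc
    refine ⟨⋃₀ c, ⟨?_, ?_, ?_⟩, fun s hs => subset_sUnion_of_mem hs⟩
    · rintro γ hγ p ⟨t, ht, hp⟩
      exact ⟨t, ht, (hcS ht).1 γ hγ p hp⟩
    · rintro p ⟨t, ht, hp⟩ q ⟨u, hu, hq⟩ hpq
      rcases hc.total ht hu with h | h
      · exact (hcS hu).2.1 p (h hp) q hq hpq
      · exact (hcS ht).2.1 p hp q (h hq) hpq
    · rintro γ hγ p ⟨t, ht, hp⟩ hfix
      exact (hcS ht).2.2 γ hγ p hp hfix)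
  have hDS : D ∈ S := hD.prop
  refine ⟨D, hDS.1, hDS.2.1, hDS.2.2, fun w hw => ?_⟩
  by_contra hcon
  push Not at hcon
  set D' : Set ℍ := D ∪ {x | ∃ γ ∈ Γ, x = γ • w} with hD'
  have hwfix : ∀ γ ∈ Γ, γ • w ≠ w → r ≤ dist w (γ • w) := by
    intro γ hγ hne
    apply hw γ
    refine ⟨hγ, ?_, ?_⟩
    · rintro rfl
      simp at hne
    · rintro rfl
      apply hne
      apply UpperHalfPlane.ext
      rw [coe_smul_eq]
      simp
  have hD'S : D' ∈ S := by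
    refine ⟨?_, ?_, ?_⟩
    · rintro γ hγ p (hp | ⟨η, hη, rfl⟩)
      · exact Or.inl (hDS.1 γ hγ p hp)
      · exact Or.inr ⟨γ * η, Γ.mul_mem hγ hη, by rw [mul_smul]⟩
    · have hmix : ∀ p ∈ D, ∀ γ ∈ Γ, r ≤ dist p (γ • w) := by
        intro p hp γ hγ
        have h1 := hcon (γ⁻¹ • p) (hDS.1 _ (Γ.inv_mem hγ) p hp)
        rw [← dist_smul γ w, smul_inv_smul, dist_comm] at h1
        exact h1
      rintro p (hp | ⟨η, hη, rfl⟩) q (hq | ⟨θ, hθ, rfl⟩) hpq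
      · exact hDS.2.1 p hp q hq hpq
      · exact hmix p hp θ hθ
      · rw [dist_comm]; exact hmix q hq η hη
      · have h1 : (η⁻¹ * θ) • w ≠ w := by
          intro h2
          apply hpq
          rw [mul_smul, inv_smul_eq_iff] at h2
          exact h2.symm
        have h2 := hwfix _ (Γ.mul_mem (Γ.inv_mem hη) hθ) h1
        rw [← dist_smul η w, mul_smul, smul_inv_smul] at h2
        exact h2
    · rintro γ hγ p (hp | ⟨η, hη, rfl⟩) hfix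
      · exact hDS.2.2 γ hγ p hp hfix
      · by_contra hne
        push Not at hne
        have h1 : (η⁻¹ * γ * η) • w = w := by
          rw [mul_smul, mul_smul, hfix, inv_smul_smul]
        have h2 : η⁻¹ * γ * η ∈ NT Γ := by
          refine ⟨Γ.mul_mem (Γ.mul_mem (Γ.inv_mem hη) hγ) hη, ?_, ?_⟩
          · intro h3
            apply hne.1
            have : γ = η * 1 * η⁻¹ := by rw [← h3]; group
            rw [this]; group
          · intro h3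
            apply hne.2
            have : γ = η * (-1) * η⁻¹ := by rw [← h3]; group
            rw [this]
            simp
        have h3 := hw _ h2
        rw [h1, dist_self] at h3
        linarith
  have hsub : D' ⊆ D := hD.le_of_ge hD'S subset_union_left
  have hwD : w ∈ D := hsub (Or.inr ⟨1, Γ.one_mem, by simp⟩)
  have := hcon w hwD
  rw [dist_self] at this
  linarith

end net

end Pool.Agent.Lib.H27
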