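import Pool.Agent.Lib.H27.Geom3

/-!
# Existence of the geometric data
-/

set_option autoImplicit false

open Complex Set Topology Filter UpperHalfPlane InnerProductSpace Laplacian
open scoped ContDiff MatrixGroups ComplexConjugate

namespace Pool.Agent.Lib.H27

section core

/-- The real-variable core of the dichotomy. -/
lemma core_real {q s α q' s' α' t t' tau : ℝ}
    (hs : s ^ 2 = 1 - t ^ 2 / 4 + α ^ 2 + q ^ 2) (hs' : s' ^ 2 = 1 - t' ^ 2 / 4 + α' ^ 2 + q' ^ 2)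
    (htau : tau = 4001 / 4000)
    (H1 : q ^ 2 + α ^ 2 ≤ (1 / 2000000) ^ 2)
    (H2 : ((q' - s') / tau + (q' + s') * tau) ^ 2 / 4 + α' ^ 2 ≤ (1 / 2000000) ^ 2) :
    |q| ≤ 1 / 2000000 ∧ |α| ≤ 1 / 2000000 ∧ |α'| ≤ 1 / 2000000 ∧ |q'| ≤ 3 / 10000 ∧
      |s| ≤ 11 / 10 ∧ |s'| ≤ 11 / 10 := by
  have a1 : |q| ≤ 1 / 2000000 := abs_le_of_sq_le_sq (by nlinarith [sq_nonneg α]) (by norm_num)
  have a2 : |α| ≤ 1 / 2000000 := abs_le_of_sq_le_sq (by nlinarith [sq_nonneg q]) (by norm_num)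
  have a3 : |α'| ≤ 1 / 2000000 := abs_le_of_sq_le_sq
    (by nlinarith [sq_nonneg ((q' - s') / tau + (q' + s') * tau)]) (by norm_num)
  have a4 : |(q' - s') / tau + (q' + s') * tau| ≤ 1 / 1000000 := abs_le_of_sq_le_sq
    (by nlinarith [sq_nonneg α']) (by norm_num)
  have a5 : |s| ≤ 11 / 10 := abs_le_of_sq_le_sq (by nlinarith [sq_nonneg t]) (by norm_num)
  have e1 : (q' - s') / tau + (q' + s') * tau = q' * (tau + 1 / tau) + s' * (tau - 1 / tau) := by
    have : tau ≠ 0 := by rw [htau]; norm_num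
    field_simp
    ring
  rw [e1, htau] at a4
  norm_num at a4
  have a6 := abs_le.mp a4
  -- bound for q' in terms of s'
  have a7 : |q'| ≤ 1 / 2000000 + |s'| / 3998 := by
    have b1 : |q' * (32008001 / 16004000)| ≤ 1 / 1000000 + |s' * (8001 / 16004000)| := by
      have b2 : q' * (32008001 / 16004000) =
          (q' * (32008001 / 16004000) + s' * (8001 / 16004000)) - s' * (8001 / 16004000) := by ring
      calc |q' * (32008001 / 16004000)|
          = |(q' * (32008001 / 16004000) + s' * (8001 / 16004000)) - s' * (8001 / 16004000)| := by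
            rw [← b2]
        _ ≤ |q' * (32008001 / 16004000) + s' * (8001 / 16004000)| + |s' * (8001 / 16004000)| :=
            abs_sub _ _
        _ ≤ _ := by linarith
    rw [abs_mul, abs_mul, abs_of_pos (by norm_num : (0:ℝ) < 32008001 / 16004000),
      abs_of_pos (by norm_num : (0:ℝ) < 8001 / 16004000)] at b1
    have := abs_nonneg s'
    linarith
  have a8 : |s'| ≤ 11 / 10 := by
    by_contra hcon
    push Not at hcon
    have b3 : |s'| ^ 2 = s' ^ 2 := sq_abs _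
    have b4 : |q'| ^ 2 = q' ^ 2 := sq_abs _
    have b5 : |α'| ^ 2 = α' ^ 2 := sq_abs _
    have b6 : |q'| ≤ |s'| / 2 := by linarith
    have b7 : |q'| ^ 2 ≤ (|s'| / 2) ^ 2 := pow_le_pow_left₀ (abs_nonneg _) b6 2
    have b8 : |α'| ^ 2 ≤ (1 / 2000000) ^ 2 := pow_le_pow_left₀ (abs_nonneg _) a3 2
    have b9 : |q'| ≤ |s'| / 3000 := by linarith
    have b10 : |q'| ^ 2 ≤ (|s'| / 3000) ^ 2 := pow_le_pow_left₀ (abs_nonneg _) b9 2
    nlinarith [sq_nonneg t']
  exact ⟨a1, a2, a3, by linarith, a5, a8⟩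

lemma comm_mat2 (g h : SL(2, ℝ)) :
    NN (((g * h * g⁻¹ * h⁻¹ : SL(2, ℝ)) : Matrix (Fin 2) (Fin 2) ℝ) - 1) ≤
      NN ((g : Matrix (Fin 2) (Fin 2) ℝ) * (h : Matrix (Fin 2) (Fin 2) ℝ) -
        (h : Matrix (Fin 2) (Fin 2) ℝ) * (g : Matrix (Fin 2) (Fin 2) ℝ)) * (NN g * NN h) := by
  set G : Matrix (Fin 2) (Fin 2) ℝ := (g : Matrix (Fin 2) (Fin 2) ℝ)
  set H : Matrix (Fin 2) (Fin 2) ℝ := (h : Matrix (Fin 2) (Fin 2) ℝ)
  set Gi : Matrix (Fin 2) (Fin 2) ℝ := ((g⁻¹ : SL(2, ℝ)) : Matrix (Fin 2) (Fin 2) ℝ) with hGi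
  set Hi : Matrix (Fin 2) (Fin 2) ℝ := ((h⁻¹ : SL(2, ℝ)) : Matrix (Fin 2) (Fin 2) ℝ) with hHi
  have hGG : G * Gi = 1 := by
    rw [hGi, ← Matrix.SpecialLinearGroup.coe_mul, mul_inv_cancel, Matrix.SpecialLinearGroup.coe_one]
  have hHH : H * Hi = 1 := by
    rw [hHi, ← Matrix.SpecialLinearGroup.coe_mul, mul_inv_cancel, Matrix.SpecialLinearGroup.coe_one]
  have e2 : ((g * h * g⁻¹ * h⁻¹ : SL(2, ℝ)) : Matrix (Fin 2) (Fin 2) ℝ) - 1
      = (G * H - H * G) * Gi * Hi := by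
    rw [Matrix.SpecialLinearGroup.coe_mul, Matrix.SpecialLinearGroup.coe_mul,
      Matrix.SpecialLinearGroup.coe_mul, sub_mul, sub_mul, mul_assoc H G Gi, hGG, mul_one, hHH]
  rw [e2]
  have h5 : NN Gi = NN g := NN_inv g
  have h6 : NN Hi = NN h := NN_inv h
  calc NN ((G * H - H * G) * Gi * Hi) ≤ NN ((G * H - H * G) * Gi) * NN Hi := NN_mul _ _
    _ ≤ NN (G * H - H * G) * NN Gi * NN Hi :=
        mul_le_mul_of_nonneg_right (NN_mul _ _) (NN_nonneg _)
    _ = _ := by rw [h5, h6]; ring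

lemma s_sq (g : SL(2, ℝ)) : ((g 1 0 - g 0 1) / 2) ^ 2 = 1 - (g 0 0 + g 1 1) ^ 2 / 4 +
    ((g 0 0 - g 1 1) / 2) ^ 2 + ((g 0 1 + g 1 0) / 2) ^ 2 := by
  have := det_eq g
  linarith

lemma sq_le_of_abs_le' {x y : ℝ} (h : |x| ≤ y) : x ^ 2 ≤ y ^ 2 := by
  rw [← sq_abs]
  exact pow_le_pow_left₀ (abs_nonneg x) h 2

lemma core_SL {g h : SL(2, ℝ)} {tau : ℝ} (htau : tau = 4001 / 4000)
    (H1 : ((g 0 1 + g 1 0) / 2) ^ 2 + ((g 0 0 - g 1 1) / 2) ^ 2 ≤ (1 / 2000000) ^ 2)
    (H2 : (h 0 1 / tau + h 1 0 * tau) ^ 2 / 4 + ((h 0 0 - h 1 1) / 2) ^ 2 ≤ (1 / 2000000) ^ 2)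
    (H3 : 1 / 14000 < TG g (UpperHalfPlane.I : ℍ)) :
    NN (((g * h * g⁻¹ * h⁻¹ : SL(2, ℝ)) : Matrix (Fin 2) (Fin 2) ℝ) - 1) ≤ 1 / 7000 ∧
      (g * h = h * g → TG h (UpperHalfPlane.I : ℍ) ≤ 1 / 14000) := by
  set q := (g 0 1 + g 1 0) / 2 with hq
  set s := (g 1 0 - g 0 1) / 2 with hs
  set α := (g 0 0 - g 1 1) / 2 with hα
  set q' := (h 0 1 + h 1 0) / 2 with hq'
  set s' := (h 1 0 - h 0 1) / 2 with hs'
  set α' := (h 0 0 - h 1 1) / 2 with hα'
  have eb : g 0 1 = q - s := by rw [hq, hs]; ring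
  have ec : g 1 0 = q + s := by rw [hq, hs]; ring
  have eb' : h 0 1 = q' - s' := by rw [hq', hs']; ring
  have ec' : h 1 0 = q' + s' := by rw [hq', hs']; ring
  have H2' : ((q' - s') / tau + (q' + s') * tau) ^ 2 / 4 + α' ^ 2 ≤ (1 / 2000000) ^ 2 := by
    rw [← eb', ← ec']; exact H2
  obtain ⟨a1, a2, a3, a4, a5, a6⟩ := core_real (s_sq g) (s_sq h) htau H1 H2'
  constructor
  · refine (comm_mat2 g h).trans ?_
    have e0 : NN ((g : Matrix (Fin 2) (Fin 2) ℝ) * (h : Matrix (Fin 2) (Fin 2) ℝ) -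
        (h : Matrix (Fin 2) (Fin 2) ℝ) * (g : Matrix (Fin 2) (Fin 2) ℝ)) =
        2 * (2 * (q * s' - q' * s)) ^ 2 + 4 * ((q' - s') * α - (q - s) * α') ^ 2 +
          4 * ((q + s) * α' - (q' + s') * α) ^ 2 := by
      simp only [NN, Matrix.sub_apply, Matrix.mul_apply, Fin.sum_univ_two]
      rw [hq, hs, hα, hq', hs', hα']
      ring
    have n1 : NN g ≤ 3 := by
      rw [NN_expand]
      have : (g 0 1 + g 1 0) ^ 2 + (g 0 0 - g 1 1) ^ 2 = 4 * (q ^ 2 + α ^ 2) := by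
        rw [hq, hα]; ring
      rw [this]
      linarith
    have n2 : NN h ≤ 3 := by
      rw [NN_expand]
      have : (h 0 1 + h 1 0) ^ 2 + (h 0 0 - h 1 1) ^ 2 = 4 * (q' ^ 2 + α' ^ 2) := by
        rw [hq', hα']; ring
      rw [this]
      have b1 := sq_le_of_abs_le' a4
      have b2 := sq_le_of_abs_le' a3
      linarith
    have n3 : NN g * NN h ≤ 9 := by
      have := NN_nonneg (g : Matrix (Fin 2) (Fin 2) ℝ)
      have := NN_nonneg (h : Matrix (Fin 2) (Fin 2) ℝ)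
      nlinarith
    have m1 : |2 * (q * s' - q' * s)| ≤ 7 / 10000 := by
      have c1 : |q * s'| ≤ 1 / 2000000 * (11 / 10) := by
        rw [abs_mul]; exact mul_le_mul a1 a6 (abs_nonneg _) (by norm_num)
      have c2 : |q' * s| ≤ 3 / 10000 * (11 / 10) := by
        rw [abs_mul]; exact mul_le_mul a4 a5 (abs_nonneg _) (by norm_num)
      have c3 := abs_sub (q * s') (q' * s)
      rw [abs_mul, abs_of_pos (by norm_num : (0:ℝ) < 2)]
      linarith
    have m2 : |(q' - s') * α - (q - s) * α'| ≤ 1 / 500000 := by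
      have c1 : |(q' - s') * α| ≤ (3 / 10000 + 11 / 10) * (1 / 2000000) := by
        rw [abs_mul]
        exact mul_le_mul ((abs_sub _ _).trans (by linarith)) a2 (abs_nonneg _) (by norm_num)
      have c2 : |(q - s) * α'| ≤ (1 / 2000000 + 11 / 10) * (1 / 2000000) := by
        rw [abs_mul]
        exact mul_le_mul ((abs_sub _ _).trans (by linarith)) a3 (abs_nonneg _) (by norm_num)
      have c3 := abs_sub ((q' - s') * α) ((q - s) * α')
      linarith
    have m3 : |(q + s) * α' - (q' + s') * α| ≤ 1 / 500000 := by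
      have c1 : |(q' + s') * α| ≤ (3 / 10000 + 11 / 10) * (1 / 2000000) := by
        rw [abs_mul]
        exact mul_le_mul ((abs_add_le _ _).trans (by linarith)) a2 (abs_nonneg _) (by norm_num)
      have c2 : |(q + s) * α'| ≤ (1 / 2000000 + 11 / 10) * (1 / 2000000) := by
        rw [abs_mul]
        exact mul_le_mul ((abs_add_le _ _).trans (by linarith)) a3 (abs_nonneg _) (by norm_num)
      have c3 := abs_sub ((q + s) * α') ((q' + s') * α)
      linarith
    have k1 := sq_le_of_abs_le' m1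
    have k2 := sq_le_of_abs_le' m2
    have k3 := sq_le_of_abs_le' m3
    have k4 : 2 * (2 * (q * s' - q' * s)) ^ 2 + 4 * ((q' - s') * α - (q - s) * α') ^ 2 +
          4 * ((q + s) * α' - (q' + s') * α) ^ 2 ≤ 1 / 100000 := by linarith
    rw [e0]
    have k5 : 0 ≤ NN g * NN h := mul_nonneg (NN_nonneg _) (NN_nonneg _)
    calc _ ≤ 1 / 100000 * (NN g * NN h) := mul_le_mul_of_nonneg_right k4 k5
      _ ≤ 1 / 100000 * 9 := by linarith
      _ ≤ 1 / 7000 := by norm_num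
  · intro hc
    -- elliptic
    have hT : TG g (UpperHalfPlane.I : ℍ) = q ^ 2 + α ^ 2 +
        max 0 (1 - (g 0 0 + g 1 1) ^ 2 / 4) := by
      rw [TG_I, hq, hα]; ring
    have hpos : 0 < 1 - (g 0 0 + g 1 1) ^ 2 / 4 := by
      by_contra hneg
      rw [max_eq_left (not_lt.mp hneg)] at hT
      linarith
    rw [max_eq_right hpos.le] at hT
    have hs2 := s_sq g
    rw [← hs, ← hα, ← hq] at hs2
    have hTs : TG g (UpperHalfPlane.I : ℍ) = s ^ 2 := by rw [hT, hs2]; ring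
    have hX : ¬ ((g 0 0 - g 1 1) / 2 = 0 ∧ g 0 1 = 0 ∧ g 1 0 = 0) := by
      rintro ⟨-, hb, hc'⟩
      have : s = 0 := by rw [hs, hb, hc']; ring
      rw [hTs, this] at H3
      norm_num at H3
    obtain ⟨l, e1, e2, e3⟩ := exists_scalar hc hX
    have hTh : TG h (UpperHalfPlane.I : ℍ) = l ^ 2 * TG g (UpperHalfPlane.I : ℍ) := by
      rw [TG, TG, e1, e2, e3, TX_smul]
    rw [hTh, hTs]
    have hls : s' = l * s := by rw [hs', hs, e2, e3]; ring
    have hlq : q' = l * q := by rw [hq', hq, e2, e3]; ring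
    have e4 : ((q' - s') / tau + (q' + s') * tau) = l * (q * (32008001 / 16004000) +
        s * (8001 / 16004000)) := by
      rw [hls, hlq, htau]
      ring
    rw [e4] at H2'
    have b1 : (l * (q * (32008001 / 16004000) + s * (8001 / 16004000))) ^ 2 ≤
        (1 / 1000000) ^ 2 := by nlinarith [sq_nonneg α']
    have b2 : |l * (q * (32008001 / 16004000) + s * (8001 / 16004000))| ≤ 1 / 1000000 :=
      abs_le_of_sq_le_sq b1 (by norm_num)
    rw [abs_mul] at b2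
    have b3 : 1 / 119 ≤ |s| := by
      by_contra hcon
      push Not at hcon
      have := sq_le_of_abs_le' hcon.le
      rw [hTs] at H3
      norm_num at this
      linarith
    have b4 : |s| * (8001 / 16004000) - |q| * (32008001 / 16004000) ≤
        |q * (32008001 / 16004000) + s * (8001 / 16004000)| := by
      have c1 := abs_sub_abs_le_abs_sub (s * (8001 / 16004000)) (-(q * (32008001 / 16004000)))
      rw [abs_neg, abs_mul, abs_mul, abs_of_pos (by norm_num : (0:ℝ) < 8001 / 16004000),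
        abs_of_pos (by norm_num : (0:ℝ) < 32008001 / 16004000)] at c1
      have c2 : s * (8001 / 16004000) - -(q * (32008001 / 16004000))
          = q * (32008001 / 16004000) + s * (8001 / 16004000) := by ring
      rw [c2] at c1
      exact c1
    have b5 : |s| / 4000 ≤ |q * (32008001 / 16004000) + s * (8001 / 16004000)| := by
      linarith
    have b6 : |l| * |s| ≤ 1 / 250 := by
      have c3 : |l| * (|s| / 4000) ≤ 1 / 1000000 :=
        (mul_le_mul_of_nonneg_left b5 (abs_nonneg l)).trans b2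
      linarith
    have b7 : l ^ 2 * s ^ 2 = (|l| * |s|) ^ 2 := by rw [mul_pow, sq_abs, sq_abs]
    rw [b7]
    have b8 : (|l| * |s|) ^ 2 ≤ (1 / 250) ^ 2 := pow_le_pow_left₀ (by positivity) b6 2
    norm_num at b8 ⊢
    linarith

end core

end Pool.Agent.Lib.H27
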