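import Pool.Agent.Lib.H27.Geom4

/-!
# Existence of the geometric data, conclusion
-/

set_option autoImplicit false

open Complex Set Topology Filter UpperHalfPlane InnerProductSpace Laplacian
open scoped ContDiff MatrixGroups ComplexConjugate

namespace Pool.Agent.Lib.H27

/-- The point `i τ`. -/
noncomputable def itau : ℍ := ⟨((4001 / 4000 : ℝ) : ℂ) * Complex.I, by simp⟩

lemma sinh_sq_eq (g : SL(2, ℝ)) (z : ℍ) : Real.sinh (dist z (g • z) / 2) ^ 2 =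
    ‖QX ((g 0 0 - g 1 1) / 2) (g 0 1) (g 1 0) z‖ ^ 2 / (4 * (z : ℂ).im ^ 2) := by
  have := TG_eq g z
  rw [TG, TX, neg_delta] at this
  linarith

lemma sinh_le_of_lt {x : ℝ} (hx : 0 ≤ x) (h : x < 1 / 2000000) :
    Real.sinh (x / 2) ^ 2 ≤ (1 / 2000000) ^ 2 := by
  have h1 := sinh_le_mul_cosh (x := x / 2) (by positivity)
  have h2 : Real.cosh (x / 2) ≤ 2 := by
    have h3 := cosh_add_le 0 (t := x / 2) (by positivity)
    simp at h3
    have h4 : Real.exp (x / 2) ≤ Real.exp (1 / 10) := Real.exp_le_exp.mpr (by linarith)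
    have h5 : Real.exp (1 / 10) ≤ 2 := by
      have h4 : Real.exp (1 / 10) * (1 - 1 / 10) ≤ 1 := by
        have := Real.one_sub_le_exp_neg (1 / 10)
        calc Real.exp (1 / 10) * (1 - 1 / 10) ≤ Real.exp (1 / 10) * Real.exp (-(1 / 10)) :=
              mul_le_mul_of_nonneg_left this (Real.exp_pos _).le
          _ = 1 := by rw [← Real.exp_add]; simp
      linarith
    linarith
  have h3 : Real.sinh (x / 2) ≤ 1 / 2000000 := by nlinarith
  exact pow_le_pow_left₀ (Real.sinh_nonneg_iff.mpr (by positivity)) h3 2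

/-- The key dichotomy for points where no element has small displacement function. -/
lemma lemmaZ (Γ : Subgroup SL(2, ℝ)) (z : ℍ) (hz : ∀ g ∈ NT Γ, 1 / 14000 < TG g z) :
    Thick Γ (1 / 2000000) z ∨ Thick Γ (1 / 2000000) (z.toSL2R • itau) := by
  by_contra hcon
  rw [not_or] at hcon
  obtain ⟨h1, h2⟩ := hcon
  simp only [Thick] at h1 h2
  push Not at h1 h2
  obtain ⟨g₁, hg₁, hd₁⟩ := h1
  obtain ⟨g₂, hg₂, hd₂⟩ := h2
  set σ := z.toSL2R with hσ
  have hσI : σ • UpperHalfPlane.I = z := toSL2R_smul_I z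
  set k₁ := σ⁻¹ * g₁ * σ with hk₁
  set k₂ := σ⁻¹ * g₂ * σ with hk₂
  have e1 : dist (UpperHalfPlane.I : ℍ) (k₁ • UpperHalfPlane.I) = dist z (g₁ • z) := by
    rw [hk₁, mul_smul, mul_smul, hσI, ← dist_smul σ, hσI, smul_inv_smul]
  have e2 : dist itau (k₂ • itau) = dist (σ • itau) (g₂ • σ • itau) := by
    rw [hk₂, mul_smul, mul_smul, ← dist_smul σ itau, smul_inv_smul]
  have H1 : ((k₁ 0 1 + k₁ 1 0) / 2) ^ 2 + ((k₁ 0 0 - k₁ 1 1) / 2) ^ 2 ≤ (1 / 2000000) ^ 2 := by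
    have f1 := sinh_sq_eq k₁ UpperHalfPlane.I
    rw [e1, norm_QX_sq] at f1
    have f2 := sinh_le_of_lt dist_nonneg hd₁
    rw [f1] at f2
    simp at f2
    norm_num at f2 ⊢
    linarith
  have H2 : (k₂ 0 1 / (4001 / 4000) + k₂ 1 0 * (4001 / 4000)) ^ 2 / 4 +
      ((k₂ 0 0 - k₂ 1 1) / 2) ^ 2 ≤ (1 / 2000000) ^ 2 := by
    have f1 := sinh_sq_eq k₂ itau
    rw [e2, norm_QX_sq] at f1
    have f2 := sinh_le_of_lt dist_nonneg hd₂
    rw [f1] at f2
    have f3 : (itau : ℂ).re = 0 := by simp [itau]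
    have f4 : (itau : ℂ).im = 4001 / 4000 := by simp [itau]
    rw [f3, f4] at f2
    norm_num at f2 ⊢
    linarith
  have H3 : 1 / 14000 < TG k₁ (UpperHalfPlane.I : ℍ) := by
    rw [hk₁, ← TG_smul, hσI]
    exact hz g₁ hg₁
  obtain ⟨c1, c2⟩ := core_SL rfl H1 H2 H3
  have hconj : k₁ * k₂ * k₁⁻¹ * k₂⁻¹ = σ⁻¹ * (g₁ * g₂ * g₁⁻¹ * g₂⁻¹) * σ := conj_comm σ g₁ g₂
  rw [hconj] at c1
  have hmem : g₁ * g₂ * g₁⁻¹ * g₂⁻¹ ∈ Γ :=
    Γ.mul_mem (Γ.mul_mem (Γ.mul_mem hg₁.1 hg₂.1) (Γ.inv_mem hg₁.1)) (Γ.inv_mem hg₂.1)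
  have hT : TG (g₁ * g₂ * g₁⁻¹ * g₂⁻¹) z ≤ 1 / 14000 := by
    have f1 := TG_le_NN (σ⁻¹ * (g₁ * g₂ * g₁⁻¹ * g₂⁻¹) * σ) (e := 1) (Or.inl rfl)
    rw [one_smul, ← TG_smul, hσI] at f1
    linarith
  have hne : g₁ * g₂ * g₁⁻¹ * g₂⁻¹ ≠ -1 := by
    intro hcon
    rw [conj_eq_neg_one hcon, neg_one_mat] at c1
    norm_num at c1
  have h1 : g₁ * g₂ * g₁⁻¹ * g₂⁻¹ = 1 := by
    by_contra h
    have := hz _ ⟨hmem, h, hne⟩
    linarith
  have h2 : g₁ * g₂ = g₂ * g₁ := mul_inv_eq_iff_eq_mul.mp (mul_inv_eq_one.mp h1)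
  have h3 : k₁ * k₂ = k₂ * k₁ := by
    calc k₁ * k₂ = σ⁻¹ * (g₁ * g₂) * σ := by rw [hk₁, hk₂]; group
      _ = σ⁻¹ * (g₂ * g₁) * σ := by rw [h2]
      _ = k₂ * k₁ := by rw [hk₁, hk₂]; group
  have h4 := c2 h3
  rw [hk₂, ← TG_smul, hσI] at h4
  have := hz g₂ hg₂
  linarith

lemma dist_itau (z : ℍ) : dist z (z.toSL2R • itau) < 1 / 1000 := by
  have h1 : dist z (z.toSL2R • itau) = dist (UpperHalfPlane.I : ℍ) itau := by
    rw [← dist_smul z.toSL2R (UpperHalfPlane.I : ℍ) itau, toSL2R_smul_I]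
  rw [h1, dist_comm]
  have h2 := dist_of_mem_ball (a := UpperHalfPlane.I) (c := 1 / 2000) (w := itau) (by norm_num) (by
    rw [Metric.mem_ball, dist_eq_norm]
    have : (itau : ℂ) - ((UpperHalfPlane.I : ℍ) : ℂ) = ((1 / 4000 : ℝ) : ℂ) * Complex.I := by
      simp [itau]
      ring
    rw [this, norm_mul, Complex.norm_I, Complex.norm_real]
    norm_num)
  linarith

/-- The displacement function of a nontrivial element is not small everywhere. -/
lemma TG_unbounded {g : SL(2, ℝ)} (h1 : g ≠ 1) (h2 : g ≠ -1) :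
    ∃ z : ℍ, 1 / 14000 < TG g z := by
  by_contra hcon
  push Not at hcon
  set α := (g 0 0 - g 1 1) / 2 with hα
  set β := g 0 1 with hβ
  set c := g 1 0 with hc
  have key : ∀ z : ℍ, ‖QX α β c z‖ ^ 2 ≤ z.im ^ 2 / 3500 := by
    intro z
    have h3 := hcon z
    rw [TG, TX] at h3
    have h4 : 0 ≤ max 0 (-(α ^ 2 + β * c)) := le_max_left _ _
    have h5 : ‖QX α β c z‖ ^ 2 / (4 * (z : ℂ).im ^ 2) ≤ 1 / 14000 := by linarith
    have h6 := z.im_pos
    rw [div_le_iff₀ (by simp only [coe_im]; positivity)] at h5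
    simp only [coe_im] at h5
    linarith
  have key2 : ∀ x y : ℝ, 0 < y → (c * (x ^ 2 - y ^ 2) - 2 * α * x - β) ^ 2 +
      (2 * c * x * y - 2 * α * y) ^ 2 ≤ y ^ 2 / 3500 := by
    intro x y hy
    have h3 := key ⟨⟨x, y⟩, hy⟩
    rw [norm_QX_sq] at h3
    exact h3
  have hc0 : c = 0 := by
    by_contra hne
    have h3 := key2 (1 / c) 1 one_pos
    have h4 := key2 (-(1 / c)) 1 one_pos
    have e1 : (2 * c * (1 / c) * 1 - 2 * α * 1) = 2 - 2 * α := by field_simp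
    have e2 : (2 * c * (-(1 / c)) * 1 - 2 * α * 1) = -2 - 2 * α := by field_simp
    rw [e1] at h3
    rw [e2] at h4
    nlinarith [sq_nonneg (c * ((1 / c) ^ 2 - 1 ^ 2) - 2 * α * (1 / c) - β),
      sq_nonneg (c * ((-(1 / c)) ^ 2 - 1 ^ 2) - 2 * α * (-(1 / c)) - β), sq_nonneg α]
  rw [hc0] at key2
  have hα0 : α = 0 := by
    by_contra hne
    have h3 := key2 0 1 one_pos
    have h4 := key2 (1 / α) 1 one_pos
    have e1 : (0 * ((1 / α) ^ 2 - 1 ^ 2) - 2 * α * (1 / α) - β) = -2 - β := by field_simp; ring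
    rw [e1] at h4
    nlinarith [sq_nonneg β, sq_nonneg α, sq_nonneg (β + 1)]
  rw [hα0] at key2
  have hβ0 : β = 0 := by
    by_contra hne
    have hpos : 0 < |β| := abs_pos.mpr hne
    have h3 := key2 0 |β| hpos
    rw [sq_abs] at h3
    nlinarith [sq_abs β, sq_nonneg β]
  have := TG_neg_one_or_one (z := UpperHalfPlane.I) h1 h2
  rw [TG, ← hα, ← hβ, ← hc, hα0, hβ0, hc0, TX, QX] at this
  simp at this

lemma compare_small {Γ : Subgroup SL(2, ℝ)} (hΓ : ProperlyDisc Γ) {g k : SL(2, ℝ)}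
    (hg : g ∈ NT Γ) (hk : k ∈ NT Γ) {z : ℍ} (h1 : TG g z ≤ 1 / 1000) (h2 : TG k z ≤ 1 / 1000)
    (h3 : TG g z ≤ TG k z) (w : ℍ) : TG g w ≤ TG k w := by
  obtain ⟨g₂, hg₂, -, -, hprop⟩ := structure_small hΓ z ⟨g, hg, h1⟩
  obtain ⟨l, -, hl⟩ := hprop g hg h1
  obtain ⟨m, -, hm⟩ := hprop k hk h2
  have hpos := NT_pos hg₂ z
  rw [hl, hm] at h3
  have h4 : l ^ 2 ≤ m ^ 2 := le_of_mul_le_mul_right h3 hpos
  rw [hl, hm]
  exact mul_le_mul_of_nonneg_right h4 (TG_nonneg _ _)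

/-- Somewhere no element has small displacement function. -/
lemma exists_thick {Γ : Subgroup SL(2, ℝ)} (hΓ : ProperlyDisc Γ) :
    ∃ z : ℍ, ∀ g ∈ NT Γ, 1 / 14000 < TG g z := by
  by_contra hcon
  push Not at hcon
  obtain ⟨h₀, hh₀, hh₀'⟩ := hcon UpperHalfPlane.I
  obtain ⟨g₀, hg₀, -, hmin, -⟩ := structure_small hΓ UpperHalfPlane.I ⟨h₀, hh₀, by linarith⟩
  set S : Set ℍ := {z | ∀ k ∈ NT Γ, TG g₀ z ≤ TG k z} with hS
  have hclosed : IsClosed S := by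
    have : S = ⋂ k ∈ NT Γ, {z : ℍ | TG g₀ z ≤ TG k z} := by
      ext z; simp [hS]
    rw [this]
    exact isClosed_biInter fun k _ => isClosed_le (continuous_TG g₀) (continuous_TG k)
  have hopen : IsOpen S := by
    rw [isOpen_iff_mem_nhds]
    intro z hz
    obtain ⟨k, hk, hk'⟩ := hcon z
    have hz0 : TG g₀ z ≤ 1 / 14000 := (hz k hk).trans hk'
    have hnear : ∀ᶠ w : ℍ in 𝓝 z, TG g₀ w < 1 / 1000 :=
      (continuous_TG g₀).continuousAt.eventually_lt_const (by linarith)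
    rcases local_structure hΓ z with h | ⟨g₁, hg₁, hmin₁, hsm₁, h⟩
    · filter_upwards [h, hnear] with w hw hw2
      have := hw g₀ hg₀
      linarith
    · have hcomp : ∀ w : ℍ, TG g₀ w ≤ TG g₁ w := fun w =>
        compare_small hΓ hg₀ hg₁ (by linarith) hsm₁ (hz g₁ hg₁) w
      filter_upwards [h, hnear] with w hw hw2 k hk
      have := hcomp w
      rcases hw k hk with h5 | h5 <;> linarith
  have huniv : S = univ :=
    IsClopen.eq_univ ⟨hclosed, hopen⟩ ⟨UpperHalfPlane.I, hmin⟩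
  obtain ⟨z, hz⟩ := TG_unbounded hg₀.2.1 hg₀.2.2
  obtain ⟨k, hk, hk'⟩ := hcon z
  have hzS : z ∈ S := by rw [huniv]; trivial
  have := hzS k hk
  linarith

/-- Lower bound near the net. -/
lemma phi2_lower {Γ : Subgroup SL(2, ℝ)} {p : ℍ} {r : ℝ} (hr : 0 < r) (hr1 : r ≤ 1)
    (hp : Thick Γ r p) {z : ℍ} (hz : dist z p ≤ 1) :
    -Kf (Real.log (r ^ 2 / 128 / (1 / 1000))) ≤ phi2 Γ z := by
  have h1 : ∀ g ∈ NT Γ, r ^ 2 / 128 ≤ TG g z := by
    intro g hg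
    have h2 := TG_harnack g z p
    have h3 : Real.cosh (dist z p) ≤ 2 := by
      have h4 : Real.cosh (dist z p) ≤ Real.cosh 1 := by
        rw [Real.cosh_le_cosh, abs_of_nonneg dist_nonneg, abs_of_nonneg zero_le_one]
        exact hz
      have h5 : Real.cosh 1 ≤ 2 := by
        rw [Real.cosh_eq]
        have h6 := Real.exp_one_lt_d9
        have h7 : Real.exp (-1) ≤ 1 := Real.exp_le_one_iff.mpr (by norm_num)
        linarith
      linarith
    have h4 : Real.cosh (dist z p) ^ 2 ≤ 4 := by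
      have := Real.cosh_pos (dist z p)
      nlinarith
    have h5 : (r / 2) ^ 2 ≤ TG g p := by
      rw [TG_eq]
      have h6 : 0 ≤ max 0 (1 - (g 0 0 + g 1 1) ^ 2 / 4) := le_max_left _ _
      have h7 := hp g hg
      have h8 : r / 2 ≤ Real.sinh (dist p (g • p) / 2) :=
        (by linarith : r / 2 ≤ dist p (g • p) / 2).trans
          (Real.self_le_sinh_iff.mpr (by positivity))
      have h9 : (r / 2) ^ 2 ≤ Real.sinh (dist p (g • p) / 2) ^ 2 :=
        pow_le_pow_left₀ (by positivity) h8 2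
      linarith
    have h6 := TG_nonneg g z
    nlinarith
  have h2 : r ^ 2 / 128 ≤ mT Γ z := le_mT (by nlinarith) h1
  rw [phi2, neg_le_neg_iff]
  apply Kf_antitone
  apply Real.log_le_log (by positivity)
  apply div_le_div_of_nonneg_right h2 (by norm_num)

theorem exists_data (Γ : Subgroup SL(2, ℝ)) (hΓ : ProperlyDisc Γ) : Nonempty (Data Γ) := by
  have hr : (0 : ℝ) < 1 / 2000000 := by norm_num
  obtain ⟨D, h1, h2, h3, h4⟩ := exists_net Γ hr
  have hnear : ∀ z : ℍ, (∀ g ∈ NT Γ, 1 / 14000 < TG g z) → ∃ p ∈ D, dist z p ≤ 1 / 10 := by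
    intro z hz
    rcases lemmaZ Γ z hz with h | h
    · obtain ⟨p, hp, hd⟩ := h4 z h
      exact ⟨p, hp, by linarith⟩
    · obtain ⟨p, hp, hd⟩ := h4 _ h
      refine ⟨p, hp, ?_⟩
      have h5 := dist_itau z
      have h6 := dist_triangle z (z.toSL2R • itau) p
      linarith
  have hthick : ∀ p ∈ D, Thick Γ (1 / 2000000) p := by
    intro p hp g hg
    apply h2 p hp _ (h1 g hg.1 p hp)
    intro h
    rcases h3 g hg.1 p hp h.symm with h5 | h5
    · exact hg.2.1 h5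
    · exact hg.2.2 h5
  refine ⟨⟨D, 1 / 2000000, phi2 Γ, Kf (Real.log ((1 / 2000000) ^ 2 / 128 / (1 / 1000))), hr,
    by norm_num, ?_, h1, h2, h3, ?_, ?_, ?_, ?_, ?_⟩⟩
  · obtain ⟨z, hz⟩ := exists_thick hΓ
    obtain ⟨p, hp, -⟩ := hnear z hz
    exact ⟨p, hp⟩
  · intro z hz
    exact (phi2_props hΓ ⟨z, hz⟩).1.contDiffWithinAt
  · intro z
    rw [phi2]
    exact neg_nonpos.mpr (Kf_nonneg _)
  · intro z
    exact (phi2_props hΓ z).2.1
  · intro z
    rcases (phi2_props hΓ z).2.2 with h | h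
    · exact Or.inl h
    · exact Or.inr (hnear z h)
  · intro p hp z hz
    exact phi2_lower hr (by norm_num) (hthick p hp) hz

end Pool.Agent.Lib.H27
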