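import Pool.Agent.Lib.H27.DBar

/-!
# Hörmander's L² existence theorem in a plane domain (weak form)
-/

set_option autoImplicit false

open MeasureTheory Complex Set Topology Filter
open scoped ContDiff

namespace Pool.Agent.Lib.H27

open InnerProductSpace Laplacian

/-- Smooth cutoff function. -/
lemma exists_cutoff {K Ω : Set ℂ} (hK : IsCompact K) (hΩ : IsOpen Ω) (hKΩ : K ⊆ Ω) :
    ∃ χ : ℂ → ℝ, ContDiff ℝ ∞ χ ∧ (∀ᶠ x in 𝓝ˢ K, χ x = 1) ∧ (∀ᶠ x in 𝓝ˢ Ωᶜ, χ x = 0) ∧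
      ∀ x, χ x ∈ Icc (0:ℝ) 1 := by
  obtain ⟨f, hf0, hf1, hf⟩ := exists_contMDiffMap_zero_one_nhds_of_isClosed
    (modelWithCornersSelf ℝ ℂ) (n := ⊤) hΩ.isClosed_compl hK.isClosed
    (disjoint_compl_left_iff_subset.mpr hKΩ)
  exact ⟨f, f.contMDiff.contDiff, hf1, hf0, hf⟩

/-- Smooth cutoff function with compact support. -/
lemma exists_cutoff_compact {K Ω : Set ℂ} (hK : IsCompact K) (hΩ : IsOpen Ω) (hKΩ : K ⊆ Ω) :
    ∃ χ : ℂ → ℝ, ContDiff ℝ ∞ χ ∧ (∀ᶠ x in 𝓝ˢ K, χ x = 1) ∧ HasCompactSupport χ ∧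
      tsupport χ ⊆ Ω ∧ ∀ x, χ x ∈ Icc (0:ℝ) 1 := by
  obtain ⟨L, hL, hKL, hLΩ⟩ := exists_compact_between hK hΩ hKΩ
  obtain ⟨χ, h1, h2, h3, h4⟩ := exists_cutoff hK isOpen_interior hKL
  have hsub : tsupport χ ⊆ L := by
    have : Function.support χ ⊆ interior L := by
      intro x hx
      by_contra hxL
      exact hx (h3.self_of_nhdsSet x hxL)
    exact closure_minimal (this.trans interior_subset) hL.isClosed
  exact ⟨χ, h1, h2, HasCompactSupport.of_support_subset_isCompact hL (subset_closure.trans hsub),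
    hsub.trans hLΩ, h4⟩

lemma contDiff_cutoff_smul {E : Type*} [NormedAddCommGroup E] [NormedSpace ℝ E]
    {Ω : Set ℂ} (hΩ : IsOpen Ω) {χ : ℂ → ℝ} (hχ : ContDiff ℝ ∞ χ)
    (hχ0 : ∀ᶠ x in 𝓝ˢ Ωᶜ, χ x = 0) {n : ℕ∞} {F : ℂ → E} (hF : ContDiffOn ℝ n F Ω) :
    ContDiff ℝ n (fun z => χ z • F z) := by
  rw [contDiff_iff_contDiffAt]
  intro z
  by_cases hz : z ∈ Ω
  · exact (hχ.contDiffAt.of_le (by exact_mod_cast le_top)).smul (hF.contDiffAt (hΩ.mem_nhds hz))
  · have h1 : ∀ᶠ x in 𝓝 z, χ x = 0 := (eventually_nhdsSet_iff_forall.mp hχ0) z hz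
    have h2 : (fun z => χ z • F z) =ᶠ[𝓝 z] fun _ => (0 : E) := by
      filter_upwards [h1] with x hx
      rw [hx, zero_smul]
    exact contDiffAt_const.congr_of_eventuallyEq h2

lemma exists_global {E : Type*} [NormedAddCommGroup E] [NormedSpace ℝ E] {Ω K : Set ℂ}
    (hΩ : IsOpen Ω) (hK : IsCompact K) (hKΩ : K ⊆ Ω) {n : ℕ∞}
    {F : ℂ → E} (hF : ContDiffOn ℝ n F Ω) :
    ∃ F' : ℂ → E, ContDiff ℝ n F' ∧ ∀ᶠ z in 𝓝ˢ K, F' z = F z := by
  obtain ⟨χ, h1, h2, h3, h4⟩ := exists_cutoff hK hΩ hKΩ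
  refine ⟨fun z => χ z • F z, contDiff_cutoff_smul hΩ h1 h3 hF, ?_⟩
  filter_upwards [h2] with z hz
  rw [hz, one_smul]

/-- Membership in `C_c^2(Ω)`. -/
structure Test (Ω : Set ℂ) (α : ℂ → ℂ) : Prop where
  contDiff : ContDiff ℝ 2 α
  compact : HasCompactSupport α
  supp : tsupport α ⊆ Ω

lemma dz_eq_zero_of_notMem {α : ℂ → ℂ} {z : ℂ} (hz : z ∉ tsupport α) : dz α z = 0 := by
  have h : α =ᶠ[𝓝 z] fun _ => 0 := notMem_tsupport_iff_eventuallyEq.mp hz
  simp only [dz, h.fderiv_eq]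
  simp

lemma dzb_eq_zero_of_notMem {α : ℂ → ℂ} {z : ℂ} (hz : z ∉ tsupport α) : dzb α z = 0 := by
  have h : α =ᶠ[𝓝 z] fun _ => 0 := notMem_tsupport_iff_eventuallyEq.mp hz
  simp only [dzb, h.fderiv_eq]
  simp

lemma dz_congr {f g : ℂ → ℂ} {z : ℂ} (h : f =ᶠ[𝓝 z] g) : dz f z = dz g z := by
  simp only [dz, h.fderiv_eq]

lemma dzb_congr {f g : ℂ → ℂ} {z : ℂ} (h : f =ᶠ[𝓝 z] g) : dzb f z = dzb g z := by
  simp only [dzb, h.fderiv_eq]

lemma dzbStar_congr {φ φ' : ℂ → ℝ} {α : ℂ → ℂ}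
    (h : ∀ᶠ z in 𝓝ˢ (tsupport α), φ' z = φ z) : dzbStar φ α = dzbStar φ' α := by
  funext z
  by_cases hz : z ∈ tsupport α
  · have h1 : ∀ᶠ x in 𝓝 z, φ' x = φ x := (eventually_nhdsSet_iff_forall.mp h) z hz
    have h2 : (fun w => (φ w : ℂ)) =ᶠ[𝓝 z] fun w => (φ' w : ℂ) := by
      filter_upwards [h1] with x hx; rw [hx]
    rw [dzbStar, dzbStar, dz_congr h2]
  · rw [dzbStar, dzbStar, image_eq_zero_of_notMem_tsupport hz]
    simp

/-- The basic inequality. -/
theorem basic_inequality {Ω : Set ℂ} (hΩ : IsOpen Ω) {φ κ : ℂ → ℝ} (hφ : ContDiffOn ℝ 2 φ Ω)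
    (hκ : ContinuousOn κ Ω)
    (hlap : ∀ z ∈ Ω, 4 * κ z ≤ Δ φ z) {α : ℂ → ℂ} (hα : Test Ω α) :
    ∫ z, κ z * ‖α z‖ ^ 2 * Real.exp (- φ z) ≤ ∫ z, ‖dzbStar φ α z‖ ^ 2 * Real.exp (- φ z) := by
  obtain ⟨φ', hφ', heq⟩ := exists_global hΩ hα.compact hα.supp (n := 2) hφ
  obtain ⟨κ', hκ', heqκ⟩ : ∃ κ' : ℂ → ℝ, ContDiff ℝ 0 κ' ∧ ∀ᶠ z in 𝓝ˢ (tsupport α), κ' z = κ z :=
    exists_global hΩ hα.compact hα.supp (n := 0) (contDiffOn_zero.mpr hκ)
  have hκc : Continuous κ' := contDiff_zero.mp hκ'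
  have hsupp : ∀ z, α z ≠ 0 → z ∈ tsupport α := fun z hz => subset_tsupport _ hz
  have e1 : ∀ z, κ z * ‖α z‖ ^ 2 * Real.exp (- φ z) = κ' z * ‖α z‖ ^ 2 * Real.exp (- φ' z) := by
    intro z
    by_cases hz : α z = 0
    · simp [hz]
    · rw [heq.self_of_nhdsSet z (hsupp z hz), heqκ.self_of_nhdsSet z (hsupp z hz)]
  have e2 : ∀ z, ‖dzbStar φ α z‖ ^ 2 * Real.exp (- φ z)
      = ‖dzbStar φ' α z‖ ^ 2 * Real.exp (- φ' z) := by
    intro z
    rw [dzbStar_congr heq]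
    by_cases hz : z ∈ tsupport α
    · rw [heq.self_of_nhdsSet z hz]
    · have : dzbStar φ' α z = 0 := by
        rw [dzbStar, dz_eq_zero_of_notMem hz, image_eq_zero_of_notMem_tsupport hz]; simp
      simp [this]
  simp only [e1, e2]
  rw [basic_identity hφ' hα.contDiff hα.compact]
  have hexp : Continuous (fun z => Real.exp (- φ' z)) :=
    Real.continuous_exp.comp hφ'.continuous.neg
  have hαn : Continuous (fun z => ‖α z‖ ^ 2) := (hα.contDiff.continuous.norm).pow 2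
  have hαs : HasCompactSupport (fun z => ‖α z‖ ^ 2) :=
    hα.compact.comp_left (g := fun w => ‖w‖ ^ 2) (by simp)
  have hLc : Continuous (fun z => Δ φ' z / 4) := by
    have h1 : Continuous (fun z => ((Δ φ' z / 4 : ℝ) : ℂ)) := by
      have : (fun z => ((Δ φ' z / 4 : ℝ) : ℂ)) = dzb (dz (fun w => (φ' w : ℂ))) := by
        funext z; exact (dzb_dz_ofReal hφ' z).symm
      rw [this]
      have hd := contDiff_dz
        (Complex.ofRealCLM.contDiff.comp hφ' : ContDiff ℝ 2 (fun w => (φ' w : ℂ)))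
      unfold dzb
      exact continuous_const.mul ((cont_fderiv_apply hd 1).add
        (continuous_const.mul (cont_fderiv_apply hd I)))
    have h2 : (fun z => Δ φ' z / 4) = fun z => (((Δ φ' z / 4 : ℝ) : ℂ)).re := by
      funext z; simp
    rw [h2]
    exact Complex.continuous_re.comp h1
  have hdz : Continuous (dzb α) := (contDiff_dzb hα.contDiff).continuous
  have hdzs : HasCompactSupport (fun z => ‖dzb α z‖ ^ 2) :=
    (hasCompactSupport_dzb hα.compact).comp_left (g := fun w => ‖w‖ ^ 2) (by simp)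
  apply integral_mono
  · apply Continuous.integrable_of_hasCompactSupport
    · exact (hκc.mul hαn).mul hexp
    · exact hαs.mul_left.mul_right
  · apply Continuous.integrable_of_hasCompactSupport
    · exact ((hdz.norm.pow 2).add (hLc.mul hαn)).mul hexp
    · exact (hdzs.add hαs.mul_left).mul_right
  · intro z
    simp only
    have h1 : κ' z * ‖α z‖ ^ 2 ≤ ‖dzb α z‖ ^ 2 + Δ φ' z / 4 * ‖α z‖ ^ 2 := by
      by_cases hz : z ∈ tsupport α
      · have h2 : Δ φ' z = Δ φ z := by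
          have h3 : ∀ᶠ x in 𝓝 z, φ' x = φ x := (eventually_nhdsSet_iff_forall.mp heq) z hz
          exact (laplacian_congr_nhds h3).eq_of_nhds
        have h4 := hlap z (hα.supp hz)
        rw [heqκ.self_of_nhdsSet z hz, h2]
        nlinarith [sq_nonneg ‖dzb α z‖, sq_nonneg ‖α z‖]
      · rw [image_eq_zero_of_notMem_tsupport hz]
        simp
    exact mul_le_mul_of_nonneg_right h1 (Real.exp_pos _).le

/-- Riesz representation with a bound. -/
lemma riesz_bound {E H : Type*} [AddCommGroup E] [Module ℂ E] [NormedAddCommGroup H]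
    [InnerProductSpace ℂ H] [CompleteSpace H] (S : E →ₗ[ℂ] H) (ℓ : E →ₗ[ℂ] ℂ) {C : ℝ}
    (hC : 0 ≤ C) (h : ∀ a, ‖ℓ a‖ ≤ C * ‖S a‖) :
    ∃ U : H, ‖U‖ ≤ C ∧ ∀ a, inner ℂ U (S a) = ℓ a := by
  have hker : LinearMap.ker S ≤ LinearMap.ker ℓ := by
    intro a ha
    rw [LinearMap.mem_ker] at ha ⊢
    have := h a
    rw [ha, norm_zero, mul_zero] at this
    exact norm_le_zero_iff.mp this
  let f₀ : LinearMap.range S →ₗ[ℂ] ℂ :=
    ((LinearMap.ker S).liftQ ℓ hker).comp S.quotKerEquivRange.symm.toLinearMap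
  have hf₀ : ∀ a, f₀ ⟨S a, LinearMap.mem_range_self S a⟩ = ℓ a := by
    intro a
    have : S.quotKerEquivRange.symm ⟨S a, LinearMap.mem_range_self S a⟩
        = (LinearMap.ker S).mkQ a := by
      rw [LinearEquiv.symm_apply_eq]
      rfl
    simp only [f₀, LinearMap.comp_apply, LinearEquiv.coe_coe, this]
    simp
  have hbound : ∀ x : LinearMap.range S, ‖f₀ x‖ ≤ C * ‖x‖ := by
    rintro ⟨x, a, rfl⟩
    rw [hf₀ a]
    exact h a
  let f : StrongDual ℂ (LinearMap.range S) := f₀.mkContinuous C hbound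
  obtain ⟨g, hg, hgn⟩ := exists_extension_norm_eq (LinearMap.range S) f
  refine ⟨(InnerProductSpace.toDual ℂ H).symm g, ?_, fun a => ?_⟩
  · rw [LinearIsometryEquiv.norm_map, hgn]
    exact LinearMap.mkContinuous_norm_le _ hC _
  · rw [InnerProductSpace.toDual_symm_apply]
    have := hg ⟨S a, LinearMap.mem_range_self S a⟩
    rw [this]
    exact hf₀ a

/-- The space of test functions, as a submodule. -/
def TestSpace (Ω : Set ℂ) : Submodule ℂ (ℂ → ℂ) where
  carrier := {α | Test Ω α}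
  zero_mem' := ⟨contDiff_const, HasCompactSupport.zero, by
    have : tsupport (0 : ℂ → ℂ) = ∅ := by simp [tsupport]
    rw [this]; exact empty_subset _⟩
  add_mem' := fun {a b} ha hb => ⟨ha.contDiff.add hb.contDiff, ha.compact.add hb.compact,
    (tsupport_add a b).trans (union_subset ha.supp hb.supp)⟩
  smul_mem' := fun c a ha => ⟨contDiff_const.smul ha.contDiff, ha.compact.smul_left,
    (closure_mono (Function.support_const_smul_subset c a)).trans ha.supp⟩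

lemma mem_testSpace {Ω : Set ℂ} {α : ℂ → ℂ} : α ∈ TestSpace Ω ↔ Test Ω α := Iff.rfl

lemma dzbStar_add {φ : ℂ → ℝ} {α β : ℂ → ℂ} (hα : ContDiff ℝ 2 α) (hβ : ContDiff ℝ 2 β) (z : ℂ) :
    dzbStar φ (α + β) z = dzbStar φ α z + dzbStar φ β z := by
  have e : (α + β) = fun w => α w + β w := rfl
  rw [dzbStar, e, dz_add (hα.differentiable (by norm_num) z) (hβ.differentiable (by norm_num) z),
    dzbStar, dzbStar]
  ring

lemma dz_const_smul {α : ℂ → ℂ} (hα : Differentiable ℝ α) (c : ℂ) (z : ℂ) :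
    dz (c • α) z = c * dz α z := by
  have e : (c • α) = fun w => (fun _ => c) w * α w := rfl
  rw [e, dz_mul (differentiableAt_const c) (hα z)]
  simp [dz]

lemma dzbStar_smul {φ : ℂ → ℝ} {α : ℂ → ℂ} (hα : ContDiff ℝ 2 α) (c : ℂ) (z : ℂ) :
    dzbStar φ (c • α) z = c * dzbStar φ α z := by
  rw [dzbStar, dz_const_smul (hα.differentiable (by norm_num)), dzbStar]
  simp only [Pi.smul_apply, smul_eq_mul]
  ring

/-- `T^* α e^{-φ/2}` is continuous with compact support. -/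
lemma cont_S {Ω : Set ℂ} (hΩ : IsOpen Ω) {φ : ℂ → ℝ} (hφ : ContDiffOn ℝ 2 φ Ω)
    {α : ℂ → ℂ} (hα : Test Ω α) :
    Continuous (fun z => dzbStar φ α z * ((Real.exp (- φ z / 2) : ℝ) : ℂ)) ∧
    HasCompactSupport (fun z => dzbStar φ α z * ((Real.exp (- φ z / 2) : ℝ) : ℂ)) := by
  refine ⟨?_, (hasCompactSupport_dzbStar hα.compact).mul_right⟩
  obtain ⟨φ', hφ', heq⟩ := exists_global hΩ hα.compact hα.supp (n := 2) hφ
  have e : (fun z => dzbStar φ α z * ((Real.exp (- φ z / 2) : ℝ) : ℂ))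
      = fun z => dzbStar φ' α z * ((Real.exp (- φ' z / 2) : ℝ) : ℂ) := by
    funext z
    rw [dzbStar_congr heq]
    by_cases hz : z ∈ tsupport α
    · rw [heq.self_of_nhdsSet z hz]
    · have : dzbStar φ' α z = 0 := by
        rw [dzbStar, dz_eq_zero_of_notMem hz, image_eq_zero_of_notMem_tsupport hz]; simp
      simp [this]
  rw [e]
  exact (contDiff_dzbStar hφ' hα.contDiff).continuous.mul
    (Complex.continuous_ofReal.comp (Real.continuous_exp.comp (hφ'.continuous.neg.div_const 2)))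

/-- The map `α ↦ T^* α e^{-φ/2}` into `L²(ℂ)`. -/
noncomputable def SMap {Ω : Set ℂ} (hΩ : IsOpen Ω) {φ : ℂ → ℝ} (hφ : ContDiffOn ℝ 2 φ Ω) :
    TestSpace Ω →ₗ[ℂ] Lp ℂ 2 (volume : Measure ℂ) where
  toFun α := ((cont_S hΩ hφ α.2).1.memLp_of_hasCompactSupport (cont_S hΩ hφ α.2).2).toLp _
  map_add' a b := by
    rw [← MemLp.toLp_add]
    apply MemLp.toLp_congr
    apply Eventually.of_forall
    intro z
    simp only [Pi.add_apply]
    have : ((a + b : TestSpace Ω) : ℂ → ℂ) = (a : ℂ → ℂ) + (b : ℂ → ℂ) := rfl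
    rw [this, dzbStar_add a.2.contDiff b.2.contDiff]
    ring
  map_smul' c a := by
    rw [RingHom.id_apply, ← MemLp.toLp_const_smul]
    apply MemLp.toLp_congr
    apply Eventually.of_forall
    intro z
    simp only [Pi.smul_apply, smul_eq_mul]
    have : ((c • a : TestSpace Ω) : ℂ → ℂ) = c • (a : ℂ → ℂ) := rfl
    rw [this, dzbStar_smul a.2.contDiff]
    ring

lemma L2_norm_sq (F : Lp ℂ 2 (volume : Measure ℂ)) : ‖F‖ ^ 2 = ∫ z, ‖F z‖ ^ 2 := by
  have h1 : ‖F‖ ^ 2 = RCLike.re (inner ℂ F F) := (inner_self_eq_norm_sq (𝕜 := ℂ) F).symm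
  rw [h1, L2.inner_def]
  have h2 : ∀ z, inner ℂ (F z) (F z) = ((‖F z‖ ^ 2 : ℝ) : ℂ) := by
    intro z
    rw [inner_self_eq_norm_sq_to_K]
    norm_cast
  simp only [h2]
  rw [integral_complex_ofReal]
  rfl

lemma SMap_coe {Ω : Set ℂ} (hΩ : IsOpen Ω) {φ : ℂ → ℝ} (hφ : ContDiffOn ℝ 2 φ Ω)
    (α : TestSpace Ω) :
    (SMap hΩ hφ α : ℂ → ℂ) =ᵐ[volume]
      fun z => dzbStar φ (α : ℂ → ℂ) z * ((Real.exp (- φ z / 2) : ℝ) : ℂ) :=
  MemLp.coeFn_toLp ((cont_S hΩ hφ α.2).1.memLp_of_hasCompactSupport (cont_S hΩ hφ α.2).2)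

lemma SMap_norm_sq {Ω : Set ℂ} (hΩ : IsOpen Ω) {φ : ℂ → ℝ} (hφ : ContDiffOn ℝ 2 φ Ω)
    (α : TestSpace Ω) :
    ‖SMap hΩ hφ α‖ ^ 2 = ∫ z, ‖dzbStar φ (α : ℂ → ℂ) z‖ ^ 2 * Real.exp (- φ z) := by
  rw [L2_norm_sq]
  apply integral_congr_ae
  filter_upwards [SMap_coe hΩ hφ α] with z hz
  rw [hz, norm_mul, mul_pow, Complex.norm_real, Real.norm_of_nonneg (Real.exp_pos _).le,
    ← Real.exp_nat_mul]
  congr 2
  push_cast
  ring

/-- Cauchy–Schwarz for continuous compactly supported functions. -/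
lemma cauchy_schwarz {a b : ℂ → ℝ} (ha : Continuous a) (hb : Continuous b)
    (ha0 : ∀ z, 0 ≤ a z) (hb0 : ∀ z, 0 ≤ b z) (has : HasCompactSupport a)
    (hbs : HasCompactSupport b) :
    ∫ z, a z * b z ≤ Real.sqrt (∫ z, a z ^ 2) * Real.sqrt (∫ z, b z ^ 2) := by
  have h := integral_mul_le_Lp_mul_Lq_of_nonneg (μ := (volume : Measure ℂ))
    (Real.HolderConjugate.two_two) (f := a) (g := b) (Eventually.of_forall ha0)
    (Eventually.of_forall hb0) (by
      simpa using ha.memLp_of_hasCompactSupport has) (by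
      simpa using hb.memLp_of_hasCompactSupport hbs)
  rw [Real.sqrt_eq_rpow, Real.sqrt_eq_rpow]
  simpa using h

/-- Cauchy–Schwarz for the data functional. -/
lemma functional_bound {Ω : Set ℂ} (hΩ : IsOpen Ω) {φ κ : ℂ → ℝ} (hφ : ContDiffOn ℝ 2 φ Ω)
    (hκ : ContinuousOn κ Ω) (hκpos : ∀ z ∈ Ω, 0 < κ z)
    (hlap : ∀ z ∈ Ω, 4 * κ z ≤ Δ φ z) {g : ℂ → ℂ} (hg : Continuous g) {K : Set ℂ}
    (hK : IsCompact K) (hKΩ : K ⊆ Ω) (hgK : ∀ z, z ∉ K → g z = 0) (α : TestSpace Ω) :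
    ‖∫ z, (starRingEnd ℂ) (g z) * (α : ℂ → ℂ) z * ((Real.exp (- φ z) : ℝ) : ℂ)‖
      ≤ Real.sqrt (∫ z, ‖g z‖ ^ 2 / κ z * Real.exp (- φ z)) * ‖SMap hΩ hφ α‖ := by
  have hα := mem_testSpace.mp α.2
  set α' : ℂ → ℂ := (α : ℂ → ℂ) with hα'
  -- a common compact set
  have hL : IsCompact (K ∪ tsupport α') := hK.union hα.compact
  have hLΩ : K ∪ tsupport α' ⊆ Ω := union_subset hKΩ hα.supp
  obtain ⟨φ', hφ', heq⟩ := exists_global hΩ hL hLΩ (n := 2) hφ
  obtain ⟨r, hr, heqr⟩ : ∃ r : ℂ → ℝ, ContDiff ℝ 0 r ∧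
      ∀ᶠ z in 𝓝ˢ (K ∪ tsupport α'), r z = Real.sqrt (κ z) :=
    exists_global hΩ hL hLΩ (n := 0) (contDiffOn_zero.mpr hκ.sqrt)
  obtain ⟨s, hs, heqs⟩ : ∃ s : ℂ → ℝ, ContDiff ℝ 0 s ∧
      ∀ᶠ z in 𝓝ˢ (K ∪ tsupport α'), s z = (Real.sqrt (κ z))⁻¹ :=
    exists_global hΩ hL hLΩ (n := 0) (contDiffOn_zero.mpr
      (hκ.sqrt.inv₀ (fun z hz => (Real.sqrt_pos.mpr (hκpos z hz)).ne')))
  have hrc : Continuous r := contDiff_zero.mp hr
  have hsc : Continuous s := contDiff_zero.mp hs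
  have hαc : Continuous α' := hα.contDiff.continuous
  have hexp : Continuous (fun z => Real.exp (- φ' z / 2)) :=
    Real.continuous_exp.comp (hφ'.continuous.neg.div_const 2)
  have hgs : HasCompactSupport g := HasCompactSupport.of_support_subset_isCompact hK
    (fun z hz => by by_contra h; exact hz (hgK z h))
  have hgns : HasCompactSupport (fun z => ‖g z‖) := hgs.norm
  have hαns : HasCompactSupport (fun z => ‖α' z‖) := hα.compact.norm
  let a : ℂ → ℝ := fun z => ‖g z‖ * |s z| * Real.exp (- φ' z / 2)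
  let b : ℂ → ℝ := fun z => ‖α' z‖ * |r z| * Real.exp (- φ' z / 2)
  have ha : Continuous a := (hg.norm.mul hsc.abs).mul hexp
  have hb : Continuous b := (hαc.norm.mul hrc.abs).mul hexp
  have has : HasCompactSupport a := hgns.mul_right.mul_right
  have hbs : HasCompactSupport b := hαns.mul_right.mul_right
  have hexp2 : ∀ z, Real.exp (- φ' z / 2) ^ 2 = Real.exp (- φ' z) := by
    intro z; rw [← Real.exp_nat_mul]; congr 1; push_cast; ring
  -- pointwise identities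
  have p1 : ∀ z, ‖(starRingEnd ℂ) (g z) * α' z * ((Real.exp (- φ z) : ℝ) : ℂ)‖ = a z * b z := by
    intro z
    rw [norm_mul, norm_mul, RCLike.norm_conj, Complex.norm_real,
      Real.norm_of_nonneg (Real.exp_pos _).le]
    by_cases hz : z ∈ K
    · have hzL : z ∈ K ∪ tsupport α' := Or.inl hz
      have e1 := heq.self_of_nhdsSet z hzL
      have e2 := heqr.self_of_nhdsSet z hzL
      have e3 := heqs.self_of_nhdsSet z hzL
      have hpos := Real.sqrt_pos.mpr (hκpos z (hKΩ hz))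
      simp only [a, b]
      rw [e2, e3, abs_of_pos hpos, abs_of_pos (inv_pos.mpr hpos)]
      have : ‖g z‖ * (Real.sqrt (κ z))⁻¹ * Real.exp (- φ' z / 2) * (‖α' z‖ * Real.sqrt (κ z) *
          Real.exp (- φ' z / 2)) = ‖g z‖ * ‖α' z‖ * (Real.sqrt (κ z) * (Real.sqrt (κ z))⁻¹) *
          Real.exp (- φ' z / 2) ^ 2 := by ring
      rw [this, hexp2, mul_inv_cancel₀ hpos.ne', e1, mul_one]
    · simp [a, hgK z hz]
  have p2 : ∀ z, a z ^ 2 = ‖g z‖ ^ 2 / κ z * Real.exp (- φ z) := by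
    intro z
    by_cases hz : z ∈ K
    · have hzL : z ∈ K ∪ tsupport α' := Or.inl hz
      have e1 := heq.self_of_nhdsSet z hzL
      have e3 := heqs.self_of_nhdsSet z hzL
      have hpos := hκpos z (hKΩ hz)
      simp only [a]
      rw [e3, mul_pow, mul_pow, hexp2, sq_abs, inv_pow, Real.sq_sqrt hpos.le, e1]
      rfl
    · simp [a, hgK z hz]
  have p3 : ∀ z, b z ^ 2 = κ z * ‖α' z‖ ^ 2 * Real.exp (- φ z) := by
    intro z
    by_cases hz : z ∈ tsupport α'
    · have hzL : z ∈ K ∪ tsupport α' := Or.inr hz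
      have e1 := heq.self_of_nhdsSet z hzL
      have e3 := heqr.self_of_nhdsSet z hzL
      have hpos := hκpos z (hα.supp hz)
      simp only [b]
      rw [e3, mul_pow, mul_pow, hexp2, sq_abs, Real.sq_sqrt hpos.le, e1]
      ring
    · simp [b, image_eq_zero_of_notMem_tsupport hz]
  calc ‖∫ z, (starRingEnd ℂ) (g z) * α' z * ((Real.exp (- φ z) : ℝ) : ℂ)‖
      ≤ ∫ z, ‖(starRingEnd ℂ) (g z) * α' z * ((Real.exp (- φ z) : ℝ) : ℂ)‖ :=
        norm_integral_le_integral_norm _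
    _ = ∫ z, a z * b z := by simp only [p1]
    _ ≤ Real.sqrt (∫ z, a z ^ 2) * Real.sqrt (∫ z, b z ^ 2) :=
        cauchy_schwarz ha hb (fun z => by positivity) (fun z => by positivity) has hbs
    _ ≤ Real.sqrt (∫ z, ‖g z‖ ^ 2 / κ z * Real.exp (- φ z)) * ‖SMap hΩ hφ α‖ := by
        simp only [p2]
        apply mul_le_mul_of_nonneg_left _ (Real.sqrt_nonneg _)
        rw [← Real.sqrt_sq (norm_nonneg (SMap hΩ hφ α)), SMap_norm_sq]
        apply Real.sqrt_le_sqrt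
        simp only [p3]
        exact basic_inequality hΩ hφ hκ hlap hα

lemma dz_exp_real {φ : ℂ → ℝ} (hφ : ContDiff ℝ 2 φ) (z : ℂ) :
    dz (fun w => ((Real.exp (φ w) : ℝ) : ℂ)) z
      = ((Real.exp (φ z) : ℝ) : ℂ) * dz (fun w => (φ w : ℂ)) z := by
  have h := dz_wt (φ := fun w => - φ w) (hφ.neg.of_le (by norm_num)) z
  have e : wt (fun w => - φ w) = fun w => ((Real.exp (φ w) : ℝ) : ℂ) := by
    funext w; simp [wt]
  rw [e] at h
  rw [h]
  have e2 : (fun w => ((-φ w : ℝ) : ℂ)) = fun w => - ((φ w : ℂ)) := by funext w; simp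
  rw [e2]
  have e3 : dz (fun w => - ((φ w : ℂ))) z = - dz (fun w => (φ w : ℂ)) z := by
    simp only [dz, fderiv_fun_neg]
    simp
    ring
  rw [e3]
  ring

/-- Existence of a weak solution of `∂̄ u = g` with the `L²` bound. -/
theorem weak_solution {Ω : Set ℂ} (hΩ : IsOpen Ω) {φ κ : ℂ → ℝ} (hφ : ContDiffOn ℝ 2 φ Ω)
    (hκ : ContinuousOn κ Ω) (hκpos : ∀ z ∈ Ω, 0 < κ z)
    (hlap : ∀ z ∈ Ω, 4 * κ z ≤ Δ φ z) {g : ℂ → ℂ} (hg : Continuous g) {K : Set ℂ}
    (hK : IsCompact K) (hKΩ : K ⊆ Ω) (hgK : ∀ z, z ∉ K → g z = 0) :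
    ∃ u : ℂ → ℂ, LocallyIntegrableOn u Ω ∧
      IntegrableOn (fun z => ‖u z‖ ^ 2 * Real.exp (- φ z)) Ω ∧
      ∫ z in Ω, ‖u z‖ ^ 2 * Real.exp (- φ z) ≤ ∫ z, ‖g z‖ ^ 2 / κ z * Real.exp (- φ z) ∧
      ∀ β, Test Ω β → ∫ z, u z * dzb β z = - ∫ z, g z * β z := by
  -- the functional
  have hgs : HasCompactSupport g := HasCompactSupport.of_support_subset_isCompact hK
    (fun z hz => by by_contra h; exact hz (hgK z h))
  have hint : ∀ α : TestSpace Ω, Integrable
      (fun z => (starRingEnd ℂ) (g z) * (α : ℂ → ℂ) z * ((Real.exp (- φ z) : ℝ) : ℂ)) := by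
    intro α
    obtain ⟨φ', hφ', heq⟩ := exists_global hΩ hK hKΩ (n := 2) hφ
    have e : (fun z => (starRingEnd ℂ) (g z) * (α : ℂ → ℂ) z * ((Real.exp (- φ z) : ℝ) : ℂ))
        = fun z => (starRingEnd ℂ) (g z) * (α : ℂ → ℂ) z * ((Real.exp (- φ' z) : ℝ) : ℂ) := by
      funext z
      by_cases hz : z ∈ K
      · rw [heq.self_of_nhdsSet z hz]
      · simp [hgK z hz]
    rw [e]
    apply Continuous.integrable_of_hasCompactSupport
    · exact (((Complex.conjCLE : ℂ →L[ℝ] ℂ).continuous.comp hg).mul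
        (mem_testSpace.mp α.2).contDiff.continuous).mul
        (Complex.continuous_ofReal.comp (Real.continuous_exp.comp hφ'.continuous.neg))
    · exact ((hgs.comp_left (g := starRingEnd ℂ) (map_zero _)).mul_right).mul_right
  let ℓ : TestSpace Ω →ₗ[ℂ] ℂ :=
    { toFun := fun α => ∫ z, (starRingEnd ℂ) (g z) * (α : ℂ → ℂ) z * ((Real.exp (- φ z) : ℝ) : ℂ)
      map_add' := by
        intro a b
        rw [← integral_add (hint a) (hint b)]
        congr 1
        funext z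
        have : ((a + b : TestSpace Ω) : ℂ → ℂ) z = (a : ℂ → ℂ) z + (b : ℂ → ℂ) z := rfl
        rw [this]
        ring
      map_smul' := by
        intro c a
        rw [RingHom.id_apply, smul_eq_mul, ← integral_const_mul]
        congr 1
        funext z
        have : ((c • a : TestSpace Ω) : ℂ → ℂ) z = c * (a : ℂ → ℂ) z := rfl
        rw [this]
        ring }
  set A := ∫ z, ‖g z‖ ^ 2 / κ z * Real.exp (- φ z) with hA
  have hA0 : 0 ≤ A := by
    apply integral_nonneg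
    intro z
    by_cases hz : z ∈ K
    · have := hκpos z (hKΩ hz)
      positivity
    · simp [hgK z hz]
  obtain ⟨V, hV, hVS⟩ := riesz_bound (SMap hΩ hφ) ℓ (Real.sqrt_nonneg A)
    (fun α => functional_bound hΩ hφ hκ hκpos hlap hg hK hKΩ hgK α)
  have hVmem : MemLp V 2 (volume : Measure ℂ) := Lp.memLp V
  have hφc : ContinuousOn (fun z => ((Real.exp (φ z / 2) : ℝ) : ℂ)) Ω := by
    exact Complex.continuous_ofReal.comp_continuousOn
      (Real.continuous_exp.comp_continuousOn (hφ.continuousOn.div_const 2))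
  have hVloc : LocallyIntegrableOn (V : ℂ → ℂ) Ω :=
    ((hVmem.locallyIntegrable (by norm_num)).locallyIntegrableOn Ω)
  have hsq : Integrable (fun z => ‖V z‖ ^ 2) := hVmem.norm.integrable_sq
  have hexp2 : ∀ z, ‖V z * ((Real.exp (φ z / 2) : ℝ) : ℂ)‖ ^ 2 * Real.exp (- φ z) = ‖V z‖ ^ 2 := by
    intro z
    rw [norm_mul, mul_pow, Complex.norm_real, Real.norm_of_nonneg (Real.exp_pos _).le,
      ← Real.exp_nat_mul, mul_assoc, ← Real.exp_add]
    have : ((2:ℕ):ℝ) * (φ z / 2) + - φ z = 0 := by push_cast; ring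
    rw [this, Real.exp_zero, mul_one]
  refine ⟨fun z => V z * ((Real.exp (φ z / 2) : ℝ) : ℂ), ?_, ?_, ?_, ?_⟩
  · exact hVloc.mul_continuousOn hφc hΩ.isLocallyClosed
  · simp only [hexp2]
    exact hsq.integrableOn
  · simp only [hexp2]
    calc ∫ z in Ω, ‖V z‖ ^ 2 ≤ ∫ z, ‖V z‖ ^ 2 :=
          setIntegral_le_integral hsq (Eventually.of_forall fun z => by positivity)
      _ = ‖V‖ ^ 2 := (L2_norm_sq V).symm
      _ ≤ (Real.sqrt A) ^ 2 := by gcongr
      _ = A := Real.sq_sqrt hA0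
  · intro β hβ
    obtain ⟨φ', hφ', heq⟩ := exists_global hΩ hβ.compact hβ.supp (n := 2) hφ
    have hconj : ContDiff ℝ 2 (fun z => (starRingEnd ℂ) (β z)) :=
      (Complex.conjCLE : ℂ →L[ℝ] ℂ).contDiff.comp hβ.contDiff
    have hexpC : ContDiff ℝ 2 (fun w => ((Real.exp (φ' w) : ℝ) : ℂ)) :=
      Complex.ofRealCLM.contDiff.comp (Real.contDiff_exp.comp hφ')
    set α : ℂ → ℂ := fun z => ((Real.exp (φ' z) : ℝ) : ℂ) * (starRingEnd ℂ) (β z) with hα
    have hαtest : Test Ω α := by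
      refine ⟨hexpC.mul hconj, ?_, ?_⟩
      · exact (hβ.compact.comp_left (g := starRingEnd ℂ) (map_zero _)).mul_left
      · refine (closure_mono ?_).trans hβ.supp
        intro z hz
        simp only [hα, Function.mem_support] at hz ⊢
        intro h
        apply hz
        rw [h]
        simp
    have hsuppα : tsupport α ⊆ tsupport β := by
      apply closure_mono
      intro z hz
      simp only [hα, Function.mem_support] at hz ⊢
      intro h
      apply hz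
      rw [h]
      simp
    have hstar : ∀ z, dzbStar φ α z = - (((Real.exp (φ' z) : ℝ) : ℂ) * (starRingEnd ℂ) (dzb β z)) := by
      intro z
      have h1 : dzbStar φ α = dzbStar φ' α := by
        apply dzbStar_congr
        exact heq.filter_mono (nhdsSet_mono hsuppα)
      rw [h1, dzbStar, hα, dz_mul (hexpC.differentiable (by norm_num) z)
        (hconj.differentiable (by norm_num) z), dz_exp_real hφ',
        dz_conj (hβ.contDiff.differentiable (by norm_num) z)]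
      ring
    have h2 := hVS ⟨α, hαtest⟩
    rw [L2.inner_def] at h2
    have h3 : ∫ a, inner ℂ (V a) ((SMap hΩ hφ ⟨α, hαtest⟩ : ℂ → ℂ) a)
        = ∫ a, (starRingEnd ℂ) (- (V a * ((Real.exp (φ a / 2) : ℝ) : ℂ) * dzb β a)) := by
      apply integral_congr_ae
      filter_upwards [SMap_coe hΩ hφ ⟨α, hαtest⟩] with z hz
      rw [hz, RCLike.inner_apply]
      rw [hstar]
      simp only [map_neg, map_mul, Complex.conj_ofReal]
      by_cases hzs : z ∈ tsupport β
      · rw [heq.self_of_nhdsSet z hzs]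
        have e5 : Real.exp (φ z) * Real.exp (- φ z / 2) = Real.exp (φ z / 2) := by
          rw [← Real.exp_add]; congr 1; ring
        have e6 : ((Real.exp (φ z) : ℝ) : ℂ) * ((Real.exp (- φ z / 2) : ℝ) : ℂ)
            = ((Real.exp (φ z / 2) : ℝ) : ℂ) := by
          rw [← Complex.ofReal_mul, e5]
        linear_combination (-((starRingEnd ℂ) (dzb β z)) * (starRingEnd ℂ) (V z)) * e6
      · rw [dzb_eq_zero_of_notMem hzs]
        simp
    rw [h3, integral_conj, integral_neg] at h2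
    have h4 : ℓ ⟨α, hαtest⟩ = (starRingEnd ℂ) (∫ z, g z * β z) := by
      rw [← integral_conj]
      apply integral_congr_ae
      apply Eventually.of_forall
      intro z
      simp only [hα, map_mul]
      by_cases hzs : z ∈ tsupport β
      · rw [heq.self_of_nhdsSet z hzs]
        have e6 : ((Real.exp (φ z) : ℝ) : ℂ) * ((Real.exp (- φ z) : ℝ) : ℂ) = 1 := by
          rw [← Complex.ofReal_mul, ← Real.exp_add]; simp
        linear_combination ((starRingEnd ℂ) (g z) * (starRingEnd ℂ) (β z)) * e6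
      · rw [image_eq_zero_of_notMem_tsupport hzs]
        simp
    rw [h4] at h2
    have h5 := (starRingEnd ℂ).injective h2
    rw [← h5, neg_neg]

end Pool.Agent.Lib.H27
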