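import Pool.Agent.Lib.H27.DBar

/-!
# The cutoff logarithm and the Laplacian of compositions
-/

set_option autoImplicit false

open MeasureTheory Complex Set Topology Filter
open scoped ContDiff

namespace Pool.Agent.Lib.H27

open InnerProductSpace Laplacian

section q

lemma hasDerivAt_posPart_cube (s : ℝ) :
    HasDerivAt (fun s : ℝ => (max s 0) ^ 3) (3 * (max s 0) ^ 2) s := by
  rcases lt_trichotomy s 0 with h | h | h
  · have h1 : (fun s : ℝ => (max s 0) ^ 3) =ᶠ[𝓝 s] fun _ => 0 := by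
      filter_upwards [gt_mem_nhds h] with t ht
      rw [max_eq_right ht.le]; norm_num
    rw [max_eq_right h.le]
    norm_num
    exact (hasDerivAt_const s (0:ℝ)).congr_of_eventuallyEq h1
  · subst h
    rw [hasDerivAt_iff_isLittleO]
    simp only [max_self]
    have : (fun x' : ℝ => max x' 0 ^ 3 - 0 ^ 3 - (x' - 0) • (3 * (0:ℝ) ^ 2)) = fun x' => max x' 0 ^ 3 := by
      funext x; simp
    rw [this]
    have h2 : (fun x' : ℝ => x' - 0) = fun x' => x' := by funext x; simp
    rw [h2]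
    have h3 : (fun x' : ℝ => max x' 0 ^ 3) =O[𝓝 0] fun x' : ℝ => x' ^ 3 := by
      apply Asymptotics.IsBigO.of_bound 1
      apply Eventually.of_forall
      intro x
      rw [norm_pow, norm_pow, one_mul]
      apply pow_le_pow_left₀ (norm_nonneg _)
      rw [Real.norm_eq_abs, Real.norm_eq_abs]
      rcases le_total x 0 with hx | hx
      · rw [max_eq_right hx]; simp
      · rw [max_eq_left hx]
    refine h3.trans_isLittleO ?_
    have h4 : (fun x : ℝ => x ^ 3) =o[𝓝 0] fun x : ℝ => x ^ 1 :=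
      Asymptotics.isLittleO_pow_pow (by norm_num)
    simpa using h4
  · have h1 : (fun s : ℝ => (max s 0) ^ 3) =ᶠ[𝓝 s] fun s => s ^ 3 := by
      filter_upwards [lt_mem_nhds h] with t ht
      rw [max_eq_left ht.le]
    rw [max_eq_left h.le]
    have h2 := hasDerivAt_pow 3 s
    norm_num at h2
    exact h2.congr_of_eventuallyEq h1

/-- `q(X) = max (1 - e^X) 0`. -/
noncomputable def qf (X : ℝ) : ℝ := max (1 - Real.exp X) 0

lemma qf_nonneg (X : ℝ) : 0 ≤ qf X := le_max_right _ _

lemma qf_le_one (X : ℝ) : qf X ≤ 1 := max_le (by linarith [Real.exp_pos X]) zero_le_one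

lemma qf_of_nonneg {X : ℝ} (hX : 0 ≤ X) : qf X = 0 :=
  max_eq_right (by linarith [Real.one_le_exp hX])

lemma qf_of_nonpos {X : ℝ} (hX : X ≤ 0) : qf X = 1 - Real.exp X :=
  max_eq_left (by linarith [Real.exp_le_one_iff.mpr hX])

lemma continuous_qf : Continuous qf := by unfold qf; fun_prop

lemma hasDerivAt_qf_cube (X : ℝ) :
    HasDerivAt (fun X => qf X ^ 3) (-(3 * Real.exp X * qf X ^ 2)) X := by
  have h1 : HasDerivAt (fun X : ℝ => 1 - Real.exp X) (- Real.exp X) X :=
    (Real.hasDerivAt_exp X).const_sub 1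
  have h2 := (hasDerivAt_posPart_cube (1 - Real.exp X)).comp X h1
  exact h2.congr_deriv (by simp only [qf]; ring)

/-- The cutoff logarithm: `K(X) = ∫_X^0 q³`, so `K(X) = -X + O(1)` as `X → -∞`, `K = 0` on
`[0, ∞)`. -/
noncomputable def Kf (X : ℝ) : ℝ := ∫ t in X..0, qf t ^ 3

lemma hasDerivAt_Kf (X : ℝ) : HasDerivAt Kf (-(qf X ^ 3)) X :=
  intervalIntegral.integral_hasDerivAt_left ((continuous_qf.pow 3).intervalIntegrable _ _)
    ((continuous_qf.pow 3).stronglyMeasurableAtFilter _ _) (continuous_qf.pow 3).continuousAt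

lemma deriv_Kf : deriv Kf = fun X => -(qf X ^ 3) := funext fun X => (hasDerivAt_Kf X).deriv

lemma deriv_deriv_Kf (X : ℝ) : deriv (deriv Kf) X = 3 * Real.exp X * qf X ^ 2 := by
  rw [deriv_Kf]
  have := (hasDerivAt_qf_cube X).fun_neg
  rw [this.deriv]
  ring

lemma contDiff_Kf : ContDiff ℝ 2 Kf := by
  have h1 : ContDiff ℝ 1 (deriv Kf) := by
    rw [contDiff_one_iff_deriv]
    constructor
    · intro X
      rw [deriv_Kf]
      exact ((hasDerivAt_qf_cube X).fun_neg).differentiableAt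
    · have : deriv (deriv Kf) = fun X => 3 * Real.exp X * qf X ^ 2 := funext deriv_deriv_Kf
      rw [this]
      exact (continuous_const.mul Real.continuous_exp).mul (continuous_qf.pow 2)
  have h2 : (2 : WithTop ℕ∞) = 1 + 1 := by norm_num
  rw [h2, contDiff_succ_iff_deriv]
  exact ⟨fun X => (hasDerivAt_Kf X).differentiableAt, by simp, h1⟩

lemma Kf_of_nonneg {X : ℝ} (hX : 0 ≤ X) : Kf X = 0 := by
  rw [Kf, intervalIntegral.integral_symm]
  have : ∫ t in (0:ℝ)..X, qf t ^ 3 = ∫ t in (0:ℝ)..X, (0:ℝ) := by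
    apply intervalIntegral.integral_congr
    intro t ht
    rw [uIcc_of_le hX] at ht
    simp only
    rw [qf_of_nonneg ht.1]
    norm_num
  rw [this]
  simp

lemma Kf_nonneg (X : ℝ) : 0 ≤ Kf X := by
  rcases le_total 0 X with h | h
  · rw [Kf_of_nonneg h]
  · exact intervalIntegral.integral_nonneg h (fun t _ => pow_nonneg (qf_nonneg t) 3)

lemma Kf_le {X : ℝ} (hX : X ≤ 0) : Kf X ≤ -X := by
  have h1 : ∫ t in X..0, qf t ^ 3 ≤ ∫ t in X..0, (1:ℝ) := by
    apply intervalIntegral.integral_mono_on hX ((continuous_qf.pow 3).intervalIntegrable _ _)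
      (continuous_const.intervalIntegrable _ _)
    intro t _
    exact pow_le_one₀ (qf_nonneg t) (qf_le_one t)
  simpa [Kf] using h1

lemma le_Kf (X : ℝ) : -X - 3 ≤ Kf X := by
  rcases le_total 0 X with h | h
  · rw [Kf_of_nonneg h]; linarith
  · have h1 : ∫ t in X..0, (1 - 3 * Real.exp t) ≤ ∫ t in X..0, qf t ^ 3 := by
      apply intervalIntegral.integral_mono_on h
        ((by fun_prop : Continuous (fun t : ℝ => 1 - 3 * Real.exp t)).intervalIntegrable _ _)
        ((continuous_qf.pow 3).intervalIntegrable _ _)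
      intro t ht
      change 1 - 3 * Real.exp t ≤ qf t ^ 3
      rw [qf_of_nonpos ht.2]
      have h2 : 0 ≤ Real.exp t := (Real.exp_pos t).le
      have h3 : Real.exp t ≤ 1 := Real.exp_le_one_iff.mpr ht.2
      nlinarith [mul_nonneg h2 h2, mul_nonneg (mul_nonneg h2 h2) (by linarith : 0 ≤ 3 - Real.exp t)]
    have h4 : ∫ t in X..0, (1 - 3 * Real.exp t) = -X - 3 * (1 - Real.exp X) := by
      rw [intervalIntegral.integral_sub (continuous_const.intervalIntegrable _ _)
        ((by fun_prop : Continuous (fun t : ℝ => 3 * Real.exp t)).intervalIntegrable _ _),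
        intervalIntegral.integral_const_mul, integral_exp]
      simp
    rw [h4] at h1
    rw [Kf]
    linarith [Real.exp_pos X]

lemma Kf_antitone : Antitone Kf := by
  apply antitone_of_deriv_nonpos (fun X => (hasDerivAt_Kf X).differentiableAt)
  intro X
  rw [(hasDerivAt_Kf X).deriv]
  exact neg_nonpos.mpr (pow_nonneg (qf_nonneg X) 3)

end q

section laplacian

/-- The squared Euclidean gradient. -/
noncomputable def grad2 (X : ℂ → ℝ) (z : ℂ) : ℝ := (fderiv ℝ X z 1) ^ 2 + (fderiv ℝ X z I) ^ 2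

lemma laplacian_eq (f : ℂ → ℝ) (z : ℂ) :
    Δ f z = fderiv ℝ (fderiv ℝ f) z 1 1 + fderiv ℝ (fderiv ℝ f) z I I := by
  rw [laplacian_eq_iteratedFDeriv_complexPlane]
  simp only [iteratedFDeriv_two_apply]
  simp

/-- Laplacian of a composition. -/
lemma laplacian_comp {h : ℝ → ℝ} (hh : ContDiff ℝ 2 h) {X : ℂ → ℝ} {z : ℂ}
    (hX : ContDiffAt ℝ 2 X z) :
    Δ (fun w => h (X w)) z = deriv h (X z) * Δ X z + deriv (deriv h) (X z) * grad2 X z := by
  have hev : ∀ᶠ w in 𝓝 z, ContDiffAt ℝ 2 X w := hX.eventually (by simp)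
  have h1 : fderiv ℝ (fun w => h (X w)) =ᶠ[𝓝 z] fun w => (deriv h (X w)) • fderiv ℝ X w := by
    filter_upwards [hev] with w hw
    have hd : HasDerivAt h (deriv h (X w)) (X w) :=
      (hh.differentiable (by norm_num) _).hasDerivAt
    exact (hd.comp_hasFDerivAt w (hw.differentiableAt (by norm_num)).hasFDerivAt).fderiv
  have hX1 : HasFDerivAt X (fderiv ℝ X z) z := (hX.differentiableAt (by norm_num)).hasFDerivAt
  have hX2 : HasFDerivAt (fderiv ℝ X) (fderiv ℝ (fderiv ℝ X) z) z :=
    ((hX.fderiv_right (m := 1) (by norm_num)).differentiableAt (by norm_num)).hasFDerivAt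
  have hdh : ContDiff ℝ 1 (deriv h) := by
    have h2 : (2 : WithTop ℕ∞) = 1 + 1 := by norm_num
    rw [h2, contDiff_succ_iff_deriv] at hh
    exact hh.2.2
  have hh2 : HasDerivAt (deriv h) (deriv (deriv h) (X z)) (X z) :=
    (hdh.differentiable (by norm_num) _).hasDerivAt
  have h3 : HasFDerivAt (fun w => deriv h (X w)) ((deriv (deriv h) (X z)) • fderiv ℝ X z) z :=
    hh2.comp_hasFDerivAt z hX1
  have h4 := h3.smul hX2
  rw [laplacian_eq, h1.fderiv_eq, laplacian_eq, grad2]
  have h5 : fderiv ℝ (fun w => (deriv h (X w)) • fderiv ℝ X w) z = _ := h4.fderiv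
  rw [h5]
  simp
  ring

end laplacian

end Pool.Agent.Lib.H27
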