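import Pool.Agent.Lib.H27.Defs

/-!
# Calculus of Laplacians and the logarithm of the displacement function
-/

set_option autoImplicit false

open Complex Set Topology Filter InnerProductSpace Laplacian
open scoped ContDiff

namespace Pool.Agent.Lib.H27

/-- `HD f z a b l`: `f` is `C²` at `z`, with partial derivatives `a`, `b` and Laplacian `l`. -/
structure HD (f : ℂ → ℝ) (z : ℂ) (a b l : ℝ) : Prop where
  cd : ContDiffAt ℝ 2 f z
  dx : fderiv ℝ f z 1 = a
  dy : fderiv ℝ f z I = b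
  lp : Δ f z = l

namespace HD

variable {f g : ℂ → ℝ} {z : ℂ} {a b l a' b' l' : ℝ}

lemma congr_vals (h : HD f z a b l) (h1 : a = a') (h2 : b = b') (h3 : l = l') :
    HD f z a' b' l' := by subst h1 h2 h3; exact h

lemma congr (h : HD f z a b l) (hfg : f =ᶠ[𝓝 z] g) : HD g z a b l :=
  ⟨h.cd.congr_of_eventuallyEq hfg.symm, by rw [← hfg.fderiv_eq]; exact h.dx,
    by rw [← hfg.fderiv_eq]; exact h.dy, by rw [← laplacian_congr_nhds hfg |>.eq_of_nhds]; exact h.lp⟩

lemma const (c : ℝ) (z : ℂ) : HD (fun _ => c) z 0 0 0 :=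
  ⟨contDiffAt_const, by simp, by simp, by simp [laplacian_eq]⟩

lemma re (z : ℂ) : HD (fun w => w.re) z 1 0 0 := by
  have h1 : ∀ w : ℂ, HasFDerivAt (fun w : ℂ => w.re) reCLM w := fun w => reCLM.hasFDerivAt
  have h2 : fderiv ℝ (fun w : ℂ => w.re) = fun _ => reCLM := funext fun w => (h1 w).fderiv
  refine ⟨reCLM.contDiff.contDiffAt, ?_, ?_, ?_⟩
  · rw [h2]; simp
  · rw [h2]; simp
  · rw [laplacian_eq, h2]; simp

lemma im (z : ℂ) : HD (fun w => w.im) z 0 1 0 := by
  have h1 : ∀ w : ℂ, HasFDerivAt (fun w : ℂ => w.im) imCLM w := fun w => imCLM.hasFDerivAt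
  have h2 : fderiv ℝ (fun w : ℂ => w.im) = fun _ => imCLM := funext fun w => (h1 w).fderiv
  refine ⟨imCLM.contDiff.contDiffAt, ?_, ?_, ?_⟩
  · rw [h2]; simp
  · rw [h2]; simp
  · rw [laplacian_eq, h2]; simp

lemma add (h : HD f z a b l) (h' : HD g z a' b' l') :
    HD (fun w => f w + g w) z (a + a') (b + b') (l + l') := by
  have e : fderiv ℝ (fun w => f w + g w) z = fderiv ℝ f z + fderiv ℝ g z :=
    ((h.cd.differentiableAt (by norm_num)).hasFDerivAt.fun_add
      (h'.cd.differentiableAt (by norm_num)).hasFDerivAt).fderiv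
  refine ⟨h.cd.add h'.cd, ?_, ?_, ?_⟩
  · rw [e, _root_.add_apply, h.dx, h'.dx]
  · rw [e, _root_.add_apply, h.dy, h'.dy]
  · have := h.cd.laplacian_add h'.cd
    rw [h.lp, h'.lp] at this
    exact this

lemma comp {F : ℝ → ℝ} {F1 F2 : ℝ} (h : HD f z a b l) (hF : ContDiffAt ℝ 2 F (f z))
    (hF1 : deriv F (f z) = F1) (hF2 : deriv (deriv F) (f z) = F2) :
    HD (fun w => F (f w)) z (F1 * a) (F1 * b) (F1 * l + F2 * (a ^ 2 + b ^ 2)) := by
  subst hF1 hF2
  have hX := h.cd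
  have hd0 : HasDerivAt F (deriv F (f z)) (f z) :=
    (hF.differentiableAt (by norm_num)).hasDerivAt
  have hX1 : HasFDerivAt f (fderiv ℝ f z) z := (hX.differentiableAt (by norm_num)).hasFDerivAt
  have e0 : fderiv ℝ (fun w => F (f w)) z = deriv F (f z) • fderiv ℝ f z :=
    (hd0.comp_hasFDerivAt z hX1).fderiv
  refine ⟨hF.comp z hX, ?_, ?_, ?_⟩
  · rw [e0]; simp [h.dx]
  · rw [e0]; simp [h.dy]
  have hev : ∀ᶠ w in 𝓝 z, ContDiffAt ℝ 2 f w := hX.eventually (by simp)
  have hevF : ∀ᶠ w in 𝓝 z, ContDiffAt ℝ 2 F (f w) :=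
    hX.continuousAt.eventually (hF.eventually (by simp))
  have h1 : fderiv ℝ (fun w => F (f w)) =ᶠ[𝓝 z] fun w => (deriv F (f w)) • fderiv ℝ f w := by
    filter_upwards [hev, hevF] with w hw hw2
    have hd : HasDerivAt F (deriv F (f w)) (f w) :=
      (hw2.differentiableAt (by norm_num)).hasDerivAt
    exact (hd.comp_hasFDerivAt w (hw.differentiableAt (by norm_num)).hasFDerivAt).fderiv
  have hX2 : HasFDerivAt (fderiv ℝ f) (fderiv ℝ (fderiv ℝ f) z) z :=
    ((hX.fderiv_right (m := 1) (by norm_num)).differentiableAt (by norm_num)).hasFDerivAt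
  have hdh : ContDiffAt ℝ 1 (deriv F) (f z) := by
    have h3 : ContDiffAt ℝ 1 (fun t => fderiv ℝ F t) (f z) :=
      hF.fderiv_right (m := 1) (by norm_num)
    exact h3.clm_apply contDiffAt_const
  have hh2 : HasDerivAt (deriv F) (deriv (deriv F) (f z)) (f z) :=
    (hdh.differentiableAt (by norm_num)).hasDerivAt
  have h3 : HasFDerivAt (fun w => deriv F (f w)) ((deriv (deriv F) (f z)) • fderiv ℝ f z) z :=
    hh2.comp_hasFDerivAt z hX1
  have h4 := h3.smul hX2
  have h5 : fderiv ℝ (fun w => (deriv F (f w)) • fderiv ℝ f w) z = _ := h4.fderiv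
  have h6 := h.lp
  rw [laplacian_eq] at h6
  rw [laplacian_eq, h1.fderiv_eq, h5, ← h6, ← h.dx, ← h.dy]
  simp
  ring

lemma mul (h : HD f z a b l) (h' : HD g z a' b' l') :
    HD (fun w => f w * g w) z (f z * a' + g z * a) (f z * b' + g z * b)
      (f z * l' + g z * l + 2 * (a * a' + b * b')) := by
  have hf0 : HasFDerivAt f (fderiv ℝ f z) z := (h.cd.differentiableAt (by norm_num)).hasFDerivAt
  have hg0 : HasFDerivAt g (fderiv ℝ g z) z := (h'.cd.differentiableAt (by norm_num)).hasFDerivAt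
  have e0 : fderiv ℝ (fun w => f w * g w) z = f z • fderiv ℝ g z + g z • fderiv ℝ f z :=
    (hf0.fun_mul hg0).fderiv
  refine ⟨h.cd.mul h'.cd, ?_, ?_, ?_⟩
  · rw [e0]; simp [h.dx, h'.dx]
  · rw [e0]; simp [h.dy, h'.dy]
  have hev : ∀ᶠ w in 𝓝 z, ContDiffAt ℝ 2 f w := h.cd.eventually (by simp)
  have hev' : ∀ᶠ w in 𝓝 z, ContDiffAt ℝ 2 g w := h'.cd.eventually (by simp)
  have h1 : fderiv ℝ (fun w => f w * g w) =ᶠ[𝓝 z]
      fun w => f w • fderiv ℝ g w + g w • fderiv ℝ f w := by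
    filter_upwards [hev, hev'] with w hw hw2
    exact ((hw.differentiableAt (by norm_num)).hasFDerivAt.fun_mul
      (hw2.differentiableAt (by norm_num)).hasFDerivAt).fderiv
  have hf2 : HasFDerivAt (fderiv ℝ f) (fderiv ℝ (fderiv ℝ f) z) z :=
    ((h.cd.fderiv_right (m := 1) (by norm_num)).differentiableAt (by norm_num)).hasFDerivAt
  have hg2 : HasFDerivAt (fderiv ℝ g) (fderiv ℝ (fderiv ℝ g) z) z :=
    ((h'.cd.fderiv_right (m := 1) (by norm_num)).differentiableAt (by norm_num)).hasFDerivAt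
  have h5 := ((hf0.smul hg2).fun_add (hg0.smul hf2)).fderiv
  have h5' : fderiv ℝ (fun w => f w • fderiv ℝ g w + g w • fderiv ℝ f w) z = _ := h5
  have h6 := h.lp
  have h7 := h'.lp
  rw [laplacian_eq] at h6 h7
  rw [laplacian_eq, h1.fderiv_eq, h5', ← h6, ← h7, ← h.dx, ← h.dy, ← h'.dx, ← h'.dy]
  simp
  ring

lemma const_mul (c : ℝ) (h : HD f z a b l) :
    HD (fun w => c * f w) z (c * a) (c * b) (c * l) :=
  ((const c z).mul h).congr_vals (by ring) (by ring) (by ring)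

lemma neg (h : HD f z a b l) : HD (fun w => -f w) z (-a) (-b) (-l) :=
  ((h.const_mul (-1)).congr_vals (by ring) (by ring) (by ring)).congr
    (Eventually.of_forall fun w => by simp)

lemma sub (h : HD f z a b l) (h' : HD g z a' b' l') :
    HD (fun w => f w - g w) z (a - a') (b - b') (l - l') :=
  ((h.add h'.neg).congr_vals (by ring) (by ring) (by ring)).congr
    (Eventually.of_forall fun w => by simp [sub_eq_add_neg])

lemma add_const (c : ℝ) (h : HD f z a b l) : HD (fun w => f w + c) z a b l :=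
  (h.add (const c z)).congr_vals (by ring) (by ring) (by ring)

lemma sub_const (c : ℝ) (h : HD f z a b l) : HD (fun w => f w - c) z a b l :=
  (h.sub (const c z)).congr_vals (by ring) (by ring) (by ring)

lemma sq (h : HD f z a b l) :
    HD (fun w => f w ^ 2) z (2 * f z * a) (2 * f z * b) (2 * f z * l + 2 * (a ^ 2 + b ^ 2)) :=
  ((h.mul h).congr_vals (by ring) (by ring) (by ring)).congr
    (Eventually.of_forall fun w => by simp [_root_.sq])

lemma log (h : HD f z a b l) (hf : f z ≠ 0) :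
    HD (fun w => Real.log (f w)) z (a / f z) (b / f z)
      (l / f z - (a ^ 2 + b ^ 2) / f z ^ 2) := by
  have h1 : deriv Real.log (f z) = (f z)⁻¹ := Real.deriv_log _
  have h2 : deriv (deriv Real.log) (f z) = -((f z) ^ 2)⁻¹ := by
    have : deriv Real.log = fun x => x⁻¹ := funext fun x => Real.deriv_log x
    rw [this]
    exact deriv_inv
  exact (h.comp (Real.contDiffAt_log.mpr hf) h1 h2).congr_vals (by field_simp)
    (by field_simp) (by field_simp; ring)

/-- Composition with the cutoff logarithm. -/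
lemma Kf (h : HD f z a b l) :
    HD (fun w => H27.Kf (f w)) z (-(qf (f z) ^ 3) * a) (-(qf (f z) ^ 3) * b)
      (-(qf (f z) ^ 3) * l + 3 * Real.exp (f z) * qf (f z) ^ 2 * (a ^ 2 + b ^ 2)) :=
  h.comp contDiff_Kf.contDiffAt (by rw [deriv_Kf]) (deriv_deriv_Kf _)

end HD

/-- `log y`. -/
lemma HD_log_im {z : ℂ} (hz : 0 < z.im) :
    HD (fun w => Real.log w.im) z 0 (1 / z.im) (-(1 / z.im ^ 2)) :=
  ((HD.im z).log hz.ne').congr_vals (by ring) rfl (by ring)

/-- The estimate for the cutoff logarithm. -/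
lemma phi_est {X : ℂ → ℝ} {z : ℂ} {a b l : ℝ} (h : HD X z a b l)
    (h1 : 2 ≤ z.im ^ 2 * l) (h2 : z.im ^ 2 * (a ^ 2 + b ^ 2) ≤ 4) :
    ContDiffAt ℝ 2 (fun w => -Kf (X w)) z ∧ -12 ≤ z.im ^ 2 * Δ (fun w => -Kf (X w)) z ∧
      (Real.exp (X z) ≤ 1 / 14 → 4 / 5 ≤ z.im ^ 2 * Δ (fun w => -Kf (X w)) z) := by
  have h3 := h.Kf.neg
  refine ⟨h3.cd, ?_⟩
  rw [h3.lp]
  set u := Real.exp (X z) with hu
  set q := qf (X z) with hq
  have hu0 : 0 < u := Real.exp_pos _
  have hq0 : 0 ≤ q := qf_nonneg _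
  have hq1 : q ≤ 1 := qf_le_one _
  have hq3 : 0 ≤ q ^ 3 := pow_nonneg hq0 3
  have hq2 : 0 ≤ q ^ 2 := pow_nonneg hq0 2
  have hq21 : q ^ 2 ≤ 1 := pow_le_one₀ hq0 hq1
  have key : z.im ^ 2 * -(-(q ^ 3) * l + 3 * u * q ^ 2 * (a ^ 2 + b ^ 2))
      ≥ 2 * q ^ 3 - 12 * u * q ^ 2 := by
    have e1 : 2 * q ^ 3 ≤ q ^ 3 * (z.im ^ 2 * l) := by nlinarith
    have e2 : 3 * u * q ^ 2 * (z.im ^ 2 * (a ^ 2 + b ^ 2)) ≤ 3 * u * q ^ 2 * 4 :=
      mul_le_mul_of_nonneg_left h2 (by positivity)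
    nlinarith
  rcases le_or_gt 0 (X z) with hX | hX
  · have hq' : q = 0 := qf_of_nonneg hX
    constructor
    · rw [hq'] at key ⊢
      nlinarith
    · intro h14
      have : 1 ≤ u := Real.one_le_exp hX
      linarith
  · have hu1 : u < 1 := by
      rw [hu]; exact (Real.exp_lt_exp.mpr hX).trans_eq Real.exp_zero
    have hq' : q = 1 - u := qf_of_nonpos hX.le
    constructor
    · have : u * q ^ 2 ≤ 1 := by nlinarith
      nlinarith
    · intro h14
      have h15 : 4 / 5 ≤ 2 * q ^ 3 - 12 * u * q ^ 2 := by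
        have e3 : 2 * q ^ 3 - 12 * u * q ^ 2 = q ^ 2 * (2 - 14 * u) := by rw [hq']; ring
        rw [e3]
        have e4 : (13 / 14 : ℝ) ≤ q := by rw [hq']; linarith
        have e5 : (169 / 196 : ℝ) ≤ q ^ 2 := by nlinarith
        nlinarith
      linarith

section T

variable {α β c : ℝ}

lemma QX_re (α β c : ℝ) (z : ℂ) :
    (QX α β c z).re = c * (z.re ^ 2 - z.im ^ 2) - 2 * α * z.re - β := by
  simp [QX, pow_two]

lemma QX_im (α β c : ℝ) (z : ℂ) :
    (QX α β c z).im = 2 * c * z.re * z.im - 2 * α * z.im := by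
  simp [QX, pow_two]; ring

lemma norm_QX_sq (α β c : ℝ) (z : ℂ) :
    ‖QX α β c z‖ ^ 2 = (c * (z.re ^ 2 - z.im ^ 2) - 2 * α * z.re - β) ^ 2
      + (2 * c * z.re * z.im - 2 * α * z.im) ^ 2 := by
  rw [Complex.sq_norm, Complex.normSq_apply, QX_re, QX_im]; ring

/-- `R = c |z|² - 2 α x - β`. -/
noncomputable def RX (α β c : ℝ) (z : ℂ) : ℝ := c * (z.re ^ 2 + z.im ^ 2) - 2 * α * z.re - β

lemma norm_QX_sq' (α β c : ℝ) (z : ℂ) :
    ‖QX α β c z‖ ^ 2 = RX α β c z ^ 2 + 4 * (α ^ 2 + β * c) * z.im ^ 2 := by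
  rw [norm_QX_sq, RX]; ring

lemma TX_of_nonneg (hδ : α ^ 2 + β * c ≤ 0) {z : ℂ} (hz : 0 < z.im) :
    TX α β c z = RX α β c z ^ 2 / (4 * z.im ^ 2) := by
  rw [TX, max_eq_right (by linarith), norm_QX_sq']
  field_simp
  ring

lemma TX_of_neg (hδ : 0 ≤ α ^ 2 + β * c) (z : ℂ) :
    TX α β c z = ‖QX α β c z‖ ^ 2 / (4 * z.im ^ 2) := by
  rw [TX, max_eq_left (by linarith), add_zero]

lemma TX_nonneg (α β c : ℝ) (z : ℂ) : 0 ≤ TX α β c z := by
  rw [TX]; positivity

theorem TX_pos (h : ¬ (α = 0 ∧ β = 0 ∧ c = 0)) {z : ℂ} (hz : 0 < z.im) : 0 < TX α β c z := by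
  by_contra hneg
  have h0 : TX α β c z = 0 := le_antisymm (not_lt.mp hneg) (TX_nonneg _ _ _ _)
  rw [TX] at h0
  have h1 : 0 ≤ ‖QX α β c z‖ ^ 2 / (4 * z.im ^ 2) := by positivity
  have h2 : 0 ≤ max 0 (-(α ^ 2 + β * c)) := le_max_left _ _
  have h3 : ‖QX α β c z‖ ^ 2 / (4 * z.im ^ 2) = 0 := by linarith
  have h4 : max 0 (-(α ^ 2 + β * c)) = 0 := by linarith
  have h5 : ‖QX α β c z‖ ^ 2 = 0 := by
    rw [div_eq_zero_iff] at h3
    rcases h3 with h3 | h3
    · exact h3
    · exact absurd h3 (by positivity)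
  have h6 : -(α ^ 2 + β * c) ≤ 0 := by rw [← h4]; exact le_max_right _ _
  rw [norm_QX_sq] at h5
  have h7 : c * (z.re ^ 2 - z.im ^ 2) - 2 * α * z.re - β = 0 := by nlinarith
  have h8 : 2 * c * z.re * z.im - 2 * α * z.im = 0 := by nlinarith
  have h9 : c * z.re = α := by
    have : 2 * z.im * (c * z.re - α) = 0 := by linarith
    rcases mul_eq_zero.mp this with h | h
    · exfalso; linarith
    · linarith
  have h10 : β = -(c * z.re ^ 2) - c * z.im ^ 2 := by rw [← h9] at h7; linarith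
  have h11 : c ^ 2 * z.im ^ 2 ≤ 0 := by
    rw [← h9, h10] at h6; nlinarith
  have h12 : c = 0 := by
    have : 0 < z.im ^ 2 := by positivity
    by_contra hc
    have : 0 < c ^ 2 * z.im ^ 2 := by positivity
    linarith
  apply h
  subst h12
  simp at h9 h10
  exact ⟨h9.symm, h10, rfl⟩

lemma HD_RX (α β c : ℝ) (z : ℂ) :
    HD (RX α β c) z (2 * c * z.re - 2 * α) (2 * c * z.im) (4 * c) := by
  have h := (((((HD.re z).sq.add (HD.im z).sq).const_mul c).sub ((HD.re z).const_mul (2 * α)))).sub_const β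
  exact h.congr_vals (by ring) (by ring) (by ring)

/-- The logarithm of `T`. -/
lemma HD_log_TX (h : ¬ (α = 0 ∧ β = 0 ∧ c = 0)) {z : ℂ} (hz : 0 < z.im) :
    ∃ a b l : ℝ, HD (fun w => Real.log (TX α β c w)) z a b l ∧ 2 ≤ z.im ^ 2 * l ∧
      z.im ^ 2 * (a ^ 2 + b ^ 2) ≤ 4 := by
  have hT := TX_pos h hz
  have him : ∀ᶠ w in 𝓝 z, 0 < w.im := (isOpen_lt continuous_const continuous_im).mem_nhds hz
  rcases le_total (α ^ 2 + β * c) 0 with hδ | hδ
  · have hR : RX α β c z ≠ 0 := by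
      intro h0
      rw [TX_of_nonneg hδ hz, h0] at hT
      simp at hT
    have hR2 : RX α β c z ^ 2 ≠ 0 := pow_ne_zero 2 hR
    have h1 := ((HD_RX α β c z).sq.log hR2).sub ((HD_log_im hz).const_mul 2) |>.sub_const (Real.log 4)
    have hev : (fun w => Real.log (RX α β c w ^ 2) - 2 * Real.log w.im - Real.log 4) =ᶠ[𝓝 z]
        fun w => Real.log (TX α β c w) := by
      have hRc : ∀ᶠ w in 𝓝 z, RX α β c w ≠ 0 :=
        (HD_RX α β c z).cd.continuousAt.eventually_ne hR
      filter_upwards [him, hRc] with w hw hw2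
      rw [TX_of_nonneg hδ hw, Real.log_div (pow_ne_zero 2 hw2) (by positivity),
        Real.log_mul (by norm_num) (by positivity), Real.log_pow w.im 2]
      push_cast
      ring
    have hQ := norm_QX_sq' α β c z
    have hG : (2 * c * z.re - 2 * α) ^ 2 + (2 * c * z.im) ^ 2
        = 4 * c * RX α β c z + 4 * (α ^ 2 + β * c) := by rw [RX]; ring
    refine ⟨_, _, _, h1.congr hev, ?_, ?_⟩
    · set R := RX α β c z
      set y := z.im
      set x := z.re
      have e : y ^ 2 * ((2 * R * (4 * c) + 2 * ((2 * c * x - 2 * α) ^ 2 + (2 * c * y) ^ 2)) / R ^ 2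
          - ((2 * R * (2 * c * x - 2 * α)) ^ 2 + (2 * R * (2 * c * y)) ^ 2) / (R ^ 2) ^ 2
          - 2 * -(1 / y ^ 2)) = 2 + y ^ 2 * (-8 * (α ^ 2 + β * c)) / R ^ 2 := by
        have e1 : (2 * R * (2 * c * x - 2 * α)) ^ 2 + (2 * R * (2 * c * y)) ^ 2
            = 4 * R ^ 2 * (4 * c * R + 4 * (α ^ 2 + β * c)) := by rw [← hG]; ring
        rw [e1, hG]
        field_simp
        ring
      rw [e]
      have : 0 ≤ y ^ 2 * (-8 * (α ^ 2 + β * c)) / R ^ 2 := by
        apply div_nonneg _ (by positivity)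
        apply mul_nonneg (by positivity)
        linarith
      linarith
    · set R := RX α β c z with hRdef
      set y := z.im
      set x := z.re
      have e : y ^ 2 * ((2 * R * (2 * c * x - 2 * α) / R ^ 2 - 2 * 0) ^ 2
          + (2 * R * (2 * c * y) / R ^ 2 - 2 * (1 / y)) ^ 2)
          = 4 + 16 * y ^ 2 * (α ^ 2 + β * c) / R ^ 2 := by
        have e1 : (2 * R * (2 * c * x - 2 * α) / R ^ 2 - 2 * 0) ^ 2
          + (2 * R * (2 * c * y) / R ^ 2 - 2 * (1 / y)) ^ 2
          = 4 * ((2 * c * x - 2 * α) ^ 2 + (2 * c * y) ^ 2) / R ^ 2 - 16 * c / R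
            + 4 / y ^ 2 := by
          field_simp
          ring
        rw [e1, hG]
        field_simp
        ring
      rw [e]
      have : 16 * y ^ 2 * (α ^ 2 + β * c) / R ^ 2 ≤ 0 := by
        apply div_nonpos_of_nonpos_of_nonneg _ (by positivity)
        nlinarith [sq_nonneg y]
      linarith
  · -- the case of nonnegative `α² + βc`
    have hQ0 : 0 < ‖QX α β c z‖ ^ 2 := by
      by_contra hneg
      have h0 : ‖QX α β c z‖ ^ 2 = 0 := le_antisymm (not_lt.mp hneg) (by positivity)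
      rw [TX_of_neg hδ, h0] at hT
      simp at hT
    -- real and imaginary parts
    have hu : HD (fun w : ℂ => c * (w.re ^ 2 - w.im ^ 2) - 2 * α * w.re - β) z
        (2 * c * z.re - 2 * α) (-(2 * c * z.im)) 0 := by
      have h := (((((HD.re z).sq.sub (HD.im z).sq).const_mul c).sub
        ((HD.re z).const_mul (2 * α)))).sub_const β
      exact h.congr_vals (by ring) (by ring) (by ring)
    have hv : HD (fun w : ℂ => 2 * c * w.re * w.im - 2 * α * w.im) z
        (2 * c * z.im) (2 * c * z.re - 2 * α) 0 := by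
      have h := ((((HD.re z).mul (HD.im z)).const_mul (2 * c)).sub
        ((HD.im z).const_mul (2 * α)))
      have h2 := h.congr (g := fun w : ℂ => 2 * c * w.re * w.im - 2 * α * w.im)
        (Eventually.of_forall fun w => by simp only; ring)
      exact h2.congr_vals (by ring) (by ring) (by ring)
    have hP : HD (fun w => ‖QX α β c w‖ ^ 2) z _ _ _ :=
      (hu.sq.add hv.sq).congr (Eventually.of_forall fun w => (norm_QX_sq α β c w).symm)
    have h1 := (hP.log hQ0.ne').sub ((HD_log_im hz).const_mul 2) |>.sub_const (Real.log 4)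
    have hev : (fun w => Real.log (‖QX α β c w‖ ^ 2) - 2 * Real.log w.im - Real.log 4) =ᶠ[𝓝 z]
        fun w => Real.log (TX α β c w) := by
      have hQc : ∀ᶠ w in 𝓝 z, ‖QX α β c w‖ ^ 2 ≠ 0 :=
        hP.cd.continuousAt.eventually_ne hQ0.ne'
      filter_upwards [him, hQc] with w hw hw2
      rw [TX_of_neg hδ, Real.log_div hw2 (by positivity),
        Real.log_mul (by norm_num) (by positivity), Real.log_pow w.im 2]
      push_cast
      ring
    have hQ := norm_QX_sq' α β c z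
    have hQ' := norm_QX_sq α β c z
    set P := ‖QX α β c z‖ ^ 2
    set y := z.im
    set x := z.re
    set u := c * (x ^ 2 - y ^ 2) - 2 * α * x - β with hudef
    set v := 2 * c * x * y - 2 * α * y with hvdef
    set p := 2 * c * x - 2 * α with hp
    set q := 2 * c * y with hq
    refine ⟨_, _, _, h1.congr hev, ?_, ?_⟩
    · have e : y ^ 2 * ((2 * u * 0 + 2 * (p ^ 2 + (-q) ^ 2) + (2 * v * 0 + 2 * (q ^ 2 + p ^ 2))) / P
          - ((2 * u * p + 2 * v * q) ^ 2 + (2 * u * -q + 2 * v * p) ^ 2) / P ^ 2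
          - 2 * -(1 / y ^ 2)) = 2 := by
        have e1 : (2 * u * p + 2 * v * q) ^ 2 + (2 * u * -q + 2 * v * p) ^ 2
            = 4 * P * (p ^ 2 + q ^ 2) := by rw [hQ']; ring
        rw [e1]
        field_simp
        ring
      rw [e]
    · have e : y ^ 2 * (((2 * u * p + 2 * v * q) / P - 2 * 0) ^ 2
          + ((2 * u * -q + 2 * v * p) / P - 2 * (1 / y)) ^ 2)
          = 4 * (RX α β c z) ^ 2 / P := by
        have e1 : ((2 * u * p + 2 * v * q) / P - 2 * 0) ^ 2
          + ((2 * u * -q + 2 * v * p) / P - 2 * (1 / y)) ^ 2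
          = 4 * (p ^ 2 + q ^ 2) * (u ^ 2 + v ^ 2) / P ^ 2
            + 8 * (u * q - v * p) / (P * y) + 4 / y ^ 2 := by
          field_simp
          ring
        rw [e1, ← hQ']
        have e2 : y ^ 2 * (4 * (p ^ 2 + q ^ 2) * P / P ^ 2 + 8 * (u * q - v * p) / (P * y)
            + 4 / y ^ 2) = (4 * y ^ 2 * (p ^ 2 + q ^ 2) + 8 * y * (u * q - v * p) + 4 * P) / P := by
          field_simp
        rw [e2, hQ']
        congr 1
        simp only [RX, hudef, hvdef, hp, hq]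
        ring
      rw [e, div_le_iff₀ hQ0]
      rw [hQ]
      nlinarith [sq_nonneg y, mul_nonneg hδ (sq_nonneg y)]

theorem phiT (h : ¬ (α = 0 ∧ β = 0 ∧ c = 0)) {z : ℂ} (hz : 0 < z.im) {ε : ℝ} (hε : 0 < ε) :
    ContDiffAt ℝ 2 (fun w => -Kf (Real.log (TX α β c w / ε))) z ∧
      -12 ≤ z.im ^ 2 * Δ (fun w => -Kf (Real.log (TX α β c w / ε))) z ∧
      (TX α β c z ≤ ε / 14 →
        4 / 5 ≤ z.im ^ 2 * Δ (fun w => -Kf (Real.log (TX α β c w / ε))) z) := by
  obtain ⟨a, b, l, h1, h2, h3⟩ := HD_log_TX h hz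
  have hT := TX_pos h hz
  have him : ∀ᶠ w in 𝓝 z, 0 < w.im := (isOpen_lt continuous_const continuous_im).mem_nhds hz
  have h4 : HD (fun w => Real.log (TX α β c w / ε)) z a b l := by
    refine (h1.sub_const (Real.log ε)).congr ?_
    filter_upwards [him] with w hw
    rw [Real.log_div (TX_pos h hw).ne' hε.ne']
  obtain ⟨h5, h6, h7⟩ := phi_est h4 h2 h3
  refine ⟨h5, h6, fun h8 => h7 ?_⟩
  rw [Real.exp_log (by positivity), div_le_div_iff₀ hε (by norm_num)]
  linarith

end T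

end Pool.Agent.Lib.H27
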