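import Pool.Agent.Lib.H27.ModS

/-!
# The automorphic sum and its normality
-/

set_option autoImplicit false

open Complex Set Topology Filter UpperHalfPlane MeasureTheory
open scoped ContDiff MatrixGroups ComplexConjugate

namespace Pool.Agent.Lib.H27

section moebius

/-- The Möbius map as a function on the plane. -/
noncomputable def mob (g : SL(2, ℝ)) (z : ℂ) : ℂ := ((g • ofComplex z : ℍ) : ℂ)

lemma mob_coe (g : SL(2, ℝ)) (z : ℍ) : mob g z = ((g • z : ℍ) : ℂ) := by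
  rw [mob, ofComplex_apply]

lemma differentiableAt_mob (g : SL(2, ℝ)) (z : ℍ) : DifferentiableAt ℂ (mob g) z := by
  have h1 : (fun w : ℂ => ((g 0 0 : ℝ) * w + (g 0 1 : ℝ)) / ((g 1 0 : ℝ) * w + (g 1 1 : ℝ)))
      =ᶠ[𝓝 (z : ℂ)] mob g := by
    filter_upwards [isOpen_uhp.mem_nhds (coe_mem_uhp z)] with w hw
    have := mob_coe g ⟨w, hw⟩
    rw [coe_smul_eq] at this
    exact this.symm
  have h2 : DifferentiableAt ℂ
      (fun w : ℂ => ((g 0 0 : ℝ) * w + (g 0 1 : ℝ)) / ((g 1 0 : ℝ) * w + (g 1 1 : ℝ))) (z : ℂ) := by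
    apply DifferentiableAt.fun_div (by fun_prop) (by fun_prop)
    exact denom_ne g z.im_pos.ne'
  exact h2.congr_of_eventuallyEq h1.symm

lemma tendsto_mob (g : SL(2, ℝ)) (b : ℍ) :
    Tendsto (mob g) (𝓝[≠] (b : ℂ)) (𝓝[≠] ((g • b : ℍ) : ℂ)) := by
  rw [tendsto_nhdsWithin_iff]
  constructor
  · have h1 := (differentiableAt_mob g b).continuousAt.tendsto
    rw [mob_coe] at h1
    exact h1.mono_left nhdsWithin_le_nhds
  · filter_upwards [self_mem_nhdsWithin,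
      nhdsWithin_le_nhds (isOpen_uhp.mem_nhds (coe_mem_uhp b))] with w hw1 hw2
    intro hcon
    have h2 := mob_coe g ⟨w, hw2⟩
    have h3 : ((g • (⟨w, hw2⟩ : ℍ) : ℍ) : ℂ) = ((g • b : ℍ) : ℂ) := by
      rw [← h2]; exact hcon
    have h4 := UpperHalfPlane.ext h3
    have h5 : (⟨w, hw2⟩ : ℍ) = b := by simpa using h4
    exact hw1 (by rw [← h5]; rfl)

end moebius

section rep

variable {Γ : Subgroup SL(2, ℝ)}

/-- A representative of the orbit. -/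
noncomputable def rep (Γ : Subgroup SL(2, ℝ)) (a : ℍ) : ℍ :=
  (Quotient.mk (MulAction.orbitRel Γ ℍ) a).out

lemma exists_tr (Γ : Subgroup SL(2, ℝ)) (a : ℍ) : ∃ γ : Γ, (γ : SL(2, ℝ)) • rep Γ a = a := by
  have h1 : (MulAction.orbitRel Γ ℍ) (rep Γ a) a :=
    Quotient.exact (Quotient.out_eq (Quotient.mk (MulAction.orbitRel Γ ℍ) a))
  rw [MulAction.orbitRel_apply] at h1
  obtain ⟨γ, hγ⟩ := h1
  refine ⟨γ⁻¹, ?_⟩
  have h2 : (γ : SL(2, ℝ)) • a = rep Γ a := hγ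
  rw [← h2]
  simp

/-- The element moving the representative to the point. -/
noncomputable def tr (Γ : Subgroup SL(2, ℝ)) (a : ℍ) : SL(2, ℝ) := ((exists_tr Γ a).choose : Γ)

lemma tr_mem (Γ : Subgroup SL(2, ℝ)) (a : ℍ) : tr Γ a ∈ Γ := ((exists_tr Γ a).choose : Γ).2

lemma tr_smul (Γ : Subgroup SL(2, ℝ)) (a : ℍ) : tr Γ a • rep Γ a = a :=
  (exists_tr Γ a).choose_spec

lemma rep_smul {γ : SL(2, ℝ)} (hγ : γ ∈ Γ) (a : ℍ) : rep Γ (γ • a) = rep Γ a := by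
  have h1 : Quotient.mk (MulAction.orbitRel Γ ℍ) (γ • a) = Quotient.mk (MulAction.orbitRel Γ ℍ) a := by
    apply Quotient.sound
    change (MulAction.orbitRel Γ ℍ) (γ • a) a
    rw [MulAction.orbitRel_apply]
    exact ⟨⟨γ, hγ⟩, rfl⟩
  rw [rep, h1, rep]

lemma SL_neg_one_smul (z : ℍ) : (-1 : SL(2, ℝ)) • z = z := by
  apply UpperHalfPlane.ext
  rw [coe_smul_eq]
  simp

lemma rep_mem (d : Data Γ) {a : ℍ} (ha : a ∈ d.D) : rep Γ a ∈ d.D := by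
  have h1 := d.smul_mem _ (Γ.inv_mem (tr_mem Γ a)) a ha
  have h2 : (tr Γ a)⁻¹ • a = rep Γ a := inv_smul_eq_iff.mpr (tr_smul Γ a).symm
  rwa [h2] at h1

/-- The key cocycle identity. -/
lemma tr_inv_smul (d : Data Γ) {a : ℍ} (ha : a ∈ d.D) {γ : SL(2, ℝ)} (hγ : γ ∈ Γ) (z : ℍ) :
    (tr Γ (γ • a))⁻¹ • γ • z = (tr Γ a)⁻¹ • z := by
  set η := (tr Γ (γ • a))⁻¹ * γ * tr Γ a with hη
  have hηΓ : η ∈ Γ := Γ.mul_mem (Γ.mul_mem (Γ.inv_mem (tr_mem Γ _)) hγ) (tr_mem Γ a)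
  have hfix : η • rep Γ a = rep Γ a := by
    rw [hη, mul_smul, mul_smul, tr_smul, inv_smul_eq_iff, ← rep_smul hγ a, tr_smul]
  have h1 : η • (tr Γ a)⁻¹ • z = (tr Γ (γ • a))⁻¹ • γ • z := by
    rw [hη, ← mul_smul, mul_assoc, mul_inv_cancel, mul_one, mul_smul]
  rw [← h1]
  rcases d.stab η hηΓ _ (rep_mem d ha) hfix with h | h
  · rw [h, one_smul]
  · rw [h, SL_neg_one_smul]

end rep

section family

variable {Γ : Subgroup SL(2, ℝ)}

/-- The family of functions indexed by the net. -/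
structure Fam (d : Data Γ) where
  /-- the functions -/
  f : ℍ → ℂ → ℂ
  /-- the bound -/
  C : ℝ
  C_nonneg : 0 ≤ C
  /-- the limits -/
  L : ℍ → ℍ → ℂ
  diff : ∀ a ∈ d.D, DifferentiableOn ℂ (f a) (Om d.D)
  bound : ∀ a ∈ d.D, ∀ z : ℍ, (∀ b ∈ d.D, d.r / 4 ≤ dist z b) → ‖f a z‖ ≤ C * wg a z ^ 2
  lim : ∀ a ∈ d.D, ∀ b ∈ d.D, Tendsto (fun z => zt b z ^ 26 * f a z) (𝓝[≠] (b : ℂ)) (𝓝 (L a b))
  L_ne : ∀ a ∈ d.D, ∀ b ∈ d.D, b ≠ a → L a b = 0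
  L_eq : ∀ a ∈ d.D, ‖L a a‖ = 1
  equi : ∀ a ∈ d.D, ∀ γ ∈ Γ, ∀ z : ℍ, f (γ • a) ((γ • z : ℍ) : ℂ) = f a z

theorem exists_fam (d : Data Γ) : Nonempty (Fam d) := by
  classical
  obtain ⟨C, hC, h⟩ := exists_pole_function d
  choose! F hF1 hF2 hF3 using h
  have htD : ∀ a ∈ d.D, ∀ b ∈ d.D, (tr Γ a)⁻¹ • b ∈ d.D := fun a _ b hb =>
    d.smul_mem _ (Γ.inv_mem (tr_mem Γ a)) b hb
  have hra : ∀ a : ℍ, (tr Γ a)⁻¹ • a = rep Γ a := fun a =>
    inv_smul_eq_iff.mpr (tr_smul Γ a).symm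
  have hlim : ∀ a ∈ d.D, ∀ b ∈ d.D, ∃ L : ℂ,
      Tendsto (fun z => zt b z ^ 26 * F (rep Γ a) (mob (tr Γ a)⁻¹ z)) (𝓝[≠] (b : ℂ)) (𝓝 L) ∧
      (b ≠ a → L = 0) ∧ (b = a → ‖L‖ = 1) := by
    intro a ha b hb
    have h1 := hF3 (rep Γ a) (rep_mem d ha) ((tr Γ a)⁻¹ • b) (htD a ha b hb)
    have h2 := h1.comp (tendsto_mob (tr Γ a)⁻¹ b)
    obtain ⟨u, hu, hu2⟩ := zt_smul (tr Γ a)⁻¹ b
    have hu0 : u ≠ 0 := by
      rintro rfl
      simp at hu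
    refine ⟨(u ^ 26)⁻¹ * (if (tr Γ a)⁻¹ • b = rep Γ a then 1 else 0), ?_, ?_, ?_⟩
    · refine (h2.const_mul (u ^ 26)⁻¹).congr' ?_
      filter_upwards [nhdsWithin_le_nhds (isOpen_uhp.mem_nhds (coe_mem_uhp b))] with w hw
      have h3 := hu2 ⟨w, hw⟩
      have h4 := mob_coe (tr Γ a)⁻¹ ⟨w, hw⟩
      have h5 : zt (((tr Γ a)⁻¹ • b : ℍ) : ℂ) (mob (tr Γ a)⁻¹ w) = u * zt b w := by
        rw [h4]; exact h3
      simp only [Function.comp]
      rw [h5, mul_pow]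
      field_simp
    · intro hba
      rw [if_neg]
      · ring
      · intro hcon
        rw [← hra a] at hcon
        exact hba (by simpa using hcon)
    · rintro rfl
      rw [if_pos (hra b)]
      simp [hu]
  choose! L hL1 hL2 hL3 using hlim
  refine ⟨⟨fun a z => F (rep Γ a) (mob (tr Γ a)⁻¹ z), C, hC, L, ?_, ?_, hL1, hL2,
    fun a ha => hL3 a ha a ha rfl, ?_⟩⟩
  · rintro a ha _ ⟨z, hz, rfl⟩
    have hmem : ((tr Γ a)⁻¹ • z : ℍ) ∉ d.D := by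
      intro hcon
      apply hz
      have := d.smul_mem _ (tr_mem Γ a) _ hcon
      simpa using this
    have h1 : DifferentiableAt ℂ (F (rep Γ a)) (mob (tr Γ a)⁻¹ z) := by
      rw [mob_coe]
      exact (hF1 _ (rep_mem d ha)).differentiableAt
        ((isOpen_Om d.r_pos d.sep').mem_nhds (mem_Om.mpr hmem))
    exact (h1.comp _ (differentiableAt_mob _ z)).differentiableWithinAt
  · intro a ha z hz
    simp only [mob_coe]
    have h1 := hF2 (rep Γ a) (rep_mem d ha) ((tr Γ a)⁻¹ • z) ?_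
    · have h4 := wg_smul (tr Γ a)⁻¹ a z
      rw [hra a] at h4
      rwa [h4] at h1
    · intro b hb
      have h2 := hz (tr Γ a • b) (d.smul_mem _ (tr_mem Γ a) b hb)
      have h3 : dist ((tr Γ a)⁻¹ • z) b = dist z (tr Γ a • b) := by
        rw [← dist_smul (tr Γ a) ((tr Γ a)⁻¹ • z) b]
        simp
      rw [h3]
      exact h2
  · intro a ha γ hγ z
    simp only [mob_coe]
    rw [rep_smul hγ, tr_inv_smul d ha hγ]

end family

end Pool.Agent.Lib.H27
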