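import Pool.Agent.Lib.H27.ModF

/-!
# The automorphic sum and its normality, part 2
-/

set_option autoImplicit false

open Complex Set Topology Filter UpperHalfPlane MeasureTheory
open scoped ContDiff MatrixGroups ComplexConjugate

namespace Pool.Agent.Lib.H27

section dist

lemma im_of_mem_closedBall {a : ℍ} {c : ℝ} {w : ℂ}
    (hw : w ∈ Metric.closedBall (a : ℂ) (c * a.im)) : (1 - c) * a.im ≤ w.im ∧
      w.im ≤ (1 + c) * a.im := by
  have h1 : ‖w - a‖ ≤ c * a.im := by rwa [← dist_eq_norm]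
  have h2 : |(w - a).im| ≤ ‖w - a‖ := abs_im_le_norm _
  have h3 : (w - a).im = w.im - a.im := by simp
  rw [h3] at h2
  have h4 := neg_abs_le (w.im - a.im)
  have h5 := le_abs_self (w.im - a.im)
  constructor <;> linarith

lemma dist_of_mem_closedBall {a w : ℍ} {c : ℝ} (hc0 : 0 ≤ c) (hc : c ≤ 1 / 2)
    (hw : (w : ℂ) ∈ Metric.closedBall (a : ℂ) (c * a.im)) : dist w a ≤ c / (1 - c) := by
  have h2 := (im_of_mem_closedBall hw).1
  have h3 := dist_le_dist_coe_div_sqrt w a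
  have h5 := a.im_pos
  have h1c : 0 < 1 - c := by linarith
  have h6 : (1 - c) * a.im ≤ √(w.im * a.im) := by
    apply Real.le_sqrt_of_sq_le
    simp only [coe_im] at h2
    have : (1 - c) * a.im * a.im ≤ w.im * a.im := mul_le_mul_of_nonneg_right h2 h5.le
    have h7 : (1 - c) * ((1 - c) * a.im * a.im) ≤ 1 * ((1 - c) * a.im * a.im) :=
      mul_le_mul_of_nonneg_right (by linarith) (by positivity)
    nlinarith
  have h7 : 0 < (1 - c) * a.im := by positivity
  calc dist w a ≤ dist (w : ℂ) a / √(w.im * a.im) := h3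
    _ ≤ dist (w : ℂ) a / ((1 - c) * a.im) := by gcongr
    _ ≤ c * a.im / ((1 - c) * a.im) := by
        apply div_le_div_of_nonneg_right _ h7.le
        exact hw
    _ = c / (1 - c) := by field_simp

lemma far_dist {r : ℝ} (hr : 0 < r) (hr1 : r ≤ 1 / 10) {w a : ℍ}
    (h : 3 * r / 8 * a.im ≤ dist (w : ℂ) a) : 5 * r / 16 ≤ dist w a := by
  by_contra hcon
  push Not at hcon
  have h1 := dist_coe_le w a
  have h2 := a.im_pos
  have h3 : 3 * r / 8 * a.im ≤ a.im * (Real.exp (dist w a) - 1) := h.trans h1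
  have h4 : 3 * r / 8 ≤ Real.exp (dist w a) - 1 := by
    have : a.im * (3 * r / 8) ≤ a.im * (Real.exp (dist w a) - 1) := by linarith
    exact le_of_mul_le_mul_left this h2
  have h5 : Real.exp (dist w a) < Real.exp (5 * r / 16) := Real.exp_lt_exp.mpr hcon
  have h6 : Real.exp (5 * r / 16) * (1 - 5 * r / 16) ≤ 1 := by
    have h7 := Real.one_sub_le_exp_neg (5 * r / 16)
    calc Real.exp (5 * r / 16) * (1 - 5 * r / 16)
        ≤ Real.exp (5 * r / 16) * Real.exp (-(5 * r / 16)) :=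
          mul_le_mul_of_nonneg_left h7 (Real.exp_pos _).le
      _ = 1 := by rw [← Real.exp_add]; simp
  have h8 : (1 + 3 * r / 8) * (1 - 5 * r / 16) < 1 := by
    have h9 : 1 + 3 * r / 8 < Real.exp (5 * r / 16) := by linarith
    have h10 : 0 < 1 - 5 * r / 16 := by linarith
    nlinarith
  nlinarith

end dist

section main

variable {Γ : Subgroup SL(2, ℝ)} {d : Data Γ} (F : Fam d)

/-- The function with its singularity at `b` removed. -/
noncomputable def EE (a b : ℍ) : ℂ → ℂ :=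
  Function.update (fun z => zt b z ^ 26 * F.f a z) (b : ℂ) (F.L a b)

/-- The automorphic sum. -/
noncomputable def fs (z : ℂ) : ℂ := ∑' a : d.D, F.f a z

/-- The numerator near `b`. -/
noncomputable def Fb (b : ℍ) (z : ℂ) : ℂ := ∑' a : d.D, EE F a b z

/-- The uniform bound. -/
noncomputable def C3 : ℝ := 2 * F.C * netC d.r_pos

lemma C3_nonneg : 0 ≤ C3 F := by
  have := F.C_nonneg
  have := netC_pos d.r_pos
  unfold C3
  positivity

lemma ball_Om {b : ℍ} (hb : b ∈ d.D) :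
    Metric.ball (b : ℂ) (3 * d.r / 4 * b.im) \ {(b : ℂ)} ⊆ Om d.D := by
  have hr := d.r_pos
  have hr1 := d.r_le
  rintro w ⟨hw, hwb⟩
  have hw' := Metric.ball_subset_closedBall hw
  have him : 0 < w.im := by
    have h1 := (im_of_mem_closedBall hw').1
    have h2 := b.im_pos
    have : 0 < (1 - 3 * d.r / 4) * b.im := mul_pos (by linarith) h2
    linarith
  have hd := dist_of_mem_closedBall (w := ⟨w, him⟩) (by positivity) (by linarith) hw'
  have h3 : 3 * d.r / 4 / (1 - 3 * d.r / 4) < d.r := by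
    rw [div_lt_iff₀ (by linarith)]
    nlinarith
  refine (mem_Om (z := ⟨w, him⟩)).mpr ?_
  intro hD
  have hne : (⟨w, him⟩ : ℍ) ≠ b := fun h => hwb (by rw [← h]; rfl)
  have := d.sep _ hD b hb hne
  linarith

lemma zt_diff (b : ℍ) {w : ℂ} (hw : 0 < w.im) : DifferentiableAt ℂ (zt b) w :=
  (hasDerivAt_zt b ⟨w, hw⟩).differentiableAt

lemma EE_diff {a b : ℍ} (ha : a ∈ d.D) (hb : b ∈ d.D) :
    DifferentiableOn ℂ (EE F a b) (Metric.ball (b : ℂ) (3 * d.r / 4 * b.im)) := by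
  have hr := d.r_pos
  have hb0 := b.im_pos
  have hmem : Metric.ball (b : ℂ) (3 * d.r / 4 * b.im) ∈ 𝓝 (b : ℂ) :=
    Metric.ball_mem_nhds _ (by positivity)
  apply (differentiableOn_compl_singleton_and_continuousAt_iff hmem).mp
  constructor
  · have h1 : DifferentiableOn ℂ (fun z => zt b z ^ 26 * F.f a z)
        (Metric.ball (b : ℂ) (3 * d.r / 4 * b.im) \ {(b : ℂ)}) := by
      apply DifferentiableOn.mul
      · intro w hw
        have h2 : 0 < w.im := Om_subset (ball_Om hb hw)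
        exact ((zt_diff b h2).pow 26).differentiableWithinAt
      · exact (F.diff a ha).mono (ball_Om hb)
    apply h1.congr
    intro w hw
    rw [EE, Function.update_of_ne hw.2]
  · rw [EE, continuousAt_update_same]
    exact F.lim a ha b hb

lemma EE_bound {a b : ℍ} (ha : a ∈ d.D) (hb : b ∈ d.D) {w : ℂ}
    (hw : w ∈ Metric.closedBall (b : ℂ) (d.r / 2 * b.im)) :
    ‖EE F a b w‖ ≤ 2 * F.C * wg a b ^ 2 := by
  have hr := d.r_pos
  have hr1 := d.r_le
  have hb0 := b.im_pos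
  have hR : 0 < d.r / 2 * b.im := by positivity
  have hsub : Metric.closedBall (b : ℂ) (d.r / 2 * b.im) ⊆
      Metric.ball (b : ℂ) (3 * d.r / 4 * b.im) :=
    Metric.closedBall_subset_ball (by nlinarith)
  have h1 : DiffContOnCl ℂ (EE F a b) (Metric.ball (b : ℂ) (d.r / 2 * b.im)) := by
    apply DifferentiableOn.diffContOnCl
    rw [closure_ball _ hR.ne']
    exact (EE_diff F ha hb).mono hsub
  refine Complex.norm_le_of_forall_mem_frontier_norm_le Metric.isBounded_ball h1 ?_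
    (by rw [closure_ball _ hR.ne']; exact hw)
  intro z hz
  rw [frontier_ball _ hR.ne', Metric.mem_sphere] at hz
  have hz' : z ∈ Metric.closedBall (b : ℂ) (d.r / 2 * b.im) := hz.le
  have him : 0 < z.im := by
    have h1 := (im_of_mem_closedBall hz').1
    have : 0 < (1 - d.r / 2) * b.im := mul_pos (by linarith) hb0
    linarith
  have hzb : z ≠ b := by
    rintro rfl
    rw [dist_self] at hz
    linarith
  rw [EE, Function.update_of_ne hzb, norm_mul, norm_pow]
  have hd := dist_of_mem_closedBall (w := ⟨z, him⟩) (by positivity) (by linarith) hz'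
  have h3 : d.r / 2 / (1 - d.r / 2) ≤ 3 * d.r / 4 := by
    rw [div_le_iff₀ (by linarith)]
    nlinarith
  have h4 : ∀ c ∈ d.D, d.r / 4 ≤ dist (⟨z, him⟩ : ℍ) c := by
    intro c hc
    by_cases hcb : c = b
    · subst hcb
      have := far_dist hr hr1 (w := ⟨z, him⟩) (a := c) (by
        change _ ≤ dist z (c : ℂ)
        rw [hz]
        nlinarith)
      linarith
    · have h5 := d.sep c hc b hb hcb
      have h6 := dist_triangle_left c b (⟨z, him⟩ : ℍ)
      linarith
  have h5 := F.bound a ha ⟨z, him⟩ h4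
  have h6 : ‖zt b z‖ ^ 26 ≤ 1 := pow_le_one₀ (norm_nonneg _) (norm_zt_lt_one b ⟨z, him⟩).le
  have h7 := wg_harnack a ⟨z, him⟩ b
  have h8 : Real.exp (dist (⟨z, him⟩ : ℍ) b) ≤ Real.exp (1 / 10) :=
    Real.exp_le_exp.mpr (by linarith)
  have h9 : Real.exp (1 / 10) ^ 2 ≤ 2 := by
    rw [← Real.exp_nat_mul]
    have h10 : Real.exp (((2 : ℕ) : ℝ) * (1 / 10)) * (1 - 1 / 5) ≤ 1 := by
      have h11 := Real.one_sub_le_exp_neg (1 / 5)
      calc Real.exp (((2 : ℕ) : ℝ) * (1 / 10)) * (1 - 1 / 5)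
          ≤ Real.exp (((2 : ℕ) : ℝ) * (1 / 10)) * Real.exp (-(1 / 5)) :=
            mul_le_mul_of_nonneg_left h11 (Real.exp_pos _).le
        _ = 1 := by rw [← Real.exp_add]; norm_num
    nlinarith [Real.exp_pos (((2 : ℕ) : ℝ) * (1 / 10))]
  have hwz : 0 < wg (a : ℂ) ((⟨z, him⟩ : ℍ) : ℂ) := wg_pos a ⟨z, him⟩
  have hwb : 0 < wg a b := wg_pos a b
  have hCn := F.C_nonneg
  have h12 : wg (a : ℂ) ((⟨z, him⟩ : ℍ) : ℂ) ^ 2 ≤ 2 * wg a b ^ 2 := by
    calc wg (a : ℂ) ((⟨z, him⟩ : ℍ) : ℂ) ^ 2 ≤ (Real.exp (1 / 10) * wg a b) ^ 2 := by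
          apply pow_le_pow_left₀ hwz.le
          exact h7.trans (mul_le_mul_of_nonneg_right h8 hwb.le)
      _ = Real.exp (1 / 10) ^ 2 * wg a b ^ 2 := by ring
      _ ≤ 2 * wg a b ^ 2 := mul_le_mul_of_nonneg_right h9 (by positivity)
  calc ‖zt b z‖ ^ 26 * ‖F.f a z‖ ≤ 1 * (F.C * wg (a : ℂ) ((⟨z, him⟩ : ℍ) : ℂ) ^ 2) := by
        apply mul_le_mul h6 h5 (norm_nonneg _) zero_le_one
    _ ≤ 1 * (F.C * (2 * wg a b ^ 2)) := by gcongr
    _ = _ := by ring

lemma sum_bound (z : ℍ) : Summable (fun a : d.D => 2 * F.C * wg (a : ℍ) z ^ 2) ∧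
    ∑' a : d.D, 2 * F.C * wg (a : ℍ) z ^ 2 ≤ C3 F := by
  have h1 := netC_spec d.r_pos d.sep' z
  refine ⟨h1.1.mul_left _, ?_⟩
  rw [tsum_mul_left, C3]
  have := F.C_nonneg
  exact mul_le_mul_of_nonneg_left h1.2 (by positivity)

lemma Fb_diff {b : ℍ} (hb : b ∈ d.D) :
    DifferentiableOn ℂ (Fb F b) (Metric.ball (b : ℂ) (d.r / 2 * b.im)) := by
  have hr := d.r_pos
  have hb0 := b.im_pos
  apply differentiableOn_tsum_of_summable_norm (sum_bound F b).1
  · intro a
    apply (EE_diff F a.2 hb).mono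
    exact Metric.ball_subset_ball (by nlinarith)
  · exact Metric.isOpen_ball
  · intro a w hw
    exact EE_bound F a.2 hb (Metric.ball_subset_closedBall hw)

lemma Fb_bound {b : ℍ} (hb : b ∈ d.D) {w : ℂ}
    (hw : w ∈ Metric.closedBall (b : ℂ) (d.r / 2 * b.im)) : ‖Fb F b w‖ ≤ C3 F := by
  have h1 := sum_bound F b
  exact (tsum_of_norm_bounded h1.1.hasSum fun a => EE_bound F a.2 hb hw).trans h1.2

lemma Fb_at {b : ℍ} (hb : b ∈ d.D) : ‖Fb F b b‖ = 1 := by
  have h1 : Fb F b b = F.L b b := by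
    rw [Fb]
    have h2 : ∀ a : d.D, EE F a b b = F.L a b := fun a => by rw [EE, Function.update_self]
    simp only [h2]
    rw [tsum_eq_single (⟨b, hb⟩ : d.D)]
    intro a ha
    apply F.L_ne a a.2 b hb
    intro h
    exact ha (Subtype.ext h.symm)
  rw [h1]
  exact F.L_eq b hb

lemma fs_eq {b : ℍ} {z : ℂ} (hz : z ≠ b) : zt b z ^ 26 * fs F z = Fb F b z := by
  rw [fs, Fb, ← tsum_mul_left]
  congr 1
  funext a
  rw [EE, Function.update_of_ne hz]

/-- away from the net -/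
lemma fs_far {z : ℍ} (hz : ∀ b ∈ d.D, 5 * d.r / 16 ≤ dist z b) :
    DifferentiableOn ℂ (fs F) (Metric.ball (z : ℂ) (d.r / 32 * z.im)) ∧
      ∀ w ∈ Metric.ball (z : ℂ) (d.r / 32 * z.im), ‖fs F w‖ ≤ C3 F := by
  have hr := d.r_pos
  have hr1 := d.r_le
  have h1 := sum_bound F z
  have hpts : ∀ w ∈ Metric.ball (z : ℂ) (d.r / 32 * z.im), ∃ w' : ℍ, (w' : ℂ) = w ∧
      dist w' z ≤ d.r / 16 := by
    intro w hw
    have him : 0 < w.im := by
      have := im_of_mem_ball (by linarith) hw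
      have := z.im_pos
      linarith
    refine ⟨⟨w, him⟩, rfl, ?_⟩
    have := dist_of_mem_ball (w := ⟨w, him⟩) (by linarith) hw
    linarith
  have hbd : ∀ a : d.D, ∀ w ∈ Metric.ball (z : ℂ) (d.r / 32 * z.im),
      ‖F.f a w‖ ≤ 2 * F.C * wg (a : ℍ) z ^ 2 := by
    intro a w hw
    obtain ⟨w', rfl, hw'⟩ := hpts w hw
    have h5 := F.bound a a.2 w' (fun b hb => by
      have h2 := hz b hb
      have h3 := dist_triangle_left z b w'
      linarith)
    have h7 := wg_harnack a w' z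
    have h8 : Real.exp (dist w' z) ≤ Real.exp (1 / 10) :=
      Real.exp_le_exp.mpr (by linarith)
    have h9 : Real.exp (1 / 10) ^ 2 ≤ 2 := by
      rw [← Real.exp_nat_mul]
      have h10 : Real.exp (((2 : ℕ) : ℝ) * (1 / 10)) * (1 - 1 / 5) ≤ 1 := by
        have h11 := Real.one_sub_le_exp_neg (1 / 5)
        calc Real.exp (((2 : ℕ) : ℝ) * (1 / 10)) * (1 - 1 / 5)
            ≤ Real.exp (((2 : ℕ) : ℝ) * (1 / 10)) * Real.exp (-(1 / 5)) :=
              mul_le_mul_of_nonneg_left h11 (Real.exp_pos _).le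
          _ = 1 := by rw [← Real.exp_add]; norm_num
      nlinarith [Real.exp_pos (((2 : ℕ) : ℝ) * (1 / 10))]
    have hwz := wg_pos (a : ℍ) w'
    have hwb := wg_pos (a : ℍ) z
    have hCn := F.C_nonneg
    have h12 : wg (a : ℍ) w' ^ 2 ≤ 2 * wg (a : ℍ) z ^ 2 := by
      calc wg (a : ℍ) w' ^ 2 ≤ (Real.exp (1 / 10) * wg (a : ℍ) z) ^ 2 := by
            apply pow_le_pow_left₀ hwz.le
            exact h7.trans (mul_le_mul_of_nonneg_right h8 hwb.le)
        _ = Real.exp (1 / 10) ^ 2 * wg (a : ℍ) z ^ 2 := by ring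
        _ ≤ 2 * wg (a : ℍ) z ^ 2 := mul_le_mul_of_nonneg_right h9 (by positivity)
    calc ‖F.f a w'‖ ≤ F.C * wg (a : ℍ) w' ^ 2 := h5
      _ ≤ F.C * (2 * wg (a : ℍ) z ^ 2) := by gcongr
      _ = _ := by ring
  constructor
  · apply differentiableOn_tsum_of_summable_norm h1.1
    · intro a
      apply (F.diff a a.2).mono
      intro w hw
      obtain ⟨w', rfl, hw'⟩ := hpts w hw
      rw [mem_Om]
      intro hD
      have h2 := hz w' hD
      rw [dist_comm] at h2
      linarith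
    · exact Metric.isOpen_ball
    · exact hbd
  · intro w hw
    exact (tsum_of_norm_bounded h1.1.hasSum fun a => hbd a w hw).trans h1.2

end main

end Pool.Agent.Lib.H27
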