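import Pool.Agent.Lib.H27.ModF2

/-!
# The automorphic sum and its normality, part 3
-/

set_option autoImplicit false

open Complex Set Topology Filter UpperHalfPlane MeasureTheory
open scoped ContDiff MatrixGroups ComplexConjugate

namespace Pool.Agent.Lib.H27

section main

variable {Γ : Subgroup SL(2, ℝ)} {d : Data Γ} (F : Fam d)

/-- the derivative constant -/
noncomputable def K1 : ℝ := 16 * C3 F / d.r

lemma K1_nonneg : 0 ≤ K1 F := by
  have := C3_nonneg F
  have := d.r_pos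
  unfold K1
  positivity

lemma Fb_deriv {b : ℍ} (hb : b ∈ d.D) {w : ℂ}
    (hw : w ∈ Metric.ball (b : ℂ) (3 * d.r / 8 * b.im)) :
    ‖deriv (Fb F b) w‖ ≤ K1 F / b.im := by
  have hr := d.r_pos
  have hb0 := b.im_pos
  have hR : 0 < d.r / 16 * b.im := by positivity
  have hsub : Metric.closedBall w (d.r / 16 * b.im) ⊆ Metric.ball (b : ℂ) (d.r / 2 * b.im) := by
    intro x hx
    rw [Metric.mem_closedBall] at hx
    rw [Metric.mem_ball] at hw ⊢
    have := dist_triangle x w b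
    nlinarith
  have h1 : DiffContOnCl ℂ (Fb F b) (Metric.ball w (d.r / 16 * b.im)) := by
    apply DifferentiableOn.diffContOnCl
    rw [closure_ball _ hR.ne']
    exact (Fb_diff F hb).mono hsub
  have h2 := Complex.norm_deriv_le_of_forall_mem_sphere_norm_le hR h1 (C := C3 F) (by
    intro z hz
    exact Fb_bound F hb (Metric.ball_subset_closedBall (hsub (Metric.sphere_subset_closedBall hz))))
  refine h2.trans (le_of_eq ?_)
  rw [K1]
  field_simp

lemma fs_near_eq {b : ℍ} (_hb : b ∈ d.D) {z : ℂ} (hz : z ∈ Metric.ball (b : ℂ) (d.r / 2 * b.im))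
    (hzb : z ≠ b) : fs F z = Fb F b z / zt b z ^ 26 := by
  have h1 := fs_eq F hzb
  have hr1 := d.r_le
  have hr := d.r_pos
  have hb0 := b.im_pos
  have him : 0 < z.im := by
    have h1 := (im_of_mem_closedBall (Metric.ball_subset_closedBall hz)).1
    have : 0 < (1 - d.r / 2) * b.im := mul_pos (by linarith) hb0
    linarith
  have h0 : zt b z ≠ 0 :=
    zt_ne_zero (a := b) (z := ⟨z, him⟩) (fun h => hzb (by rw [← h]))
  rw [← h1]
  field_simp

lemma fs_hasDerivAt {b : ℍ} (hb : b ∈ d.D) {z : ℍ}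
    (hz : (z : ℂ) ∈ Metric.ball (b : ℂ) (d.r / 2 * b.im)) (hzb : z ≠ b) :
    HasDerivAt (fs F) ((deriv (Fb F b) z * zt b z ^ 26 - Fb F b z *
      (26 * zt b z ^ 25 * (((b : ℂ) - (starRingEnd ℂ) (b : ℂ)) /
        ((z : ℂ) - (starRingEnd ℂ) (b : ℂ)) ^ 2))) / (zt b z ^ 26) ^ 2) z := by
  have hzb' : (z : ℂ) ≠ b := fun h => hzb (UpperHalfPlane.ext h)
  have h1 : HasDerivAt (Fb F b) (deriv (Fb F b) z) z :=
    ((Fb_diff F hb).differentiableAt (Metric.isOpen_ball.mem_nhds hz)).hasDerivAt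
  have h2 := (hasDerivAt_zt b z).fun_pow 26
  have h3 := h1.fun_div h2 (pow_ne_zero 26 (zt_ne_zero hzb))
  have h4 : (fun w => Fb F b w / zt b w ^ 26) =ᶠ[𝓝 (z : ℂ)] fs F := by
    filter_upwards [Metric.isOpen_ball.mem_nhds hz, isOpen_compl_singleton.mem_nhds hzb'] with w h5 h6
    exact (fs_near_eq F hb h5 h6).symm
  have h5 := h3.congr_of_eventuallyEq h4.symm
  refine h5.congr_deriv ?_
  norm_num

/-- the threshold radius -/
noncomputable def del : ℝ := 1 / (2 * K1 F + 2)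

/-- lower bound for the denominator -/
noncomputable def m0 : ℝ := min (1 / 4) ((del F / 3) ^ 52)

lemma del_pos : 0 < del F := by
  have := K1_nonneg F
  unfold del
  positivity

lemma m0_pos : 0 < m0 F := by
  have := del_pos F
  unfold m0
  positivity

lemma denom_lower {b : ℍ} (hb : b ∈ d.D) {z : ℍ}
    (hz : (z : ℂ) ∈ Metric.ball (b : ℂ) (3 * d.r / 8 * b.im)) :
    m0 F ≤ ‖zt b z‖ ^ 52 + ‖Fb F b z‖ ^ 2 := by
  have hr := d.r_pos
  have hr1 := d.r_le
  have hb0 := b.im_pos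
  have hK := K1_nonneg F
  have hδ := del_pos F
  rcases le_or_gt (del F * b.im) (dist (z : ℂ) b) with h | h
  · -- far from b
    have h1 : ‖(z : ℂ) - (starRingEnd ℂ) (b : ℂ)‖ ≤ 3 * b.im := by
      have h2 : (z : ℂ) - (starRingEnd ℂ) (b : ℂ) = (z - b) + (b - (starRingEnd ℂ) (b : ℂ)) := by
        ring
      have h3 : ‖(b : ℂ) - (starRingEnd ℂ) (b : ℂ)‖ = 2 * b.im := by
        rw [Complex.sub_conj]
        simp [abs_of_pos hb0]
      rw [h2]
      refine (norm_add_le _ _).trans ?_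
      rw [h3]
      have h4 : ‖(z : ℂ) - b‖ < 3 * d.r / 8 * b.im := by rwa [← dist_eq_norm]
      nlinarith
    have h0 : 0 < ‖(z : ℂ) - (starRingEnd ℂ) (b : ℂ)‖ := norm_pos_iff.mpr (sub_conj_ne b z)
    have h5 : del F / 3 ≤ ‖zt b z‖ := by
      rw [zt, norm_div, le_div_iff₀ h0]
      rw [dist_eq_norm] at h
      calc del F / 3 * ‖(z : ℂ) - (starRingEnd ℂ) (b : ℂ)‖ ≤ del F / 3 * (3 * b.im) :=
            mul_le_mul_of_nonneg_left h1 (by positivity)
        _ = del F * b.im := by ring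
        _ ≤ _ := h
    calc m0 F ≤ (del F / 3) ^ 52 := min_le_right _ _
      _ ≤ ‖zt b z‖ ^ 52 := pow_le_pow_left₀ (by positivity) h5 52
      _ ≤ _ := by linarith [sq_nonneg ‖Fb F b z‖]
  · -- close to b
    have h1 : ‖Fb F b z - Fb F b b‖ ≤ K1 F / b.im * ‖(z : ℂ) - b‖ := by
      apply Convex.norm_image_sub_le_of_norm_deriv_le
        (s := Metric.ball (b : ℂ) (3 * d.r / 8 * b.im)) _ _ (convex_ball _ _)
        (Metric.mem_ball_self (by positivity)) hz
      · intro x hx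
        exact (Fb_diff F hb).differentiableAt (Metric.isOpen_ball.mem_nhds
          (Metric.ball_subset_ball (by nlinarith) hx))
      · intro x hx
        exact Fb_deriv F hb hx
    have h2 : K1 F / b.im * ‖(z : ℂ) - b‖ ≤ 1 / 2 := by
      rw [dist_eq_norm] at h
      calc K1 F / b.im * ‖(z : ℂ) - b‖ ≤ K1 F / b.im * (del F * b.im) :=
            mul_le_mul_of_nonneg_left h.le (by positivity)
        _ = K1 F * del F := by field_simp
        _ ≤ 1 / 2 := by
            rw [del, mul_one_div, div_le_div_iff₀ (by positivity) (by norm_num)]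
            linarith
    have h3 : 1 / 2 ≤ ‖Fb F b z‖ := by
      have h4 := norm_sub_norm_le (Fb F b b) (Fb F b z)
      rw [Fb_at F hb, norm_sub_rev] at h4
      linarith
    calc m0 F ≤ 1 / 4 := min_le_left _ _
      _ ≤ ‖Fb F b z‖ ^ 2 := by nlinarith
      _ ≤ _ := by linarith [pow_nonneg (norm_nonneg (zt b z)) 52]

lemma near_bound {b : ℍ} (hb : b ∈ d.D) {z : ℍ}
    (hz : (z : ℂ) ∈ Metric.ball (b : ℂ) (3 * d.r / 8 * b.im)) (hzb : z ≠ b) :
    z.im * ‖deriv (fs F) z‖ / (1 + ‖fs F z‖ ^ 2) ≤ (2 * K1 F + 13 * C3 F) / m0 F := by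
  have hr := d.r_pos
  have hr1 := d.r_le
  have hb0 := b.im_pos
  have hz0 := z.im_pos
  have hK := K1_nonneg F
  have hC := C3_nonneg F
  have hz' : (z : ℂ) ∈ Metric.ball (b : ℂ) (d.r / 2 * b.im) :=
    Metric.ball_subset_ball (by nlinarith) hz
  have hzt0 : 0 < ‖zt b z‖ := norm_pos_iff.mpr (zt_ne_zero hzb)
  have hzt1 : ‖zt b z‖ ≤ 1 := (norm_zt_lt_one b z).le
  rw [(fs_hasDerivAt F hb hz' hzb).deriv, fs_near_eq F hb hz' (fun h => hzb (UpperHalfPlane.ext h))]
  have h1 := Fb_deriv F hb hz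
  have h2 := Fb_bound F hb (Metric.ball_subset_closedBall hz')
  have h3 := norm_deriv_zt b z
  have h4 := denom_lower F hb hz
  have hw1 := wg_le_one b z
  set D := ((b : ℂ) - (starRingEnd ℂ) (b : ℂ)) / ((z : ℂ) - (starRingEnd ℂ) (b : ℂ)) ^ 2 with hD
  set s := ‖zt b z‖ with hs
  set G := ‖Fb F b z‖ with hG
  have hzim : z.im ≤ 2 * b.im := by
    have := (im_of_mem_closedBall (Metric.ball_subset_closedBall hz)).2
    simp only [coe_im] at this
    nlinarith
  have e1 : ‖(deriv (Fb F b) z * zt b z ^ 26 - Fb F b z * (26 * zt b z ^ 25 * D)) /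
      (zt b z ^ 26) ^ 2‖ ≤ (‖deriv (Fb F b) z‖ * s ^ 26 + G * (26 * s ^ 25 * ‖D‖)) / s ^ 52 := by
    rw [norm_div, norm_pow, norm_pow, ← pow_mul]
    apply div_le_div_of_nonneg_right _ (by positivity)
    refine (norm_sub_le _ _).trans (le_of_eq ?_)
    rw [norm_mul, norm_pow, norm_mul, norm_mul, norm_mul, norm_pow]
    norm_num [hs, hG]
  have e2 : z.im * (‖deriv (Fb F b) z‖ * s ^ 26 + G * (26 * s ^ 25 * ‖D‖)) ≤
      2 * K1 F + 13 * C3 F := by
    have f1 : z.im * ‖deriv (Fb F b) z‖ ≤ 2 * K1 F := by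
      calc z.im * ‖deriv (Fb F b) z‖ ≤ (2 * b.im) * (K1 F / b.im) :=
            mul_le_mul hzim h1 (norm_nonneg _) (by positivity)
        _ = 2 * K1 F := by field_simp
    have f2 : s ^ 26 ≤ 1 := pow_le_one₀ hzt0.le hzt1
    have f3 : s ^ 25 ≤ 1 := pow_le_one₀ hzt0.le hzt1
    have f4 : z.im * ‖deriv (Fb F b) z‖ * s ^ 26 ≤ 2 * K1 F * 1 :=
      mul_le_mul f1 f2 (by positivity) (by positivity)
    have f5 : z.im * ‖D‖ ≤ 1 / 2 := by rw [h3]; linarith
    have f6 : G * 26 * s ^ 25 * (z.im * ‖D‖) ≤ C3 F * 26 * 1 * (1 / 2) := by gcongr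
    nlinarith
  have h5 : ‖Fb F b z / zt b z ^ 26‖ ^ 2 = G ^ 2 / s ^ 52 := by
    rw [norm_div, norm_pow, div_pow, ← pow_mul]
  rw [h5]
  have hm := m0_pos F
  have hden : 0 < s ^ 52 + G ^ 2 := by positivity
  calc z.im * ‖(deriv (Fb F b) z * zt b z ^ 26 - Fb F b z * (26 * zt b z ^ 25 * D)) /
      (zt b z ^ 26) ^ 2‖ / (1 + G ^ 2 / s ^ 52)
      ≤ z.im * ((‖deriv (Fb F b) z‖ * s ^ 26 + G * (26 * s ^ 25 * ‖D‖)) / s ^ 52) /
        (1 + G ^ 2 / s ^ 52) := by gcongr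
    _ = (z.im * (‖deriv (Fb F b) z‖ * s ^ 26 + G * (26 * s ^ 25 * ‖D‖))) / (s ^ 52 + G ^ 2) := by
        field_simp
    _ ≤ (2 * K1 F + 13 * C3 F) / (s ^ 52 + G ^ 2) := by gcongr
    _ ≤ (2 * K1 F + 13 * C3 F) / m0 F := by gcongr

lemma far_bound {z : ℍ} (hz : ∀ b ∈ d.D, 5 * d.r / 16 ≤ dist z b) :
    z.im * ‖deriv (fs F) z‖ / (1 + ‖fs F z‖ ^ 2) ≤ 4 * K1 F := by
  obtain ⟨h1, h2⟩ := fs_far F hz
  have hr := d.r_pos
  have hz0 := z.im_pos
  have hR : 0 < d.r / 64 * z.im := by positivity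
  have hsub : Metric.closedBall (z : ℂ) (d.r / 64 * z.im) ⊆
      Metric.ball (z : ℂ) (d.r / 32 * z.im) := Metric.closedBall_subset_ball (by nlinarith)
  have h3 : DiffContOnCl ℂ (fs F) (Metric.ball (z : ℂ) (d.r / 64 * z.im)) := by
    apply DifferentiableOn.diffContOnCl
    rw [closure_ball _ hR.ne']
    exact h1.mono hsub
  have h4 := Complex.norm_deriv_le_of_forall_mem_sphere_norm_le hR h3 (C := C3 F) (by
    intro w hw
    exact h2 w (hsub (Metric.sphere_subset_closedBall hw)))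
  calc z.im * ‖deriv (fs F) z‖ / (1 + ‖fs F z‖ ^ 2) ≤ z.im * ‖deriv (fs F) z‖ := by
        apply div_le_self (by positivity)
        linarith [sq_nonneg ‖fs F z‖]
    _ ≤ z.im * (C3 F / (d.r / 64 * z.im)) := by gcongr
    _ = 4 * K1 F := by
        rw [K1]
        field_simp
        ring

/-- The dichotomy. -/
lemma dichotomy (z : ℍ) : (∃ b ∈ d.D, (z : ℂ) ∈ Metric.ball (b : ℂ) (3 * d.r / 8 * b.im)) ∨
    ∀ b ∈ d.D, 5 * d.r / 16 ≤ dist z b := by
  by_cases h : ∃ b ∈ d.D, (z : ℂ) ∈ Metric.ball (b : ℂ) (3 * d.r / 8 * b.im)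
  · exact Or.inl h
  · right
    intro b hb
    apply far_dist d.r_pos d.r_le
    by_contra hcon
    exact h ⟨b, hb, not_le.mp hcon⟩

lemma fs_analytic {z : ℍ} (hz : z ∉ d.D) : AnalyticAt ℂ (fs F) z := by
  have hr := d.r_pos
  rcases dichotomy (d := d) z with ⟨b, hb, hzb⟩ | h
  · have hne : z ≠ b := fun h => hz (h ▸ hb)
    have hne' : (z : ℂ) ≠ b := fun h => hne (UpperHalfPlane.ext h)
    have hb0 := b.im_pos
    have hU : IsOpen (Metric.ball (b : ℂ) (d.r / 2 * b.im) \ {(b : ℂ)}) :=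
      Metric.isOpen_ball.sdiff isClosed_singleton
    have h1 : DifferentiableOn ℂ (fs F) (Metric.ball (b : ℂ) (d.r / 2 * b.im) \ {(b : ℂ)}) := by
      intro w hw
      have him : 0 < w.im := by
        have h1 := (im_of_mem_closedBall (Metric.ball_subset_closedBall hw.1)).1
        have : 0 < (1 - d.r / 2) * b.im := mul_pos (by linarith [d.r_le]) hb0
        linarith
      exact (fs_hasDerivAt F hb (z := ⟨w, him⟩) hw.1
        (fun h => hw.2 (by rw [← h]; rfl))).differentiableAt.differentiableWithinAt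
    exact h1.analyticAt (hU.mem_nhds
      ⟨Metric.ball_subset_ball (by nlinarith) hzb, hne'⟩)
  · have hz0 := z.im_pos
    exact (fs_far F h).1.analyticAt (Metric.isOpen_ball.mem_nhds
      (Metric.mem_ball_self (by positivity)))

lemma tendsto_zt_mul_fs {b : ℍ} (hb : b ∈ d.D) :
    Tendsto (fun z => zt b z ^ 26 * fs F z) (𝓝[≠] (b : ℂ)) (𝓝 (Fb F b b)) := by
  have hr := d.r_pos
  have hb0 := b.im_pos
  have h1 : ContinuousAt (Fb F b) b :=
    ((Fb_diff F hb).differentiableAt (Metric.isOpen_ball.mem_nhds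
      (Metric.mem_ball_self (by positivity)))).continuousAt
  refine (h1.tendsto.mono_left nhdsWithin_le_nhds).congr' ?_
  filter_upwards [self_mem_nhdsWithin] with w hw
  exact (fs_eq F hw).symm

lemma tendsto_zt_zero (b : ℍ) {c : ℂ} {h : ℂ → ℂ} (hh : Tendsto h (𝓝[≠] (b : ℂ)) (𝓝 c)) :
    Tendsto (fun z => zt b z ^ 26 * h z) (𝓝[≠] (b : ℂ)) (𝓝 0) := by
  have h1 : ContinuousAt (fun z => zt b z ^ 26) (b : ℂ) :=
    ((hasDerivAt_zt b b).continuousAt).pow 26
  have h2 := (h1.tendsto.mono_left nhdsWithin_le_nhds).mul hh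
  have h3 : zt b b = 0 := (zt_eq_zero_iff b b).mpr rfl
  simp only [h3] at h2
  simpa using h2

lemma not_mem_of_analytic {z : ℍ} (hz : AnalyticAt ℂ (fs F) z) : z ∉ d.D := by
  intro hD
  have h1 := tendsto_zt_mul_fs F hD
  have h2 := tendsto_zt_zero z (hz.continuousAt.tendsto.mono_left nhdsWithin_le_nhds)
  have h3 := tendsto_nhds_unique h1 h2
  have h4 := Fb_at F hD
  rw [h3] at h4
  simp at h4

lemma fs_inv {γ : SL(2, ℝ)} (hγ : γ ∈ Γ) (z : ℍ) : fs F ((γ • z : ℍ) : ℂ) = fs F z := by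
  set e : d.D ≃ d.D := ⟨fun a => ⟨γ • (a : ℍ), d.smul_mem γ hγ a a.2⟩,
    fun a => ⟨γ⁻¹ • (a : ℍ), d.smul_mem γ⁻¹ (Γ.inv_mem hγ) a a.2⟩,
    fun a => by simp, fun a => by simp⟩ with he
  rw [fs, fs, ← Equiv.tsum_eq e]
  congr 1
  funext a
  exact F.equi a a.2 γ hγ z

/-- **Existence of a normal automorphic function.** -/
theorem normal_of_fam {Γ : Subgroup SL(2, ℝ)} {d : Data Γ} (F : Fam d) : ∃ f : ℂ → ℂ, MeromorphicOn f {z : ℂ | 0 < z.im} ∧
    (∃ z w : UpperHalfPlane, AnalyticAt ℂ f (z : ℂ) ∧ AnalyticAt ℂ f (w : ℂ) ∧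
      f (z : ℂ) ≠ f (w : ℂ)) ∧
    (∀ g ∈ Γ, ∀ z : UpperHalfPlane, AnalyticAt ℂ f (z : ℂ) →
      AnalyticAt ℂ f ((g • z : UpperHalfPlane) : ℂ) →
      f ((g • z : UpperHalfPlane) : ℂ) = f (z : ℂ)) ∧
    ∃ M : ℝ, ∀ z : UpperHalfPlane, AnalyticAt ℂ f (z : ℂ) →
      z.im * ‖deriv f (z : ℂ)‖ / (1 + ‖f (z : ℂ)‖ ^ 2) ≤ M := by
  have hr := d.r_pos
  refine ⟨fs F, ?_, ?_, fun g hg z _ _ => fs_inv F hg z, ?_⟩
  · intro z hz
    by_cases hD : (⟨z, hz⟩ : ℍ) ∈ d.D
    · set b : ℍ := ⟨z, hz⟩ with hb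
      have hb0 := b.im_pos
      have hbz : (b : ℂ) = z := rfl
      rw [← hbz]
      have hmem : Metric.ball (b : ℂ) (d.r / 2 * b.im) ∈ 𝓝 (b : ℂ) :=
        Metric.ball_mem_nhds _ (by positivity)
      have h1 : AnalyticAt ℂ (Fb F b) b := (Fb_diff F hD).analyticAt hmem
      have h2 : AnalyticAt ℂ (zt b) b := by
        have : DifferentiableOn ℂ (zt b) uhp := fun w hw =>
          (zt_diff b hw).differentiableWithinAt
        exact this.analyticAt (isOpen_uhp.mem_nhds (coe_mem_uhp b))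
      have h3 : MeromorphicAt (fun w => Fb F b w / zt b w ^ 26) (b : ℂ) :=
        h1.meromorphicAt.fun_div (h2.meromorphicAt.fun_pow 26)
      refine h3.congr ?_
      filter_upwards [self_mem_nhdsWithin, nhdsWithin_le_nhds hmem] with w h4 h5
      exact (fs_near_eq F hD h5 h4).symm
    · exact (fs_analytic F hD).meromorphicAt
  · obtain ⟨b, hb⟩ := d.nonempty
    by_contra hcon
    push Not at hcon
    -- the function is constant off the net
    have hex : ∃ z₀ : ℍ, z₀ ∉ d.D := by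
      by_contra h
      push Not at h
      have hb0 := b.im_pos
      have h1 : (⟨b + (d.r / 4 * b.im : ℝ), by simp [hb0]⟩ : ℍ) ≠ b := by
        intro h2
        have h3 := congrArg UpperHalfPlane.coe h2
        have h4 : ((d.r / 4 * b.im : ℝ) : ℂ) = 0 := by
          have : (b : ℂ) + ((d.r / 4 * b.im : ℝ) : ℂ) = b := h3
          linear_combination this
        have h5 : (d.r / 4 * b.im : ℝ) = 0 := by exact_mod_cast h4
        have : 0 < d.r / 4 * b.im := by positivity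
        linarith
      have h2 := d.sep _ (h _) b hb h1
      have h3 := dist_of_mem_closedBall (c := d.r / 4) (a := b)
        (w := ⟨b + (d.r / 4 * b.im : ℝ), by simp [hb0]⟩) (by positivity)
        (by linarith [d.r_le]) (by
          change (b : ℂ) + ((d.r / 4 * b.im : ℝ) : ℂ) ∈ _
          rw [Metric.mem_closedBall, dist_eq_norm, add_sub_cancel_left, Complex.norm_real,
            Real.norm_of_nonneg (by positivity)])
      have h4 : d.r / 4 / (1 - d.r / 4) < d.r := by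
        rw [div_lt_iff₀ (by linarith [d.r_le])]
        nlinarith [d.r_le]
      linarith
    obtain ⟨z₀, hz₀⟩ := hex
    have hconst : ∀ w : ℍ, w ∉ d.D → fs F w = fs F z₀ := fun w hw =>
      hcon w z₀ (fs_analytic F hw) (fs_analytic F hz₀)
    have hb0 := b.im_pos
    have h1 : Tendsto (fs F) (𝓝[≠] (b : ℂ)) (𝓝 (fs F z₀)) := by
      apply tendsto_const_nhds.congr'
      filter_upwards [self_mem_nhdsWithin, nhdsWithin_le_nhds
        (Metric.ball_mem_nhds (b : ℂ) (show 0 < 3 * d.r / 4 * b.im by positivity))] with w h2 h3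
      obtain ⟨w', hw', rfl⟩ := ball_Om hb ⟨h3, h2⟩
      exact (hconst w' hw').symm
    have h2 := tendsto_zt_mul_fs F hb
    have h3 := tendsto_zt_zero b h1
    have h4 := tendsto_nhds_unique h2 h3
    have h5 := Fb_at F hb
    rw [h4] at h5
    simp at h5
  · refine ⟨(2 * K1 F + 13 * C3 F) / m0 F + 4 * K1 F, fun z hz => ?_⟩
    have hK := K1_nonneg F
    have hC := C3_nonneg F
    have hm := m0_pos F
    have hpos : 0 ≤ (2 * K1 F + 13 * C3 F) / m0 F := by positivity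
    rcases dichotomy (d := d) z with ⟨b, hb, hzb⟩ | h
    · have hne : z ≠ b := by
        rintro rfl
        exact not_mem_of_analytic F hz hb
      have := near_bound F hb hzb hne
      linarith
    · have := far_bound F h
      linarith

end main

theorem normal_of_data {Γ : Subgroup SL(2, ℝ)} (d : Data Γ) :
    ∃ f : ℂ → ℂ, MeromorphicOn f {z : ℂ | 0 < z.im} ∧
    (∃ z w : UpperHalfPlane, AnalyticAt ℂ f (z : ℂ) ∧ AnalyticAt ℂ f (w : ℂ) ∧
      f (z : ℂ) ≠ f (w : ℂ)) ∧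
    (∀ g ∈ Γ, ∀ z : UpperHalfPlane, AnalyticAt ℂ f (z : ℂ) →
      AnalyticAt ℂ f ((g • z : UpperHalfPlane) : ℂ) →
      f ((g • z : UpperHalfPlane) : ℂ) = f (z : ℂ)) ∧
    ∃ M : ℝ, ∀ z : UpperHalfPlane, AnalyticAt ℂ f (z : ℂ) →
      z.im * ‖deriv f (z : ℂ)‖ / (1 + ‖f (z : ℂ)‖ ^ 2) ≤ M := by
  obtain ⟨F⟩ := exists_fam d
  exact normal_of_fam F

end Pool.Agent.Lib.H27
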