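import Pool.Agent.Lib.H27.Weight

/-!
# Holomorphic functions with one prescribed pole
-/

set_option autoImplicit false

open Complex Set Topology Filter UpperHalfPlane MeasureTheory InnerProductSpace Laplacian
open scoped ContDiff MatrixGroups ComplexConjugate

namespace Pool.Agent.Lib.H27

section cutoff

lemma exists_cutoff_real {t : ℝ} (ht : 0 < t) : ∃ χ : ℝ → ℝ, ContDiff ℝ 2 χ ∧
    (∀ s ≤ t / 4, χ s = 1) ∧ (∀ s, t ≤ s → χ s = 0) ∧
    (∃ M : ℝ, 0 ≤ M ∧ ∀ s, |deriv χ s| ≤ M) ∧ (∀ s, s ∉ Icc (t / 4) t → deriv χ s = 0) := by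
  set χ : ℝ → ℝ := fun s => Real.smoothTransition ((t - s) / (t - t / 4)) with hχ
  have h34 : 0 < t - t / 4 := by linarith
  have hsmooth : ContDiff ℝ 2 χ :=
    (Real.smoothTransition.contDiff (n := 2)).comp (by fun_prop)
  have h1 : ∀ s ≤ t / 4, χ s = 1 := by
    intro s hs
    apply Real.smoothTransition.one_of_one_le
    rw [le_div_iff₀ h34]
    linarith
  have h2 : ∀ s, t ≤ s → χ s = 0 := by
    intro s hs
    apply Real.smoothTransition.zero_of_nonpos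
    apply div_nonpos_of_nonpos_of_nonneg _ h34.le
    linarith
  have h3 : ∀ s, s ∉ Icc (t / 4) t → deriv χ s = 0 := by
    intro s hs
    rw [mem_Icc, not_and_or, not_le, not_le] at hs
    rcases hs with hs | hs
    · have : χ =ᶠ[𝓝 s] fun _ => 1 := by
        filter_upwards [gt_mem_nhds hs] with u hu using h1 u hu.le
      rw [this.deriv_eq]; simp
    · have : χ =ᶠ[𝓝 s] fun _ => 0 := by
        filter_upwards [lt_mem_nhds hs] with u hu using h2 u hu.le
      rw [this.deriv_eq]; simp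
  obtain ⟨M, hM⟩ := (isCompact_Icc (a := t / 4) (b := t)).exists_bound_of_continuousOn
    (hsmooth.continuous_deriv (by norm_num)).continuousOn
  refine ⟨χ, hsmooth, h1, h2, ⟨|M|, abs_nonneg _, fun s => ?_⟩, h3⟩
  by_cases hs : s ∈ Icc (t / 4) t
  · exact (hM s hs).trans (le_abs_self M)
  · rw [h3 s hs]; simp

lemma norm_dzb_ofReal {F : ℂ → ℝ} {z : ℂ} {p q l : ℝ} (h : HD F z p q l) :
    ‖dzb (fun w => ((F w : ℝ) : ℂ)) z‖ ^ 2 = (p ^ 2 + q ^ 2) / 4 := by
  have h1 : HasFDerivAt (fun w => ((F w : ℝ) : ℂ)) (Complex.ofRealCLM.comp (fderiv ℝ F z)) z :=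
    Complex.ofRealCLM.hasFDerivAt.comp z (h.cd.differentiableAt (by norm_num)).hasFDerivAt
  rw [dzb, h1.fderiv]
  simp only [ContinuousLinearMap.comp_apply, Complex.ofRealCLM_apply, h.dx, h.dy]
  rw [Complex.sq_norm, Complex.normSq_apply]
  simp
  ring

lemma HD_u {a z : ℍ} (h : z ≠ a) : ∃ p q l : ℝ, HD (fun w => ‖zt a w‖ ^ 2) z p q l ∧
    z.im ^ 2 * (p ^ 2 + q ^ 2) = ‖zt a z‖ ^ 2 * wg a z ^ 2 := by
  obtain ⟨p, q, h1, h2⟩ := HD_log_zt h
  have h0 : 0 < ‖zt a z‖ := norm_pos_iff.mpr (zt_ne_zero h)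
  have h3 := h1.comp (F := Real.exp) (Real.contDiff_exp.contDiffAt) (by rw [Real.deriv_exp])
    (by rw [Real.deriv_exp, Real.deriv_exp])
  have hc : ContinuousAt (fun w => ‖zt a w‖ ^ 2) (z : ℂ) :=
    ((hasDerivAt_zt a z).continuousAt.norm).pow 2
  have h4 : (fun w => Real.exp (Real.log (‖zt a w‖ ^ 2))) =ᶠ[𝓝 (z : ℂ)]
      fun w => ‖zt a w‖ ^ 2 := by
    have hpos : ∀ᶠ w in 𝓝 (z : ℂ), 0 < ‖zt a w‖ ^ 2 :=
      hc.eventually_const_lt (show 0 < ‖zt a z‖ ^ 2 by positivity)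
    filter_upwards [hpos] with w hw
    exact Real.exp_log hw
  refine ⟨_, _, _, h3.congr h4, ?_⟩
  rw [Real.exp_log (by positivity)]
  rw [← h2]
  ring

lemma exists_G {t : ℝ} (ht : 0 < t) : ∃ M : ℝ, 0 ≤ M ∧ ∀ p : ℍ, ∃ G : ℂ → ℂ,
    (∀ z : ℍ, z ≠ p → ContDiffAt ℝ 2 G z) ∧
    (∀ z : ℍ, z ≠ p → z.im ^ 2 * ‖dzb G z‖ ^ 2 ≤ M) ∧
    (∀ z : ℍ, z ≠ p → ¬ (t / 4 ≤ ‖zt p z‖ ^ 2 ∧ ‖zt p z‖ ^ 2 ≤ t) → dzb G z = 0) ∧
    (∀ z : ℍ, t ≤ ‖zt p z‖ ^ 2 → G z = 0) ∧
    (∀ z : ℍ, ‖zt p z‖ ^ 2 ≤ t / 4 → G z = ((zt p z) ^ 26)⁻¹) := by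
  obtain ⟨χ, hχ, h1, h2, ⟨M, hM0, hM⟩, h3⟩ := exists_cutoff_real ht
  refine ⟨M ^ 2 / 4 * ((t / 4) ^ 26)⁻¹, by positivity, fun p => ?_⟩
  set G : ℂ → ℂ := fun w => ((χ (‖zt p w‖ ^ 2) : ℝ) : ℂ) * ((zt p w) ^ 26)⁻¹ with hG
  have key : ∀ z : ℍ, z ≠ p → ContDiffAt ℝ 2 G z ∧
      z.im ^ 2 * ‖dzb G z‖ ^ 2 = (deriv χ (‖zt p z‖ ^ 2)) ^ 2 / 4 * wg p z ^ 2 *
        ‖zt p z‖ ^ 2 * (‖zt p z‖ ^ 52)⁻¹ := by
    intro z hz
    obtain ⟨a, b, l, h4, h5⟩ := HD_u hz
    have h6 := h4.comp (F := χ) hχ.contDiffAt rfl rfl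
    have hz0 : zt p z ≠ 0 := zt_ne_zero hz
    have hd1 : DifferentiableAt ℝ (fun w => ((χ (‖zt p w‖ ^ 2) : ℝ) : ℂ)) (z : ℂ) :=
      Complex.ofRealCLM.differentiableAt.comp _ (h6.cd.differentiableAt (by norm_num))
    have hU : IsOpen {w : ℂ | w ∈ uhp ∧ w ≠ (p : ℂ)} := isOpen_uhp.inter isOpen_compl_singleton
    have hzt : DifferentiableOn ℂ (fun w => ((zt p w) ^ 26)⁻¹) {w : ℂ | w ∈ uhp ∧ w ≠ (p : ℂ)} := by
      intro w hw
      have h7 := hasDerivAt_zt p ⟨w, hw.1⟩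
      have h8 : zt p w ≠ 0 := by
        have := zt_ne_zero (a := p) (z := ⟨w, hw.1⟩) (fun h => hw.2 (by rw [← h]))
        exact this
      exact ((h7.differentiableAt.pow 26).inv (pow_ne_zero 26 h8)).differentiableWithinAt
    have hzU : (z : ℂ) ∈ {w : ℂ | w ∈ uhp ∧ w ≠ (p : ℂ)} :=
      ⟨coe_mem_uhp z, fun h => hz (UpperHalfPlane.ext h)⟩
    have hcd : ContDiffAt ℝ 2 (fun w => ((zt p w) ^ 26)⁻¹) (z : ℂ) :=
      ((hzt.analyticAt (hU.mem_nhds hzU)).restrictScalars).contDiffAt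
    have hd2 : DifferentiableAt ℂ (fun w => ((zt p w) ^ 26)⁻¹) (z : ℂ) :=
      hzt.differentiableAt (hU.mem_nhds hzU)
    refine ⟨(Complex.ofRealCLM.contDiff.contDiffAt.comp _ h6.cd).mul hcd, ?_⟩
    have hdzb : dzb (fun w => ((zt p w) ^ 26)⁻¹) (z : ℂ) = 0 :=
      (differentiableAt_iff_dzb (hd2.restrictScalars ℝ)).mp hd2
    rw [hG, dzb_mul hd1 (hd2.restrictScalars ℝ), hdzb, mul_zero, add_zero, norm_mul, mul_pow,
      norm_dzb_ofReal h6, norm_inv, norm_pow]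
    have e1 : (deriv χ (‖zt p z‖ ^ 2) * a) ^ 2 + (deriv χ (‖zt p z‖ ^ 2) * b) ^ 2
        = (deriv χ (‖zt p z‖ ^ 2)) ^ 2 * (a ^ 2 + b ^ 2) := by ring
    rw [e1]
    calc z.im ^ 2 * (deriv χ (‖zt p z‖ ^ 2) ^ 2 * (a ^ 2 + b ^ 2) / 4 * (‖zt p z‖ ^ 26)⁻¹ ^ 2)
        = deriv χ (‖zt p z‖ ^ 2) ^ 2 * (z.im ^ 2 * (a ^ 2 + b ^ 2)) / 4 *
            (‖zt p z‖ ^ 26)⁻¹ ^ 2 := by ring
      _ = _ := by
        rw [h5, inv_pow, ← pow_mul]
        ring
  refine ⟨G, fun z hz => (key z hz).1, fun z hz => ?_, fun z hz hz2 => ?_, fun z hz => ?_,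
    fun z hz => ?_⟩
  · rw [(key z hz).2]
    by_cases hcase : ‖zt p z‖ ^ 2 ∈ Icc (t / 4) t
    · have e1 : deriv χ (‖zt p z‖ ^ 2) ^ 2 ≤ M ^ 2 := by
        rw [← sq_abs]; exact pow_le_pow_left₀ (abs_nonneg _) (hM _) 2
      have e2 : wg p z ^ 2 ≤ 1 := pow_le_one₀ (wg_pos p z).le (wg_le_one p z)
      have e3 : ‖zt p z‖ ^ 2 ≤ 1 := pow_le_one₀ (norm_nonneg _) (norm_zt_lt_one p z).le
      have e4 : (‖zt p z‖ ^ 52)⁻¹ ≤ ((t / 4) ^ 26)⁻¹ := by
        apply inv_anti₀ (by positivity)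
        have : ‖zt p z‖ ^ 52 = (‖zt p z‖ ^ 2) ^ 26 := by rw [← pow_mul]
        rw [this]
        exact pow_le_pow_left₀ (by positivity) hcase.1 26
      calc deriv χ (‖zt p z‖ ^ 2) ^ 2 / 4 * wg p z ^ 2 * ‖zt p z‖ ^ 2 * (‖zt p z‖ ^ 52)⁻¹
          ≤ M ^ 2 / 4 * 1 * 1 * ((t / 4) ^ 26)⁻¹ := by gcongr
        _ = _ := by ring
    · rw [h3 _ hcase]
      have : 0 ≤ M ^ 2 / 4 * ((t / 4) ^ 26)⁻¹ := by positivity
      simpa using this
  · have h8 := (key z hz).2
    rw [h3 _ (by rw [mem_Icc]; exact hz2)] at h8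
    have h9 : z.im ^ 2 * ‖dzb G z‖ ^ 2 = 0 := by rw [h8]; ring
    have h10 := z.im_pos
    rcases mul_eq_zero.mp h9 with h | h
    · exact absurd h (by positivity)
    · exact norm_eq_zero.mp (pow_eq_zero_iff (by norm_num) |>.mp h)
  · simp only [hG, h2 _ hz]
    simp
  · simp only [hG, h1 _ hz]
    simp

end cutoff

section domain

variable {D : Set ℍ} {r : ℝ}

/-- The complement of the net, as a subset of the plane. -/
def Om (D : Set ℍ) : Set ℂ := UpperHalfPlane.coe '' Dᶜ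

lemma mem_Om {z : ℍ} : (z : ℂ) ∈ Om D ↔ z ∉ D := by
  constructor
  · rintro ⟨w, hw, hwz⟩ hz
    exact hw (UpperHalfPlane.ext hwz ▸ hz)
  · intro h
    exact ⟨z, h, rfl⟩

lemma Om_subset : Om D ⊆ uhp := by
  rintro _ ⟨w, _, rfl⟩
  exact coe_mem_uhp w

lemma isClosed_of_sep (hr : 0 < r) (hD : Sep D r) : IsClosed D :=
  Metric.isClosed_of_pairwise_le_dist hr fun p hp q hq hpq => hD p hp q hq hpq

lemma isOpen_Om (hr : 0 < r) (hD : Sep D r) : IsOpen (Om D) :=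
  isOpenEmbedding_coe.isOpenMap _ (isClosed_of_sep hr hD).isOpen_compl

end domain

section weight

variable {Γ : Subgroup SL(2, ℝ)}

lemma Data.sep' (d : Data Γ) : Sep d.D d.r := d.sep

/-- The weight function used to construct the function with a pole at `p`. -/
noncomputable def Phi (d : Data Γ) (p : ℍ) (z : ℂ) : ℝ :=
  20 * d.φ z + 25 * phi1 d.D z + 6 * Real.log (wg p z)

lemma Phi_HD (d : Data Γ) (p : ℍ) {z : ℍ} (hz : z ∉ d.D) :
    ContDiffAt ℝ 2 (Phi d p) z ∧ 4 * (1 / z.im ^ 2) ≤ Δ (Phi d p) (z : ℂ) := by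
  obtain ⟨a1, b1, l1, h1, h2, h3⟩ := phi1_HD d.r_pos d.sep' hz
  obtain ⟨a2, b2, h4⟩ := HD_log_wg p z
  have h5 : HD d.φ (z : ℂ) _ _ _ :=
    ⟨d.smooth.contDiffAt (isOpen_uhp.mem_nhds (coe_mem_uhp z)), rfl, rfl, rfl⟩
  have h6 := ((h5.const_mul 20).add (h1.const_mul 25)).add (h4.const_mul 6)
  have h7 : HD (Phi d p) z _ _ _ := h6
  refine ⟨h7.cd, ?_⟩
  rw [h7.lp]
  have hz0 := z.im_pos
  have hz2 : 0 < z.im ^ 2 := by positivity
  rw [mul_one_div, div_le_iff₀ hz2]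
  have e : (20 * Δ d.φ (z : ℂ) + 25 * l1 + 6 * -(1 / z.im ^ 2)) * z.im ^ 2
      = 20 * (z.im ^ 2 * Δ d.φ (z : ℂ)) + 25 * (z.im ^ 2 * l1) - 6 := by
    field_simp
    ring
  rw [e]
  have h8 := d.lap z
  rcases d.lap' z with h9 | ⟨q, hq, hzq⟩
  · linarith
  · have := h3 q hq hzq
    linarith

lemma zt_sq_le_iff {p z : ℍ} {s : ℝ} (hs : 0 ≤ s) :
    ‖zt p z‖ ^ 2 ≤ Real.tanh (s / 2) ^ 2 ↔ dist z p ≤ s := by
  have h0 : 0 ≤ Real.tanh (s / 2) := by
    have := tanh_mono' (x := 0) (y := s / 2) (by positivity)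
    simpa using this
  rw [norm_zt]
  have h1 : 0 ≤ Real.tanh (dist z p / 2) := by
    have := tanh_mono' (x := 0) (y := dist z p / 2) (by positivity)
    simpa using this
  rw [sq_le_sq₀ h1 h0]
  constructor
  · intro h
    by_contra hcon
    have := tanh_strictMono' (x := s / 2) (y := dist z p / 2) (by linarith)
    linarith
  · intro h
    exact tanh_mono' (by linarith)

lemma continuous_zt (p : ℍ) : Continuous (fun z : ℍ => zt p z) := by
  rw [continuous_iff_continuousAt]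
  intro z
  exact (hasDerivAt_zt p z).continuousAt.comp continuous_coe.continuousAt

/-- The threshold. -/
noncomputable def tt (r : ℝ) : ℝ := Real.tanh (r / 16 / 2) ^ 2

lemma tt_pos {r : ℝ} (hr : 0 < r) : 0 < tt r := by
  have := tanh_strictMono' (x := 0) (y := r / 16 / 2) (by positivity)
  rw [Real.tanh_zero] at this
  unfold tt
  positivity

lemma exp_tenth : Real.exp (1 / 10) ≤ 3 / 2 := by
  have h4 : Real.exp (1 / 10) ≤ 1 / (1 - 1 / 10) := by
    have := Real.one_sub_le_exp_neg (1 / 10)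
    rw [le_div_iff₀ (by norm_num)]
    calc Real.exp (1 / 10) * (1 - 1 / 10) ≤ Real.exp (1 / 10) * Real.exp (-(1 / 10)) :=
          mul_le_mul_of_nonneg_left this (Real.exp_pos _).le
      _ = 1 := by rw [← Real.exp_add]; simp
  linarith

theorem exists_correction (d : Data Γ) : ∃ C₂ : ℝ, 0 ≤ C₂ ∧ ∀ p ∈ d.D, ∃ G f : ℂ → ℂ,
    (∀ z : ℍ, z ≠ p → ContDiffAt ℝ 2 G z) ∧
    DifferentiableOn ℂ f (Om d.D) ∧
    IntegrableOn (fun z => ‖G z - f z‖ ^ 2 * Real.exp (-Phi d p z)) (Om d.D) ∧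
    ∫ z in Om d.D, ‖G z - f z‖ ^ 2 * Real.exp (-Phi d p z) ≤ C₂ * p.im ^ 2 ∧
    (∀ z : ℍ, d.r / 16 ≤ dist z p → G z = 0) ∧
    (∀ z : ℍ, ‖zt p z‖ ^ 2 ≤ tt d.r / 4 → G z = ((zt p z) ^ 26)⁻¹) := by
  obtain ⟨M, hM, hG⟩ := exists_G (tt_pos d.r_pos)
  have hr := d.r_pos
  have hr1 := d.r_le
  refine ⟨M * Real.exp (20 * d.C + 6) * Real.pi, by positivity, fun p hp => ?_⟩
  obtain ⟨G, h1, h2, h3, h4, h5⟩ := hG p
  set K' : Set ℍ := {z : ℍ | tt d.r / 4 ≤ ‖zt p z‖ ^ 2 ∧ ‖zt p z‖ ^ 2 ≤ tt d.r} with hK'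
  have hdist : ∀ z ∈ K', dist z p ≤ d.r / 16 := fun z hz =>
    (zt_sq_le_iff (by positivity)).mp hz.2
  have hnep : ∀ z ∈ K', z ≠ p := by
    rintro z hz rfl
    have h6 := hz.1
    have h7 : zt (z : ℂ) z = 0 := (zt_eq_zero_iff z z).mpr rfl
    rw [h7] at h6
    have := tt_pos hr
    simp at h6
    linarith
  have hKD : ∀ z ∈ K', z ∉ d.D := by
    intro z hz hzD
    have h6 := d.sep z hzD p hp (hnep z hz)
    have h7 := hdist z hz
    linarith
  have hK'c : IsCompact K' := by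
    apply (isCompact_closedBall p (d.r / 16)).of_isClosed_subset
    · have hc : Continuous (fun z : ℍ => ‖zt p z‖ ^ 2) := ((continuous_zt p).norm).pow 2
      exact (isClosed_le continuous_const hc).inter (isClosed_le hc continuous_const)
    · intro z hz
      exact hdist z hz
  set K : Set ℂ := UpperHalfPlane.coe '' K' with hK
  have hKc : IsCompact K := hK'c.image continuous_coe
  have hKΩ : K ⊆ Om d.D := by
    rintro _ ⟨z, hz, rfl⟩
    exact mem_Om.mpr (hKD z hz)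
  have hGon : ContDiffOn ℝ 2 G (Om d.D) := by
    rintro _ ⟨z, hz, rfl⟩
    exact (h1 z (fun h => hz (h ▸ hp))).contDiffWithinAt
  have hPhi : ContDiffOn ℝ 2 (Phi d p) (Om d.D) := by
    rintro _ ⟨z, hz, rfl⟩
    exact (Phi_HD d p hz).1.contDiffWithinAt
  obtain ⟨f, hf1, hf2, hf3⟩ := exists_holomorphic_correction (isOpen_Om hr d.sep') hPhi
    (κ := fun z => 1 / z.im ^ 2)
    (by
      apply ContinuousOn.div continuousOn_const (by fun_prop)
      intro z hz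
      have : 0 < z.im := Om_subset hz
      positivity)
    (fun z hz => by
      have : 0 < z.im := Om_subset hz
      positivity)
    (by
      rintro _ ⟨z, hz, rfl⟩
      exact (Phi_HD d p hz).2)
    hGon hKc hKΩ
    (by
      rintro _ ⟨z, hz, rfl⟩ hzK
      refine h3 z (fun h => hz (h ▸ hp)) (fun hcon => hzK ⟨z, hcon, rfl⟩))
  refine ⟨G, f, h1, hf1, hf2, ?_, ?_, h5⟩
  · refine hf3.trans ?_
    have hvol : (volume : Measure ℂ).real K ≤ Real.pi * p.im ^ 2 := by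
      have hsub : K ⊆ Metric.closedBall (p : ℂ) p.im := by
        rintro _ ⟨z, hz, rfl⟩
        rw [Metric.mem_closedBall]
        refine (dist_coe_le z p).trans ?_
        have h6 : Real.exp (dist z p) ≤ 3 / 2 :=
          (Real.exp_le_exp.mpr (by have := hdist z hz; linarith)).trans exp_tenth
        have := p.im_pos
        nlinarith
      have h7 : (volume : Measure ℂ).real (Metric.closedBall (p : ℂ) p.im)
          = Real.pi * p.im ^ 2 := by
        rw [Measure.real, Complex.volume_closedBall, ENNReal.toReal_mul, ENNReal.toReal_pow,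
          ENNReal.toReal_ofReal p.im_pos.le]
        simp
        ring
      rw [← h7]
      exact measureReal_mono hsub (by
        rw [Complex.volume_closedBall]
        exact ENNReal.mul_ne_top (by simp) (by simp))
    have hbound : ∀ z ∈ K, ‖‖dzb G z‖ ^ 2 / (1 / z.im ^ 2) * Real.exp (-Phi d p z)‖
        ≤ M * Real.exp (20 * d.C + 6) := by
      rintro _ ⟨z, hz, rfl⟩
      rw [Real.norm_of_nonneg (by positivity)]
      have e1 : ‖dzb G z‖ ^ 2 / (1 / (z : ℂ).im ^ 2) = z.im ^ 2 * ‖dzb G z‖ ^ 2 := by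
        rw [coe_im]
        field_simp
      rw [e1]
      have e2 := h2 z (hnep z hz)
      have e3 : Real.exp (-Phi d p z) ≤ Real.exp (20 * d.C + 6) := by
        apply Real.exp_le_exp.mpr
        have f1 := d.lower p hp z (by have := hdist z hz; linarith)
        have f2 := phi1_nonneg d.D z
        have f3 : -1 ≤ Real.log (wg p z) := by
          rw [Real.le_log_iff_exp_le (wg_pos p z)]
          refine le_trans ?_ (wg_ge_of_dist p z)
          apply Real.exp_le_exp.mpr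
          have := hdist z hz
          linarith
        rw [Phi]
        linarith
      gcongr
    have h8 := norm_setIntegral_le_of_norm_le_const
      (hKc.measure_lt_top (μ := (volume : Measure ℂ))) hbound
    have h9 := (le_abs_self _).trans h8
    refine h9.trans ?_
    calc M * Real.exp (20 * d.C + 6) * (volume : Measure ℂ).real K
        ≤ M * Real.exp (20 * d.C + 6) * (Real.pi * p.im ^ 2) :=
          mul_le_mul_of_nonneg_left hvol (by positivity)
      _ = _ := by ring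
  · intro z hz
    apply h4
    have h6 : ¬ (‖zt p z‖ ^ 2 < Real.tanh (d.r / 16 / 2) ^ 2) := by
      intro hlt
      have h7 : dist z p ≤ d.r / 16 := (zt_sq_le_iff (by positivity)).mp hlt.le
      have h8 : dist z p = d.r / 16 := le_antisymm h7 hz
      rw [norm_zt, h8] at hlt
      exact lt_irrefl _ hlt
    exact not_lt.mp h6

/-- The pointwise estimate away from the net. -/
lemma pointwise_bound (d : Data Γ) : ∃ C₁ : ℝ, 0 ≤ C₁ ∧ ∀ p ∈ d.D, ∀ G f : ℂ → ℂ,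
    DifferentiableOn ℂ f (Om d.D) →
    IntegrableOn (fun z => ‖G z - f z‖ ^ 2 * Real.exp (-Phi d p z)) (Om d.D) →
    (∀ z : ℍ, d.r / 16 ≤ dist z p → G z = 0) →
    ∀ z : ℍ, (∀ a ∈ d.D, d.r / 4 ≤ dist z a) →
      ‖f z‖ ^ 2 ≤ C₁ * (∫ z in Om d.D, ‖G z - f z‖ ^ 2 * Real.exp (-Phi d p z)) *
        (wg p z ^ 6 / z.im ^ 2) := by
  have hr := d.r_pos
  have hr1 := d.r_le
  set B := -Real.log (Real.tanh (d.r / 8 / 2) ^ 2) * (16 / 9) * netC hr with hB
  set c := d.r / 32 with hc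
  have hc0 : 0 < c := by positivity
  refine ⟨Real.exp (25 * B + 1) / (Real.pi * c ^ 2), by positivity, ?_⟩
  intro p hp G f hf hint hG z hz
  have hy := z.im_pos
  have hR : 0 < c * z.im := by positivity
  -- points of the ball
  have hpts : ∀ w ∈ Metric.closedBall (z : ℂ) (c * z.im), ∃ w' : ℍ, (w' : ℂ) = w ∧
      dist w' z ≤ d.r / 8 := by
    intro w hw
    have hw2 : w ∈ Metric.ball (z : ℂ) (2 * c * z.im) := by
      rw [Metric.mem_closedBall] at hw
      rw [Metric.mem_ball]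
      nlinarith
    have him : 0 < w.im := by
      have := im_of_mem_ball (by linarith) hw2
      linarith
    refine ⟨⟨w, him⟩, rfl, ?_⟩
    have := dist_of_mem_ball (w := ⟨w, him⟩) (by linarith) hw2
    rw [hc] at this
    linarith
  have hfar : ∀ w' : ℍ, dist w' z ≤ d.r / 8 → ∀ a ∈ d.D, d.r / 8 ≤ dist w' a := by
    intro w' hw' a ha
    have h1 := hz a ha
    have h2 := dist_triangle_left z a w'
    linarith
  have hsub : Metric.closedBall (z : ℂ) (c * z.im) ⊆ Om d.D := by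
    intro w hw
    obtain ⟨w', rfl, hw'⟩ := hpts w hw
    rw [mem_Om]
    intro hD
    have := hfar w' hw' w' hD
    simp at this
    linarith
  have hsub' : Metric.ball (z : ℂ) (c * z.im) ⊆ Om d.D :=
    Metric.ball_subset_closedBall.trans hsub
  have hfint : IntegrableOn (fun w => ‖f w‖ ^ 2) (Metric.ball (z : ℂ) (c * z.im)) := by
    apply IntegrableOn.mono_set _ Metric.ball_subset_closedBall
    apply ContinuousOn.integrableOn_compact (isCompact_closedBall _ _)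
    exact ((hf.mono hsub).continuousOn.norm).pow 2
  have h1 := area_mean hR (hf.mono hsub') hfint
  have h2 : ∀ w ∈ Metric.ball (z : ℂ) (c * z.im), ‖f w‖ ^ 2 ≤
      Real.exp (25 * B + 1) * wg p z ^ 6 * (‖G w - f w‖ ^ 2 * Real.exp (-Phi d p w)) := by
    intro w hw
    obtain ⟨w', rfl, hw'⟩ := hpts w (Metric.ball_subset_closedBall hw)
    have hGw : G w' = 0 := by
      apply hG
      have := hfar w' hw' p hp
      linarith
    rw [hGw, zero_sub, norm_neg]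
    have e1 : Real.exp (Phi d p w') ≤ Real.exp (25 * B + 1) * wg p z ^ 6 := by
      have f1 := d.nonpos w'
      have f2 := phi1_le hr d.sep' (by positivity : (0:ℝ) < d.r / 8) (hfar w' hw')
      have f3 := wg_harnack p w' z
      have f4 := wg_pos p w'
      have f5 : Real.exp (6 * Real.log (wg p w')) = wg p w' ^ 6 := by
        rw [show (6 : ℝ) = ((6 : ℕ) : ℝ) by norm_num, Real.exp_nat_mul, Real.exp_log f4]
      have f6 : Phi d p w' ≤ 25 * B + 6 * Real.log (wg p w') := by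
        rw [Phi]
        linarith
      refine (Real.exp_le_exp.mpr f6).trans ?_
      rw [Real.exp_add, f5, Real.exp_add, mul_assoc]
      apply mul_le_mul_of_nonneg_left _ (Real.exp_pos _).le
      calc wg p w' ^ 6 ≤ (Real.exp (dist w' z) * wg p z) ^ 6 := pow_le_pow_left₀ f4.le f3 6
        _ = Real.exp (dist w' z) ^ 6 * wg p z ^ 6 := by ring
        _ ≤ Real.exp 1 * wg p z ^ 6 := by
            apply mul_le_mul_of_nonneg_right _ (by positivity)
            rw [← Real.exp_nat_mul]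
            apply Real.exp_le_exp.mpr
            push_cast
            linarith
    calc ‖f w'‖ ^ 2 = ‖f w'‖ ^ 2 * (Real.exp (Phi d p w') * Real.exp (-Phi d p w')) := by
          rw [← Real.exp_add]; simp
      _ ≤ ‖f w'‖ ^ 2 * (Real.exp (25 * B + 1) * wg p z ^ 6 * Real.exp (-Phi d p w')) := by
          apply mul_le_mul_of_nonneg_left _ (by positivity)
          exact mul_le_mul_of_nonneg_right e1 (Real.exp_pos _).le
      _ = _ := by ring
  have h3 : ∫ w in Metric.ball (z : ℂ) (c * z.im), ‖f w‖ ^ 2 ≤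
      Real.exp (25 * B + 1) * wg p z ^ 6 *
        ∫ w in Om d.D, ‖G w - f w‖ ^ 2 * Real.exp (-Phi d p w) := by
    calc ∫ w in Metric.ball (z : ℂ) (c * z.im), ‖f w‖ ^ 2
        ≤ ∫ w in Metric.ball (z : ℂ) (c * z.im), Real.exp (25 * B + 1) * wg p z ^ 6 *
            (‖G w - f w‖ ^ 2 * Real.exp (-Phi d p w)) :=
          setIntegral_mono_on hfint ((hint.mono_set hsub').const_mul _) measurableSet_ball h2
      _ = Real.exp (25 * B + 1) * wg p z ^ 6 * ∫ w in Metric.ball (z : ℂ) (c * z.im),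
            (‖G w - f w‖ ^ 2 * Real.exp (-Phi d p w)) := integral_const_mul _ _
      _ ≤ _ := by
          apply mul_le_mul_of_nonneg_left _ (by positivity)
          apply setIntegral_mono_set hint
          · exact Eventually.of_forall fun w => by positivity
          · exact hsub'.eventuallyLE
  have h4 := h1.trans h3
  set I := ∫ w in Om d.D, ‖G w - f w‖ ^ 2 * Real.exp (-Phi d p w) with hI
  have h5 : ‖f z‖ ^ 2 ≤ (Real.exp (25 * B + 1) * wg p z ^ 6 * I) / (Real.pi * (c * z.im) ^ 2) := by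
    rw [le_div_iff₀ (by positivity)]
    linarith
  refine h5.trans (le_of_eq ?_)
  field_simp

lemma exists_rad (d : Data Γ) {b : ℍ} (hb : b ∈ d.D) : ∃ ρ : ℝ, 0 < ρ ∧
    ∀ w ∈ Metric.ball (b : ℂ) ρ, ∃ w' : ℍ, (w' : ℂ) = w ∧ dist w' b ≤ d.r / 8 ∧
      (w' ≠ b → w' ∉ d.D) ∧ ‖zt b w'‖ ^ 2 ≤ tt d.r / 4 := by
  have hr := d.r_pos
  have hr1 := d.r_le
  have h1 : ∀ᶠ w in 𝓝 (b : ℂ), ‖zt b w‖ ^ 2 < tt d.r / 4 := by
    have hc : ContinuousAt (fun w => ‖zt b w‖ ^ 2) (b : ℂ) :=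
      ((hasDerivAt_zt b b).continuousAt.norm).pow 2
    apply hc.eventually_lt_const
    have h0 : zt b b = 0 := (zt_eq_zero_iff b b).mpr rfl
    have := tt_pos hr
    simp only [h0]
    simp
    linarith
  obtain ⟨ε, hε, hball⟩ := Metric.eventually_nhds_iff.mp h1
  refine ⟨min ε (d.r / 16 * b.im), by have := b.im_pos; positivity, fun w hw => ?_⟩
  have hw1 : w ∈ Metric.ball (b : ℂ) (d.r / 16 * b.im) :=
    Metric.ball_subset_ball (min_le_right _ _) hw
  have him : 0 < w.im := by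
    have := im_of_mem_ball (by linarith) hw1
    have := b.im_pos
    linarith
  have hd := dist_of_mem_ball (w := ⟨w, him⟩) (by linarith) hw1
  refine ⟨⟨w, him⟩, rfl, by linarith, ?_, ?_⟩
  · intro hne hD
    have := d.sep _ hD b hb hne
    linarith
  · exact (hball (lt_of_lt_of_le hw (min_le_left _ _))).le

open scoped Classical in
/-- The limit at the points of the net. -/
lemma limit_at (d : Data Γ) {p b : ℍ} (hp : p ∈ d.D) (hb : b ∈ d.D) {G f : ℂ → ℂ}
    (hf : DifferentiableOn ℂ f (Om d.D))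
    (hint : IntegrableOn (fun z => ‖G z - f z‖ ^ 2 * Real.exp (-Phi d p z)) (Om d.D))
    (hG : ∀ z : ℍ, d.r / 16 ≤ dist z p → G z = 0)
    (hG2 : ∀ z : ℍ, ‖zt p z‖ ^ 2 ≤ tt d.r / 4 → G z = ((zt p z) ^ 26)⁻¹) :
    Tendsto (fun z => zt b z ^ 26 * f z) (𝓝[≠] (b : ℂ)) (𝓝 (if b = p then 1 else 0)) := by
  have hr := d.r_pos
  have hr1 := d.r_le
  obtain ⟨ρ, hρ, hball⟩ := exists_rad d hb
  have hsub : Metric.ball (b : ℂ) ρ \ {(b : ℂ)} ⊆ Om d.D := by
    rintro w ⟨hw, hwb⟩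
    obtain ⟨w', rfl, -, h2, -⟩ := hball w hw
    exact mem_Om.mpr (h2 (fun h => hwb (by rw [h]; rfl)))
  -- the value of G near b
  have hGval : ∀ w ∈ Metric.ball (b : ℂ) ρ \ {(b : ℂ)},
      G w = if b = p then ((zt b w) ^ 26)⁻¹ else 0 := by
    rintro w ⟨hw, hwb⟩
    obtain ⟨w', rfl, h1, -, h3⟩ := hball w hw
    split_ifs with hbp
    · subst hbp
      exact hG2 w' h3
    · apply hG
      have h4 := d.sep b hb p hp hbp
      have h5 := dist_triangle_left b p w'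
      linarith
  have hztd : ∀ w ∈ Metric.ball (b : ℂ) ρ, DifferentiableAt ℂ (zt b) w := by
    intro w hw
    obtain ⟨w', rfl, -⟩ := hball w hw
    exact (hasDerivAt_zt b w').differentiableAt
  have hzt0 : ∀ w ∈ Metric.ball (b : ℂ) ρ \ {(b : ℂ)}, zt b w ≠ 0 := by
    rintro w ⟨hw, hwb⟩
    obtain ⟨w', rfl, -⟩ := hball w hw
    exact zt_ne_zero (fun h => hwb (by rw [h]; rfl))
  have hGd : DifferentiableOn ℂ G (Metric.ball (b : ℂ) ρ \ {(b : ℂ)}) := by
    have h1 : DifferentiableOn ℂ (fun w => if b = p then ((zt b w) ^ 26)⁻¹ else 0)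
        (Metric.ball (b : ℂ) ρ \ {(b : ℂ)}) := by
      by_cases hbp : b = p
      · simp only [hbp, if_true]
        rw [hbp] at hztd hzt0
        intro w hw
        exact (((hztd w hw.1).pow 26).inv (pow_ne_zero 26 (hzt0 w hw))).differentiableWithinAt
      · simp only [hbp, if_false]
        exact differentiableOn_const _
    exact h1.congr hGval
  set v : ℂ → ℂ := fun w => zt b w ^ 25 * (G w - f w) with hv
  have hvd : DifferentiableOn ℂ v (Metric.ball (b : ℂ) ρ \ {(b : ℂ)}) := by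
    apply DifferentiableOn.mul
    · intro w hw
      exact ((hztd w hw.1).pow 25).differentiableWithinAt
    · exact hGd.sub (hf.mono hsub)
  set B := -Real.log (Real.tanh (d.r / 2 / 2) ^ 2) * (16 / 9) * netC hr with hB
  have hvint : IntegrableOn (fun w => ‖v w‖ ^ 2) (Metric.ball (b : ℂ) ρ \ {(b : ℂ)}) := by
    have hmeas : MeasurableSet (Metric.ball (b : ℂ) ρ \ {(b : ℂ)}) :=
      measurableSet_ball.diff (measurableSet_singleton _)
    refine Integrable.mono' ((hint.mono_set hsub).const_mul (Real.exp (25 * B))) ?_ ?_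
    · exact ((hvd.continuousOn.norm).pow 2).aestronglyMeasurable hmeas
    · rw [ae_restrict_iff' hmeas]
      refine Eventually.of_forall fun w hw => ?_
      obtain ⟨w', rfl, h1, h2, h3⟩ := hball w hw.1
      have hwb : w' ≠ b := fun h => hw.2 (by rw [h]; rfl)
      rw [Real.norm_of_nonneg (by positivity), hv]
      simp only [norm_mul, norm_pow, mul_pow]
      have e1 : (‖zt b w'‖ ^ 25) ^ 2 ≤ Real.exp (25 * B) * Real.exp (-Phi d p w') := by
        have f0 : 0 < ‖zt b w'‖ := norm_pos_iff.mpr (zt_ne_zero hwb)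
        have f1 := d.nonpos w'
        have f2 := phi1_le_near hr d.sep' hb hwb (by linarith)
        have f3 := gK_le hwb
        have f4 : Real.log (wg p w') ≤ 0 := Real.log_nonpos (wg_pos p w').le (wg_le_one p w')
        have f5 : Phi d p w' ≤ 25 * (-Real.log (‖zt b w'‖ ^ 2) + B) := by
          rw [Phi]
          linarith
        rw [← Real.exp_add]
        have f6 : (‖zt b w'‖ ^ 25) ^ 2 = Real.exp (25 * Real.log (‖zt b w'‖ ^ 2)) := by
          rw [show (25 : ℝ) = ((25 : ℕ) : ℝ) by norm_num, Real.exp_nat_mul,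
            Real.exp_log (by positivity)]
          ring
        rw [f6]
        apply Real.exp_le_exp.mpr
        linarith
      calc (‖zt b w'‖ ^ 25) ^ 2 * ‖G w' - f w'‖ ^ 2
          ≤ Real.exp (25 * B) * Real.exp (-Phi d p w') * ‖G w' - f w'‖ ^ 2 :=
            mul_le_mul_of_nonneg_right e1 (by positivity)
        _ = _ := by ring
  have hvint2 : IntegrableOn (fun w => ‖v w‖ ^ 2) (Metric.ball (b : ℂ) ρ) :=
    hvint.congr_set_ae (sdiff_null_ae_eq_self (by simp)).symm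
  have h6 := removable_L2 hρ hvd hvint2
  have hne : ∀ᶠ w in 𝓝[≠] (b : ℂ), w ∈ Metric.ball (b : ℂ) ρ \ {(b : ℂ)} := by
    filter_upwards [self_mem_nhdsWithin, nhdsWithin_le_nhds (Metric.ball_mem_nhds _ hρ)] with w h1 h2
    exact ⟨h2, h1⟩
  have h7 : Tendsto (fun z : ℂ => (z - (starRingEnd ℂ) (b : ℂ))⁻¹) (𝓝[≠] (b : ℂ))
      (𝓝 ((b : ℂ) - (starRingEnd ℂ) (b : ℂ))⁻¹) := by
    have : ContinuousAt (fun z : ℂ => (z - (starRingEnd ℂ) (b : ℂ))⁻¹) (b : ℂ) :=
      ContinuousAt.inv₀ (by fun_prop) (sub_conj_ne b b)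
    exact this.tendsto.mono_left nhdsWithin_le_nhds
  have h8 := h7.mul h6
  rw [mul_zero] at h8
  have h9 : Tendsto (fun z => (if b = p then (1 : ℂ) else 0) -
      (z - (starRingEnd ℂ) (b : ℂ))⁻¹ * ((z - b) * v z)) (𝓝[≠] (b : ℂ))
      (𝓝 ((if b = p then 1 else 0) - 0)) := tendsto_const_nhds.sub h8
  rw [sub_zero] at h9
  refine h9.congr' ?_
  filter_upwards [hne] with w hw
  have e1 : (w - (starRingEnd ℂ) (b : ℂ))⁻¹ * ((w - b) * v w) = zt b w ^ 26 * (G w - f w) := by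
    have e0 : zt b w = (w - (starRingEnd ℂ) (b : ℂ))⁻¹ * (w - b) := by
      rw [zt, div_eq_mul_inv, mul_comm]
    calc (w - (starRingEnd ℂ) (b : ℂ))⁻¹ * ((w - b) * (zt b w ^ 25 * (G w - f w)))
        = ((w - (starRingEnd ℂ) (b : ℂ))⁻¹ * (w - b)) * (zt b w ^ 25 * (G w - f w)) := by
          rw [mul_assoc]
      _ = zt b w * (zt b w ^ 25 * (G w - f w)) := by rw [← e0]
      _ = zt b w ^ 26 * (G w - f w) := by
          rw [← mul_assoc, ← pow_succ']
  rw [e1, hGval w hw]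
  have h0 := hzt0 w hw
  split_ifs with hbp
  · field_simp
    ring
  · ring

open scoped Classical in
/-- **The building blocks.** -/
theorem exists_pole_function (d : Data Γ) : ∃ C : ℝ, 0 ≤ C ∧ ∀ p ∈ d.D, ∃ f : ℂ → ℂ,
    DifferentiableOn ℂ f (Om d.D) ∧
    (∀ z : ℍ, (∀ a ∈ d.D, d.r / 4 ≤ dist z a) → ‖f z‖ ≤ C * wg p z ^ 2) ∧
    ∀ b ∈ d.D, Tendsto (fun z => zt b z ^ 26 * f z) (𝓝[≠] (b : ℂ))
      (𝓝 (if b = p then 1 else 0)) := by
  obtain ⟨C₂, hC₂, h1⟩ := exists_correction d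
  obtain ⟨C₁, hC₁, h2⟩ := pointwise_bound d
  refine ⟨√(C₁ * C₂ * 16), Real.sqrt_nonneg _, fun p hp => ?_⟩
  obtain ⟨G, f, -, hf, hint, hI, hG, hG2⟩ := h1 p hp
  refine ⟨f, hf, fun z hz => ?_, fun b hb => limit_at d hp hb hf hint hG hG2⟩
  have h3 := h2 p hp G f hf hint hG z hz
  have hw := wg_pos p z
  have hz0 := z.im_pos
  have hp0 := p.im_pos
  have h4 : ‖f z‖ ^ 2 ≤ C₁ * (C₂ * p.im ^ 2) * (wg p z ^ 6 / z.im ^ 2) := by
    refine h3.trans ?_
    apply mul_le_mul_of_nonneg_right _ (by positivity)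
    exact mul_le_mul_of_nonneg_left hI hC₁
  have h5 : (p.im / z.im) ^ 2 ≤ (4 / wg p z) ^ 2 :=
    pow_le_pow_left₀ (by positivity) (im_div_le p z) 2
  have h6 : C₁ * (C₂ * p.im ^ 2) * (wg p z ^ 6 / z.im ^ 2)
      = C₁ * C₂ * (p.im / z.im) ^ 2 * wg p z ^ 6 := by
    field_simp
  have h7 : ‖f z‖ ^ 2 ≤ (√(C₁ * C₂ * 16) * wg p z ^ 2) ^ 2 := by
    rw [mul_pow, Real.sq_sqrt (by positivity)]
    refine h4.trans ?_
    rw [h6]
    calc C₁ * C₂ * (p.im / z.im) ^ 2 * wg p z ^ 6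
        ≤ C₁ * C₂ * (4 / wg p z) ^ 2 * wg p z ^ 6 := by gcongr
      _ = _ := by
        field_simp
        ring
  exact (sq_le_sq₀ (norm_nonneg _) (by positivity)).mp h7

end weight

end Pool.Agent.Lib.H27
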