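import Pool.Agent.Lib.H27.Hormander

/-!
# Cauchy–Pompeiu formula and Weyl's lemma for `∂̄`
-/

set_option autoImplicit false

open MeasureTheory Complex Set Topology Filter
open scoped ContDiff Real

namespace Pool.Agent.Lib.H27

section CP

/-- `e^{iθ}` written with real trigonometric functions. -/
noncomputable def cis (θ : ℝ) : ℂ := (Real.cos θ : ℂ) + (Real.sin θ : ℂ) * I

lemma cis_conj_mul (θ : ℝ) : ((Real.cos θ : ℂ) - (Real.sin θ : ℂ) * I) * cis θ = 1 := by
  rw [cis]
  have h : (Real.cos θ : ℂ) ^ 2 + (Real.sin θ : ℂ) ^ 2 = 1 := by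
    rw [← Complex.ofReal_pow, ← Complex.ofReal_pow, ← Complex.ofReal_add,
      Real.cos_sq_add_sin_sq, Complex.ofReal_one]
  linear_combination h - (Real.sin θ : ℂ) ^ 2 * I_mul_I

lemma cis_inv (θ : ℝ) : (cis θ)⁻¹ = (Real.cos θ : ℂ) - (Real.sin θ : ℂ) * I :=
  inv_eq_of_eq_inv' (cis_conj_mul θ)
where
  inv_eq_of_eq_inv' {a b : ℂ} (h : b * a = 1) : a⁻¹ = b :=
    (eq_inv_of_mul_eq_one_left h).symm

lemma continuous_cis : Continuous cis := by
  unfold cis; fun_prop

lemma hasDerivAt_cis (θ : ℝ) : HasDerivAt cis (I * cis θ) θ := by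
  have h1 : HasDerivAt (fun t : ℝ => (Real.cos t : ℂ)) ((-Real.sin θ : ℝ) : ℂ) θ :=
    (Real.hasDerivAt_cos θ).ofReal_comp
  have h2 : HasDerivAt (fun t : ℝ => (Real.sin t : ℂ)) ((Real.cos θ : ℝ) : ℂ) θ :=
    (Real.hasDerivAt_sin θ).ofReal_comp
  have h3 := h1.fun_add (h2.mul_const I)
  have h4 : I * cis θ = ((-Real.sin θ : ℝ) : ℂ) + ((Real.cos θ : ℝ) : ℂ) * I := by
    rw [cis, Complex.ofReal_neg]
    linear_combination (Real.sin θ : ℂ) * I_mul_I
  rw [h4]
  exact h3

lemma norm_cis (θ : ℝ) : ‖cis θ‖ = 1 := by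
  rw [cis, Complex.norm_add_mul_I]
  simp

lemma fderiv_cis_smul (ψ : ℂ → ℂ) (z : ℂ) (θ : ℝ) :
    fderiv ℝ ψ z (cis θ) = (Real.cos θ : ℂ) * fderiv ℝ ψ z 1 + (Real.sin θ : ℂ) * fderiv ℝ ψ z I := by
  have : cis θ = Real.cos θ • (1 : ℂ) + Real.sin θ • I := by simp [cis]
  rw [this, map_add, map_smul, map_smul]
  simp

lemma fderiv_I_cis_smul (ψ : ℂ → ℂ) (z : ℂ) (θ : ℝ) :
    fderiv ℝ ψ z (I * cis θ)
      = -(Real.sin θ : ℂ) * fderiv ℝ ψ z 1 + (Real.cos θ : ℂ) * fderiv ℝ ψ z I := by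
  have : I * cis θ = (-Real.sin θ) • (1 : ℂ) + Real.cos θ • I := by
    simp only [cis, Complex.real_smul, Complex.ofReal_neg]
    linear_combination (Real.sin θ : ℂ) * I_mul_I
  rw [this, map_add, map_smul, map_smul]
  simp

lemma cp_pointwise (ψ : ℂ → ℂ) {r : ℝ} (hr : 0 < r) (θ : ℝ) :
    r • (((r : ℂ) * cis θ)⁻¹ * dzb ψ ((r : ℂ) * cis θ))
      = (1/2) * (fderiv ℝ ψ ((r : ℂ) * cis θ) (cis θ)
          + I * fderiv ℝ ψ ((r : ℂ) * cis θ) (I * cis θ)) := by
  rw [fderiv_cis_smul, fderiv_I_cis_smul, dzb, mul_inv, cis_inv, Complex.real_smul]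
  have hr' : (r : ℂ) ≠ 0 := by exact_mod_cast hr.ne'
  field_simp
  linear_combination (-(Real.sin θ : ℂ) * fderiv ℝ ψ ((r : ℂ) * cis θ) I) * I_mul_I

variable {ψ : ℂ → ℂ}

lemma radial_integral (hψ : ContDiff ℝ 1 ψ) (hs : HasCompactSupport ψ) (θ : ℝ) :
    ∫ r in Ioi (0:ℝ), fderiv ℝ ψ ((r : ℂ) * cis θ) (cis θ) = - ψ 0 := by
  have hd : ∀ r : ℝ, HasDerivAt (fun r : ℝ => ψ ((r : ℂ) * cis θ))
      (fderiv ℝ ψ ((r : ℂ) * cis θ) (cis θ)) r := by
    intro r
    have h1 : HasDerivAt (fun r : ℝ => (r : ℂ) * cis θ) (1 * cis θ) r :=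
      (Complex.ofRealCLM.hasDerivAt (x := r)).mul_const (cis θ)
    rw [one_mul] at h1
    exact ((hψ.differentiable (by norm_num) _).hasFDerivAt).comp_hasDerivAt r h1
  have hcont : Continuous (fun r : ℝ => fderiv ℝ ψ ((r : ℂ) * cis θ) (cis θ)) :=
    (cont_fderiv_apply hψ _).comp (by fun_prop)
  obtain ⟨R, hR⟩ : ∃ R : ℝ, ∀ z : ℂ, R < ‖z‖ → z ∉ tsupport ψ := by
    obtain ⟨R, hR⟩ := hs.isBounded.exists_norm_le
    exact ⟨R, fun z hz h => absurd (hR z h) (not_le.mpr hz)⟩
  have hzero : ∀ r : ℝ, |R| < r → (r : ℂ) * cis θ ∉ tsupport ψ := by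
    intro r hr
    apply hR
    rw [norm_mul, norm_cis, mul_one, Complex.norm_real]
    exact (le_abs_self R).trans_lt (hr.trans_le (le_abs_self r))
  have hsupp : HasCompactSupport (fun r : ℝ => fderiv ℝ ψ ((r : ℂ) * cis θ) (cis θ)) := by
    apply HasCompactSupport.of_support_subset_isCompact (isCompact_Icc (a := -|R|) (b := |R|))
    intro r hr
    by_contra hcon
    have h2 : |R| < |r| := by
      rw [mem_Icc, not_and_or, not_le, not_le] at hcon
      rcases hcon with h | h
      · exact lt_abs.mpr (Or.inr (by linarith))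
      · exact lt_abs.mpr (Or.inl h)
    have h3 : (r : ℂ) * cis θ ∉ tsupport ψ := by
      apply hR
      rw [norm_mul, norm_cis, mul_one, Complex.norm_real]
      exact (le_abs_self R).trans_lt h2
    have h4 : ψ =ᶠ[𝓝 ((r : ℂ) * cis θ)] fun _ => 0 := notMem_tsupport_iff_eventuallyEq.mp h3
    apply hr
    simp only
    rw [h4.fderiv_eq]
    simp
  have hint : IntegrableOn (fun r : ℝ => fderiv ℝ ψ ((r : ℂ) * cis θ) (cis θ)) (Ioi 0) :=
    (hcont.integrable_of_hasCompactSupport hsupp).integrableOn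
  have hlim : Tendsto (fun r : ℝ => ψ ((r : ℂ) * cis θ)) atTop (𝓝 0) := by
    apply tendsto_const_nhds.congr'
    filter_upwards [eventually_gt_atTop |R|] with r hr
    exact (image_eq_zero_of_notMem_tsupport (hzero r hr)).symm
  have := integral_Ioi_of_hasDerivAt_of_tendsto (f := fun r : ℝ => ψ ((r : ℂ) * cis θ)) (a := 0)
    (m := 0) ((hd 0).continuousAt.continuousWithinAt) (fun r _ => hd r) hint hlim
  rw [this]
  simp

lemma angular_integral (hψ : ContDiff ℝ 1 ψ) {r : ℝ} (hr : 0 < r) :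
    ∫ θ in Ioo (-π) π, fderiv ℝ ψ ((r : ℂ) * cis θ) (I * cis θ) = 0 := by
  have hd : ∀ θ : ℝ, HasDerivAt (fun θ : ℝ => ψ ((r : ℂ) * cis θ))
      ((r : ℂ) * fderiv ℝ ψ ((r : ℂ) * cis θ) (I * cis θ)) θ := by
    intro θ
    have h1 : HasDerivAt (fun θ : ℝ => (r : ℂ) * cis θ) ((r : ℂ) * (I * cis θ)) θ :=
      (hasDerivAt_cis θ).const_mul _
    have h2 := ((hψ.differentiable (by norm_num) ((r : ℂ) * cis θ)).hasFDerivAt).comp_hasDerivAt θ h1
    have h3 : (r : ℂ) * (I * cis θ) = r • (I * cis θ) := by rw [Complex.real_smul]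
    rw [h3, map_smul, Complex.real_smul] at h2
    exact h2
  have hcont : Continuous (fun θ : ℝ => (r : ℂ) * fderiv ℝ ψ ((r : ℂ) * cis θ) (I * cis θ)) := by
    have h1 : Continuous (fun θ : ℝ => fderiv ℝ ψ ((r : ℂ) * cis θ)) :=
      (hψ.continuous_fderiv (by norm_num)).comp (continuous_const.mul continuous_cis)
    exact continuous_const.mul (h1.clm_apply (continuous_const.mul continuous_cis))
  have h4 := intervalIntegral.integral_eq_sub_of_hasDerivAt (a := -π) (b := π)
    (f := fun θ : ℝ => ψ ((r : ℂ) * cis θ)) (fun θ _ => hd θ) (hcont.intervalIntegrable _ _)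
  have h5 : cis π = cis (-π) := by simp [cis]
  rw [h5, sub_self, intervalIntegral.integral_of_le (by linarith [Real.pi_pos]),
    integral_Ioc_eq_integral_Ioo, integral_const_mul] at h4
  exact (mul_eq_zero.mp h4).resolve_left (by exact_mod_cast hr.ne')

/-- The Cauchy–Pompeiu formula at the origin, for compactly supported functions. -/
theorem cauchy_pompeiu_zero (hψ : ContDiff ℝ 1 ψ) (hs : HasCompactSupport ψ) :
    ∫ z, z⁻¹ * dzb ψ z = - π * ψ 0 := by
  rw [← Complex.integral_comp_polarCoord_symm]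
  have hfd := hψ.continuous_fderiv (by norm_num : (1 : WithTop ℕ∞) ≠ 0)
  have hcA : Continuous (fun p : ℝ × ℝ => fderiv ℝ ψ ((p.1 : ℂ) * cis p.2) (cis p.2)) := by
    have h1 : Continuous (fun p : ℝ × ℝ => fderiv ℝ ψ ((p.1 : ℂ) * cis p.2)) :=
      hfd.comp ((Complex.continuous_ofReal.comp continuous_fst).mul
        (continuous_cis.comp continuous_snd))
    exact h1.clm_apply (continuous_cis.comp continuous_snd)
  have hcB : Continuous (fun p : ℝ × ℝ => fderiv ℝ ψ ((p.1 : ℂ) * cis p.2) (I * cis p.2)) := by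
    have h1 : Continuous (fun p : ℝ × ℝ => fderiv ℝ ψ ((p.1 : ℂ) * cis p.2)) :=
      hfd.comp ((Complex.continuous_ofReal.comp continuous_fst).mul
        (continuous_cis.comp continuous_snd))
    exact h1.clm_apply (continuous_const.mul (continuous_cis.comp continuous_snd))
  obtain ⟨R, hR⟩ : ∃ R : ℝ, ∀ z : ℂ, R < ‖z‖ → z ∉ tsupport ψ := by
    obtain ⟨R, hR⟩ := hs.isBounded.exists_norm_le
    exact ⟨R, fun z hz h => absurd (hR z h) (not_le.mpr hz)⟩
  have hzero : ∀ p : ℝ × ℝ, |R| < |p.1| → fderiv ℝ ψ ((p.1 : ℂ) * cis p.2) = 0 := by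
    intro p hp
    have h3 : (p.1 : ℂ) * cis p.2 ∉ tsupport ψ := by
      apply hR
      rw [norm_mul, norm_cis, mul_one, Complex.norm_real]
      exact (le_abs_self R).trans_lt hp
    have h4 : ψ =ᶠ[𝓝 ((p.1 : ℂ) * cis p.2)] fun _ => 0 := notMem_tsupport_iff_eventuallyEq.mp h3
    rw [h4.fderiv_eq]
    simp
  have hT : Complex.polarCoord.target = Ioi (0:ℝ) ×ˢ Ioo (-π) π := rfl
  have hT' : _root_.polarCoord.target = Ioi (0:ℝ) ×ˢ Ioo (-π) π := rfl
  have hint : ∀ F : ℝ × ℝ → ℂ, Continuous F → (∀ p : ℝ × ℝ, |R| < |p.1| → F p = 0) →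
      IntegrableOn F (Ioi (0:ℝ) ×ˢ Ioo (-π) π) (volume.prod volume) := by
    intro F hF hF0
    have h1 : IntegrableOn F (Icc (-|R|) |R| ×ˢ Icc (-π) π) (volume.prod volume) :=
      hF.continuousOn.integrableOn_compact (isCompact_Icc.prod isCompact_Icc)
    have h2 : IntegrableOn F ((Ioi (0:ℝ) ×ˢ Ioo (-π) π) ∩ (Icc (-|R|) |R| ×ˢ Icc (-π) π))
        (volume.prod volume) := h1.mono_set inter_subset_right
    have hm : MeasurableSet (Icc (-|R|) |R| ×ˢ Icc (-π) π) := measurableSet_Icc.prod measurableSet_Icc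
    rw [← inter_union_sdiff (Ioi (0:ℝ) ×ˢ Ioo (-π) π) (Icc (-|R|) |R| ×ˢ Icc (-π) π)]
    apply h2.union
    apply (integrableOn_zero (s := (Ioi (0:ℝ) ×ˢ Ioo (-π) π) \ (Icc (-|R|) |R| ×ˢ Icc (-π) π))).congr_fun
    · intro p hp
      obtain ⟨hp1, hp2⟩ := hp
      rw [mem_prod] at hp1 hp2
      have h5 : p.1 ∉ Icc (-|R|) |R| := by
        intro h; exact hp2 ⟨h, Ioo_subset_Icc_self hp1.2⟩
      have h6 : |R| < |p.1| := by
        rw [mem_Icc, not_and_or, not_le, not_le] at h5
        rcases h5 with h | h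
        · exact lt_abs.mpr (Or.inr (by linarith))
        · exact lt_abs.mpr (Or.inl h)
      exact (hF0 p h6).symm
    · exact (measurableSet_Ioi.prod measurableSet_Ioo).diff hm
  have hiA := hint _ hcA (fun p hp => by rw [hzero p hp]; rfl)
  have hiB := hint _ hcB (fun p hp => by rw [hzero p hp]; rfl)
  have step1 : ∫ p in Ioi (0:ℝ) ×ˢ Ioo (-π) π,
      p.1 • ((Complex.polarCoord.symm p)⁻¹ * dzb ψ (Complex.polarCoord.symm p))
      = ∫ p in Ioi (0:ℝ) ×ˢ Ioo (-π) π, ((1/2) * fderiv ℝ ψ ((p.1 : ℂ) * cis p.2) (cis p.2)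
          + (I/2) * fderiv ℝ ψ ((p.1 : ℂ) * cis p.2) (I * cis p.2)) := by
    apply setIntegral_congr_fun (measurableSet_Ioi.prod measurableSet_Ioo)
    intro p hp
    have h1 : Complex.polarCoord.symm p = (p.1 : ℂ) * cis p.2 := by
      rw [Complex.polarCoord_symm_apply, cis]
    simp only
    rw [h1, cp_pointwise ψ hp.1]
    ring
  rw [hT', step1, Measure.volume_eq_prod, integral_add (hiA.const_mul _) (hiB.const_mul _),
    integral_const_mul, integral_const_mul]
  have hA : ∫ p in Ioi (0:ℝ) ×ˢ Ioo (-π) π, fderiv ℝ ψ ((p.1 : ℂ) * cis p.2) (cis p.2)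
      ∂(volume.prod volume) = - (2 * π) * ψ 0 := by
    rw [← setIntegral_prod_swap]
    have h7 := setIntegral_prod _ hiA.swap
    simp only [Function.comp, Prod.swap, radial_integral hψ hs] at h7
    simp only [Prod.swap]
    rw [h7, setIntegral_const]
    have h8 : volume.real (Ioo (-π) π) = 2 * π := by
      rw [Real.volume_real_Ioo_of_le (by linarith [Real.pi_pos])]; ring
    rw [h8, Complex.real_smul]
    push_cast
    ring
  have hB : ∫ p in Ioi (0:ℝ) ×ˢ Ioo (-π) π, fderiv ℝ ψ ((p.1 : ℂ) * cis p.2) (I * cis p.2)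
      ∂(volume.prod volume) = 0 := by
    rw [setIntegral_prod _ hiB]
    have : ∀ r ∈ Ioi (0:ℝ), ∫ θ in Ioo (-π) π, fderiv ℝ ψ ((r : ℂ) * cis θ) (I * cis θ) = 0 :=
      fun r hr => angular_integral hψ hr
    rw [setIntegral_congr_fun measurableSet_Ioi this]
    simp
  rw [hA, hB]
  ring

end CP

section CauchyTransform

variable {ψ : ℂ → ℂ}

lemma fderiv_shift (ψ : ℂ → ℂ) (z t : ℂ) :
    fderiv ℝ (fun s => ψ (s + z)) t = fderiv ℝ ψ (t + z) := fderiv_comp_add_right z

lemma dzb_shift (ψ : ℂ → ℂ) (z t : ℂ) : dzb (fun s => ψ (s + z)) t = dzb ψ (t + z) := by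
  simp only [dzb, fderiv_shift]

/-- The Cauchy–Pompeiu formula for compactly supported functions. -/
theorem cauchy_pompeiu (hψ : ContDiff ℝ 1 ψ) (hs : HasCompactSupport ψ) (z : ℂ) :
    ∫ t, (t - z)⁻¹ * dzb ψ t = - π * ψ z := by
  have h1 : ContDiff ℝ 1 (fun s => ψ (s + z)) := hψ.comp (contDiff_id.add contDiff_const)
  have h2 : HasCompactSupport (fun s => ψ (s + z)) :=
    hs.comp_homeomorph (Homeomorph.addRight z)
  have h3 := cauchy_pompeiu_zero h1 h2
  simp only [dzb_shift, zero_add] at h3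
  rw [← h3, ← integral_add_right_eq_self _ z]
  simp

lemma locallyIntegrable_inv : LocallyIntegrable (fun t : ℂ => t⁻¹) volume := by
  refine locallyIntegrable_of_norm_le_rpow (C := 1) (α := 1) (by simp) (by simp)
    (Eventually.of_forall fun x => ?_) measurable_inv.aestronglyMeasurable
  rw [norm_inv, Real.rpow_neg (norm_nonneg _), Real.rpow_one, one_mul]

/-- The (unnormalized) Cauchy transform of a test function. -/
noncomputable def cauchyT (ψ : ℂ → ℂ) (w : ℂ) : ℂ := ∫ t : ℂ, t⁻¹ * ψ (w - t)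

lemma cauchyT_eq (ψ : ℂ → ℂ) :
    cauchyT ψ = convolution (fun t : ℂ => t⁻¹) ψ (ContinuousLinearMap.mul ℝ ℂ) volume := by
  funext w
  rfl

lemma cauchyT_eq' (ψ : ℂ → ℂ) (w : ℂ) : cauchyT ψ w = ∫ z : ℂ, (w - z)⁻¹ * ψ z := by
  rw [cauchyT, ← integral_sub_left_eq_self _ volume w]
  simp

lemma contDiff_cauchyT (hψ : ContDiff ℝ 2 ψ) (hs : HasCompactSupport ψ) :
    ContDiff ℝ 2 (cauchyT ψ) := by
  rw [cauchyT_eq]
  exact hs.contDiff_convolution_right (n := 2) _ locallyIntegrable_inv hψ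

lemma fderiv_cauchyT (hψ : ContDiff ℝ 1 ψ) (hs : HasCompactSupport ψ) (w v : ℂ) :
    fderiv ℝ (cauchyT ψ) w v = ∫ t : ℂ, t⁻¹ * fderiv ℝ ψ (w - t) v := by
  rw [cauchyT_eq, (hs.hasFDerivAt_convolution_right _ locallyIntegrable_inv hψ w).fderiv,
    convolution_precompR_apply _ locallyIntegrable_inv (hs.fderiv ℝ)
      (hψ.continuous_fderiv (by norm_num))]
  rfl

lemma integrable_inv_mul {g : ℂ → ℂ} (hg : Continuous g) (hs : HasCompactSupport g) :
    Integrable (fun t : ℂ => t⁻¹ * g t) := by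
  have h : Integrable (fun t : ℂ => g t • t⁻¹) :=
    locallyIntegrable_inv.integrable_smul_left_of_hasCompactSupport hg hs
  exact h.congr (Eventually.of_forall fun t => by simp [mul_comm])

lemma dzb_cauchyT (hψ : ContDiff ℝ 1 ψ) (hs : HasCompactSupport ψ) (w : ℂ) :
    dzb (cauchyT ψ) w = π * ψ w := by
  have hsh : ∀ v : ℂ, Integrable (fun t : ℂ => t⁻¹ * fderiv ℝ ψ (w - t) v) := by
    intro v
    apply integrable_inv_mul (g := fun t => fderiv ℝ ψ (w - t) v)
    · exact (cont_fderiv_apply hψ v).comp (continuous_const.sub continuous_id)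
    · exact (hs.fderiv_apply (𝕜 := ℝ) v).comp_homeomorph (Homeomorph.subLeft w)
  have h1 : dzb (cauchyT ψ) w = ∫ t : ℂ, t⁻¹ * dzb ψ (w - t) := by
    rw [dzb, fderiv_cauchyT hψ hs, fderiv_cauchyT hψ hs, ← integral_const_mul,
      ← integral_add (hsh 1) ((hsh I).const_mul I), ← integral_const_mul]
    congr 1
    funext t
    rw [dzb]
    ring
  have h2 := cauchy_pompeiu hψ hs w
  rw [h1]
  have h3 : ∫ t : ℂ, t⁻¹ * dzb ψ (w - t) = ∫ t : ℂ, (w - t)⁻¹ * dzb ψ t := by
    rw [← integral_sub_left_eq_self _ volume w]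
    simp
  rw [h3]
  have h4 : ∫ t : ℂ, (w - t)⁻¹ * dzb ψ t = - ∫ t : ℂ, (t - w)⁻¹ * dzb ψ t := by
    rw [← integral_neg]
    congr 1
    funext t
    rw [← neg_sub t w, inv_neg]
    ring
  rw [h4, h2]
  ring

end CauchyTransform

section Weyl

open Metric

lemma integrable_mul_of_support {v q : ℂ → ℂ} {K : Set ℂ} (hK : IsCompact K)
    (hv : IntegrableOn v K) (hq : Continuous q) (hqK : ∀ w, q w ≠ 0 → w ∈ K) :
    Integrable (fun w => v w * q w) := by
  have hs : HasCompactSupport q := HasCompactSupport.of_support_subset_isCompact hK hqK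
  obtain ⟨C, hC⟩ := hq.bounded_above_of_compact_support hs
  have h1 : Integrable (K.indicator v) := hv.integrable_indicator hK.measurableSet
  have h2 := h1.mul_bdd (c := C) hq.aestronglyMeasurable (Eventually.of_forall hC)
  refine h2.congr (Eventually.of_forall fun w => ?_)
  simp only
  by_cases hw : q w = 0
  · rw [hw]; simp
  · rw [indicator_of_mem (hqK w hw)]

/-- Local form of Weyl's lemma for `∂̄`. -/
lemma weyl_local {Ω : Set ℂ} {v : ℂ → ℂ} (hv : LocallyIntegrableOn v Ω)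
    (h : ∀ β, Test Ω β → ∫ z, v z * dzb β z = 0) {z₀ : ℂ} {r : ℝ} (hr : 0 < r)
    (hball : ball z₀ (3 * r) ⊆ Ω) :
    ∃ f : ℂ → ℂ, DifferentiableOn ℂ f (ball z₀ r) ∧ ∀ᵐ z, z ∈ ball z₀ r → v z = f z := by
  obtain ⟨χ, hχ, hχ1, hχc, hχs, hχI⟩ := exists_cutoff_compact (isCompact_closedBall z₀ (2 * r))
    (isOpen_ball (x := z₀) (ε := 3 * r)) (closedBall_subset_ball (by linarith))
  set χc : ℂ → ℂ := fun z => (χ z : ℂ) with hχcdef
  have hχcd : ContDiff ℝ 2 χc :=
    Complex.ofRealCLM.contDiff.comp (contDiff_infty.mp hχ 2)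
  have hχcs : HasCompactSupport χc := hχc.comp_left (g := fun x : ℝ => (x : ℂ)) (by simp)
  have hχcsupp : tsupport χc ⊆ tsupport χ := by
    apply closure_mono
    intro z hz hz'
    exact hz (by simp [hχcdef, hz'])
  set m : ℂ → ℂ := dzb χc with hm
  have hmcont : Continuous m := (contDiff_dzb hχcd).continuous
  have hms : HasCompactSupport m := hasCompactSupport_dzb hχcs
  have hm0 : ∀ w, dist w z₀ < 2 * r → m w = 0 := by
    intro w hw
    have h1 : ∀ᶠ x in 𝓝 w, χ x = 1 :=
      (eventually_nhdsSet_iff_forall.mp hχ1) w (ball_subset_closedBall hw)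
    have h2 : χc =ᶠ[𝓝 w] fun _ => 1 := by
      filter_upwards [h1] with x hx; simp [hχcdef, hx]
    rw [hm, dzb_congr h2, dzb]
    simp
  have hmsupp : ∀ w, m w ≠ 0 → w ∈ tsupport χ := by
    intro w hw
    by_contra hcon
    exact hw (dzb_eq_zero_of_notMem (fun hc => hcon (hχcsupp hc)))
  have hvK : IntegrableOn v (tsupport χ) :=
    hv.integrableOn_compact_subset (hχs.trans hball) hχc
  -- the function `v * m`
  have hF : Integrable (fun w => v w * m w) := integrable_mul_of_support hχc hvK hmcont hmsupp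
  have hdist : ∀ x ∈ ball z₀ r, ∀ w, m w ≠ 0 → r ≤ ‖x - w‖ := by
    intro x hx w hw
    have h1 : 2 * r ≤ dist w z₀ := by
      by_contra hcon
      exact hw (hm0 w (not_le.mp hcon))
    have h2 : dist x z₀ < r := hx
    have h3 := dist_triangle w x z₀
    rw [← dist_eq_norm, dist_comm x w]
    linarith
  set f : ℂ → ℂ := fun z => (π : ℂ)⁻¹ * ∫ w, (z - w)⁻¹ * (v w * m w) with hf
  have hdiff : DifferentiableOn ℂ f (ball z₀ r) := by
    intro z hz
    apply DifferentiableAt.differentiableWithinAt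
    apply DifferentiableAt.const_mul
    have hmeas : ∀ x : ℂ, AEStronglyMeasurable (fun w => (x - w)⁻¹ * (v w * m w)) volume := by
      intro x
      exact ((measurable_const.sub measurable_id).inv.aestronglyMeasurable).mul
        hF.aestronglyMeasurable
    have key := hasDerivAt_integral_of_dominated_loc_of_deriv_le (μ := (volume : Measure ℂ))
      (F := fun x w => (x - w)⁻¹ * (v w * m w))
      (F' := fun x w => (-((x - w) ^ 2)⁻¹) * (v w * m w))
      (x₀ := z) (s := ball z₀ r) (bound := fun w => (r ^ 2)⁻¹ * ‖v w * m w‖)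
      (isOpen_ball.mem_nhds hz) (Eventually.of_forall hmeas) ?_ ?_ ?_ ?_ ?_
    · exact key.2.differentiableAt
    · refine (hF.norm.const_mul (r⁻¹)).mono' (hmeas z) (Eventually.of_forall fun w => ?_)
      rw [norm_mul]
      by_cases hw : m w = 0
      · simp [hw]
      · apply mul_le_mul_of_nonneg_right _ (norm_nonneg _)
        rw [norm_inv]
        exact inv_anti₀ hr (hdist z hz w hw)
    · exact (((measurable_const.sub measurable_id).pow_const 2).inv.neg.aestronglyMeasurable).mul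
        hF.aestronglyMeasurable
    · apply Eventually.of_forall
      intro w x hx
      rw [norm_mul]
      by_cases hw : m w = 0
      · simp [hw]
      · apply mul_le_mul_of_nonneg_right _ (norm_nonneg _)
        rw [norm_neg, norm_inv, norm_pow]
        exact inv_anti₀ (by positivity) (pow_le_pow_left₀ hr.le (hdist x hx w hw) 2)
    · exact hF.norm.const_mul _
    · apply Eventually.of_forall
      intro w x hx
      by_cases hw : m w = 0
      · simp only [hw, mul_zero]
        exact hasDerivAt_const x 0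
      · apply HasDerivAt.mul_const
        have hne : x - w ≠ 0 := by
          intro h0
          have := hdist x hx w hw
          rw [h0, norm_zero] at this
          linarith
        have h1 : HasDerivAt (fun x : ℂ => x - w) 1 x := (hasDerivAt_id x).sub_const w
        have h2 := h1.fun_inv hne
        convert h2 using 1
        rw [neg_div, one_div]
  refine ⟨f, hdiff, ?_⟩
  have hsub : ball z₀ r ⊆ Ω := (ball_subset_ball (by linarith)).trans hball
  have hloc : LocallyIntegrableOn (fun z => v z - f z) (ball z₀ r) :=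
    (hv.mono_set hsub).sub (hdiff.continuousOn.locallyIntegrableOn measurableSet_ball)
  suffices hae : ∀ᵐ z, z ∈ ball z₀ r → (fun z => v z - f z) z = 0 by
    filter_upwards [hae] with z hz hz'
    exact sub_eq_zero.mp (hz hz')
  apply IsOpen.ae_eq_zero_of_integral_contDiff_smul_eq_zero isOpen_ball hloc
  intro g hg hgs hgt
  set ψ : ℂ → ℂ := fun z => (g z : ℂ) with hψ
  have hψd : ContDiff ℝ 2 ψ := Complex.ofRealCLM.contDiff.comp (contDiff_infty.mp hg 2)
  have hψs : HasCompactSupport ψ := hgs.comp_left (g := fun x : ℝ => (x : ℂ)) (by simp)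
  have hψsupp : ∀ z, ψ z ≠ 0 → z ∈ ball z₀ r := by
    intro z hz
    apply hgt
    apply subset_tsupport
    intro h0
    exact hz (by simp [hψ, h0])
  have hΨd : ContDiff ℝ 2 (cauchyT ψ) := contDiff_cauchyT hψd hψs
  have hβ : Test Ω (fun z => χc z * cauchyT ψ z) := by
    refine ⟨hχcd.mul hΨd, hχcs.mul_right, ?_⟩
    exact ((tsupport_mul_subset_left).trans hχcsupp).trans (hχs.trans hball)
  have hdzbβ : ∀ w, dzb (fun z => χc z * cauchyT ψ z) w = m w * cauchyT ψ w + π * ψ w := by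
    intro w
    rw [dzb_mul (hχcd.differentiable (by norm_num) w) (hΨd.differentiable (by norm_num) w),
      dzb_cauchyT (hψd.of_le (by norm_num)) hψs]
    by_cases hw : ψ w = 0
    · rw [hw]; simp [hm]
    · have h1 : w ∈ closedBall z₀ (2 * r) :=
        (ball_subset_closedBall.trans (closedBall_subset_closedBall (by linarith))) (hψsupp w hw)
      have h2 : χ w = 1 := hχ1.self_of_nhdsSet w h1
      have h3 : χc w = 1 := by simp [hχcdef, h2]
      rw [h3, one_mul]
  have h1 := h _ hβ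
  simp only [hdzbβ] at h1
  have hi1 : Integrable (fun w => v w * (m w * cauchyT ψ w)) :=
    integrable_mul_of_support hχc hvK (hmcont.mul hΨd.continuous)
      (fun w hw => hmsupp w (left_ne_zero_of_mul hw))
  have hi2 : Integrable (fun w => v w * ψ w) :=
    integrable_mul_of_support hχc hvK hψd.continuous (fun w hw => by
      have h1 : w ∈ closedBall z₀ (2 * r) :=
        (ball_subset_closedBall.trans (closedBall_subset_closedBall (by linarith))) (hψsupp w hw)
      have h2 : χ w = 1 := hχ1.self_of_nhdsSet w h1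
      exact subset_tsupport _ (by rw [Function.mem_support, h2]; norm_num))
  have e1 : (fun w => v w * (m w * cauchyT ψ w + π * ψ w))
      = fun w => v w * (m w * cauchyT ψ w) + π * (v w * ψ w) := by funext w; ring
  rw [e1, integral_add hi1 (hi2.const_mul _), integral_const_mul] at h1
  -- Fubini
  have hfub : ∫ w, v w * (m w * cauchyT ψ w) = - (π * ∫ z, ψ z * f z) := by
    have hker : Measurable (fun p : ℂ × ℂ =>
        if r ≤ ‖p.2 - p.1‖ then (p.1 - p.2)⁻¹ else (0:ℂ)) := by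
      apply Measurable.ite
      · exact measurableSet_le measurable_const (measurable_snd.sub measurable_fst).norm
      · exact (measurable_fst.sub measurable_snd).inv
      · exact measurable_const
    have hi3 : Integrable (fun p : ℂ × ℂ => (v p.1 * m p.1) * ψ p.2) (volume.prod volume) :=
      hF.mul_prod (hψd.continuous.integrable_of_hasCompactSupport hψs)
    have hi4 := hi3.mul_bdd (c := r⁻¹) hker.aestronglyMeasurable (Eventually.of_forall (by
      intro p
      split_ifs with hp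
      · rw [norm_inv, norm_sub_rev]
        exact inv_anti₀ hr hp
      · simp only [norm_zero]; positivity))
    have hi5 : Integrable (Function.uncurry fun w z => (v w * m w) * ((w - z)⁻¹ * ψ z))
        (volume.prod volume) := by
      refine hi4.congr (Eventually.of_forall fun p => ?_)
      simp only [Function.uncurry]
      by_cases h0 : m p.1 = 0
      · simp [h0]
      · by_cases h0' : ψ p.2 = 0
        · simp [h0']
        · rw [if_pos (hdist p.2 (hψsupp _ h0') p.1 h0)]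
          ring
    have h2 : ∫ w, v w * (m w * cauchyT ψ w)
        = ∫ w, ∫ z, (v w * m w) * ((w - z)⁻¹ * ψ z) := by
      congr 1
      funext w
      rw [cauchyT_eq', integral_const_mul]
      ring
    rw [h2, integral_integral_swap hi5, ← integral_const_mul, ← integral_neg]
    congr 1
    funext z
    have h3 : ∫ w, (v w * m w) * ((w - z)⁻¹ * ψ z)
        = (- ψ z) * ∫ w, (z - w)⁻¹ * (v w * m w) := by
      rw [← integral_const_mul]
      congr 1
      funext w
      rw [← neg_sub w z, inv_neg]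
      ring
    rw [h3, hf]
    have hπ : (π : ℂ) ≠ 0 := by exact_mod_cast Real.pi_ne_zero
    field_simp
  rw [hfub] at h1
  have hπ : (π : ℂ) ≠ 0 := by exact_mod_cast Real.pi_ne_zero
  have h4 : ∫ w, v w * ψ w = ∫ z, ψ z * f z := by
    have : (π : ℂ) * ((∫ w, v w * ψ w) - ∫ z, ψ z * f z) = 0 := by linear_combination h1
    exact sub_eq_zero.mp ((mul_eq_zero.mp this).resolve_left hπ)
  have hi6 : Integrable (fun z => ψ z * f z) := by
    have h5 : IntegrableOn f (tsupport g) :=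
      (hdiff.continuousOn.mono hgt).integrableOn_compact hgs
    have h6 := integrable_mul_of_support hgs h5 hψd.continuous (fun w hw => by
      apply subset_tsupport
      intro h0
      exact hw (by simp [hψ, h0]))
    exact h6.congr (Eventually.of_forall fun w => by simp only; ring)
  have h7 : ∫ z, g z • (v z - f z) = ∫ z, (v z * ψ z - ψ z * f z) := by
    congr 1
    funext z
    rw [Complex.real_smul]
    simp only [hψ]
    ring
  rw [h7, integral_sub hi2 hi6, h4, sub_self]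

/-- **Weyl's lemma** for `∂̄`. -/
theorem weyl {Ω : Set ℂ} (hΩ : IsOpen Ω) {v : ℂ → ℂ} (hv : LocallyIntegrableOn v Ω)
    (h : ∀ β, Test Ω β → ∫ z, v z * dzb β z = 0) :
    ∃ f : ℂ → ℂ, DifferentiableOn ℂ f Ω ∧ ∀ᵐ z, z ∈ Ω → v z = f z := by
  classical
  have hloc : ∀ z : Ω, ∃ (r : ℝ) (F : ℂ → ℂ), 0 < r ∧ DifferentiableOn ℂ F (ball (z : ℂ) r) ∧
      ∀ᵐ w, w ∈ ball (z : ℂ) r → v w = F w := by
    rintro ⟨z, hz⟩
    obtain ⟨R, hR, hRΩ⟩ := Metric.isOpen_iff.mp hΩ z hz
    obtain ⟨F, hF1, hF2⟩ := weyl_local hv h (z₀ := z) (r := R / 3) (by positivity)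
      (by rw [mul_div_cancel₀ R (by norm_num : (3:ℝ) ≠ 0)]; exact hRΩ)
    exact ⟨R / 3, F, by positivity, hF1, hF2⟩
  choose r F hr hF1 hF2 using hloc
  have hcons : ∀ (a b : Ω) (z : ℂ), z ∈ ball (a : ℂ) (r a) → z ∈ ball (b : ℂ) (r b) →
      F a z = F b z := by
    intro a b z hza hzb
    have hU : IsOpen (ball (a : ℂ) (r a) ∩ ball (b : ℂ) (r b)) := isOpen_ball.inter isOpen_ball
    have hae : F a =ᵐ[volume.restrict (ball (a : ℂ) (r a) ∩ ball (b : ℂ) (r b))] F b := by
      rw [Filter.EventuallyEq, ae_restrict_iff' hU.measurableSet]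
      filter_upwards [hF2 a, hF2 b] with w h1 h2 hw
      rw [← h1 hw.1, ← h2 hw.2]
    exact Measure.eqOn_open_of_ae_eq hae hU ((hF1 a).continuousOn.mono inter_subset_left)
      ((hF1 b).continuousOn.mono inter_subset_right) ⟨hza, hzb⟩
  let f : ℂ → ℂ := fun z => if hz : z ∈ Ω then F ⟨z, hz⟩ z else 0
  have hf : ∀ (a : Ω) (z : ℂ), z ∈ ball (a : ℂ) (r a) → z ∈ Ω → f z = F a z := by
    intro a z hza hz
    simp only [f, dif_pos hz]
    exact hcons ⟨z, hz⟩ a z (mem_ball_self (hr _)) hza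
  refine ⟨f, ?_, ?_⟩
  · intro z hz
    apply DifferentiableAt.differentiableWithinAt
    have h1 : f =ᶠ[𝓝 z] F ⟨z, hz⟩ := by
      filter_upwards [isOpen_ball.mem_nhds (mem_ball_self (hr ⟨z, hz⟩)), hΩ.mem_nhds hz] with w hw hw'
      exact hf ⟨z, hz⟩ w hw hw'
    exact ((hF1 ⟨z, hz⟩).differentiableAt
      (isOpen_ball.mem_nhds (mem_ball_self (hr ⟨z, hz⟩)))).congr_of_eventuallyEq h1
  · rw [ae_iff]
    have hset : {z | ¬ (z ∈ Ω → v z = f z)} = {z | z ∈ Ω ∧ v z ≠ f z} := by
      ext z; simp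
    rw [hset]
    apply measure_null_of_locally_null
    rintro x ⟨hx, -⟩
    refine ⟨{z | z ∈ Ω ∧ v z ≠ f z} ∩ ball x (r ⟨x, hx⟩), ?_, ?_⟩
    · exact inter_mem self_mem_nhdsWithin
        (mem_nhdsWithin_of_mem_nhds (isOpen_ball.mem_nhds (mem_ball_self (hr ⟨x, hx⟩))))
    · have h1 := hF2 ⟨x, hx⟩
      rw [ae_iff] at h1
      refine measure_mono_null ?_ h1
      rintro z ⟨⟨hz, hz'⟩, hzb⟩ hcon
      exact hz' ((hcon hzb).trans (hf ⟨x, hx⟩ z hzb hz).symm)

lemma continuousAt_dzb {G : ℂ → ℂ} {z : ℂ} (hG : ContDiffAt ℝ 2 G z) : ContinuousAt (dzb G) z := by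
  have h1 : ContDiffAt ℝ 1 (fderiv ℝ G) z := hG.fderiv_right (by norm_num)
  have h2 : ContinuousAt (fderiv ℝ G) z := h1.continuousAt
  unfold dzb
  exact continuousAt_const.mul ((h2.clm_apply continuousAt_const).add
    (continuousAt_const.mul (h2.clm_apply continuousAt_const)))

/-- Hörmander's theorem for plane domains, in the form used below: a function `G` which is smooth
on `Ω` and holomorphic off a compact set `K ⊆ Ω` can be corrected to a holomorphic function. -/
theorem exists_holomorphic_correction {Ω : Set ℂ} (hΩ : IsOpen Ω) {φ κ : ℂ → ℝ}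
    (hφ : ContDiffOn ℝ 2 φ Ω)
    (hκ : ContinuousOn κ Ω) (hκpos : ∀ z ∈ Ω, 0 < κ z)
    (hlap : ∀ z ∈ Ω, 4 * κ z ≤ Laplacian.laplacian φ z) {G : ℂ → ℂ}
    (hG : ContDiffOn ℝ 2 G Ω) {K : Set ℂ}
    (hK : IsCompact K) (hKΩ : K ⊆ Ω) (hGK : ∀ z ∈ Ω, z ∉ K → dzb G z = 0) :
    ∃ f : ℂ → ℂ, DifferentiableOn ℂ f Ω ∧
      IntegrableOn (fun z => ‖G z - f z‖ ^ 2 * Real.exp (- φ z)) Ω ∧
      ∫ z in Ω, ‖G z - f z‖ ^ 2 * Real.exp (- φ z)
        ≤ ∫ z in K, ‖dzb G z‖ ^ 2 / κ z * Real.exp (- φ z) := by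
  classical
  -- the datum
  set g : ℂ → ℂ := K.indicator (dzb G) with hg
  have hgΩ : ∀ z ∈ Ω, g z = dzb G z := by
    intro z hz
    by_cases hzK : z ∈ K
    · rw [hg, indicator_of_mem hzK]
    · rw [hg, indicator_of_notMem hzK, hGK z hz hzK]
  have hgK : ∀ z, z ∉ K → g z = 0 := fun z hz => indicator_of_notMem hz _
  have hgcont : Continuous g := by
    rw [continuous_iff_continuousAt]
    intro z
    by_cases hz : z ∈ Ω
    · have h1 : g =ᶠ[𝓝 z] dzb G := by
        filter_upwards [hΩ.mem_nhds hz] with w hw using hgΩ w hw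
      exact (continuousAt_dzb (hG.contDiffAt (hΩ.mem_nhds hz))).congr h1.symm
    · have hzK : z ∈ Kᶜ := fun h => hz (hKΩ h)
      have h1 : g =ᶠ[𝓝 z] fun _ => 0 := by
        filter_upwards [hK.isClosed.isOpen_compl.mem_nhds hzK] with w hw using hgK w hw
      exact continuousAt_const.congr h1.symm
  obtain ⟨u, hu1, hu2, hu3, hu4⟩ := weak_solution hΩ hφ hκ hκpos hlap hgcont hK hKΩ hgK
  have hGc : ContinuousOn G Ω := hG.continuousOn
  have hGloc : LocallyIntegrableOn G Ω := hGc.locallyIntegrableOn hΩ.measurableSet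
  have hint : ∀ (w : ℂ → ℂ), LocallyIntegrableOn w Ω → ∀ β, Test Ω β →
      Integrable (fun z => w z * dzb β z) := by
    intro w hw β hβ
    refine integrable_mul_of_support hβ.compact (hw.integrableOn_compact_subset hβ.supp hβ.compact)
      (contDiff_dzb hβ.contDiff).continuous ?_
    intro z hz
    by_contra hcon
    exact hz (dzb_eq_zero_of_notMem hcon)
  have hweakG : ∀ β, Test Ω β → ∫ z, G z * dzb β z = - ∫ z, g z * β z := by
    intro β hβ
    obtain ⟨G', hG', heq⟩ := exists_global hΩ hβ.compact hβ.supp (n := 2) hG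
    have h1 := ibp_dzb (hG'.of_le (by norm_num)) (hβ.contDiff.of_le (by norm_num)) hβ.compact
    have e1 : ∀ z, G z * dzb β z = G' z * dzb β z := by
      intro z
      by_cases hz : z ∈ tsupport β
      · rw [heq.self_of_nhdsSet z hz]
      · rw [dzb_eq_zero_of_notMem hz]; simp
    have e2 : ∀ z, g z * β z = dzb G' z * β z := by
      intro z
      by_cases hz : z ∈ tsupport β
      · have h2 : G' =ᶠ[𝓝 z] G := (eventually_nhdsSet_iff_forall.mp heq) z hz
        rw [hgΩ z (hβ.supp hz), dzb_congr h2]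
      · rw [image_eq_zero_of_notMem_tsupport hz]; simp
    simp only [e1, e2]
    exact h1
  obtain ⟨f, hf1, hf2⟩ := weyl hΩ (v := fun z => G z - u z) (hGloc.sub hu1) (by
    intro β hβ
    have e : ∀ z, (G z - u z) * dzb β z = G z * dzb β z - u z * dzb β z := fun z => by ring
    simp only [e]
    rw [integral_sub (hint G hGloc β hβ) (hint u hu1 β hβ), hweakG β hβ, hu4 β hβ, sub_self])
  have hae : ∀ᵐ z ∂(volume.restrict Ω), ‖G z - f z‖ ^ 2 * Real.exp (- φ z)
      = ‖u z‖ ^ 2 * Real.exp (- φ z) := by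
    rw [ae_restrict_iff' hΩ.measurableSet]
    filter_upwards [hf2] with z hz hzΩ
    rw [← hz hzΩ]
    simp
  refine ⟨f, hf1, ?_, ?_⟩
  · exact hu2.congr_fun_ae (hae.mono fun z hz => hz.symm)
  · rw [integral_congr_ae hae]
    refine hu3.trans (le_of_eq ?_)
    rw [← integral_indicator hK.measurableSet]
    congr 1
    funext z
    by_cases hz : z ∈ K
    · rw [indicator_of_mem hz, hg, indicator_of_mem hz]
    · rw [indicator_of_notMem hz, hgK z hz]
      simp

end Weyl

end Pool.Agent.Lib.H27
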